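import Mathlib

set_option autoImplicit false

namespace Pool.Agent.Helper689.CL

/-- The numerical radius of a bounded operator `T` on a real normed space `X`:
`sup { |f (T u)| : ‖u‖ = ‖f‖ = f u = 1 }`. -/
noncomputable def numRadius {X : Type*} [NormedAddCommGroup X] [NormedSpace ℝ X]
    (T : X →L[ℝ] X) : ℝ :=
  sSup {t : ℝ | ∃ (u : X) (f : X →L[ℝ] ℝ), ‖u‖ = 1 ∧ ‖f‖ = 1 ∧ f u = 1 ∧ t = |f (T u)|}

/-- The numerical index of `X`: `inf { v(T) : ‖T‖ = 1 }`. -/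
noncomputable def numIndex (X : Type*) [NormedAddCommGroup X] [NormedSpace ℝ X] : ℝ :=
  sInf {t : ℝ | ∃ T : X →L[ℝ] X, ‖T‖ = 1 ∧ t = numRadius T}

/-- The Banach-Mazur distance: `inf { ‖T‖ ‖T⁻¹‖ }` over linear bijections (bicontinuous). -/
noncomputable def bmDist (X Y : Type*) [NormedAddCommGroup X] [NormedSpace ℝ X]
    [NormedAddCommGroup Y] [NormedSpace ℝ Y] : ℝ :=
  sInf {d : ℝ | ∃ T : X ≃L[ℝ] Y, d = ‖(T : X →L[ℝ] Y)‖ * ‖(T.symm : Y →L[ℝ] X)‖}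

end Pool.Agent.Helper689.CL
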