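import Mathlib
import Pool.Agent.Helper689.CLDef

set_option autoImplicit false

namespace Pool.Agent.Helper689.CL

open Finset

/-- Existence of exposed points almost norming a functional (farthest point argument). -/
theorem exposed_general {E : Type*} [NormedAddCommGroup E] [NormedSpace ℝ E] [ProperSpace E]
    {ι : Type*} [Fintype ι] (l : ι → E →L[ℝ] ℝ) (hl : ∀ y, (∀ k, l k y = 0) → y = 0)
    (g : E →L[ℝ] ℝ) {r : ℝ} (hr : r < ‖g‖) (hr0 : 0 ≤ r) :
    ∃ (x : E) (lam : ℝ), ‖x‖ ≤ 1 ∧ r < g x ∧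
      ∀ y, ‖y‖ ≤ 1 →
        (∑ k, l k x * l k y + lam * g y ≤ ∑ k, l k x * l k x + lam * g x) ∧
        (∑ k, l k x * l k y + lam * g y = ∑ k, l k x * l k x + lam * g x → y = x) := by
  obtain ⟨y0, hy0, hry0⟩ := g.exists_lt_apply_of_lt_opNorm hr
  -- make the value positive
  obtain ⟨y1, hy1, hry1⟩ : ∃ y1 : E, ‖y1‖ ≤ 1 ∧ r < g y1 := by
    rcases le_or_gt 0 (g y0) with h | h
    · exact ⟨y0, hy0.le, by rwa [Real.norm_of_nonneg h] at hry0⟩
    · refine ⟨-y0, by rw [norm_neg]; exact hy0.le, ?_⟩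
      rw [map_neg]
      rwa [Real.norm_of_nonpos h.le] at hry0
  set B : ℝ := ∑ k, ‖l k‖ ^ 2 with hB
  have hB0 : 0 ≤ B := Finset.sum_nonneg fun k _ => sq_nonneg _
  set δ : ℝ := g y1 - r with hδ
  have hδ0 : 0 < δ := by rw [hδ]; linarith
  set lam : ℝ := (B + 1) / δ with hlam
  have hlδ : lam * δ = B + 1 := by rw [hlam]; field_simp
  have hlam0 : 0 < lam := by rw [hlam]; positivity
  let h : E → ℝ := fun y => ∑ k, l k y ^ 2 + 2 * lam * g y
  have hcont : Continuous h := by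
    refine Continuous.add (continuous_finsetSum _ fun k _ => ((l k).continuous).pow 2) ?_
    exact continuous_const.mul g.continuous
  have hcomp : IsCompact (Metric.closedBall (0 : E) 1) := isCompact_closedBall _ _
  obtain ⟨x, hx, hmax⟩ := hcomp.exists_isMaxOn ⟨0, by simp⟩ hcont.continuousOn
  have hx1 : ‖x‖ ≤ 1 := by simpa using hx
  have hmax' : ∀ y, ‖y‖ ≤ 1 → h y ≤ h x := fun y hy => hmax (by simpa using hy)
  have hbound : ∀ y, ‖y‖ ≤ 1 → ∑ k, l k y ^ 2 ≤ B := by
    intro y hy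
    refine Finset.sum_le_sum fun k _ => ?_
    have h1 : |l k y| ≤ ‖l k‖ := by
      calc |l k y| = ‖l k y‖ := rfl
        _ ≤ ‖l k‖ * ‖y‖ := (l k).le_opNorm y
        _ ≤ ‖l k‖ * 1 := mul_le_mul_of_nonneg_left hy (norm_nonneg _)
        _ = ‖l k‖ := mul_one _
    calc l k y ^ 2 = |l k y| ^ 2 := (sq_abs _).symm
      _ ≤ ‖l k‖ ^ 2 := pow_le_pow_left₀ (abs_nonneg _) h1 2
  refine ⟨x, lam, hx1, ?_, ?_⟩
  · have h1 := hmax' y1 hy1
    have h2 : ∑ k, l k x ^ 2 ≤ B := hbound x hx1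
    have h3 : 0 ≤ ∑ k, l k y1 ^ 2 := Finset.sum_nonneg fun k _ => sq_nonneg _
    simp only [h] at h1
    -- 2 lam g y1 ≤ B + 2 lam g x
    have h4 : 2 * lam * (g y1 - g x) ≤ B := by nlinarith
    by_contra hcon
    push Not at hcon
    have h5 : δ ≤ g y1 - g x := by rw [hδ]; linarith
    have h6 : 2 * lam * δ ≤ 2 * lam * (g y1 - g x) :=
      mul_le_mul_of_nonneg_left h5 (by positivity)
    nlinarith
  · intro y hy
    have h1 := hmax' y hy
    simp only [h] at h1
    have key : 2 * ((∑ k, l k x * l k y + lam * g y) - (∑ k, l k x * l k x + lam * g x)) =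
        ((∑ k, l k y ^ 2 + 2 * lam * g y) - (∑ k, l k x ^ 2 + 2 * lam * g x)) -
          ∑ k, (l k (y - x)) ^ 2 := by
      have e1 : ∑ k, (l k (y - x)) ^ 2 =
          ∑ k, l k y ^ 2 - 2 * ∑ k, l k x * l k y + ∑ k, l k x ^ 2 := by
        rw [Finset.mul_sum, ← Finset.sum_sub_distrib, ← Finset.sum_add_distrib]
        refine Finset.sum_congr rfl fun k _ => ?_
        rw [map_sub]; ring
      have e2 : ∑ k, l k x * l k x = ∑ k, l k x ^ 2 :=
        Finset.sum_congr rfl fun k _ => by ring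
      rw [e1, e2]; ring
    have hnn : 0 ≤ ∑ k, (l k (y - x)) ^ 2 := Finset.sum_nonneg fun k _ => sq_nonneg _
    constructor
    · linarith
    · intro heq
      have hz : ∑ k, (l k (y - x)) ^ 2 = 0 := by
        rw [heq, sub_self, mul_zero] at key
        linarith
      have hz' : ∀ k, l k (y - x) = 0 := by
        intro k
        have := (Finset.sum_eq_zero_iff_of_nonneg (fun k _ => sq_nonneg (l k (y - x)))).1 hz k
          (Finset.mem_univ _)
        exact pow_eq_zero_iff (two_ne_zero) |>.1 this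
      exact sub_eq_zero.1 (hl _ hz')

end Pool.Agent.Helper689.CL
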