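import Mathlib
import Pool.Agent.Helper689.CL1

set_option autoImplicit false

namespace Pool.Agent.Helper689.CL

open Finset

variable {Y : Type*} [NormedAddCommGroup Y] [NormedSpace ℝ Y]

/-- exposed points of the unit ball -/
def ExpP (x : Y) : Prop :=
  ‖x‖ ≤ 1 ∧ ∃ φ : Y →L[ℝ] ℝ, ∀ y, ‖y‖ ≤ 1 → φ y ≤ φ x ∧ (φ y = φ x → y = x)

/-- weak-star exposed points of the dual unit ball -/
def ExpD (f : Y →L[ℝ] ℝ) : Prop :=
  ‖f‖ ≤ 1 ∧ ∃ y1 : Y, ∀ g : Y →L[ℝ] ℝ, ‖g‖ ≤ 1 → g y1 ≤ f y1 ∧ (g y1 = f y1 → g = f)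

theorem expP_norming [FiniteDimensional ℝ Y] (g : Y →L[ℝ] ℝ) {r : ℝ} (hr0 : 0 ≤ r)
    (hr : r < ‖g‖) : ∃ x, ExpP x ∧ r < g x := by
  let b := Module.finBasis ℝ Y
  let l : Fin (Module.finrank ℝ Y) → Y →L[ℝ] ℝ := fun k => LinearMap.toContinuousLinearMap (b.coord k)
  have hl : ∀ y, (∀ k, l k y = 0) → y = 0 := by
    intro y hy
    apply (b.forall_coord_eq_zero_iff).1
    intro k
    exact hy k
  obtain ⟨x, lam, hx, hrx, hall⟩ := exposed_general l hl g hr hr0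
  refine ⟨x, ⟨hx, ∑ k, l k x • l k + lam • g, fun y hy => ?_⟩, hrx⟩
  have e : ∀ z, (∑ k, l k x • l k + lam • g) z = ∑ k, l k x * l k z + lam * g z := by
    intro z
    simp [ContinuousLinearMap.sum_apply]
  rw [e, e]
  exact hall y hy

theorem expD_norming [FiniteDimensional ℝ Y] (y : Y) {r : ℝ} (hr0 : 0 ≤ r)
    (hr : r < ‖y‖) : ∃ f : Y →L[ℝ] ℝ, ExpD f ∧ r < f y := by
  let b := Module.finBasis ℝ Y
  let ev : Y → ((Y →L[ℝ] ℝ) →L[ℝ] ℝ) := fun z => ContinuousLinearMap.apply ℝ ℝ z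
  have hev : ∀ z f, ev z f = f z := fun z f => rfl
  let l : Fin (Module.finrank ℝ Y) → (Y →L[ℝ] ℝ) →L[ℝ] ℝ := fun k => ev (b k)
  have hl : ∀ f : Y →L[ℝ] ℝ, (∀ k, l k f = 0) → f = 0 := by
    intro f hf
    have h1 : (f : Y →ₗ[ℝ] ℝ) = 0 := b.ext fun k => hf k
    ext z
    exact congrArg (fun F : Y →ₗ[ℝ] ℝ => F z) h1
  have : FiniteDimensional ℝ (Y →L[ℝ] ℝ) := inferInstance
  have : ProperSpace (Y →L[ℝ] ℝ) := FiniteDimensional.proper_real _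
  have hr' : r < ‖ev y‖ := by
    refine lt_of_lt_of_le hr ?_
    obtain ⟨g, hg1, hg2⟩ := exists_dual_vector'' ℝ y
    have hg2' : g y = ‖y‖ := by simpa using hg2
    calc ‖y‖ = ‖ev y g‖ := by rw [hev, hg2', norm_norm]
      _ ≤ ‖ev y‖ * ‖g‖ := (ev y).le_opNorm g
      _ ≤ ‖ev y‖ * 1 := mul_le_mul_of_nonneg_left hg1 (ev y).opNorm_nonneg
      _ = ‖ev y‖ := mul_one _
  obtain ⟨f, lam, hf, hrf, hall⟩ := exposed_general l hl (ev y) hr' hr0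
  refine ⟨f, ⟨hf, ∑ k, f (b k) • b k + lam • y, fun g hg => ?_⟩, hrf⟩
  have e : ∀ h : Y →L[ℝ] ℝ, h (∑ k, f (b k) • b k + lam • y) =
      ∑ k, l k f * l k h + lam * ev y h := by
    intro h
    rw [map_add, map_sum, map_smul, hev]
    congr 1
    refine Finset.sum_congr rfl fun k _ => ?_
    rw [map_smul]
    rfl
  rw [e, e]
  exact hall g hg

theorem numRadius_attained [FiniteDimensional ℝ Y] [Nontrivial Y] (T : Y →L[ℝ] Y)
    (hT : 1 ≤ numRadius T) :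
    ∃ (u : Y) (f : Y →L[ℝ] ℝ), ‖u‖ = 1 ∧ ‖f‖ = 1 ∧ f u = 1 ∧ 1 ≤ |f (T u)| := by
  have : ProperSpace Y := FiniteDimensional.proper_real _
  have : ProperSpace (Y →L[ℝ] ℝ) := FiniteDimensional.proper_real _
  let K : Set (Y × (Y →L[ℝ] ℝ)) := {p | ‖p.1‖ = 1 ∧ ‖p.2‖ = 1 ∧ p.2 p.1 = 1}
  have hK : IsCompact K := by
    have hb : K ⊆ Metric.closedBall (0 : Y) 1 ×ˢ Metric.closedBall (0 : Y →L[ℝ] ℝ) 1 := by
      rintro ⟨u, f⟩ ⟨h1, h2, _⟩
      constructor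
      · simp only [mem_closedBall_zero_iff]; exact h1.le
      · simp only [mem_closedBall_zero_iff]; exact h2.le
    have hc : IsClosed K := by
      have c1 : Continuous fun p : Y × (Y →L[ℝ] ℝ) => ‖p.1‖ := continuous_fst.norm
      have c2 : Continuous fun p : Y × (Y →L[ℝ] ℝ) => ‖p.2‖ := continuous_snd.norm
      have c3 : Continuous fun p : Y × (Y →L[ℝ] ℝ) => p.2 p.1 :=
        continuous_snd.clm_apply continuous_fst
      exact (isClosed_eq c1 continuous_const).inter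
        ((isClosed_eq c2 continuous_const).inter (isClosed_eq c3 continuous_const))
    exact ((isCompact_closedBall _ _).prod (isCompact_closedBall _ _)).of_isClosed_subset hc hb
  have hne : K.Nonempty := by
    obtain ⟨u, hu⟩ := exists_ne (0 : Y)
    obtain ⟨f, hf1, hf2⟩ := exists_dual_vector ℝ u (norm_ne_zero_iff.2 hu)
    have hf2' : f u = ‖u‖ := by simpa using hf2
    refine ⟨(‖u‖⁻¹ • u, f), ?_, hf1, ?_⟩
    · show ‖‖u‖⁻¹ • u‖ = 1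
      rw [norm_smul, norm_inv, norm_norm, inv_mul_cancel₀ (norm_ne_zero_iff.2 hu)]
    · show f (‖u‖⁻¹ • u) = 1
      rw [map_smul, hf2', smul_eq_mul, inv_mul_cancel₀ (norm_ne_zero_iff.2 hu)]
  have hcont : Continuous fun p : Y × (Y →L[ℝ] ℝ) => |p.2 (T p.1)| :=
    (continuous_snd.clm_apply (T.continuous.comp continuous_fst)).abs
  obtain ⟨⟨u, f⟩, hp, hmax⟩ := hK.exists_isMaxOn hne hcont.continuousOn
  refine ⟨u, f, hp.1, hp.2.1, hp.2.2, ?_⟩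
  refine hT.trans ?_
  refine csSup_le ?_ ?_
  · exact ⟨_, u, f, hp.1, hp.2.1, hp.2.2, rfl⟩
  · rintro t ⟨v, g, h1, h2, h3, rfl⟩
    exact hmax (show (v, g) ∈ K from ⟨h1, h2, h3⟩)

theorem abs_eq_one_of_numIndex [FiniteDimensional ℝ Y] [Nontrivial Y] (hY : numIndex Y = 1)
    {f : Y →L[ℝ] ℝ} {x : Y} (hf : ExpD f) (hx : ExpP x) : |f x| = 1 := by
  obtain ⟨hx1, φ, hφ⟩ := hx
  obtain ⟨hf1, y1, hy1⟩ := hf
  -- `φ ≠ 0`
  have hφx0 : 0 ≤ φ x := by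
    have := (hφ 0 (by simp)).1
    simpa using this
  have hφx : φ x ≠ 0 := by
    intro h0
    have e1 : (0 : Y) = x := (hφ 0 (by simp)).2 (by rw [h0]; simp)
    obtain ⟨u, hu⟩ := exists_ne (0 : Y)
    have hun : ‖‖u‖⁻¹ • u‖ ≤ 1 := by
      rw [norm_smul, norm_inv, norm_norm, inv_mul_cancel₀ (norm_ne_zero_iff.2 hu)]
    have h1 := (hφ _ hun).1
    have h2 := (hφ (-(‖u‖⁻¹ • u)) (by rw [norm_neg]; exact hun)).1
    rw [map_neg] at h2
    have h3 : φ (‖u‖⁻¹ • u) = φ x := by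
      rw [h0] at h1 h2 ⊢
      linarith
    have h4 := (hφ _ hun).2 h3
    rw [← e1] at h4
    have h5 : ‖u‖⁻¹ • u ≠ 0 := smul_ne_zero (inv_ne_zero (norm_ne_zero_iff.2 hu)) hu
    exact h5 h4
  have hφnorm : ‖φ‖ = φ x := by
    apply le_antisymm
    · refine ContinuousLinearMap.opNorm_le_of_unit_norm hφx0 fun y hy => ?_
      rw [Real.norm_eq_abs, abs_le]
      have h1 := (hφ y hy.le).1
      have h2 := (hφ (-y) (by rw [norm_neg]; exact hy.le)).1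
      rw [map_neg] at h2
      constructor <;> linarith
    · calc φ x ≤ ‖φ x‖ := le_abs_self _
        _ ≤ ‖φ‖ * ‖x‖ := φ.le_opNorm x
        _ ≤ ‖φ‖ * 1 := mul_le_mul_of_nonneg_left hx1 (norm_nonneg _)
        _ = ‖φ‖ := mul_one _
  have hφpos : 0 < ‖φ‖ := by rw [hφnorm]; exact lt_of_le_of_ne hφx0 (Ne.symm hφx)
  have hy1ne : y1 ≠ 0 := by
    intro h0
    have e1 : (0 : Y →L[ℝ] ℝ) = f := (hy1 0 (by simp)).2 (by rw [h0]; simp)
    obtain ⟨u, hu⟩ := exists_ne (0 : Y)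
    obtain ⟨g, hg1, hg2⟩ := exists_dual_vector ℝ u (norm_ne_zero_iff.2 hu)
    have e2 : g = f := (hy1 g hg1.le).2 (by rw [h0]; simp)
    rw [← e1] at e2
    rw [e2, norm_zero] at hg1
    exact zero_ne_one hg1
  have hy1pos : 0 < ‖y1‖ := norm_pos_iff.2 hy1ne
  have hfy1 : f y1 = ‖y1‖ := by
    apply le_antisymm
    · calc f y1 ≤ ‖f y1‖ := le_abs_self _
        _ ≤ ‖f‖ * ‖y1‖ := f.le_opNorm y1
        _ ≤ 1 * ‖y1‖ := mul_le_mul_of_nonneg_right hf1 (norm_nonneg _)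
        _ = ‖y1‖ := one_mul _
    · obtain ⟨g, hg1, hg2⟩ := exists_dual_vector'' ℝ y1
      have hg2' : g y1 = ‖y1‖ := by simpa using hg2
      have := (hy1 g hg1).1
      rwa [hg2'] at this
  -- the rank one operator
  let T : Y →L[ℝ] Y := (‖φ‖⁻¹ • φ).smulRight (‖y1‖⁻¹ • y1)
  have hTn : ‖T‖ = 1 := by
    rw [ContinuousLinearMap.norm_smulRight_apply, norm_smul, norm_smul, norm_inv, norm_inv,
      norm_norm, norm_norm, inv_mul_cancel₀ hφpos.ne', inv_mul_cancel₀ hy1pos.ne', mul_one]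
  have hTr : 1 ≤ numRadius T := by
    rw [← hY]
    refine csInf_le ⟨0, ?_⟩ ⟨T, hTn, rfl⟩
    rintro t ⟨S, _, rfl⟩
    refine Real.sSup_nonneg ?_
    rintro s ⟨u, g, _, _, _, rfl⟩
    exact abs_nonneg _
  obtain ⟨u, g, hu, hg, hgu, hge⟩ := numRadius_attained T hTr
  have hval : |g (T u)| = (‖φ‖⁻¹ * |φ u|) * (‖y1‖⁻¹ * |g y1|) := by
    have : T u = (‖φ‖⁻¹ * φ u) • (‖y1‖⁻¹ • y1) := rfl
    rw [this, map_smul, map_smul, smul_eq_mul, smul_eq_mul, abs_mul, abs_mul, abs_mul,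
      abs_of_pos (inv_pos.2 hφpos), abs_of_pos (inv_pos.2 hy1pos)]
  have hA : ‖φ‖⁻¹ * |φ u| ≤ 1 := by
    rw [inv_mul_le_iff₀ hφpos, mul_one]
    calc |φ u| = ‖φ u‖ := rfl
      _ ≤ ‖φ‖ * ‖u‖ := φ.le_opNorm u
      _ = ‖φ‖ := by rw [hu, mul_one]
  have hB : ‖y1‖⁻¹ * |g y1| ≤ 1 := by
    rw [inv_mul_le_iff₀ hy1pos, mul_one]
    calc |g y1| = ‖g y1‖ := rfl
      _ ≤ ‖g‖ * ‖y1‖ := g.le_opNorm y1
      _ = ‖y1‖ := by rw [hg, one_mul]
  have hA0 : 0 ≤ ‖φ‖⁻¹ * |φ u| := by positivity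
  have hB0 : 0 ≤ ‖y1‖⁻¹ * |g y1| := by positivity
  rw [hval] at hge
  have hA1 : ‖φ‖⁻¹ * |φ u| = 1 := by
    apply le_antisymm hA
    calc (1 : ℝ) ≤ (‖φ‖⁻¹ * |φ u|) * (‖y1‖⁻¹ * |g y1|) := hge
      _ ≤ (‖φ‖⁻¹ * |φ u|) * 1 := mul_le_mul_of_nonneg_left hB hA0
      _ = _ := mul_one _
  have hB1 : ‖y1‖⁻¹ * |g y1| = 1 := by
    apply le_antisymm hB
    calc (1 : ℝ) ≤ (‖φ‖⁻¹ * |φ u|) * (‖y1‖⁻¹ * |g y1|) := hge
      _ ≤ 1 * (‖y1‖⁻¹ * |g y1|) := mul_le_mul_of_nonneg_right hA hB0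
      _ = _ := one_mul _
  have hφu : |φ u| = φ x := by
    rw [← hφnorm]
    field_simp at hA1
    exact hA1
  have hgy : |g y1| = f y1 := by
    rw [hfy1]
    field_simp at hB1
    exact hB1
  have hux : u = x ∨ u = -x := by
    rcases abs_choice (φ u) with h | h
    · left; exact (hφ u hu.le).2 (by rw [← hφu, h])
    · right
      have := (hφ (-u) (by rw [norm_neg]; exact hu.le)).2 (by rw [map_neg, ← hφu, h])
      rw [← this, neg_neg]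
  have hgf : g = f ∨ g = -f := by
    rcases abs_choice (g y1) with h | h
    · left; exact (hy1 g hg.le).2 (by rw [← hgy, h])
    · right
      have := (hy1 (-g) (by rw [norm_neg]; exact hg.le)).2 (by
        rw [neg_apply, ← hgy, h])
      rw [← this, neg_neg]
  rcases hux with rfl | rfl <;> rcases hgf with rfl | rfl
  · rw [hgu, abs_one]
  · rw [neg_apply] at hgu
    rw [← abs_neg, hgu, abs_one]
  · rw [map_neg] at hgu
    rw [← abs_neg, hgu, abs_one]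
  · rw [neg_apply, map_neg, neg_neg] at hgu
    rw [hgu, abs_one]

end Pool.Agent.Helper689.CL
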