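import Mathlib
import Pool.Agent.Helper689.CL2

set_option autoImplicit false

namespace Pool.Agent.Helper689.CL

open Finset

/-- the sign of a Boolean -/
def sg (b : Bool) : ℝ := if b then 1 else -1

theorem sg_mul_self (b : Bool) : sg b * sg b = 1 := by cases b <;> norm_num [sg]

theorem abs_sg (b : Bool) : |sg b| = 1 := by cases b <;> norm_num [sg]

theorem exists_sg {t : ℝ} (h : |t| = 1) : ∃ b, t = sg b := by
  rcases abs_choice t with h1 | h1
  · exact ⟨true, by rw [h] at h1; simp [sg, ← h1]⟩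
  · exact ⟨false, by rw [h] at h1; simp only [sg]; norm_num; linarith⟩

/-- the coefficient vectors determined by a code -/
def Acode {m : ℕ} (s : Fin (m * m) → Fin m → Bool) : Set (Fin m → ℝ) :=
  {a | ∀ l, (∑ i, a i * sg (s l i)) ^ 2 = 1}

/-- tensor squares of sign vectors -/
def tq {m : ℕ} (σ : Fin m → Bool) : Fin m × Fin m → ℝ := fun p => sg (σ p.1) * sg (σ p.2)

/-- inverse bound for sign matrices -/
theorem sign_matrix_bound {m : ℕ} (B : Fin m → Fin m → Bool)
    (hdet : (Matrix.of fun i j => sg (B i j)).det ≠ 0) (a ε : Fin m → ℝ) (hε : ∀ j, |ε j| = 1)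
    (h : ∀ j, ∑ i, a i * sg (B i j) = ε j) (i : Fin m) : |a i| ≤ m * (m.factorial : ℝ) := by
  classical
  set S : Matrix (Fin m) (Fin m) ℝ := Matrix.of fun i j => sg (B i j) with hS
  let SZ : Matrix (Fin m) (Fin m) ℤ := Matrix.of fun i j => if B i j then 1 else -1
  have hSZ : S = SZ.map (fun z : ℤ => (z : ℝ)) := by
    ext i j
    simp only [hS, SZ, Matrix.of_apply, Matrix.map_apply, sg]
    split_ifs <;> simp
  have hdetZ : S.det = ((SZ.det : ℤ) : ℝ) := by
    rw [hSZ]; exact (Int.cast_det SZ).symm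
  have h1 : 1 ≤ |S.det| := by
    rw [hdetZ] at hdet ⊢
    have : SZ.det ≠ 0 := by
      intro h0; rw [h0] at hdet; exact hdet (by simp)
    have h2 : 1 ≤ |SZ.det| := Int.one_le_abs this
    exact_mod_cast h2
  have hv : Matrix.vecMul a S = ε := by
    funext j
    rw [← h j]
    rfl
  have hadj : S.det * a i = ∑ j, ε j * S.adjugate j i := by
    have e1 : Matrix.vecMul ε S.adjugate = S.det • a := by
      rw [← hv, Matrix.vecMul_vecMul, Matrix.mul_adjugate, Matrix.vecMul_smul, Matrix.vecMul_one]
    have e2 := congrFun e1 i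
    rw [Pi.smul_apply, smul_eq_mul] at e2
    rw [← e2]
    rfl
  have hentry : ∀ j i, |S.adjugate j i| ≤ (m.factorial : ℝ) := by
    intro j i
    rw [Matrix.adjugate_apply]
    have h3 := Matrix.det_le (A := S.updateRow i (Pi.single j 1)) (abv := AbsoluteValue.abs)
      (x := (1 : ℝ)) (fun p q => by
        rw [Matrix.updateRow_apply]
        show |_| ≤ (1 : ℝ)
        split_ifs with hp
        · by_cases hq : q = j
          · subst hq; simp
          · simp [hq]
        · simp only [hS, Matrix.of_apply]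
          exact (abs_sg _).le)
    simpa using h3
  calc |a i| ≤ |S.det| * |a i| := le_mul_of_one_le_left (abs_nonneg _) h1
    _ = |∑ j, ε j * S.adjugate j i| := by rw [← abs_mul, hadj]
    _ ≤ ∑ j, |ε j * S.adjugate j i| := Finset.abs_sum_le_sum_abs _ _
    _ ≤ ∑ _j : Fin m, (m.factorial : ℝ) := by
        refine Finset.sum_le_sum fun j _ => ?_
        rw [abs_mul, hε, one_mul]
        exact hentry j i
    _ = m * (m.factorial : ℝ) := by simp

/-- The tensor squares of a nonempty set of sign vectors are spanned by `m * m` of them. -/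
theorem exists_code {m : ℕ} (W : Set (Fin m → Bool)) (hW : W.Nonempty) :
    ∃ s : Fin (m * m) → Fin m → Bool, (∀ l, s l ∈ W) ∧
      ∀ σ ∈ W, tq σ ∈ Submodule.span ℝ (Set.range fun l => tq (s l)) := by
  classical
  obtain ⟨σ0, hσ0⟩ := hW
  set S : Set (Fin m × Fin m → ℝ) := tq '' W with hS
  have hfull := Submodule.exists_fun_fin_finrank_span_eq ℝ S
  have hr' : Module.finrank ℝ (Submodule.span ℝ S) ≤ m * m := by
    have := Submodule.finrank_le (Submodule.span ℝ S)
    rw [Module.finrank_fintype_fun_eq_card, Fintype.card_prod, Fintype.card_fin] at this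
    exact this
  generalize Module.finrank ℝ (Submodule.span ℝ S) = r at hfull hr'
  obtain ⟨g, hg1, hg2, _⟩ := hfull
  have hchoice : ∀ i, ∃ σ ∈ W, tq σ = g i := fun i => hg1 i
  choose c hcW hc using hchoice
  let s : Fin (m * m) → Fin m → Bool := fun l => if h : l.1 < r then c ⟨l.1, h⟩ else σ0
  refine ⟨s, ?_, ?_⟩
  · intro l
    simp only [s]
    split_ifs with h
    · exact hcW _
    · exact hσ0
  · intro σ hσ
    have h1 : tq σ ∈ Submodule.span ℝ (Set.range g) := by
      rw [hg2]; exact Submodule.subset_span ⟨σ, hσ, rfl⟩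
    refine Submodule.span_mono ?_ h1
    rintro _ ⟨i, rfl⟩
    refine ⟨⟨i.1, lt_of_lt_of_le i.2 hr'⟩, ?_⟩
    simp only [s, dif_pos i.2]
    exact hc i

/-- values on all sign vectors from the values on a code -/
theorem code_value {m : ℕ} (s : Fin (m * m) → Fin m → Bool) (σ : Fin m → Bool)
    (h : tq σ ∈ Submodule.span ℝ (Set.range fun l => tq (s l))) (i0 : Fin m)
    (a : Fin m → ℝ) (ha : a ∈ Acode s) : (∑ i, a i * sg (σ i)) ^ 2 = 1 := by
  let Q : (Fin m × Fin m → ℝ) →ₗ[ℝ] ℝ :=
    { toFun := fun t => ∑ p, a p.1 * a p.2 * t p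
      map_add' := fun x y => by simp only [Pi.add_apply, mul_add, Finset.sum_add_distrib]
      map_smul' := fun c x => by
        simp only [Pi.smul_apply, smul_eq_mul, RingHom.id_apply, Finset.mul_sum]
        exact Finset.sum_congr rfl fun p _ => by ring }
  let D : (Fin m × Fin m → ℝ) →ₗ[ℝ] ℝ := LinearMap.proj (i0, i0)
  have hQ : ∀ τ : Fin m → Bool, Q (tq τ) = (∑ i, a i * sg (τ i)) ^ 2 := by
    intro τ
    show ∑ p : Fin m × Fin m, a p.1 * a p.2 * tq τ p = _
    rw [sq, Finset.sum_mul_sum, ← Finset.sum_product', Finset.univ_product_univ]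
    refine Finset.sum_congr rfl fun p _ => ?_
    simp only [tq]; ring
  have hD : ∀ τ : Fin m → Bool, D (tq τ) = 1 := by
    intro τ
    show tq τ (i0, i0) = 1
    exact sg_mul_self _
  have heq : Set.EqOn Q D (Set.range fun l => tq (s l)) := by
    rintro _ ⟨l, rfl⟩
    show Q (tq (s l)) = D (tq (s l))
    rw [hQ, hD]
    exact ha l
  have := LinearMap.eqOn_span' heq h
  rw [hQ, hD] at this
  exact this

end Pool.Agent.Helper689.CL
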