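import Mathlib
import Pool.Agent.Helper689.CL3

set_option autoImplicit false

namespace Pool.Agent.Helper689.CL

open Finset

/-- Structure of spaces with numerical index one. -/
theorem cl_structure {Y : Type*} [NormedAddCommGroup Y] [NormedSpace ℝ Y] [FiniteDimensional ℝ Y]
    {m : ℕ} (hm : 1 ≤ m) (hdim : Module.finrank ℝ Y = m) (hY : numIndex Y = 1) :
    ∃ (f : Fin m → Y →L[ℝ] ℝ) (s : Fin (m * m) → Fin m → Bool),
      (∀ i y, |f i y| ≤ ‖y‖) ∧
      (∀ y r, 0 ≤ r → (∀ a ∈ Acode s, |∑ i, a i * f i y| ≤ r) → ‖y‖ ≤ r) ∧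
      (∀ a ∈ Acode s, ∀ y, |∑ i, a i * f i y| ≤ ‖y‖) ∧
      (∀ a ∈ Acode s, ∀ i, |a i| ≤ m * (m.factorial : ℝ)) := by
  classical
  have : Nontrivial Y := Module.nontrivial_of_finrank_pos (R := ℝ) (by rw [hdim]; omega)
  let tc : Module.Dual ℝ Y → (Y →L[ℝ] ℝ) := fun F => LinearMap.toContinuousLinearMap F
  have htc : ∀ F y, tc F y = F y := fun F y => rfl
  -- exposed functionals span the dual space
  let E : Set (Module.Dual ℝ Y) := {F | ExpD (tc F)}
  have hEspan : Submodule.span ℝ E = ⊤ := by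
    have h1 : (Submodule.span ℝ E).dualCoannihilator = ⊥ := by
      rw [eq_bot_iff]
      intro y hy
      rw [Submodule.mem_bot]
      by_contra hne
      obtain ⟨F, hF, hFy⟩ := expD_norming y le_rfl (norm_pos_iff.2 hne)
      have hF' : (F : Y →ₗ[ℝ] ℝ) ∈ E := by
        show ExpD (tc (F : Y →ₗ[ℝ] ℝ))
        have : tc (F : Y →ₗ[ℝ] ℝ) = F := by ext z; rfl
        rw [this]; exact hF
      have h2 := (Submodule.mem_dualCoannihilator y).1 hy _ (Submodule.subset_span hF')
      have h3 : F y = 0 := h2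
      rw [h3] at hFy
      exact lt_irrefl _ hFy
    rw [← Subspace.dualCoannihilator_dualAnnihilator_eq (W := Submodule.span ℝ E), h1,
      Submodule.dualAnnihilator_bot]
  have hEfull := Submodule.exists_fun_fin_finrank_span_eq ℝ E
  have hEr : Module.finrank ℝ (Submodule.span ℝ E) = m := by
    rw [hEspan, finrank_top, Subspace.dual_finrank_eq, hdim]
  rw [hEr] at hEfull
  obtain ⟨F, hFE, hFspan, hFli⟩ := hEfull
  rw [hEspan] at hFspan
  -- exposed points span the space
  let V : Set Y := {x | ExpP x}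
  have hVspan : Submodule.span ℝ V = ⊤ := by
    by_contra hne
    obtain ⟨G, hG0, hG⟩ := Submodule.exists_le_ker_of_lt_top _ (lt_top_iff_ne_top.2 hne)
    have hG0' : 0 < ‖tc G‖ := by
      rw [norm_pos_iff]
      intro h0
      apply hG0
      ext y
      rw [← htc G y, h0]
      rfl
    obtain ⟨x, hx, hGx⟩ := expP_norming (tc G) le_rfl hG0'
    have h1 : G x = 0 := LinearMap.mem_ker.1 (hG (Submodule.subset_span hx))
    rw [htc, h1] at hGx
    exact lt_irrefl _ hGx
  have hVfull := Submodule.exists_fun_fin_finrank_span_eq ℝ V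
  have hVr : Module.finrank ℝ (Submodule.span ℝ V) = m := by
    rw [hVspan, finrank_top, hdim]
  rw [hVr] at hVfull
  obtain ⟨v, hvV, hvspan, _⟩ := hVfull
  rw [hVspan] at hvspan
  have habs : ∀ i, ∀ x ∈ V, |F i x| = 1 := fun i x hx => abs_eq_one_of_numIndex hY (hFE i) hx
  -- sign vectors of exposed points
  let W : Set (Fin m → Bool) := {σ | ∃ x ∈ V, ∀ i, F i x = sg (σ i)}
  have hsignvec : ∀ x ∈ V, ∃ σ ∈ W, ∀ i, F i x = sg (σ i) := by
    intro x hx
    choose σ hσ using fun i => exists_sg (habs i x hx)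
    exact ⟨σ, ⟨x, hx, hσ⟩, hσ⟩
  have hWne : W.Nonempty := by
    obtain ⟨σ, hσ, _⟩ := hsignvec (v ⟨0, hm⟩) (hvV _)
    exact ⟨σ, hσ⟩
  obtain ⟨s, hsW, hspan⟩ := exists_code W hWne
  let f : Fin m → Y →L[ℝ] ℝ := fun i => tc (F i)
  have hval : ∀ a ∈ Acode s, ∀ x ∈ V, |∑ i, a i * F i x| = 1 := by
    intro a ha x hx
    obtain ⟨σ, hσ, hσx⟩ := hsignvec x hx
    have h1 := code_value s σ (hspan σ hσ) ⟨0, hm⟩ a ha
    have h2 : ∑ i, a i * F i x = ∑ i, a i * sg (σ i) :=
      Finset.sum_congr rfl fun i _ => by rw [hσx]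
    rw [h2]
    have h3 : |∑ i, a i * sg (σ i)| ^ 2 = 1 := by rw [sq_abs]; exact h1
    exact (pow_eq_one_iff_of_nonneg (abs_nonneg _) two_ne_zero).1 h3
  have hnorm : ∀ a ∈ Acode s, ∀ y, |∑ i, a i * f i y| ≤ ‖y‖ := by
    intro a ha y
    let G : Y →L[ℝ] ℝ := ∑ i, a i • f i
    have hG : ∀ z, G z = ∑ i, a i * f i z := by
      intro z
      simp [G, ContinuousLinearMap.sum_apply]
    have hGn : ‖G‖ ≤ 1 := by
      by_contra hcon
      push Not at hcon
      obtain ⟨x, hx, hGx⟩ := expP_norming G zero_le_one hcon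
      have h1 := hval a ha x hx
      have h2 : G x = ∑ i, a i * F i x := hG x
      rw [← h2] at h1
      have := le_abs_self (G x)
      linarith
    rw [← hG]
    calc |G y| = ‖G y‖ := rfl
      _ ≤ ‖G‖ * ‖y‖ := G.le_opNorm y
      _ ≤ 1 * ‖y‖ := mul_le_mul_of_nonneg_right hGn (norm_nonneg _)
      _ = ‖y‖ := one_mul _
  refine ⟨f, s, ?_, ?_, hnorm, ?_⟩
  · intro i y
    have h1 : ‖f i‖ ≤ 1 := (hFE i).1
    calc |f i y| = ‖f i y‖ := rfl
      _ ≤ ‖f i‖ * ‖y‖ := (f i).le_opNorm y
      _ ≤ 1 * ‖y‖ := mul_le_mul_of_nonneg_right h1 (norm_nonneg _)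
      _ = ‖y‖ := one_mul _
  · intro y r hr0 hy
    by_contra hcon
    push Not at hcon
    obtain ⟨H, hH, hHy⟩ := expD_norming y hr0 hcon
    -- coefficients of `H`
    have hmem : (H : Y →ₗ[ℝ] ℝ) ∈ Submodule.span ℝ (Set.range F) := by
      rw [hFspan]; trivial
    obtain ⟨a, ha⟩ := (Submodule.mem_span_range_iff_exists_fun ℝ).1 hmem
    have haH : ∀ z, ∑ i, a i * F i z = H z := by
      intro z
      have := congrArg (fun G : Y →ₗ[ℝ] ℝ => G z) ha
      simpa using this
    have haA : a ∈ Acode s := by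
      intro l
      obtain ⟨x, hx, hxs⟩ := hsW l
      have h1 : ∑ i, a i * sg (s l i) = H x := by
        rw [← haH]
        exact Finset.sum_congr rfl fun i _ => by rw [hxs]
      rw [h1, ← sq_abs, abs_eq_one_of_numIndex hY hH hx, one_pow]
    have h2 := hy a haA
    have h3 : ∑ i, a i * f i y = H y := haH y
    rw [h3] at h2
    have := le_abs_self (H y)
    linarith
  · intro a ha i
    -- sign matrix of the basis
    choose B hBW hB using fun j => hsignvec (v j) (hvV j)
    have hdet : (Matrix.of fun i j => sg (B j i)).det ≠ 0 := by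
      intro h0
      obtain ⟨c, hc0, hc⟩ := Matrix.exists_vecMul_eq_zero_iff.2 h0
      apply hc0
      have hcF : ∑ i, c i • F i = 0 := by
        have h1 : ∀ x ∈ Submodule.span ℝ (Set.range v), (∑ i, c i • F i) x = 0 := by
          intro x hx
          have h2 : Set.EqOn (⇑(∑ i, c i • F i : Y →ₗ[ℝ] ℝ)) (⇑(0 : Y →ₗ[ℝ] ℝ)) (Set.range v) := by
            rintro _ ⟨j, rfl⟩
            have h3 := congrFun hc j
            show (∑ i, c i • F i : Y →ₗ[ℝ] ℝ) (v j) = 0
            rw [LinearMap.sum_apply]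
            simp only [LinearMap.smul_apply, smul_eq_mul]
            rw [← show Matrix.vecMul c (Matrix.of fun i j => sg (B j i)) j = 0 from h3]
            refine Finset.sum_congr rfl fun i _ => ?_
            rw [hB]
            rfl
          exact LinearMap.eqOn_span' h2 hx
        ext x
        exact h1 x (by rw [hvspan]; trivial)
      funext i
      exact (Fintype.linearIndependent_iff.1 hFli c hcF) i
    refine sign_matrix_bound (fun i j => B j i) hdet a (fun j => ∑ i, a i * sg (B j i)) ?_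
      (fun j => rfl) i
    intro j
    have h1 := hval a ha (v j) (hvV j)
    rw [← h1]
    congr 1
    exact Finset.sum_congr rfl fun i _ => by rw [hB]

end Pool.Agent.Helper689.CL
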