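import Mathlib
import Pool.Agent.Helper689.CL4

set_option autoImplicit false

namespace Pool.Agent.Helper689.CL

open Finset

/-- a norm `ν` on `ℝ^m` is `D`-equivalent to the norm coded by `s` and the matrix `Λ` -/
structure Coded {m : ℕ} (D : ℝ) (ν : (Fin m → ℝ) → ℝ) (s : Fin (m * m) → Fin m → Bool)
    (Λ : Fin m → Fin m → ℝ) : Prop where
  bd : ∀ i k, |Λ i k| ≤ D
  lo : ∀ z r, 0 ≤ r → (∀ a ∈ Acode s, |∑ i, a i * ∑ k, Λ i k * z k| ≤ r) → ν z ≤ r
  up : ∀ a ∈ Acode s, ∀ z, |∑ i, a i * ∑ k, Λ i k * z k| ≤ D * ν z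
  ab : ∀ a ∈ Acode s, ∀ i, |a i| ≤ m * (m.factorial : ℝ)

theorem coded_of_close {Y : Type*} [NormedAddCommGroup Y] [NormedSpace ℝ Y]
    [FiniteDimensional ℝ Y] {m : ℕ} (hm : 1 ≤ m) (hdim : Module.finrank ℝ Y = m)
    (hY : numIndex Y = 1) (A : (Fin m → ℝ) →ₗ[ℝ] Y) (ν : (Fin m → ℝ) → ℝ) {D : ℝ} (hD : 0 ≤ D)
    (h1 : ∀ z, ν z ≤ ‖A z‖) (h2 : ∀ z, ‖A z‖ ≤ D * ν z)
    (hν : ∀ k, ν (Pi.single k 1) ≤ 1) :
    ∃ (s : Fin (m * m) → Fin m → Bool) (Λ : Fin m → Fin m → ℝ), Coded D ν s Λ := by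
  classical
  obtain ⟨f, s, hf, hlo, hup, hab⟩ := cl_structure hm hdim hY
  let Λ : Fin m → Fin m → ℝ := fun i k => f i (A (Pi.single k 1))
  have hΛ : ∀ i z, f i (A z) = ∑ k, Λ i k * z k := by
    intro i z
    have e : z = ∑ k, z k • (Pi.single k 1 : Fin m → ℝ) := by
      funext j
      simp [Finset.sum_apply, Pi.single_apply]
    conv_lhs => rw [e]
    rw [map_sum, map_sum]
    refine Finset.sum_congr rfl fun k _ => ?_
    rw [map_smul, map_smul, smul_eq_mul, mul_comm]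
  refine ⟨s, Λ, ?_, ?_, ?_, hab⟩
  · intro i k
    calc |Λ i k| ≤ ‖A (Pi.single k 1)‖ := hf i _
      _ ≤ D * ν (Pi.single k 1) := h2 _
      _ ≤ D * 1 := mul_le_mul_of_nonneg_left (hν k) hD
      _ = D := mul_one D
  · intro z r hr h
    refine (h1 z).trans (hlo (A z) r hr fun a ha => ?_)
    have := h a ha
    simpa only [hΛ] using this
  · intro a ha z
    have := (hup a ha (A z)).trans (h2 z)
    simpa only [hΛ] using this

/-- the mesh -/
def mesh (m : ℕ) : ℕ := 2 * m ^ 2 * (m * m.factorial)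

theorem mesh_pos {m : ℕ} (hm : 1 ≤ m) : 0 < mesh m := by
  unfold mesh
  have := Nat.factorial_pos m
  positivity

theorem compare {m : ℕ} (hm : 1 ≤ m) {D : ℝ} (hD : 0 ≤ D) {ν ν' : (Fin m → ℝ) → ℝ}
    {s : Fin (m * m) → Fin m → Bool} {Λ Λ' : Fin m → Fin m → ℝ} (h : Coded D ν s Λ)
    (h' : Coded D ν' s Λ') (hν' : ∀ z k, |z k| ≤ ν' z)
    (hclose : ∀ i k, |Λ i k - Λ' i k| ≤ 1 / (mesh m : ℝ)) (z : Fin m → ℝ) :
    ν z ≤ (D + 1 / 2) * ν' z := by
  have hz0 : 0 ≤ ν' z := (abs_nonneg _).trans (hν' z ⟨0, hm⟩)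
  have hK : (0 : ℝ) < mesh m := by exact_mod_cast mesh_pos hm
  refine h.lo z _ (by positivity) fun a ha => ?_
  have e1 : ∑ i, a i * ∑ k, Λ i k * z k =
      ∑ i, a i * ∑ k, Λ' i k * z k + ∑ i, a i * ∑ k, (Λ i k - Λ' i k) * z k := by
    rw [← Finset.sum_add_distrib]
    refine Finset.sum_congr rfl fun i _ => ?_
    rw [← mul_add, ← Finset.sum_add_distrib]
    congr 1
    exact Finset.sum_congr rfl fun k _ => by ring
  have hF : (0 : ℝ) ≤ m * (m.factorial : ℝ) := by positivity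
  have e2 : |∑ i, a i * ∑ k, (Λ i k - Λ' i k) * z k| ≤ (1 / 2) * ν' z := by
    calc |∑ i, a i * ∑ k, (Λ i k - Λ' i k) * z k|
        ≤ ∑ i, |a i * ∑ k, (Λ i k - Λ' i k) * z k| := Finset.abs_sum_le_sum_abs _ _
      _ ≤ ∑ _i : Fin m, (m * (m.factorial : ℝ)) * (m * (1 / (mesh m : ℝ) * ν' z)) := by
          refine Finset.sum_le_sum fun i _ => ?_
          rw [abs_mul]
          refine mul_le_mul (h.ab a ha i) ?_ (abs_nonneg _) hF
          calc |∑ k, (Λ i k - Λ' i k) * z k| ≤ ∑ k, |(Λ i k - Λ' i k) * z k| :=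
                Finset.abs_sum_le_sum_abs _ _
            _ ≤ ∑ _k : Fin m, 1 / (mesh m : ℝ) * ν' z := by
                refine Finset.sum_le_sum fun k _ => ?_
                rw [abs_mul]
                exact mul_le_mul (hclose i k) (hν' z k) (abs_nonneg _) (by positivity)
            _ = m * (1 / (mesh m : ℝ) * ν' z) := by simp
      _ = (1 / 2) * ν' z := by
          rw [Finset.sum_const, Finset.card_univ, Fintype.card_fin, nsmul_eq_mul]
          have hmm : (mesh m : ℝ) = 2 * (m : ℝ) ^ 2 * (m * (m.factorial : ℝ)) := by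
            unfold mesh; push_cast; ring
          have hm0 : (0 : ℝ) < m := by exact_mod_cast hm
          have hf0 : (0 : ℝ) < (m.factorial : ℝ) := by exact_mod_cast Nat.factorial_pos m
          rw [hmm]
          field_simp
  calc |∑ i, a i * ∑ k, Λ i k * z k|
      ≤ |∑ i, a i * ∑ k, Λ' i k * z k| + |∑ i, a i * ∑ k, (Λ i k - Λ' i k) * z k| := by
        rw [e1]; exact abs_add_le _ _
    _ ≤ D * ν' z + (1 / 2) * ν' z := add_le_add (h'.up a ha z) e2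
    _ = (D + 1 / 2) * ν' z := by ring

/-- the finite type of codes -/
abbrev Code (m : ℕ) : Type :=
  (Fin (m * m) → Fin m → Bool) × (Fin m → Fin m → Fin (2 * (mesh m * m) + 1))

/-- rounding of one matrix entry -/
noncomputable def rnd (m : ℕ) (t : ℝ) : Fin (2 * (mesh m * m) + 1) :=
  Fin.ofNat _ ((⌊(mesh m : ℝ) * t⌋ + (mesh m * m : ℕ)).toNat)

theorem rnd_eq {m : ℕ} (hm : 1 ≤ m) {t t' : ℝ} (ht : |t| ≤ m) (ht' : |t'| ≤ m)
    (h : rnd m t = rnd m t') : |t - t'| ≤ 1 / (mesh m : ℝ) := by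
  have hK : (0 : ℝ) < mesh m := by exact_mod_cast mesh_pos hm
  have key : ∀ u : ℝ, |u| ≤ m → 0 ≤ ⌊(mesh m : ℝ) * u⌋ + ((mesh m * m : ℕ) : ℤ) ∧
      ⌊(mesh m : ℝ) * u⌋ + ((mesh m * m : ℕ) : ℤ) < 2 * (mesh m * m : ℕ) + 1 := by
    intro u hu
    rw [abs_le] at hu
    constructor
    · have : -((mesh m * m : ℕ) : ℤ) ≤ ⌊(mesh m : ℝ) * u⌋ := by
        rw [Int.le_floor]
        push_cast
        nlinarith
      linarith
    · have : ⌊(mesh m : ℝ) * u⌋ < ((mesh m * m : ℕ) : ℤ) + 1 := by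
        rw [Int.floor_lt]
        push_cast
        nlinarith
      linarith
  obtain ⟨k1, k2⟩ := key t ht
  obtain ⟨k1', k2'⟩ := key t' ht'
  have hv := congrArg Fin.val h
  simp only [rnd, Fin.val_ofNat] at hv
  rw [Nat.mod_eq_of_lt (by omega), Nat.mod_eq_of_lt (by omega)] at hv
  have hfl : ⌊(mesh m : ℝ) * t⌋ = ⌊(mesh m : ℝ) * t'⌋ := by omega
  have := Int.abs_sub_lt_one_of_floor_eq_floor hfl
  rw [← mul_sub, abs_mul, abs_of_pos hK] at this
  rw [le_div_iff₀ hK]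
  linarith

end Pool.Agent.Helper689.CL
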