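import Mathlib
import Pool.Agent.Helper689.CL5

set_option autoImplicit false

namespace Pool.Agent.Helper689.CL

open Finset

/-- greedy form of Maurey's lemma -/
theorem greedy {m : ℕ} {I : Type*} (t : I → Fin m → ℝ) {Δ M : ℝ} (hΔ : 0 ≤ Δ)
    (ht : ∀ i, ∑ k, t i k ^ 2 ≤ M) (u : Fin m → ℝ) (hu : ∑ k, u k ^ 2 ≤ M)
    (h : ∀ z : Fin m → ℝ, ∃ i, ∑ k, u k * z k ≤ Δ * ∑ k, t i k * z k) (n : ℕ) :
    ∃ w : Fin n → I, ∑ k, (n * u k - Δ * ∑ j, t (w j) k) ^ 2 ≤ n * ((1 + Δ) ^ 2 * M) := by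
  induction n with
  | zero => exact ⟨fun i => i.elim0, by simp⟩
  | succ n ih =>
    obtain ⟨w, hw⟩ := ih
    let r : Fin m → ℝ := fun k => n * u k - Δ * ∑ j, t (w j) k
    obtain ⟨i, hi⟩ := h r
    refine ⟨Fin.cons i w, ?_⟩
    have e1 : ∀ k, ((n + 1 : ℕ) : ℝ) * u k - Δ * ∑ j, t ((Fin.cons i w : Fin (n + 1) → I) j) k =
        r k + (u k - Δ * t i k) := by
      intro k
      rw [Fin.sum_univ_succ]
      simp only [Fin.cons_zero, Fin.cons_succ, r]
      push_cast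
      ring
    have e2 : ∑ k, (r k + (u k - Δ * t i k)) ^ 2 =
        ∑ k, r k ^ 2 + 2 * (∑ k, u k * r k - Δ * ∑ k, t i k * r k) +
          ∑ k, (u k - Δ * t i k) ^ 2 := by
      rw [mul_sub, Finset.mul_sum, Finset.mul_sum, Finset.mul_sum, ← Finset.sum_sub_distrib,
        ← Finset.sum_add_distrib, ← Finset.sum_add_distrib]
      exact Finset.sum_congr rfl fun k _ => by ring
    have e3 : ∑ k, (u k - Δ * t i k) ^ 2 ≤ (1 + Δ) ^ 2 * M := by
      calc ∑ k, (u k - Δ * t i k) ^ 2 ≤ ∑ k, (1 + Δ) * (u k ^ 2 + Δ * t i k ^ 2) := by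
            refine Finset.sum_le_sum fun k _ => ?_
            nlinarith [mul_nonneg hΔ (sq_nonneg (u k + t i k))]
        _ = (1 + Δ) * (∑ k, u k ^ 2 + Δ * ∑ k, t i k ^ 2) := by
            rw [← Finset.mul_sum, Finset.sum_add_distrib, ← Finset.mul_sum]
        _ ≤ (1 + Δ) * (M + Δ * M) := by
            refine mul_le_mul_of_nonneg_left ?_ (by linarith)
            exact add_le_add hu (mul_le_mul_of_nonneg_left (ht i) hΔ)
        _ = (1 + Δ) ^ 2 * M := by ring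
    calc ∑ k, (((n + 1 : ℕ) : ℝ) * u k - Δ * ∑ j, t ((Fin.cons i w : Fin (n + 1) → I) j) k) ^ 2
        = ∑ k, (r k + (u k - Δ * t i k)) ^ 2 := Finset.sum_congr rfl fun k _ => by rw [e1]
      _ ≤ n * ((1 + Δ) ^ 2 * M) + (1 + Δ) ^ 2 * M := by
          rw [e2]
          have : ∑ k, r k ^ 2 ≤ n * ((1 + Δ) ^ 2 * M) := hw
          linarith
      _ = ((n + 1 : ℕ) : ℝ) * ((1 + Δ) ^ 2 * M) := by push_cast; ring

theorem sum_sub_sq {m : ℕ} (σ τ : Fin m → Bool) :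
    ∑ k, (sg (σ k) - sg (τ k)) ^ 2 = 4 * (hammingDist σ τ : ℝ) := by
  have h1 : ∀ k, (sg (σ k) - sg (τ k)) ^ 2 = if σ k ≠ τ k then 4 else 0 := by
    intro k
    cases σ k <;> cases τ k <;> norm_num [sg]
  rw [Finset.sum_congr rfl fun k _ => h1 k, Finset.sum_ite, Finset.sum_const_zero, add_zero,
    Finset.sum_const, nsmul_eq_mul, mul_comm]
  rfl

/-- volume of a small Hamming ball -/
theorem card_hamming_ball {m : ℕ} (σ : Fin m → Bool) :
    ((Finset.univ.filter fun τ : Fin m → Bool => 16 * hammingDist σ τ ≤ m).card : ℝ) ≤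
      Real.exp (3 * m / 8) := by
  have h1 : ∑ τ : Fin m → Bool, ∏ k, (if σ k ≠ τ k then (1 / 4 : ℝ) else 1) = (5 / 4) ^ m := by
    have := Finset.prod_univ_sum (fun _ : Fin m => (Finset.univ : Finset Bool))
      (fun k b => if σ k ≠ b then (1 / 4 : ℝ) else 1)
    rw [Fintype.piFinset_univ] at this
    rw [← this]
    have h2 : ∀ k : Fin m, ∑ b : Bool, (if σ k ≠ b then (1 / 4 : ℝ) else 1) = 5 / 4 := by
      intro k
      cases σ k <;> norm_num [Fintype.sum_bool]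
    rw [Finset.prod_congr rfl fun k _ => h2 k, Finset.prod_const, Finset.card_univ,
      Fintype.card_fin]
  have h2 : ∀ τ : Fin m → Bool, ∏ k, (if σ k ≠ τ k then (1 / 4 : ℝ) else 1) =
      (1 / 4) ^ hammingDist σ τ := by
    intro τ
    rw [Finset.prod_ite, Finset.prod_const_one, mul_one, Finset.prod_const]
    rfl
  have e2 : (1 / 4 : ℝ) ≥ Real.exp (-2) := by
    rw [Real.exp_neg]
    have h5 := Real.quadratic_le_exp_of_nonneg (x := 2) (by norm_num)
    rw [ge_iff_le, one_div]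
    exact inv_anti₀ (by norm_num) (by linarith)
  have h3 : ∀ τ : Fin m → Bool, 16 * hammingDist σ τ ≤ m →
      Real.exp (-(m / 8)) ≤ (1 / 4 : ℝ) ^ hammingDist σ τ := by
    intro τ hτ
    have h4 : (16 : ℝ) * (hammingDist σ τ : ℝ) ≤ m := by exact_mod_cast hτ
    calc Real.exp (-(m / 8)) ≤ Real.exp (hammingDist σ τ * (-2)) := by
          apply Real.exp_le_exp.2; linarith
      _ = Real.exp (-2) ^ hammingDist σ τ := by rw [Real.exp_nat_mul]
      _ ≤ (1 / 4 : ℝ) ^ hammingDist σ τ := pow_le_pow_left₀ (Real.exp_pos _).le e2 _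
  set F := Finset.univ.filter fun τ : Fin m → Bool => 16 * hammingDist σ τ ≤ m with hF
  have h4 : (F.card : ℝ) * Real.exp (-(m / 8)) ≤ (5 / 4) ^ m := by
    calc (F.card : ℝ) * Real.exp (-(m / 8)) = ∑ _τ ∈ F, Real.exp (-(m / 8)) := by
          rw [Finset.sum_const, nsmul_eq_mul]
      _ ≤ ∑ τ ∈ F, (1 / 4 : ℝ) ^ hammingDist σ τ := by
          refine Finset.sum_le_sum fun τ hτ => h3 τ ?_
          rw [hF, Finset.mem_filter] at hτ
          exact hτ.2
      _ ≤ ∑ τ : Fin m → Bool, (1 / 4 : ℝ) ^ hammingDist σ τ :=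
          Finset.sum_le_sum_of_subset_of_nonneg (Finset.subset_univ _)
            (fun _ _ _ => by positivity)
      _ = (5 / 4) ^ m := by
          rw [← h1]
          exact Finset.sum_congr rfl fun τ _ => (h2 τ).symm
  have h5 : (5 / 4 : ℝ) ^ m ≤ Real.exp (m / 4) := by
    calc (5 / 4 : ℝ) ^ m ≤ Real.exp (1 / 4) ^ m := by
          refine pow_le_pow_left₀ (by norm_num) ?_ _
          have := Real.add_one_le_exp (1 / 4 : ℝ)
          linarith
      _ = Real.exp (m / 4) := by rw [← Real.exp_nat_mul]; congr 1; ring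
  calc (F.card : ℝ) = (F.card : ℝ) * Real.exp (-(m / 8)) * Real.exp (m / 8) := by
        rw [mul_assoc, ← Real.exp_add]; simp
    _ ≤ Real.exp (m / 4) * Real.exp (m / 8) :=
        mul_le_mul_of_nonneg_right (h4.trans h5) (Real.exp_pos _).le
    _ = Real.exp (3 * m / 8) := by rw [← Real.exp_add]; congr 1; ring

/-- number of sign vectors in `Δ` times a symmetric polytope with few vertices -/
theorem card_signs {m : ℕ} {I : Type*} [Fintype I] [Nonempty I] (t : I → Fin m → ℝ)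
    {Δ : ℝ} (hΔ : 0 ≤ Δ) (ht : ∀ i, ∑ k, t i k ^ 2 ≤ m) (n : ℕ) (hn : 16 * (1 + Δ) ^ 2 ≤ n)
    (S : Finset (Fin m → Bool))
    (hS : ∀ σ ∈ S, ∀ z : Fin m → ℝ, ∃ i, ∑ k, sg (σ k) * z k ≤ Δ * ∑ k, t i k * z k) :
    (S.card : ℝ) ≤ Real.exp (3 * m / 8) * (Fintype.card I : ℝ) ^ n := by
  classical
  have hn0 : (0 : ℝ) < n := by nlinarith
  have hsgm : ∀ σ : Fin m → Bool, ∑ k, sg (σ k) ^ 2 ≤ (m : ℝ) := by
    intro σ
    have : ∀ k, sg (σ k) ^ 2 = 1 := fun k => by rw [sq, sg_mul_self]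
    simp [this]
  have hex : ∀ σ : Fin m → Bool, ∃ w : Fin n → I, σ ∈ S →
      ∑ k, (n * sg (σ k) - Δ * ∑ j, t (w j) k) ^ 2 ≤ n * ((1 + Δ) ^ 2 * m) := by
    intro σ
    by_cases hσ : σ ∈ S
    · obtain ⟨w, hw⟩ := greedy t hΔ ht (fun k => sg (σ k)) (hsgm σ) (hS σ hσ) n
      exact ⟨w, fun _ => hw⟩
    · exact ⟨fun _ => Classical.arbitrary I, fun h => absurd h hσ⟩
  choose w hw using hex
  have hfib : ∀ σ ∈ S, ∀ τ ∈ S, w σ = w τ → 16 * hammingDist σ τ ≤ m := by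
    intro σ hσ τ hτ hστ
    have h1 := hw σ hσ
    have h2 := hw τ hτ
    rw [← hστ] at h2
    have h3 : ∑ k, (n * sg (σ k) - n * sg (τ k)) ^ 2 ≤ 4 * (n * ((1 + Δ) ^ 2 * m)) := by
      calc ∑ k, (n * sg (σ k) - n * sg (τ k)) ^ 2
          ≤ ∑ k, (2 * (n * sg (σ k) - Δ * ∑ j, t (w σ j) k) ^ 2 +
              2 * (n * sg (τ k) - Δ * ∑ j, t (w σ j) k) ^ 2) := by
            refine Finset.sum_le_sum fun k _ => ?_
            nlinarith [sq_nonneg ((n * sg (σ k) - Δ * ∑ j, t (w σ j) k) +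
              (n * sg (τ k) - Δ * ∑ j, t (w σ j) k))]
        _ = 2 * ∑ k, (n * sg (σ k) - Δ * ∑ j, t (w σ j) k) ^ 2 +
              2 * ∑ k, (n * sg (τ k) - Δ * ∑ j, t (w σ j) k) ^ 2 := by
            rw [Finset.sum_add_distrib, ← Finset.mul_sum, ← Finset.mul_sum]
        _ ≤ 4 * (n * ((1 + Δ) ^ 2 * m)) := by linarith
    have h4 : ∑ k, (n * sg (σ k) - n * sg (τ k)) ^ 2 = n ^ 2 * (4 * (hammingDist σ τ : ℝ)) := by
      rw [← sum_sub_sq, Finset.mul_sum]
      exact Finset.sum_congr rfl fun k _ => by ring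
    rw [h4] at h3
    have h5 : (n : ℝ) * (hammingDist σ τ : ℝ) ≤ (1 + Δ) ^ 2 * m := by
      have h6 : (n : ℝ) * (4 * (n * (hammingDist σ τ : ℝ))) ≤ n * (4 * ((1 + Δ) ^ 2 * m)) := by
        nlinarith
      have h7 := le_of_mul_le_mul_left h6 hn0
      linarith
    have hd0 : (0 : ℝ) ≤ (hammingDist σ τ : ℝ) := Nat.cast_nonneg _
    have hs : (0 : ℝ) < (1 + Δ) ^ 2 := by positivity
    have h8 : (1 + Δ) ^ 2 * (16 * (hammingDist σ τ : ℝ)) ≤ (1 + Δ) ^ 2 * m := by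
      calc (1 + Δ) ^ 2 * (16 * (hammingDist σ τ : ℝ))
          = 16 * (1 + Δ) ^ 2 * (hammingDist σ τ : ℝ) := by ring
        _ ≤ n * (hammingDist σ τ : ℝ) := mul_le_mul_of_nonneg_right hn hd0
        _ ≤ (1 + Δ) ^ 2 * m := h5
    have h9 := le_of_mul_le_mul_left h8 hs
    exact_mod_cast h9
  have hcard := Finset.card_le_mul_card_image (f := w) S (⌊Real.exp (3 * m / 8)⌋₊) (by
    intro b hb
    obtain ⟨σ, hσ, rfl⟩ := Finset.mem_image.1 hb
    apply Nat.le_floor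
    refine le_trans ?_ (card_hamming_ball σ)
    have hsub : (S.filter fun a => w a = w σ) ⊆
        Finset.univ.filter fun τ : Fin m → Bool => 16 * hammingDist σ τ ≤ m := by
      intro τ hτ
      rw [Finset.mem_filter] at hτ ⊢
      exact ⟨Finset.mem_univ _, hfib σ hσ τ hτ.1 hτ.2.symm⟩
    exact_mod_cast Finset.card_le_card hsub)
  have himg : (S.image w).card ≤ Fintype.card I ^ n := by
    calc (S.image w).card ≤ Fintype.card (Fin n → I) := Finset.card_le_univ _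
      _ = Fintype.card I ^ n := by simp
  calc (S.card : ℝ) ≤ ((⌊Real.exp (3 * m / 8)⌋₊ * (S.image w).card : ℕ) : ℝ) := by
        exact_mod_cast hcard
    _ = (⌊Real.exp (3 * m / 8)⌋₊ : ℝ) * ((S.image w).card : ℝ) := by push_cast; ring
    _ ≤ Real.exp (3 * m / 8) * (Fintype.card I : ℝ) ^ n := by
        refine mul_le_mul (Nat.floor_le (Real.exp_pos _).le) ?_ (Nat.cast_nonneg _)
          (Real.exp_pos _).le
        exact_mod_cast himg

end Pool.Agent.Helper689.CL
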