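import Mathlib
import Pool.Agent.Helper689.CL6

set_option autoImplicit false

namespace Pool.Agent.Helper689.CL

open Finset

/-- the embedding defining the test space -/
noncomputable def J {m N : ℕ} (x : Fin N → Fin m → Bool) :
    (Fin m → ℝ) →ₗ[ℝ] (Fin m → ℝ) × (Fin N → ℝ) :=
  LinearMap.prod LinearMap.id
    { toFun := fun z i => (∑ k, sg (x i k) * z k) / Real.sqrt m
      map_add' := fun z z' => by
        funext i
        simp only [Pi.add_apply, mul_add, Finset.sum_add_distrib, add_div]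
      map_smul' := fun c z => by
        funext i
        simp only [Pi.smul_apply, smul_eq_mul, RingHom.id_apply]
        rw [← mul_div_assoc, Finset.mul_sum]
        congr 1
        exact Finset.sum_congr rfl fun k _ => by ring }

theorem J_apply {m N : ℕ} (x : Fin N → Fin m → Bool) (z : Fin m → ℝ) :
    J x z = (z, fun i => (∑ k, sg (x i k) * z k) / Real.sqrt m) := rfl

theorem J_injective {m N : ℕ} (x : Fin N → Fin m → Bool) : Function.Injective (J x) := by
  intro z z' h
  exact congrArg Prod.fst h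

theorem abs_le_J {m N : ℕ} (x : Fin N → Fin m → Bool) (z : Fin m → ℝ) (k : Fin m) :
    |z k| ≤ ‖J x z‖ := by
  rw [J_apply, Prod.norm_def]
  exact (norm_le_pi_norm z k).trans (le_max_left _ _)

theorem inner_le_J {m N : ℕ} (hm : 1 ≤ m) (x : Fin N → Fin m → Bool) (z : Fin m → ℝ) (i : Fin N) :
    |∑ k, sg (x i k) * z k| ≤ Real.sqrt m * ‖J x z‖ := by
  have hs : 0 < Real.sqrt m := Real.sqrt_pos.2 (by exact_mod_cast hm)
  have h1 : ‖(∑ k, sg (x i k) * z k) / Real.sqrt m‖ ≤ ‖J x z‖ := by
    rw [J_apply, Prod.norm_def]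
    exact (norm_le_pi_norm (fun i => (∑ k, sg (x i k) * z k) / Real.sqrt m) i).trans
      (le_max_right _ _)
  rw [Real.norm_eq_abs, abs_div, abs_of_pos hs, div_le_iff₀ hs] at h1
  linarith

theorem J_single_le {m N : ℕ} (hm : 1 ≤ m) (x : Fin N → Fin m → Bool) (k : Fin m) :
    ‖J x (Pi.single k 1)‖ ≤ 1 := by
  have hs : 1 ≤ Real.sqrt m := Real.one_le_sqrt.2 (by exact_mod_cast hm)
  rw [J_apply, Prod.norm_def]
  refine max_le ?_ ?_
  · refine (pi_norm_le_iff_of_nonneg zero_le_one).2 fun j => ?_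
    by_cases h : j = k
    · subst h; simp
    · simp [h]
  · refine (pi_norm_le_iff_of_nonneg zero_le_one).2 fun i => ?_
    have : ∑ j, sg (x i j) * (Pi.single k (1 : ℝ) : Fin m → ℝ) j = sg (x i k) := by
      simp [Pi.single_apply]
    simp only [this]
    rw [Real.norm_eq_abs, abs_div, abs_sg, abs_of_nonneg (by linarith)]
    rw [div_le_one (by linarith)]
    exact hs

/-- the signed atoms -/
noncomputable def atom {m N : ℕ} (x : Fin N → Fin m → Bool) :
    (Fin m ⊕ Fin N) × Bool → Fin m → ℝ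
  | (.inl j, b) => fun k => if k = j then sg b * Real.sqrt m else 0
  | (.inr i, b) => fun k => sg b * sg (x i k)

theorem atom_sq {m N : ℕ} (x : Fin N → Fin m → Bool) (t : (Fin m ⊕ Fin N) × Bool) :
    ∑ k, atom x t k ^ 2 ≤ (m : ℝ) := by
  obtain ⟨j | i, b⟩ := t
  · have h1 : ∀ k, atom x (.inl j, b) k ^ 2 = if k = j then (m : ℝ) else 0 := by
      intro k
      simp only [atom]
      split_ifs
      · rw [mul_pow, Real.sq_sqrt (Nat.cast_nonneg _), sq, sg_mul_self, one_mul]
      · simp
    rw [Finset.sum_congr rfl fun k _ => h1 k]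
    simp
  · have h1 : ∀ k, atom x (.inr i, b) k ^ 2 = 1 := by
      intro k
      simp only [atom]
      rw [mul_pow, sq, sq, sg_mul_self, sg_mul_self, one_mul]
    rw [Finset.sum_congr rfl fun k _ => h1 k]
    simp

theorem exists_atom {m N : ℕ} (hm : 1 ≤ m) (x : Fin N → Fin m → Bool) (z : Fin m → ℝ) :
    ∃ t, Real.sqrt m * ‖J x z‖ ≤ ∑ k, atom x t k * z k := by
  have hs : 0 < Real.sqrt m := Real.sqrt_pos.2 (by exact_mod_cast hm)
  have hL : ∀ j b, ∑ k, atom x (.inl j, b) k * z k = sg b * Real.sqrt m * z j := by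
    intro j b
    simp [atom, ite_mul]
  have hR : ∀ i b, ∑ k, atom x (.inr i, b) k * z k = sg b * ∑ k, sg (x i k) * z k := by
    intro i b
    rw [Finset.mul_sum]
    exact Finset.sum_congr rfl fun k _ => by simp only [atom]; ring
  by_contra hcon
  push Not at hcon
  -- the norm is positive
  have hpos : 0 < ‖J x z‖ := by
    by_contra h0
    have h0' : ‖J x z‖ = 0 := le_antisymm (not_lt.1 h0) (norm_nonneg _)
    have h1 := hcon (.inl ⟨0, hm⟩, true)
    have h2 := hcon (.inl ⟨0, hm⟩, false)
    rw [hL, h0'] at h1 h2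
    simp only [sg] at h1 h2
    norm_num at h1 h2
    linarith
  have habs : ∀ c : ℝ, (sg true * c < Real.sqrt m * ‖J x z‖) → (sg false * c < Real.sqrt m * ‖J x z‖) →
      |c| < Real.sqrt m * ‖J x z‖ := by
    intro c h1 h2
    simp only [sg] at h1 h2
    norm_num at h1 h2
    rw [abs_lt]
    constructor <;> linarith
  have hlt : ‖J x z‖ < ‖J x z‖ := by
    conv_lhs => rw [J_apply, Prod.norm_def]
    refine max_lt ?_ ?_
    · refine (pi_norm_lt_iff hpos).2 fun j => ?_
      have h1 := hcon (.inl j, true)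
      have h2 := hcon (.inl j, false)
      rw [hL, mul_assoc] at h1 h2
      have h3 := habs _ h1 h2
      rw [abs_mul, abs_of_pos hs] at h3
      exact lt_of_mul_lt_mul_left h3 hs.le
    · refine (pi_norm_lt_iff hpos).2 fun i => ?_
      have h1 := hcon (.inr i, true)
      have h2 := hcon (.inr i, false)
      rw [hR] at h1 h2
      have h3 := habs _ h1 h2
      rw [Real.norm_eq_abs, abs_div, abs_of_pos hs, div_lt_iff₀ hs]
      linarith
  exact lt_irrefl _ hlt

/-- the counting estimate -/
theorem count {m N n : ℕ} (hm : 1 ≤ m) {D : ℝ} (hD : 0 ≤ D) (hDm : D ≤ m)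
    (hn : 16 * (1 + (D + 1 / 2)) ^ 2 ≤ n)
    (hall : ∀ x : Fin N → Fin m → Bool, ∃ s Λ, Coded D (fun z => ‖J x z‖) s Λ) :
    ((2 : ℝ) ^ m) ^ N ≤
      (Real.exp (3 * m / 8) * (2 * (m + N) : ℝ) ^ n) ^ N * (Fintype.card (Code m) : ℝ) := by
  classical
  choose s Λ hc using hall
  let code : (Fin N → Fin m → Bool) → Code m := fun x => (s x, fun i k => rnd m (Λ x i k))
  have : Nonempty ((Fin m ⊕ Fin N) × Bool) := ⟨(.inl ⟨0, hm⟩, true)⟩
  set B : ℝ := Real.exp (3 * m / 8) * (2 * (m + N) : ℝ) ^ n with hB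
  have hB0 : 0 ≤ B := by positivity
  have hfib : ∀ x0 : Fin N → Fin m → Bool,
      (((Finset.univ : Finset (Fin N → Fin m → Bool)).filter fun x => code x = code x0).card : ℝ)
        ≤ B ^ N := by
    intro x0
    set S : Finset (Fin m → Bool) := Finset.univ.filter fun σ => ∀ z : Fin m → ℝ,
      ∃ t, ∑ k, sg (σ k) * z k ≤ (D + 1 / 2) * ∑ k, atom x0 t k * z k with hS
    have hScard : (S.card : ℝ) ≤ B := by
      have h1 := card_signs (atom x0) (Δ := D + 1 / 2) (by linarith) (atom_sq x0) n hn S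
        (fun σ hσ => by
          rw [hS, Finset.mem_filter] at hσ
          exact hσ.2)
      have h2 : (Fintype.card ((Fin m ⊕ Fin N) × Bool) : ℝ) = 2 * (m + N) := by
        rw [Fintype.card_prod, Fintype.card_sum, Fintype.card_fin, Fintype.card_fin,
          Fintype.card_bool]
        push_cast; ring
      rwa [h2] at h1
    have hsub : (Finset.univ.filter fun x => code x = code x0) ⊆
        Fintype.piFinset (fun _ : Fin N => S) := by
      intro x hx
      rw [Finset.mem_filter] at hx
      have hs : s x = s x0 := congrArg Prod.fst hx.2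
      have hr : ∀ i k, rnd m (Λ x i k) = rnd m (Λ x0 i k) := fun i k =>
        congrFun (congrFun (congrArg Prod.snd hx.2) i) k
      have hcx := hc x
      rw [hs] at hcx
      have hcomp := compare hm hD hcx (hc x0) (abs_le_J x0) (fun i k =>
        rnd_eq hm ((hcx.bd i k).trans hDm) (((hc x0).bd i k).trans hDm) (hr i k))
      rw [Fintype.mem_piFinset]
      intro i
      rw [hS, Finset.mem_filter]
      refine ⟨Finset.mem_univ _, fun z => ?_⟩
      obtain ⟨t, ht⟩ := exists_atom hm x0 z
      refine ⟨t, ?_⟩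
      calc ∑ k, sg (x i k) * z k ≤ |∑ k, sg (x i k) * z k| := le_abs_self _
        _ ≤ Real.sqrt m * ‖J x z‖ := inner_le_J hm x z i
        _ ≤ Real.sqrt m * ((D + 1 / 2) * ‖J x0 z‖) :=
            mul_le_mul_of_nonneg_left (hcomp z) (Real.sqrt_nonneg _)
        _ = (D + 1 / 2) * (Real.sqrt m * ‖J x0 z‖) := by ring
        _ ≤ (D + 1 / 2) * ∑ k, atom x0 t k * z k :=
            mul_le_mul_of_nonneg_left ht (by linarith)
    calc (((Finset.univ : Finset (Fin N → Fin m → Bool)).filter
          fun x => code x = code x0).card : ℝ)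
        ≤ ((Fintype.piFinset (fun _ : Fin N => S)).card : ℝ) := by
          exact_mod_cast Finset.card_le_card hsub
      _ = (S.card : ℝ) ^ N := by
          rw [Fintype.card_piFinset_const]; push_cast; rfl
      _ ≤ B ^ N := pow_le_pow_left₀ (Nat.cast_nonneg _) hScard N
  have hcard := Finset.card_le_mul_card_image (f := code)
    (Finset.univ : Finset (Fin N → Fin m → Bool)) (⌊B ^ N⌋₊) (by
      intro b hb
      obtain ⟨x0, _, rfl⟩ := Finset.mem_image.1 hb
      exact Nat.le_floor (hfib x0))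
  have himg : (Finset.univ.image code).card ≤ Fintype.card (Code m) := Finset.card_le_univ _
  have hcu : ((Finset.univ : Finset (Fin N → Fin m → Bool)).card : ℝ) = ((2 : ℝ) ^ m) ^ N := by
    rw [Finset.card_univ, Fintype.card_fun, Fintype.card_fun, Fintype.card_fin, Fintype.card_fin,
      Fintype.card_bool]
    push_cast; rfl
  calc ((2 : ℝ) ^ m) ^ N = ((Finset.univ : Finset (Fin N → Fin m → Bool)).card : ℝ) := hcu.symm
    _ ≤ ((⌊B ^ N⌋₊ * (Finset.univ.image code).card : ℕ) : ℝ) := by exact_mod_cast hcard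
    _ = (⌊B ^ N⌋₊ : ℝ) * ((Finset.univ.image code).card : ℝ) := by push_cast; ring
    _ ≤ B ^ N * (Fintype.card (Code m) : ℝ) := by
        refine mul_le_mul (Nat.floor_le (by positivity)) ?_ (Nat.cast_nonneg _) (by positivity)
        exact_mod_cast himg

end Pool.Agent.Helper689.CL
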