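import Mathlib
import Pool.Agent.Helper689.CL7

set_option autoImplicit false

namespace Pool.Agent.Helper689.CL

open Finset

theorem le_exp_div_eight {m : ℕ} (hm : 128 ≤ m) : (m : ℝ) ≤ Real.exp (m / 8) := by
  have h1 : (128 : ℝ) ≤ m := by exact_mod_cast hm
  have h2 := Real.quadratic_le_exp_of_nonneg (x := (m : ℝ) / 8) (by positivity)
  nlinarith

theorem entry_bound {m : ℕ} (hm : 128 ≤ m) :
    ((2 * (mesh m * m) + 1 : ℕ) : ℝ) ≤ Real.exp (m ^ 2) := by
  have h1 : (128 : ℝ) ≤ m := by exact_mod_cast hm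
  have h0 := le_exp_div_eight hm
  have hfac : (m.factorial : ℝ) ≤ Real.exp (m / 8) ^ m := by
    calc (m.factorial : ℝ) ≤ (m : ℝ) ^ m := by exact_mod_cast Nat.factorial_le_pow m
      _ ≤ Real.exp (m / 8) ^ m := pow_le_pow_left₀ (by positivity) h0 m
  have hfac1 : (1 : ℝ) ≤ (m.factorial : ℝ) := by
    exact_mod_cast Nat.succ_le_of_lt (Nat.factorial_pos m)
  have hm4 : (m : ℝ) ^ 4 ≤ Real.exp (m / 8) ^ 4 := pow_le_pow_left₀ (by positivity) h0 4
  have e5 : (5 : ℝ) ≤ Real.exp 2 := by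
    have := Real.quadratic_le_exp_of_nonneg (x := 2) (by norm_num)
    linarith
  have hm41 : (1 : ℝ) ≤ (m : ℝ) ^ 4 := one_le_pow₀ (by linarith)
  calc ((2 * (mesh m * m) + 1 : ℕ) : ℝ) = 4 * (m : ℝ) ^ 4 * (m.factorial : ℝ) + 1 := by
        unfold mesh; push_cast; ring
    _ ≤ 5 * (m : ℝ) ^ 4 * (m.factorial : ℝ) := by
        have : (1 : ℝ) ≤ (m : ℝ) ^ 4 * (m.factorial : ℝ) := one_le_mul_of_one_le_of_one_le hm41 hfac1
        linarith
    _ ≤ Real.exp 2 * Real.exp (m / 8) ^ 4 * Real.exp (m / 8) ^ m := by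
        refine mul_le_mul (mul_le_mul e5 hm4 (by positivity) (by positivity)) hfac
          (by positivity) (by positivity)
    _ = Real.exp (2 + m / 2 + m * (m / 8)) := by
        rw [← Real.exp_nat_mul, ← Real.exp_nat_mul, ← Real.exp_add, ← Real.exp_add]
        congr 1; push_cast; ring
    _ ≤ Real.exp (m ^ 2) := by
        apply Real.exp_le_exp.2
        nlinarith

theorem card_code_le {m : ℕ} (hm : 128 ≤ m) :
    (Fintype.card (Code m) : ℝ) ≤ Real.exp ((m : ℝ) ^ 3 + (m : ℝ) ^ 4) := by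
  have h2 : (2 : ℝ) ≤ Real.exp 1 := by
    have := Real.add_one_le_exp (1 : ℝ)
    linarith
  have hcard : (Fintype.card (Code m) : ℝ) =
      ((2 : ℝ) ^ m) ^ (m * m) * ((((2 * (mesh m * m) + 1 : ℕ) : ℝ)) ^ m) ^ m := by
    simp only [Code, Fintype.card_prod, Fintype.card_fun, Fintype.card_fin, Fintype.card_bool]
    push_cast; ring
  rw [hcard]
  calc ((2 : ℝ) ^ m) ^ (m * m) * ((((2 * (mesh m * m) + 1 : ℕ) : ℝ)) ^ m) ^ m
      ≤ ((Real.exp 1) ^ m) ^ (m * m) * ((Real.exp (m ^ 2)) ^ m) ^ m := by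
        refine mul_le_mul ?_ ?_ (by positivity) (by positivity)
        · exact pow_le_pow_left₀ (by positivity) (pow_le_pow_left₀ (by positivity) h2 _) _
        · exact pow_le_pow_left₀ (by positivity)
            (pow_le_pow_left₀ (by positivity) (entry_bound hm) _) _
    _ = Real.exp ((m : ℝ) ^ 3 + (m : ℝ) ^ 4) := by
        rw [← Real.exp_nat_mul, ← Real.exp_nat_mul, ← Real.exp_nat_mul, ← Real.exp_nat_mul,
          ← Real.exp_add]
        congr 1; push_cast; ring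

theorem final_numeric {m n : ℕ} (hm : 128 ≤ m) (hn : 5 * n * Real.log m ≤ m / 16)
    (h : ((2 : ℝ) ^ m) ^ (m ^ 4) ≤
      (Real.exp (3 * m / 8) * (2 * (m + (m ^ 4 : ℕ)) : ℝ) ^ n) ^ (m ^ 4) *
        (Fintype.card (Code m) : ℝ)) : False := by
  have h1 : (128 : ℝ) ≤ m := by exact_mod_cast hm
  have hm0 : (0 : ℝ) < m := by linarith
  have hN : (2 * (m + (m ^ 4 : ℕ)) : ℝ) ≤ (m : ℝ) ^ 5 := by
    push_cast
    have e1 : (m : ℝ) ≤ (m : ℝ) ^ 4 := le_self_pow₀ (by linarith) (by norm_num)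
    have e2 : (m : ℝ) ^ 5 = m * (m : ℝ) ^ 4 := by ring
    rw [e2]
    have e3 : 0 < (m : ℝ) ^ 4 := by positivity
    nlinarith
  have hpow : (2 * (m + (m ^ 4 : ℕ)) : ℝ) ^ n ≤ Real.exp (m / 16) := by
    calc (2 * (m + (m ^ 4 : ℕ)) : ℝ) ^ n ≤ ((m : ℝ) ^ 5) ^ n :=
          pow_le_pow_left₀ (by positivity) hN n
      _ = Real.exp (5 * n * Real.log m) := by
          conv_lhs => rw [← Real.exp_log hm0]
          rw [← Real.exp_nat_mul, ← Real.exp_nat_mul]
          congr 1; push_cast; ring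
      _ ≤ Real.exp (m / 16) := Real.exp_le_exp.2 hn
  have hR : (Real.exp (3 * m / 8) * (2 * (m + (m ^ 4 : ℕ)) : ℝ) ^ n) ^ (m ^ 4) *
        (Fintype.card (Code m) : ℝ) ≤
      Real.exp ((m : ℝ) ^ 4 * (3 * m / 8 + m / 16) + ((m : ℝ) ^ 3 + (m : ℝ) ^ 4)) := by
    calc (Real.exp (3 * m / 8) * (2 * (m + (m ^ 4 : ℕ)) : ℝ) ^ n) ^ (m ^ 4) *
        (Fintype.card (Code m) : ℝ)
        ≤ (Real.exp (3 * m / 8) * Real.exp (m / 16)) ^ (m ^ 4) *
          Real.exp ((m : ℝ) ^ 3 + (m : ℝ) ^ 4) := by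
          refine mul_le_mul ?_ (card_code_le hm) (Nat.cast_nonneg _) (by positivity)
          refine pow_le_pow_left₀ (by positivity) ?_ _
          exact mul_le_mul_of_nonneg_left hpow (Real.exp_pos _).le
      _ = _ := by
          rw [← Real.exp_add, ← Real.exp_nat_mul, ← Real.exp_add]
          congr 1; push_cast; ring
  have hL : Real.exp ((m : ℝ) ^ 4 * (m * Real.log 2)) = ((2 : ℝ) ^ m) ^ (m ^ 4) := by
    conv_rhs => rw [← Real.exp_log (show (0 : ℝ) < 2 by norm_num)]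
    rw [← Real.exp_nat_mul, ← Real.exp_nat_mul]
    congr 1; push_cast; ring
  have hfin := h.trans hR
  rw [← hL, Real.exp_le_exp] at hfin
  have hlog := Real.log_two_gt_d9
  have h4 : 0 < (m : ℝ) ^ 4 := by positivity
  have h3 : (m : ℝ) ^ 3 ≤ (m : ℝ) ^ 4 := pow_le_pow_right₀ (by linarith) (by norm_num)
  have h5 : (m : ℝ) ^ 4 * (m * Real.log 2 - (3 * m / 8 + m / 16) - 2) ≤ 0 := by
    nlinarith
  have h6 : 0 < m * Real.log 2 - (3 * m / 8 + m / 16) - 2 := by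
    nlinarith
  exact absurd h5 (not_le.2 (mul_pos h4 h6))

end Pool.Agent.Helper689.CL
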