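import Mathlib
import Pool.Agent.Helper689.CL8

set_option autoImplicit false

namespace Pool.Agent.Helper689.CL

open Finset

universe u

theorem one_le_bmDist {X Y : Type*} [NormedAddCommGroup X] [NormedSpace ℝ X]
    [NormedAddCommGroup Y] [NormedSpace ℝ Y] [Nontrivial X]
    (hne : Nonempty (X ≃L[ℝ] Y)) : 1 ≤ bmDist X Y := by
  refine le_csInf ?_ ?_
  · obtain ⟨T⟩ := hne
    exact ⟨_, T, rfl⟩
  · rintro d ⟨T, rfl⟩
    exact T.one_le_norm_mul_norm_symm

theorem main (m : ℕ) (hm : 2 ≤ m) :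
    ∃ (X : Type) (_ : NormedAddCommGroup X) (_ : NormedSpace ℝ X), Module.finrank ℝ X = m ∧
      ∀ (Y : Type u) [NormedAddCommGroup Y] [NormedSpace ℝ Y], Module.finrank ℝ Y = m →
        numIndex Y = 1 → (1 / 100) * Real.sqrt (m / Real.log m) ≤ bmDist X Y := by
  classical
  have hm1 : 1 ≤ m := by omega
  have hmR : (2 : ℝ) ≤ m := by exact_mod_cast hm
  have hlog2 := Real.log_two_gt_d9
  have hlogm : Real.log 2 ≤ Real.log m := Real.log_le_log (by norm_num) hmR
  have hlog0 : 0 < Real.log m := by linarith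
  have hcle : ∀ (X : Type) [NormedAddCommGroup X] [NormedSpace ℝ X], Module.finrank ℝ X = m →
      ∀ (Y : Type u) [NormedAddCommGroup Y] [NormedSpace ℝ Y], Module.finrank ℝ Y = m →
      Nonempty (X ≃L[ℝ] Y) := by
    intro X _ _ hX Y _ _ hY
    have : FiniteDimensional ℝ X := FiniteDimensional.of_finrank_pos (by omega)
    have : FiniteDimensional ℝ Y := FiniteDimensional.of_finrank_pos (by omega)
    exact ⟨ContinuousLinearEquiv.ofFinrankEq (hX.trans hY.symm)⟩
  set R : ℝ := (1 / 100) * Real.sqrt (m / Real.log m) with hR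
  rcases le_or_gt R 1 with hR1 | hR1
  · refine ⟨Fin m → ℝ, inferInstance, inferInstance, by simp, ?_⟩
    intro Y _ _ hY _
    have : Nontrivial (Fin m → ℝ) := by
      have : Nonempty (Fin m) := ⟨⟨0, hm1⟩⟩
      infer_instance
    exact hR1.trans (one_le_bmDist (hcle (Fin m → ℝ) (by simp) Y hY))
  · by_contra hcon
    push Not at hcon
    have hRsq : R ^ 2 * Real.log m = m / 10000 := by
      rw [hR, mul_pow, Real.sq_sqrt (by positivity)]
      field_simp
      norm_num
    have hR0 : 0 ≤ R := by linarith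
    have hRsq1 : 1 ≤ R ^ 2 := by nlinarith
    have hm128 : 128 ≤ m := by
      have h1 : Real.log m ≤ m / 10000 := by
        rw [← hRsq]
        exact le_mul_of_one_le_left hlog0.le hRsq1
      have h2 : (128 : ℝ) ≤ m := by linarith
      exact_mod_cast h2
    have hRm : R ≤ m := by
      have h1 : R ^ 2 * Real.log 2 ≤ m / 10000 := by
        rw [← hRsq]
        exact mul_le_mul_of_nonneg_left hlogm (by positivity)
      have h2 : R ^ 2 ≤ m := by nlinarith
      nlinarith
    -- the test spaces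
    have hall : ∀ x : Fin (m ^ 4) → Fin m → Bool, ∃ s Λ, Coded R (fun z => ‖J x z‖) s Λ := by
      intro x
      have hfr : Module.finrank ℝ (LinearMap.range (J x)) = m := by
        rw [LinearMap.finrank_range_of_inj (J_injective x)]
        simp
      obtain ⟨Y, _, _, hY, hYn, hd⟩ := hcon (LinearMap.range (J x)) inferInstance inferInstance hfr
      have hYfd : FiniteDimensional ℝ Y := FiniteDimensional.of_finrank_pos (by omega)
      obtain ⟨T0⟩ := hcle (LinearMap.range (J x)) hfr Y hY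
      have hset : ({d : ℝ | ∃ T : LinearMap.range (J x) ≃L[ℝ] Y,
          d = ‖(T : LinearMap.range (J x) →L[ℝ] Y)‖ *
            ‖(T.symm : Y →L[ℝ] LinearMap.range (J x))‖}).Nonempty := ⟨_, T0, rfl⟩
      obtain ⟨d, ⟨T, rfl⟩, hT⟩ := exists_lt_of_csInf_lt hset hd
      let c : ℝ := ‖(T.symm : Y →L[ℝ] LinearMap.range (J x))‖
      have hc0 : 0 ≤ c := (T.symm : Y →L[ℝ] LinearMap.range (J x)).opNorm_nonneg
      let A : (Fin m → ℝ) →ₗ[ℝ] Y :=
        c • ((T : LinearMap.range (J x) →ₗ[ℝ] Y).comp (J x).rangeRestrict)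
      have hA : ∀ z, A z = c • T ((J x).rangeRestrict z) := fun z => rfl
      have hJn : ∀ z, ‖(J x).rangeRestrict z‖ = ‖J x z‖ := fun z => rfl
      refine coded_of_close hm1 hY hYn A (fun z => ‖J x z‖) hR0 ?_ ?_ (J_single_le hm1 x)
      · intro z
        show ‖J x z‖ ≤ ‖A z‖
        rw [hA, norm_smul, Real.norm_of_nonneg hc0, ← hJn]
        calc ‖(J x).rangeRestrict z‖ = ‖T.symm (T ((J x).rangeRestrict z))‖ := by
              rw [T.symm_apply_apply]
          _ ≤ c * ‖T ((J x).rangeRestrict z)‖ :=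
              (T.symm : Y →L[ℝ] LinearMap.range (J x)).le_opNorm _
      · intro z
        show ‖A z‖ ≤ R * ‖J x z‖
        rw [hA, norm_smul, Real.norm_of_nonneg hc0, ← hJn]
        calc c * ‖T ((J x).rangeRestrict z)‖
            ≤ c * (‖(T : LinearMap.range (J x) →L[ℝ] Y)‖ * ‖(J x).rangeRestrict z‖) :=
              mul_le_mul_of_nonneg_left
                ((T : LinearMap.range (J x) →L[ℝ] Y).le_opNorm _) hc0
          _ = (‖(T : LinearMap.range (J x) →L[ℝ] Y)‖ * c) * ‖(J x).rangeRestrict z‖ := by ring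
          _ ≤ R * ‖(J x).rangeRestrict z‖ :=
              mul_le_mul_of_nonneg_right hT.le (norm_nonneg _)
    -- number of steps
    set n : ℕ := ⌈16 * (1 + (R + 1 / 2)) ^ 2⌉₊ with hn
    have hn1 : 16 * (1 + (R + 1 / 2)) ^ 2 ≤ n := Nat.le_ceil _
    have hn2 : (n : ℝ) ≤ 101 * R ^ 2 := by
      have h1 : (n : ℝ) < 16 * (1 + (R + 1 / 2)) ^ 2 + 1 := Nat.ceil_lt_add_one (by positivity)
      nlinarith
    have hn3 : 5 * n * Real.log m ≤ m / 16 := by
      have h1 : (n : ℝ) * Real.log m ≤ 101 * R ^ 2 * Real.log m :=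
        mul_le_mul_of_nonneg_right hn2 hlog0.le
      have h2 : 101 * R ^ 2 * Real.log m = 101 * (m / 10000) := by rw [mul_assoc, hRsq]
      nlinarith
    exact final_numeric hm128 hn3 (count hm1 hR0 hRm hn1 hall)

end Pool.Agent.Helper689.CL
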