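import Mathlib

set_option autoImplicit false

open MeasureTheory Set Filter Topology Metric

namespace IB

/-- A parametric integral of holomorphic functions with an integrable bound is holomorphic. -/
lemma holInt {α : Type*} [MeasurableSpace α] {μ : Measure α} {f : ℂ → α → ℂ} {r : ℝ}
    (hf : ∀ x, DifferentiableOn ℂ (fun s => f s x) (ball 0 r))
    (hm : ∀ s ∈ ball (0:ℂ) r, AEStronglyMeasurable (f s) μ) {b : α → ℝ} (hb : Integrable b μ)
    (hbd : ∀ s ∈ ball (0:ℂ) r, ∀ x, ‖f s x‖ ≤ b x) :
    DifferentiableOn ℂ (fun s => ∫ x, f s x ∂μ) (ball 0 r) := by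
  intro s0 hs0
  obtain ⟨ε, hε, hball⟩ : ∃ ε > 0, ball s0 (2 * ε) ⊆ ball (0:ℂ) r := by
    obtain ⟨ε, hε, h⟩ := Metric.isOpen_iff.1 isOpen_ball s0 hs0
    exact ⟨ε / 2, by positivity, by convert h using 2; ring⟩
  have hsub : ball s0 ε ⊆ ball (0:ℂ) r := (ball_subset_ball (by linarith)).trans hball
  have hder : ∀ x, ∀ s ∈ ball s0 ε, HasDerivAt (fun s => f s x) (deriv (fun s => f s x) s) s := by
    intro x s hs
    exact ((hf x).differentiableAt (isOpen_ball.mem_nhds (hsub hs))).hasDerivAt
  have hderb : ∀ x, ∀ s ∈ ball s0 ε, ‖deriv (fun s => f s x) s‖ ≤ b x / (ε / 2) := by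
    intro x s hs
    have hs' : closedBall s (ε / 2) ⊆ ball (0:ℂ) r := by
      refine Subset.trans ?_ hball
      intro z hz
      rw [mem_ball] at hs ⊢
      rw [mem_closedBall] at hz
      have := dist_triangle z s s0
      linarith
    refine Complex.norm_deriv_le_of_forall_mem_sphere_norm_le (by positivity) ?_ ?_
    · exact ((hf x).mono hs').diffContOnCl_ball (subset_refl _) |>.mono (subset_refl _)
    · intro z hz
      exact hbd z (hs' (sphere_subset_closedBall hz)) x
  have hmder : AEStronglyMeasurable (fun x => deriv (fun s => f s x) s0) μ := by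
    -- limit of difference quotients
    obtain ⟨N, hN⟩ : ∃ N : ℕ, ∀ n : ℕ, s0 + ((ε / (N + n + 2) : ℝ) : ℂ) ∈ ball (0:ℂ) r := by
      refine ⟨0, fun n => hsub ?_⟩
      rw [mem_ball, dist_eq_norm]
      have h1 : (0:ℝ) < ((0:ℕ):ℝ) + (n:ℝ) + 2 := by positivity
      have : ‖s0 + ((ε / (((0:ℕ):ℝ) + n + 2) : ℝ) : ℂ) - s0‖ = ε / (((0:ℕ):ℝ) + n + 2) := by
        rw [add_sub_cancel_left, Complex.norm_real, Real.norm_eq_abs, abs_of_pos (by positivity)]
      rw [this]
      refine div_lt_self hε ?_
      push_cast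
      linarith [(Nat.cast_nonneg n : (0:ℝ) ≤ n)]
    refine aestronglyMeasurable_of_tendsto_ae (u := atTop)
      (f := fun (n : ℕ) x => ((((ε / (N + n + 2) : ℝ) : ℂ)))⁻¹ •
        (f (s0 + ((ε / (N + n + 2) : ℝ) : ℂ)) x - f s0 x)) ?_ ?_
    · intro n
      exact ((hm _ (hN n)).sub (hm s0 hs0)).const_smul ((((ε / (N + n + 2) : ℝ) : ℂ)))⁻¹
    · refine Eventually.of_forall fun x => ?_
      have h1 := (hder x s0 (mem_ball_self hε)).tendsto_slope_zero
      refine h1.comp ?_
      rw [tendsto_nhdsWithin_iff]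
      constructor
      · have h2 : Tendsto (fun n : ℕ => (ε / ((N:ℝ) + n + 2) : ℝ)) atTop (𝓝 0) := by
          refine Tendsto.div_atTop tendsto_const_nhds ?_
          refine tendsto_atTop_add_const_right _ _ ?_
          exact tendsto_atTop_add_const_left _ _ tendsto_natCast_atTop_atTop
        have h3 := (Complex.continuous_ofReal.tendsto 0).comp h2
        rw [Complex.ofReal_zero] at h3
        exact h3
      · refine Eventually.of_forall fun n => ?_
        have : (0:ℝ) < (N:ℝ) + n + 2 := by positivity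
        simp only [mem_compl_iff, mem_singleton_iff, Complex.ofReal_eq_zero]
        positivity
  have := hasDerivAt_integral_of_dominated_loc_of_deriv_le (μ := μ) (F := f)
    (F' := fun s x => deriv (fun s => f s x) s) (x₀ := s0) (s := ball s0 ε)
    (bound := fun x => b x / (ε / 2)) (ball_mem_nhds _ hε) ?_ ?_ hmder ?_ (hb.div_const _) ?_
  · exact this.2.differentiableAt.differentiableWithinAt
  · filter_upwards [isOpen_ball.mem_nhds hs0] with s hs
    exact hm s hs
  · exact Integrable.mono' hb (hm s0 hs0) (Eventually.of_forall fun x => hbd s0 hs0 x)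
  · exact Eventually.of_forall fun x s hs => hderb x s hs
  · exact Eventually.of_forall fun x s hs => hder x s hs

end IB
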