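import Mathlib
import Pool.Agent.Helper689.IBHol

set_option autoImplicit false

open MeasureTheory Set Filter Topology Metric Real

namespace IB

/-- squared radius in the chart -/
noncomputable def R2 {m : ℕ} (x : ℝ × (Fin m → ℝ)) : ℝ := 1 + x.1 ^ 2 + ∑ j, x.2 j ^ 2

lemma one_le_R2 {m : ℕ} (x : ℝ × (Fin m → ℝ)) : 1 ≤ R2 x := by
  unfold R2
  have : 0 ≤ ∑ j, x.2 j ^ 2 := Finset.sum_nonneg fun j _ => sq_nonneg _
  nlinarith [sq_nonneg x.1]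

lemma R2_pos {m : ℕ} (x : ℝ × (Fin m → ℝ)) : 0 < R2 x := lt_of_lt_of_le one_pos (one_le_R2 x)

lemma continuous_R2 {m : ℕ} : Continuous (R2 (m := m)) := by
  unfold R2; fun_prop

lemma norm_sq_le_R2 {m : ℕ} (x : ℝ × (Fin m → ℝ)) : 1 + ‖x‖ ^ 2 ≤ R2 x := by
  have hs : ∀ j, x.2 j ^ 2 ≤ ∑ j, x.2 j ^ 2 := fun j =>
    Finset.single_le_sum (f := fun j => x.2 j ^ 2) (fun j _ => sq_nonneg _) (Finset.mem_univ j)
  have h0 : 0 ≤ ∑ j, x.2 j ^ 2 := Finset.sum_nonneg fun j _ => sq_nonneg _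
  have h1 : ‖x‖ ≤ √(x.1 ^ 2 + ∑ j, x.2 j ^ 2) := by
    rw [Prod.norm_def]
    refine max_le ?_ ?_
    · rw [Real.norm_eq_abs]
      refine Real.abs_le_sqrt ?_
      linarith
    · rw [pi_norm_le_iff_of_nonneg (Real.sqrt_nonneg _)]
      intro j
      rw [Real.norm_eq_abs]
      refine Real.abs_le_sqrt ?_
      nlinarith [hs j, sq_nonneg x.1]
  have h2 : ‖x‖ ^ 2 ≤ x.1 ^ 2 + ∑ j, x.2 j ^ 2 := by
    have := Real.sq_sqrt (by positivity : 0 ≤ x.1 ^ 2 + ∑ j, x.2 j ^ 2)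
    rw [← this]
    gcongr
  unfold R2; linarith

instance instHaarProd (m : ℕ) : (volume : Measure (ℝ × (Fin m → ℝ))).IsAddHaarMeasure := by
  rw [Measure.volume_eq_prod]; infer_instance

lemma integrable_R2_rpow {m : ℕ} {r : ℝ} (hr : (m : ℝ) + 1 < r) :
    Integrable (fun x : ℝ × (Fin m → ℝ) => (R2 x) ^ (-r / 2)) := by
  have hfr : (Module.finrank ℝ (ℝ × (Fin m → ℝ)) : ℝ) < r := by
    simp only [Module.finrank_prod, Module.finrank_self, Module.finrank_pi, Fintype.card_fin]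
    push_cast; linarith
  have h := integrable_rpow_neg_one_add_norm_sq (E := ℝ × (Fin m → ℝ)) (μ := volume) hfr
  refine h.mono' ?_ ?_
  · exact (continuous_R2.rpow_const (fun x => Or.inl (R2_pos x).ne')).aestronglyMeasurable
  · refine Eventually.of_forall fun x => ?_
    have hm0 : (0:ℝ) ≤ m := Nat.cast_nonneg m
    rw [Real.norm_eq_abs, abs_of_nonneg (rpow_nonneg (R2_pos x).le _)]
    exact rpow_le_rpow_of_nonpos (by positivity) (norm_sq_le_R2 x) (by linarith)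

lemma norm_pow_sub_pow_le' {z w : ℂ} {M : ℝ} (hz : ‖z‖ ≤ M) (hw : ‖w‖ ≤ M) (k : ℕ) :
    ‖z ^ k - w ^ k‖ ≤ k * M ^ (k - 1) * ‖z - w‖ := by
  have hM : 0 ≤ M := (norm_nonneg _).trans hz
  induction k with
  | zero => simp
  | succ k ih =>
    rcases Nat.eq_zero_or_pos k with hk | hk
    · subst hk; simp
    have e : z ^ (k + 1) - w ^ (k + 1) = z * (z ^ k - w ^ k) + (z - w) * w ^ k := by ring
    rw [e]
    have e2 : M * M ^ (k - 1) = M ^ k := by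
      rw [← pow_succ']; congr 1; omega
    calc ‖z * (z ^ k - w ^ k) + (z - w) * w ^ k‖ ≤ ‖z‖ * ‖z ^ k - w ^ k‖ + ‖z - w‖ * ‖w‖ ^ k := by
          refine (norm_add_le _ _).trans ?_
          rw [norm_mul, norm_mul, norm_pow]
      _ ≤ M * (k * M ^ (k - 1) * ‖z - w‖) + ‖z - w‖ * M ^ k := by gcongr
      _ = k * (M * M ^ (k - 1)) * ‖z - w‖ + ‖z - w‖ * M ^ k := by ring
      _ = (k + 1) * M ^ k * ‖z - w‖ := by rw [e2]; ring
      _ = ((k + 1 : ℕ) : ℝ) * M ^ (k + 1 - 1) * ‖z - w‖ := by push_cast; rfl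

section
variable {ι : Type*} [Fintype ι]

/-- the polynomial, complexified in `s` -/
noncomputable def qc (p : ℕ) (ε : ℝ) (α β : ι → ℝ) (r2 : ℝ) (s : ℂ) : ℂ :=
  ∑ i, ((α i : ℂ) + s * (β i : ℂ)) ^ (2 * p) + (ε : ℂ) * ((r2 : ℂ) + s ^ 2) ^ p

noncomputable def qr (p : ℕ) (ε : ℝ) (α β : ι → ℝ) (r2 : ℝ) (s : ℝ) : ℝ :=
  ∑ i, (α i + s * β i) ^ (2 * p) + ε * (r2 + s ^ 2) ^ p

lemma qc_real (p : ℕ) (ε : ℝ) (α β : ι → ℝ) (r2 : ℝ) (s : ℝ) :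
    qc p ε α β r2 (s:ℂ) = (qr p ε α β r2 s : ℂ) := by
  unfold qc qr; push_cast; rfl

lemma qr_lower (p : ℕ) (ε : ℝ) (α β : ι → ℝ) (r2 : ℝ) (s : ℝ) :
    ε * (r2 + s ^ 2) ^ p ≤ qr p ε α β r2 s := by
  unfold qr
  have : 0 ≤ ∑ i, (α i + s * β i) ^ (2 * p) := Finset.sum_nonneg fun i _ => by
    rw [pow_mul]; positivity
  linarith

lemma qc_diff (p : ℕ) {ε : ℝ} (hε : 0 < ε) {A : ℝ} (hA : 0 ≤ A) :
    ∃ C : ℝ, 0 < C ∧ ∀ (α β : ι → ℝ) (R : ℝ) (s : ℂ), 1 ≤ R → (∀ i, |α i| ≤ A * R) →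
      (∀ i, |β i| ≤ A) → ‖s‖ ≤ 1 →
      ‖qc p ε α β (R ^ 2) s - qc p ε α β (R ^ 2) 0‖ ≤ C * ‖s‖ * R ^ (2 * p) := by
  refine ⟨(Fintype.card ι) * ((2 * p : ℕ) * (2 * A) ^ (2 * p - 1) * A) + ε * (p * 2 ^ (p - 1)) + 1,
    by positivity, ?_⟩
  intro α β R s hR hα hβ hs
  have hR0 : 0 < R := by linarith
  have e : qc p ε α β (R ^ 2) s - qc p ε α β (R ^ 2) 0
      = ∑ i, (((α i : ℂ) + s * (β i : ℂ)) ^ (2 * p) - (α i : ℂ) ^ (2 * p))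
        + (ε : ℂ) * ((((R ^ 2 : ℝ) : ℂ) + s ^ 2) ^ p - (((R ^ 2 : ℝ) : ℂ)) ^ p) := by
    unfold qc
    rw [Finset.sum_sub_distrib]
    simp only [zero_mul, add_zero, ne_eq, OfNat.ofNat_ne_zero, not_false_eq_true, zero_pow]
    ring
  rw [e]
  have t1 : ∀ i, ‖((α i : ℂ) + s * (β i : ℂ)) ^ (2 * p) - (α i : ℂ) ^ (2 * p)‖
      ≤ ((2 * p : ℕ) * (2 * A) ^ (2 * p - 1) * A) * (‖s‖ * R ^ (2 * p)) := by
    intro i
    have b0 : ‖(α i : ℂ)‖ ≤ 2 * A * R := by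
      rw [Complex.norm_real, Real.norm_eq_abs]
      have := hα i
      nlinarith [mul_nonneg hA hR0.le]
    have b1 : ‖(α i : ℂ) + s * (β i : ℂ)‖ ≤ 2 * A * R := by
      refine (norm_add_le _ _).trans ?_
      rw [norm_mul, Complex.norm_real, Complex.norm_real, Real.norm_eq_abs, Real.norm_eq_abs]
      have h1 := hα i
      have h2 : ‖s‖ * |β i| ≤ 1 * A := by
        gcongr; exact hβ i
      nlinarith [mul_le_mul_of_nonneg_left hR hA]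
    have h := norm_pow_sub_pow_le' b1 b0 (2 * p)
    refine h.trans ?_
    rw [add_sub_cancel_left, norm_mul, Complex.norm_real, Real.norm_eq_abs, mul_pow]
    rcases Nat.eq_zero_or_pos p with hp | hp
    · subst hp; simp
    have hRp : R ^ (2 * p - 1) ≤ R ^ (2 * p) := pow_le_pow_right₀ hR (by omega)
    calc ((2 * p : ℕ) : ℝ) * ((2 * A) ^ (2 * p - 1) * R ^ (2 * p - 1)) * (‖s‖ * |β i|)
        ≤ ((2 * p : ℕ) : ℝ) * ((2 * A) ^ (2 * p - 1) * R ^ (2 * p)) * (‖s‖ * A) := by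
          gcongr
          exact hβ i
      _ = _ := by ring
  have t2 : ‖(((R ^ 2 : ℝ) : ℂ) + s ^ 2) ^ p - (((R ^ 2 : ℝ) : ℂ)) ^ p‖
      ≤ (p * 2 ^ (p - 1)) * (‖s‖ * R ^ (2 * p)) := by
    have hR2 : 1 ≤ R ^ 2 := one_le_pow₀ hR
    have b0 : ‖((R ^ 2 : ℝ) : ℂ)‖ ≤ 2 * R ^ 2 := by
      rw [Complex.norm_real, Real.norm_eq_abs, abs_of_nonneg (by positivity)]
      linarith
    have hs2 : ‖s‖ ^ 2 ≤ 1 := pow_le_one₀ (norm_nonneg _) hs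
    have b1 : ‖((R ^ 2 : ℝ) : ℂ) + s ^ 2‖ ≤ 2 * R ^ 2 := by
      refine (norm_add_le _ _).trans ?_
      rw [norm_pow, Complex.norm_real, Real.norm_eq_abs, abs_of_nonneg (by positivity : 0 ≤ R ^ 2)]
      linarith
    have h := norm_pow_sub_pow_le' b1 b0 p
    refine h.trans ?_
    rw [add_sub_cancel_left, norm_pow, mul_pow]
    rcases Nat.eq_zero_or_pos p with hp | hp
    · subst hp; simp
    have hRp : (R ^ 2) ^ (p - 1) ≤ R ^ (2 * p) := by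
      rw [← pow_mul]; exact pow_le_pow_right₀ hR (by omega)
    have hs3 : ‖s‖ ^ 2 ≤ ‖s‖ := by
      rw [sq]; exact mul_le_of_le_one_right (norm_nonneg _) hs
    calc (p:ℝ) * (2 ^ (p - 1) * (R ^ 2) ^ (p - 1)) * ‖s‖ ^ 2
        ≤ (p:ℝ) * (2 ^ (p - 1) * R ^ (2 * p)) * ‖s‖ := by gcongr
      _ = _ := by ring
  calc ‖∑ i, (((α i : ℂ) + s * (β i : ℂ)) ^ (2 * p) - (α i : ℂ) ^ (2 * p))
        + (ε : ℂ) * ((((R ^ 2 : ℝ) : ℂ) + s ^ 2) ^ p - (((R ^ 2 : ℝ) : ℂ)) ^ p)‖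
      ≤ (∑ i, ‖((α i : ℂ) + s * (β i : ℂ)) ^ (2 * p) - (α i : ℂ) ^ (2 * p)‖)
        + ε * ‖(((R ^ 2 : ℝ) : ℂ) + s ^ 2) ^ p - (((R ^ 2 : ℝ) : ℂ)) ^ p‖ := by
        refine (norm_add_le _ _).trans ?_
        rw [norm_mul, Complex.norm_real, Real.norm_eq_abs, abs_of_pos hε]
        gcongr
        exact norm_sum_le _ _
    _ ≤ (∑ _i : ι, ((2 * p : ℕ) * (2 * A) ^ (2 * p - 1) * A) * (‖s‖ * R ^ (2 * p)))
        + ε * ((p * 2 ^ (p - 1)) * (‖s‖ * R ^ (2 * p))) := by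
        gcongr
        exact t1 _
    _ = ((Fintype.card ι) * ((2 * p : ℕ) * (2 * A) ^ (2 * p - 1) * A) + ε * (p * 2 ^ (p - 1)))
          * ‖s‖ * R ^ (2 * p) := by
        rw [Finset.sum_const, Finset.card_univ, nsmul_eq_mul]; ring
    _ ≤ ((Fintype.card ι) * ((2 * p : ℕ) * (2 * A) ^ (2 * p - 1) * A) + ε * (p * 2 ^ (p - 1)) + 1)
          * ‖s‖ * R ^ (2 * p) := by
        have : 0 ≤ ‖s‖ * R ^ (2 * p) := by positivity
        nlinarith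

/-- Half-plane bound. -/
lemma qc_re_lower {p : ℕ} {ε : ℝ} (hε : 0 < ε) {A : ℝ} (hA : 0 ≤ A) :
    ∃ r : ℝ, 0 < r ∧ r ≤ 1 ∧ ∀ (α β : ι → ℝ) (R : ℝ) (s : ℂ), 1 ≤ R → (∀ i, |α i| ≤ A * R) →
      (∀ i, |β i| ≤ A) → ‖s‖ < r →
      ε / 2 * (R ^ 2) ^ p ≤ (qc p ε α β (R ^ 2) s).re := by
  obtain ⟨C, hC, h⟩ := qc_diff (ι := ι) p hε hA
  refine ⟨min 1 (ε / (2 * C)), by positivity, min_le_left _ _, ?_⟩
  intro α β R s hR hα hβ hs
  have hs1 : ‖s‖ ≤ 1 := (hs.trans_le (min_le_left _ _)).le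
  have hs2 : ‖s‖ < ε / (2 * C) := hs.trans_le (min_le_right _ _)
  have h1 := h α β R s hR hα hβ hs1
  have h2 : (qc p ε α β (R ^ 2) 0).re = qr p ε α β (R ^ 2) 0 := by
    have := qc_real p ε α β (R ^ 2) 0
    rw [Complex.ofReal_zero] at this
    rw [this, Complex.ofReal_re]
  have h3 := qr_lower p ε α β (R ^ 2) 0
  have h3' : ε * (R ^ 2) ^ p ≤ qr p ε α β (R ^ 2) 0 := by simpa using h3
  have h4 : |(qc p ε α β (R ^ 2) s - qc p ε α β (R ^ 2) 0).re| ≤ C * ‖s‖ * R ^ (2 * p) :=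
    (Complex.abs_re_le_norm _).trans h1
  rw [Complex.sub_re, h2] at h4
  have h5 : C * ‖s‖ * R ^ (2 * p) ≤ ε / 2 * (R ^ 2) ^ p := by
    rw [← pow_mul]
    gcongr
    calc C * ‖s‖ ≤ C * (ε / (2 * C)) := by gcongr
      _ = ε / 2 := by field_simp
  have := (abs_le.1 h4).1
  linarith

end

end IB
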