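import Mathlib
import Pool.Agent.Helper689.IBPoly

set_option autoImplicit false

open MeasureTheory Set Filter Topology Metric Real

namespace IB

/-- The ambient space. -/
abbrev EE (m : ℕ) := EuclideanSpace ℝ (Fin (m + 3))

/-- Parametrisation of the hyperplane orthogonal to `uvec θ s`. -/
noncomputable def pt {m : ℕ} (θ s a : ℝ) (x : ℝ × (Fin m → ℝ)) : EE m :=
  WithLp.toLp 2 (Fin.cons (a * s * cos θ - x.1 * sin θ)
    (Fin.cons (a * s * sin θ + x.1 * cos θ) (Fin.cons a x.2)))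

noncomputable def uvec (m : ℕ) (θ s : ℝ) : EE m :=
  WithLp.toLp 2 (Fin.cons (cos θ) (Fin.cons (sin θ) (Fin.cons (-s) (fun _ => 0))))

@[simp] lemma pt_zero {m : ℕ} (θ s a : ℝ) (x : ℝ × (Fin m → ℝ)) :
    pt θ s a x 0 = a * s * cos θ - x.1 * sin θ := rfl
@[simp] lemma pt_one {m : ℕ} (θ s a : ℝ) (x : ℝ × (Fin m → ℝ)) :
    pt θ s a x 1 = a * s * sin θ + x.1 * cos θ := rfl
@[simp] lemma pt_two {m : ℕ} (θ s a : ℝ) (x : ℝ × (Fin m → ℝ)) :
    pt θ s a x 2 = a := rfl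
@[simp] lemma pt_succ {m : ℕ} (θ s a : ℝ) (x : ℝ × (Fin m → ℝ)) (j : Fin m) :
    pt θ s a x j.succ.succ.succ = x.2 j := rfl

lemma norm_sq_EE {m : ℕ} (v : EE m) :
    ‖v‖ ^ 2 = v 0 ^ 2 + v 1 ^ 2 + v 2 ^ 2 + ∑ j : Fin m, v j.succ.succ.succ ^ 2 := by
  rw [EuclideanSpace.norm_sq_eq, Fin.sum_univ_succ, Fin.sum_univ_succ, Fin.sum_univ_succ]
  simp only [Real.norm_eq_abs, sq_abs]
  have h1 : (Fin.succ 0 : Fin (m + 3)) = 1 := rfl
  have h2 : (Fin.succ (Fin.succ 0) : Fin (m + 3)) = 2 := rfl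
  rw [h1, h2]; ring

lemma inner_EE {m : ℕ} (v w : EE m) :
    inner ℝ v w = v 0 * w 0 + v 1 * w 1 + v 2 * w 2 + ∑ j : Fin m, v j.succ.succ.succ * w j.succ.succ.succ := by
  rw [PiLp.inner_apply, Fin.sum_univ_succ, Fin.sum_univ_succ, Fin.sum_univ_succ]
  simp only [RCLike.inner_apply, conj_trivial]
  have h1 : (Fin.succ 0 : Fin (m + 3)) = 1 := rfl
  have h2 : (Fin.succ (Fin.succ 0) : Fin (m + 3)) = 2 := rfl
  rw [h1, h2]
  have : ∑ i : Fin m, w i.succ.succ.succ * v i.succ.succ.succ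
      = ∑ j : Fin m, v j.succ.succ.succ * w j.succ.succ.succ :=
    Finset.sum_congr rfl fun i _ => mul_comm _ _
  rw [this]; ring

lemma norm_sq_pt {m : ℕ} (θ s a : ℝ) (x : ℝ × (Fin m → ℝ)) :
    ‖pt θ s a x‖ ^ 2 = a ^ 2 * (1 + s ^ 2) + x.1 ^ 2 + ∑ j, x.2 j ^ 2 := by
  rw [norm_sq_EE]
  simp only [pt_zero, pt_one, pt_two, pt_succ]
  have := Real.sin_sq_add_cos_sq θ
  linear_combination (a ^ 2 * s ^ 2 + x.1 ^ 2) * this

lemma norm_sq_pt_one {m : ℕ} (θ s : ℝ) (x : ℝ × (Fin m → ℝ)) :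
    ‖pt θ s 1 x‖ ^ 2 = R2 x + s ^ 2 := by
  rw [norm_sq_pt]; unfold R2; ring

lemma inner_uvec {m : ℕ} (θ s : ℝ) (v : EE m) :
    inner ℝ (uvec m θ s) v = v 0 * cos θ + v 1 * sin θ - s * v 2 := by
  rw [inner_EE]
  have e0 : uvec m θ s 0 = cos θ := rfl
  have e1 : uvec m θ s 1 = sin θ := rfl
  have e2 : uvec m θ s 2 = -s := rfl
  have e3 : ∀ j : Fin m, uvec m θ s j.succ.succ.succ = 0 := fun j => rfl
  simp only [e0, e1, e2, e3, zero_mul, Finset.sum_const_zero]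
  ring

lemma norm_sq_uvec {m : ℕ} (θ s : ℝ) : ‖uvec m θ s‖ ^ 2 = 1 + s ^ 2 := by
  rw [norm_sq_EE]
  have e0 : uvec m θ s 0 = cos θ := rfl
  have e1 : uvec m θ s 1 = sin θ := rfl
  have e2 : uvec m θ s 2 = -s := rfl
  have e3 : ∀ j : Fin m, uvec m θ s j.succ.succ.succ = 0 := fun j => rfl
  simp only [e0, e1, e2, e3]
  have := Real.sin_sq_add_cos_sq θ
  simp only [ne_eq, OfNat.ofNat_ne_zero, not_false_eq_true, zero_pow, Finset.sum_const_zero]
  linear_combination this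

lemma ext_EE {m : ℕ} {v w : EE m} (h0 : v 0 = w 0) (h1 : v 1 = w 1) (h2 : v 2 = w 2)
    (h3 : ∀ j : Fin m, v j.succ.succ.succ = w j.succ.succ.succ) : v = w := by
  ext i
  refine Fin.cases h0 (fun i => Fin.cases h1 (fun i => Fin.cases h2 h3 i) i) i

lemma pt_smul {m : ℕ} (θ s a c : ℝ) (x : ℝ × (Fin m → ℝ)) :
    c • pt θ s a x = pt θ s (c * a) (c • x) := by
  refine ext_EE ?_ ?_ ?_ ?_
  · simp; ring
  · simp; ring
  · simp
  · intro j; simp

lemma pt_add {m : ℕ} (θ s a b : ℝ) (x y : ℝ × (Fin m → ℝ)) :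
    pt θ s a x + pt θ s b y = pt θ s (a + b) (x + y) := by
  refine ext_EE ?_ ?_ ?_ ?_
  · simp; ring
  · simp; ring
  · simp
  · intro j; simp

lemma continuous_pt {m : ℕ} : Continuous (fun z : ℝ × ℝ × ℝ × (ℝ × (Fin m → ℝ)) =>
    pt (m := m) z.1 z.2.1 z.2.2.1 z.2.2.2) := by
  unfold pt
  refine (PiLp.continuous_toLp 2 _).comp ?_
  refine continuous_pi fun i => ?_
  refine Fin.cases ?_ (fun i => Fin.cases ?_ (fun i => Fin.cases ?_ (fun i => ?_) i) i) i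
  · simp only [Fin.cons_zero]; fun_prop
  · simp only [Fin.cons_succ, Fin.cons_zero]; fun_prop
  · simp only [Fin.cons_succ, Fin.cons_zero]; fun_prop
  · simp only [Fin.cons_succ]; fun_prop

/-- The point of the kernel. -/
lemma mem_ker_iff {m : ℕ} (θ s : ℝ) (v : EE m) :
    inner ℝ (uvec m θ s) v = 0 ↔
      v = pt θ s (v 2) (-(v 0) * sin θ + v 1 * cos θ, fun j => v j.succ.succ.succ) := by
  rw [inner_uvec]
  have hsc := Real.sin_sq_add_cos_sq θ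
  constructor
  · intro h
    refine ext_EE ?_ ?_ ?_ ?_
    · simp only [pt_zero]
      linear_combination (-(v 0)) * hsc + cos θ * h
    · simp only [pt_one]
      linear_combination (-(v 1)) * hsc + sin θ * h
    · simp
    · intro j; simp
  · intro h
    have h0 : v 0 = (v 2) * s * cos θ - (-(v 0) * sin θ + v 1 * cos θ) * sin θ := by
      conv_lhs => rw [h]
      simp
    have h1 : v 1 = (v 2) * s * sin θ + (-(v 0) * sin θ + v 1 * cos θ) * cos θ := by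
      conv_lhs => rw [h]
      simp
    linear_combination cos θ * h0 + sin θ * h1 + (s * v 2) * hsc

/-- The isometric parametrisation of the hyperplane. -/
noncomputable def iotaL {m : ℕ} (θ s : ℝ) : EuclideanSpace ℝ (Fin (m + 2)) →ₗ[ℝ] EE m where
  toFun w := pt θ s (w 0 / √(1 + s ^ 2)) (w 1, fun j => w j.succ.succ)
  map_add' w w' := by
    rw [pt_add]
    congr 1
    simp; ring
  map_smul' c w := by
    simp only [RingHom.id_apply]
    rw [pt_smul]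
    congr 1
    simp; ring

lemma norm_sq_E2 {m : ℕ} (v : EuclideanSpace ℝ (Fin (m + 2))) :
    ‖v‖ ^ 2 = v 0 ^ 2 + v 1 ^ 2 + ∑ j : Fin m, v j.succ.succ ^ 2 := by
  rw [EuclideanSpace.norm_sq_eq, Fin.sum_univ_succ, Fin.sum_univ_succ]
  simp only [Real.norm_eq_abs, sq_abs]
  have h1 : (Fin.succ 0 : Fin (m + 2)) = 1 := rfl
  rw [h1]; ring

lemma norm_iotaL {m : ℕ} (θ s : ℝ) (w : EuclideanSpace ℝ (Fin (m + 2))) :
    ‖iotaL θ s w‖ = ‖w‖ := by
  have h : ‖iotaL θ s w‖ ^ 2 = ‖w‖ ^ 2 := by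
    show ‖pt θ s (w 0 / √(1 + s ^ 2)) (w 1, fun j => w j.succ.succ)‖ ^ 2 = ‖w‖ ^ 2
    rw [norm_sq_pt, norm_sq_E2]
    have h1 : (0:ℝ) ≤ 1 + s ^ 2 := by positivity
    have h2 : (1 + s ^ 2 : ℝ) ≠ 0 := by positivity
    rw [div_pow, Real.sq_sqrt h1, div_mul_cancel₀ _ h2]
  exact (pow_left_inj₀ (norm_nonneg _) (norm_nonneg _) two_ne_zero).1 h

noncomputable def iota {m : ℕ} (θ s : ℝ) : EuclideanSpace ℝ (Fin (m + 2)) →ₗᵢ[ℝ] EE m where
  toLinearMap := iotaL θ s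
  norm_map' := norm_iotaL θ s

lemma iota_apply {m : ℕ} (θ s : ℝ) (w : EuclideanSpace ℝ (Fin (m + 2))) :
    iota θ s w = pt θ s (w 0 / √(1 + s ^ 2)) (w 1, fun j => w j.succ.succ) := rfl

/-- The section as an image. -/
lemma section_eq_image {m : ℕ} (θ s : ℝ) (K : Set (EE m)) :
    K ∩ {x | inner ℝ (uvec m θ s) x = 0} = iota θ s '' (iota θ s ⁻¹' K) := by
  rw [image_preimage_eq_inter_range]
  congr 1
  ext v
  simp only [mem_ofPred_eq, mem_range]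
  rw [mem_ker_iff]
  have hA : √(1 + s ^ 2) ≠ 0 := by positivity
  constructor
  · intro h
    refine ⟨WithLp.toLp 2 (Fin.cons (v 2 * √(1 + s ^ 2)) (Fin.cons (-(v 0) * sin θ + v 1 * cos θ)
      (fun j => v j.succ.succ.succ))), ?_⟩
    rw [iota_apply]
    conv_rhs => rw [h]
    have e0 : (WithLp.toLp 2 (Fin.cons (v 2 * √(1 + s ^ 2)) (Fin.cons (-(v 0) * sin θ + v 1 * cos θ)
      (fun j => v j.succ.succ.succ))) : EuclideanSpace ℝ (Fin (m + 2))) 0 = v 2 * √(1 + s ^ 2) := rfl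
    rw [e0, mul_div_cancel_right₀ _ hA]
    rfl
  · rintro ⟨w, rfl⟩
    rw [← mem_ker_iff, iota_apply, inner_uvec]
    simp only [pt_zero, pt_one, pt_two]
    have hsc := Real.sin_sq_add_cos_sq θ
    linear_combination (w 0 / √(1 + s ^ 2) * s) * hsc

end IB
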