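import Mathlib
import Pool.Agent.Helper689.IBPoly

set_option autoImplicit false

open MeasureTheory Set Filter Topology Metric Real

namespace IB

/-- Scaling. -/
lemma scale_integral {V : Type*} [NormedAddCommGroup V] [NormedSpace ℝ V] [FiniteDimensional ℝ V]
    [MeasurableSpace V] [BorelSpace V] (μ : Measure V) [μ.IsAddHaarMeasure] (N : V → ℝ)
    (hN : ∀ x, 0 ≤ N x) (hN2 : ∀ (c : ℝ) x, N (c • x) = c ^ 2 * N x) {A : ℝ} (hA : 0 < A) (r : ℝ) :
    ∫ x, (A + N x) ^ (-r) ∂μ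
      = A ^ ((Module.finrank ℝ V : ℝ) / 2 - r) * ∫ x, (1 + N x) ^ (-r) ∂μ := by
  have h := Measure.integral_comp_smul μ (fun x => (A + N x) ^ (-r)) (√A)
  have hsA : 0 < √A := Real.sqrt_pos.2 hA
  have e1 : ∀ x, (A + N (√A • x)) ^ (-r) = A ^ (-r) * (1 + N x) ^ (-r) := by
    intro x
    rw [hN2, Real.sq_sqrt hA.le, ← mul_rpow hA.le (by have := hN x; positivity)]
    congr 1; ring
  simp only [e1] at h
  rw [integral_const_mul, smul_eq_mul, abs_of_pos (by positivity)] at h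
  have hp : (0:ℝ) < √A ^ Module.finrank ℝ V := by positivity
  have h2 : ∫ x, (A + N x) ^ (-r) ∂μ
      = √A ^ Module.finrank ℝ V * (A ^ (-r) * ∫ x, (1 + N x) ^ (-r) ∂μ) := by
    rw [h, ← mul_assoc, mul_inv_cancel₀ hp.ne', one_mul]
  rw [h2, ← mul_assoc]
  congr 1
  rw [Real.sqrt_eq_rpow, ← rpow_natCast, ← rpow_mul hA.le, ← rpow_add hA]
  congr 1; ring

/-- the quartic-over-quadratic function `|x|² cos 4ω` -/
noncomputable def q4 (a b : ℝ) : ℝ := (((a : ℂ) + b * Complex.I) ^ 3 / ((a : ℂ) - b * Complex.I)).re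

lemma norm_aux (a b : ℝ) : ‖(a : ℂ) - b * Complex.I‖ = ‖(a : ℂ) + b * Complex.I‖ := by
  have h : (a : ℂ) - b * Complex.I = (starRingEnd ℂ) ((a : ℂ) + b * Complex.I) := by
    simp [sub_eq_add_neg]
  rw [h, Complex.norm_conj]

lemma norm_sq_aux (a b : ℝ) : ‖(a : ℂ) + b * Complex.I‖ ^ 2 = a ^ 2 + b ^ 2 := by
  rw [← Complex.normSq_eq_norm_sq, Complex.normSq_apply]
  simp; ring

lemma norm_w (a b : ℝ) :
    ‖((a : ℂ) + b * Complex.I) ^ 3 / ((a : ℂ) - b * Complex.I)‖ = a ^ 2 + b ^ 2 := by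
  rw [norm_div, norm_pow, norm_aux, ← norm_sq_aux]
  rcases eq_or_ne (‖(a : ℂ) + b * Complex.I‖) 0 with h | h
  · rw [h]; simp
  · field_simp

lemma abs_q4_le (a b : ℝ) : |q4 a b| ≤ a ^ 2 + b ^ 2 :=
  (Complex.abs_re_le_norm _).trans (norm_w a b).le

lemma w_rot (θ s t : ℝ) :
    ((((s * cos θ - t * sin θ : ℝ) : ℂ)) + ((s * sin θ + t * cos θ : ℝ) : ℂ) * Complex.I) ^ 3
      / ((((s * cos θ - t * sin θ : ℝ) : ℂ)) - ((s * sin θ + t * cos θ : ℝ) : ℂ) * Complex.I)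
    = ((cos (4 * θ) : ℂ) + (sin (4 * θ) : ℂ) * Complex.I) *
      (((s : ℂ) + t * Complex.I) ^ 3 / ((s : ℂ) - t * Complex.I)) := by
  set u : ℂ := (Complex.cos θ) + (Complex.sin θ) * Complex.I with hu
  set u' : ℂ := (Complex.cos θ) - (Complex.sin θ) * Complex.I with hu'
  have huu : u * u' = 1 := by
    have h1 := Complex.sin_sq_add_cos_sq (θ : ℂ)
    have h2 : Complex.I ^ 2 = -1 := Complex.I_sq
    simp only [hu, hu']
    linear_combination h1 - (Complex.sin θ) ^ 2 * h2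
  have e1 : (((s * cos θ - t * sin θ : ℝ) : ℂ)) + ((s * sin θ + t * cos θ : ℝ) : ℂ) * Complex.I
      = u * ((s : ℂ) + t * Complex.I) := by
    have h2 : Complex.I ^ 2 = -1 := Complex.I_sq
    simp only [hu]; push_cast
    linear_combination (-(t : ℂ) * Complex.sin θ) * h2
  have e2 : (((s * cos θ - t * sin θ : ℝ) : ℂ)) - ((s * sin θ + t * cos θ : ℝ) : ℂ) * Complex.I
      = u' * ((s : ℂ) - t * Complex.I) := by
    have h2 : Complex.I ^ 2 = -1 := Complex.I_sq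
    simp only [hu']; push_cast
    linear_combination (-(t : ℂ) * Complex.sin θ) * h2
  have e3 : ((cos (4 * θ) : ℂ) + (sin (4 * θ) : ℂ) * Complex.I) = u ^ 4 := by
    have h3 := Complex.cos_add_sin_mul_I_pow 4 (θ : ℂ)
    simp only [hu]
    push_cast at h3 ⊢
    exact h3.symm
  have hu'0 : u' ≠ 0 := right_ne_zero_of_mul_eq_one huu
  rw [e1, e2, e3]
  have e4 : u ^ 4 = u ^ 3 / u' := by
    rw [eq_div_iff hu'0]
    calc u ^ 4 * u' = u ^ 3 * (u * u') := by ring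
      _ = u ^ 3 := by rw [huu, mul_one]
  rw [e4, mul_pow, div_mul_div_comm]

lemma w_re (s t : ℝ) : (((s : ℂ) + t * Complex.I) ^ 3 / ((s : ℂ) - t * Complex.I)).re
    = (1 + s ^ 2 + t ^ 2) - 1 - 8 * s ^ 2 + 8 * s ^ 4 / (s ^ 2 + t ^ 2) := by
  rcases eq_or_ne (s ^ 2 + t ^ 2) 0 with h | h
  · have hs : s = 0 := by nlinarith [sq_nonneg s, sq_nonneg t]
    have ht : t = 0 := by nlinarith [sq_nonneg s, sq_nonneg t]
    subst hs; subst ht; simp
  · rw [Complex.div_re, Complex.normSq_apply]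
    simp [pow_succ]
    field_simp
    ring

lemma w_im (s t : ℝ) : (((s : ℂ) + t * Complex.I) ^ 3 / ((s : ℂ) - t * Complex.I)).im
    = (4 * s ^ 3 * t - 4 * s * t ^ 3) / (s ^ 2 + t ^ 2) := by
  rcases eq_or_ne (s ^ 2 + t ^ 2) 0 with h | h
  · have hs : s = 0 := by nlinarith [sq_nonneg s, sq_nonneg t]
    have ht : t = 0 := by nlinarith [sq_nonneg s, sq_nonneg t]
    subst hs; subst ht; simp
  · rw [Complex.div_im, Complex.normSq_apply]
    simp [pow_succ]
    field_simp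
    ring

/-- the analytic part of the section function of the perturbation -/
noncomputable def gsm (s : ℝ) : ℝ :=
  π * (1 - 8 * s ^ 4) * (1 + s ^ 2) ^ (-(1:ℝ) / 2)
    - π / 2 * (1 + 8 * s ^ 2 + 8 * s ^ 4) * (1 + s ^ 2) ^ (-(3:ℝ) / 2)

noncomputable def gsmC (s : ℂ) : ℂ :=
  π * (1 - 8 * s ^ 4) * (1 + s ^ 2) ^ (((-(1:ℝ) / 2 : ℝ)) : ℂ)
    - π / 2 * (1 + 8 * s ^ 2 + 8 * s ^ 4) * (1 + s ^ 2) ^ (((-(3:ℝ) / 2 : ℝ)) : ℂ)

lemma gsmC_real (s : ℝ) : gsmC (s : ℂ) = (gsm s : ℂ) := by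
  have h : (0:ℝ) ≤ 1 + s ^ 2 := by positivity
  unfold gsmC gsm
  push_cast
  rw [Complex.ofReal_cpow h, Complex.ofReal_cpow h]
  push_cast
  rfl

lemma slit_aux {s : ℂ} (hs : s ∈ ball (0:ℂ) 1) : 1 + s ^ 2 ∈ Complex.slitPlane := by
  left
  rw [mem_ball, dist_zero_right] at hs
  have h1 : |(s ^ 2).re| ≤ ‖s ^ 2‖ := Complex.abs_re_le_norm _
  rw [norm_pow] at h1
  have h2 : ‖s‖ ^ 2 < 1 := pow_lt_one₀ (norm_nonneg _) hs two_ne_zero
  have := (abs_le.1 h1).1
  simp only [Complex.add_re, Complex.one_re]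
  linarith

lemma gsmC_diff : DifferentiableOn ℂ gsmC (ball 0 1) := by
  intro s hs
  have h1 : DifferentiableAt ℂ (fun s : ℂ => 1 + s ^ 2) s := by fun_prop
  have h2 := fun c : ℂ => h1.cpow_const (c := c) (slit_aux hs)
  unfold gsmC
  refine DifferentiableAt.differentiableWithinAt ?_
  refine DifferentiableAt.sub ?_ ?_
  · exact DifferentiableAt.mul (by fun_prop) (h2 _)
  · exact DifferentiableAt.mul (by fun_prop) (h2 _)

lemma integrable_chart (s : ℝ) {r : ℝ} (hr : 1 / 2 < r) :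
    Integrable (fun t : ℝ => (1 + s ^ 2 + t ^ 2) ^ (-r)) := by
  have h := integrable_rpow_neg_one_add_norm_sq (E := ℝ) (μ := volume) (r := 2 * r)
    (by simp; linarith)
  refine h.mono' ?_ ?_
  · refine Continuous.aestronglyMeasurable ?_
    refine Continuous.rpow_const (by fun_prop) (fun t => Or.inl (by positivity))
  · refine Eventually.of_forall fun t => ?_
    rw [Real.norm_eq_abs, abs_of_nonneg (rpow_nonneg (by positivity) _)]
    have e : -(2 * r) / 2 = -r := by ring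
    rw [e]
    refine rpow_le_rpow_of_nonpos (by positivity) ?_ (by linarith)
    rw [Real.norm_eq_abs, sq_abs]
    nlinarith [sq_nonneg s]

lemma integral_base1 : ∫ t : ℝ, (1 + t ^ 2) ^ (-(1:ℝ)) = π := by
  simp_rw [rpow_neg_one]
  exact integral_univ_inv_one_add_sq

lemma integral_base2 : ∫ t : ℝ, (1 + t ^ 2) ^ (-(2:ℝ)) = π / 2 := by
  -- antiderivative (t / (1+t²) + arctan t) / 2
  have hd : ∀ t : ℝ, HasDerivAt (fun t => (t / (1 + t ^ 2) + arctan t) / 2)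
      ((1 + t ^ 2) ^ (-(2:ℝ))) t := by
    intro t
    have hp : (1 + t ^ 2 : ℝ) ≠ 0 := by positivity
    have h2 : HasDerivAt (fun s : ℝ => 1 + s ^ 2) (2 * t) t := by
      simpa using (hasDerivAt_pow 2 t).const_add (1:ℝ)
    have h3 := (((hasDerivAt_id t).div h2 hp).add (Real.hasDerivAt_arctan t)).div_const 2
    refine h3.congr_deriv ?_
    have e : (1 + t ^ 2 : ℝ) ^ (-(2:ℝ)) = ((1 + t ^ 2) ^ 2)⁻¹ := by
      rw [rpow_neg (by positivity)]; norm_num
    rw [e]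
    simp only [id]
    field_simp
    ring
  have hint : Integrable (fun t : ℝ => (1 + t ^ 2) ^ (-(2:ℝ))) := by
    have := integrable_chart 0 (r := 2) (by norm_num)
    simpa using this
  have hz : ∀ t : ℝ, 1 ≤ |t| → ‖t / (1 + t ^ 2)‖ ≤ |t|⁻¹ := by
    intro t ht
    have h0 : 0 < |t| := by linarith
    rw [norm_div, Real.norm_eq_abs, Real.norm_eq_abs, abs_of_pos (by positivity : (0:ℝ) < 1 + t ^ 2),
      ← sq_abs t, div_le_iff₀ (by positivity)]
    field_simp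
    nlinarith
  have t1 : Tendsto (fun t : ℝ => t / (1 + t ^ 2)) atTop (𝓝 0) := by
    have h1 : Tendsto (fun s : ℝ => |s|⁻¹) atTop (𝓝 0) :=
      tendsto_inv_atTop_zero.comp (tendsto_abs_atTop_atTop (G := ℝ))
    refine squeeze_zero_norm' ?_ h1
    filter_upwards [eventually_ge_atTop 1] with s hs
    exact hz s (hs.trans (le_abs_self s))
  have t2 : Tendsto (fun t : ℝ => t / (1 + t ^ 2)) atBot (𝓝 0) := by
    have h1 : Tendsto (fun s : ℝ => |s|⁻¹) atBot (𝓝 0) :=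
      tendsto_inv_atTop_zero.comp (tendsto_abs_atBot_atTop (G := ℝ))
    refine squeeze_zero_norm' ?_ h1
    filter_upwards [eventually_le_atBot (-1)] with s hs
    exact hz s ((by linarith : (1:ℝ) ≤ -s).trans (neg_le_abs s))
  have l1 := (t1.add (Real.tendsto_arctan_atTop.mono_right nhdsWithin_le_nhds)).div_const 2
  have l2 := (t2.add (Real.tendsto_arctan_atBot.mono_right nhdsWithin_le_nhds)).div_const 2
  rw [integral_of_hasDerivAt_of_tendsto hd hint l2 l1]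
  ring

lemma integral_chart (s : ℝ) (r : ℝ) :
    ∫ t : ℝ, (1 + s ^ 2 + t ^ 2) ^ (-r) = (1 + s ^ 2) ^ ((1:ℝ) / 2 - r) * ∫ t : ℝ, (1 + t ^ 2) ^ (-r) := by
  have h := scale_integral (V := ℝ) volume (fun t => t ^ 2) (fun t => sq_nonneg t)
    (fun c t => by simp [mul_pow]) (A := 1 + s ^ 2) (by positivity) r
  simpa using h

lemma integral_sing {s : ℝ} (hs : s ≠ 0) : ∫ t : ℝ, (s ^ 2 + t ^ 2) ^ (-(1:ℝ)) = π / |s| := by
  have h := scale_integral (V := ℝ) volume (fun t => t ^ 2) (fun t => sq_nonneg t)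
    (fun c t => by simp [mul_pow]) (A := s ^ 2) (by positivity) 1
  rw [h, integral_base1]
  have hs' : 0 < |s| := abs_pos.2 hs
  have e : ((Module.finrank ℝ ℝ : ℝ) / 2 - 1) = -(1/2) := by simp; norm_num
  rw [e, ← sq_abs, ← rpow_natCast, ← rpow_mul hs'.le]
  norm_num
  rw [rpow_neg_one, div_eq_inv_mul]

lemma integrable_sing (s : ℝ) : Integrable (fun t : ℝ => 8 * s ^ 4 * (s ^ 2 + t ^ 2) ^ (-(1:ℝ))) := by
  rcases eq_or_ne s 0 with h | hs
  · subst h; simp
  · refine Integrable.const_mul ?_ _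
    have h := (integrable_inv_one_add_sq).const_mul (max 1 (s ^ 2)⁻¹)
    refine h.mono' ?_ ?_
    · refine Continuous.aestronglyMeasurable ?_
      refine Continuous.rpow_const (by fun_prop) (fun t => Or.inl (by positivity))
    · refine Eventually.of_forall fun t => ?_
      rw [rpow_neg_one, norm_inv, Real.norm_eq_abs, abs_of_pos (by positivity)]
      have hs2 : 0 < s ^ 2 := by positivity
      rw [inv_le_comm₀ (by positivity) (by positivity), mul_inv, inv_inv]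
      have h1 : (max 1 (s ^ 2)⁻¹)⁻¹ ≤ 1 := inv_le_one_of_one_le₀ (le_max_left _ _)
      have h2 : (max 1 (s ^ 2)⁻¹)⁻¹ ≤ s ^ 2 := by
        rw [inv_le_comm₀ (by positivity) hs2]; exact le_max_right _ _
      nlinarith [sq_nonneg t]

/-- The section function of the perturbation, after integrating out `y`. -/
lemma integral_q4 (θ s : ℝ) :
    ∫ t : ℝ, q4 (s * cos θ - t * sin θ) (s * sin θ + t * cos θ) * (1 + s ^ 2 + t ^ 2) ^ (-(2:ℝ))
      = cos (4 * θ) * (gsm s + 8 * π * |s| ^ 3) := by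
  set W : ℝ → ℂ := fun t => ((s : ℂ) + t * Complex.I) ^ 3 / ((s : ℂ) - t * Complex.I) with hW
  have hbpos : ∀ t : ℝ, 0 < 1 + s ^ 2 + t ^ 2 := fun t => by positivity
  have hsplit : ∀ t : ℝ, q4 (s * cos θ - t * sin θ) (s * sin θ + t * cos θ) * (1 + s ^ 2 + t ^ 2) ^ (-(2:ℝ))
      = cos (4 * θ) * ((W t).re * (1 + s ^ 2 + t ^ 2) ^ (-(2:ℝ)))
        - sin (4 * θ) * ((W t).im * (1 + s ^ 2 + t ^ 2) ^ (-(2:ℝ))) := by
    intro t
    unfold q4
    rw [w_rot]
    simp only [hW, Complex.mul_re, Complex.add_re, Complex.add_im, Complex.ofReal_re,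
      Complex.ofReal_im, Complex.I_re, Complex.I_im, Complex.mul_im]
    ring
  have hre : ∀ t : ℝ, (W t).re * (1 + s ^ 2 + t ^ 2) ^ (-(2:ℝ))
      = (1 - 8 * s ^ 4) * (1 + s ^ 2 + t ^ 2) ^ (-(1:ℝ))
        - (1 + 8 * s ^ 2 + 8 * s ^ 4) * (1 + s ^ 2 + t ^ 2) ^ (-(2:ℝ))
        + 8 * s ^ 4 * (s ^ 2 + t ^ 2) ^ (-(1:ℝ)) := by
    intro t
    have hb := (hbpos t).ne'
    simp only [hW]
    rw [w_re]
    have e2 : (1 + s ^ 2 + t ^ 2 : ℝ) ^ (-(2:ℝ)) = ((1 + s ^ 2 + t ^ 2) ^ 2)⁻¹ := by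
      rw [rpow_neg (hbpos t).le]; norm_num
    rw [e2, rpow_neg_one, rpow_neg_one]
    rcases eq_or_ne (s ^ 2 + t ^ 2) 0 with h | h
    · have hs : s = 0 := by nlinarith [sq_nonneg s, sq_nonneg t]
      have ht : t = 0 := by nlinarith [sq_nonneg s, sq_nonneg t]
      subst hs; subst ht; norm_num
    · field_simp
      ring
  have i1 : Integrable (fun t : ℝ => (1 - 8 * s ^ 4) * (1 + s ^ 2 + t ^ 2) ^ (-(1:ℝ))) :=
    (integrable_chart s (by norm_num)).const_mul _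
  have i2 : Integrable (fun t : ℝ => (1 + 8 * s ^ 2 + 8 * s ^ 4) * (1 + s ^ 2 + t ^ 2) ^ (-(2:ℝ))) :=
    (integrable_chart s (by norm_num)).const_mul _
  have i3 := integrable_sing s
  have ire : Integrable (fun t : ℝ => (W t).re * (1 + s ^ 2 + t ^ 2) ^ (-(2:ℝ))) := by
    simp_rw [hre]
    exact (i1.sub i2).add i3
  have iim : Integrable (fun t : ℝ => (W t).im * (1 + s ^ 2 + t ^ 2) ^ (-(2:ℝ))) := by
    refine (integrable_chart s (r := 1) (by norm_num)).mono' ?_ ?_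
    · refine Measurable.aestronglyMeasurable ?_
      have : Measurable W := by
        simp only [hW]
        fun_prop
      exact (Complex.measurable_im.comp this).mul
        ((by fun_prop : Measurable fun t : ℝ => 1 + s ^ 2 + t ^ 2).pow_const _)
    · refine Eventually.of_forall fun t => ?_
      have hb := hbpos t
      have h1 : |(W t).im| ≤ s ^ 2 + t ^ 2 := (Complex.abs_im_le_norm _).trans (norm_w s t).le
      rw [norm_mul, Real.norm_eq_abs, Real.norm_eq_abs, abs_of_pos (rpow_pos_of_pos hb (-2))]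
      calc |(W t).im| * (1 + s ^ 2 + t ^ 2) ^ (-(2:ℝ))
          ≤ (1 + s ^ 2 + t ^ 2) * (1 + s ^ 2 + t ^ 2) ^ (-(2:ℝ)) := by
            gcongr; linarith
        _ = (1 + s ^ 2 + t ^ 2) ^ (1:ℝ) * (1 + s ^ 2 + t ^ 2) ^ (-(2:ℝ)) := by rw [rpow_one]
        _ = (1 + s ^ 2 + t ^ 2) ^ (-(1:ℝ)) := by
            rw [← rpow_add hb]; norm_num
  have him0 : ∫ t : ℝ, (W t).im * (1 + s ^ 2 + t ^ 2) ^ (-(2:ℝ)) = 0 := by
    have h1 := integral_neg_eq_self (fun t : ℝ => (W t).im * (1 + s ^ 2 + t ^ 2) ^ (-(2:ℝ))) volume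
    have h2 : ∀ t : ℝ, (W (-t)).im * (1 + s ^ 2 + (-t) ^ 2) ^ (-(2:ℝ))
        = -((W t).im * (1 + s ^ 2 + t ^ 2) ^ (-(2:ℝ))) := by
      intro t
      simp only [hW]
      rw [w_im, w_im, neg_sq]
      ring
    simp_rw [h2] at h1
    rw [integral_neg] at h1
    linarith
  simp_rw [hsplit]
  rw [integral_sub (ire.const_mul _) (iim.const_mul _), integral_const_mul, integral_const_mul,
    him0, mul_zero, sub_zero]
  congr 1
  simp_rw [hre]
  have i12 : Integrable (fun t : ℝ => (1 - 8 * s ^ 4) * (1 + s ^ 2 + t ^ 2) ^ (-(1:ℝ))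
    - (1 + 8 * s ^ 2 + 8 * s ^ 4) * (1 + s ^ 2 + t ^ 2) ^ (-(2:ℝ))) := i1.sub i2
  rw [integral_add i12 i3, integral_sub i1 i2, integral_const_mul, integral_const_mul,
    integral_const_mul, integral_chart, integral_chart, integral_base1, integral_base2]
  have e3 : 8 * s ^ 4 * ∫ t : ℝ, (s ^ 2 + t ^ 2) ^ (-(1:ℝ)) = 8 * π * |s| ^ 3 := by
    rcases eq_or_ne s 0 with h | hs
    · subst h; simp
    · rw [integral_sing hs]
      have hs' : 0 < |s| := abs_pos.2 hs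
      have : s ^ 4 = |s| ^ 4 := by rw [← abs_pow]; exact (abs_of_nonneg (by positivity)).symm
      rw [this]; field_simp
  rw [e3]
  unfold gsm
  norm_num
  ring

end IB
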