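import Mathlib
import Pool.Agent.Helper689.IBQ4

set_option autoImplicit false

open MeasureTheory Set Filter Topology Metric Real

namespace IB

/-- derivatives of `q4` along a line -/
lemma q4_line (a b c d r0 : ℝ) : ∃ (q1 : ℝ → ℝ) (q2 : ℝ),
    (∀ᶠ r in 𝓝 r0, HasDerivAt (fun r => q4 (a + r * c) (b + r * d)) (q1 r) r) ∧
    HasDerivAt q1 q2 r0 ∧
    |q1 r0| ≤ 4 * (√((a + r0 * c) ^ 2 + (b + r0 * d) ^ 2) * √(c ^ 2 + d ^ 2)) ∧
    |q2| ≤ 14 * (c ^ 2 + d ^ 2) := by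
  set h : ℂ := (c : ℂ) + d * Complex.I with hh
  set h' : ℂ := (c : ℂ) - d * Complex.I with hh'
  set Z : ℝ → ℂ := fun r => ((a + r * c : ℝ) : ℂ) + ((b + r * d : ℝ) : ℂ) * Complex.I with hZ
  set Z' : ℝ → ℂ := fun r => ((a + r * c : ℝ) : ℂ) - ((b + r * d : ℝ) : ℂ) * Complex.I with hZ'
  have hZeq : ∀ r : ℝ, Z r = ((a : ℂ) + b * Complex.I) + r * h := by
    intro r; simp only [hZ, hh]; push_cast; ring
  have hZeq' : ∀ r : ℝ, Z' r = ((a : ℂ) - b * Complex.I) + r * h' := by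
    intro r; simp only [hZ', hh']; push_cast; ring
  have hZd : ∀ r, HasDerivAt Z h r := by
    intro r
    have h1 : HasDerivAt (fun r : ℝ => ((a : ℂ) + b * Complex.I) + r * h) (1 * h) r :=
      ((Complex.ofRealCLM.hasDerivAt (x := r)).mul_const h).const_add _
    rw [one_mul] at h1
    have e : Z = fun r : ℝ => ((a : ℂ) + b * Complex.I) + r * h := funext hZeq
    rw [e]; exact h1
  have hZd' : ∀ r, HasDerivAt Z' h' r := by
    intro r
    have h1 : HasDerivAt (fun r : ℝ => ((a : ℂ) - b * Complex.I) + r * h') (1 * h') r :=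
      ((Complex.ofRealCLM.hasDerivAt (x := r)).mul_const h').const_add _
    rw [one_mul] at h1
    have e : Z' = fun r : ℝ => ((a : ℂ) - b * Complex.I) + r * h' := funext hZeq'
    rw [e]; exact h1
  have hnZ : ∀ r, ‖Z r‖ = √((a + r * c) ^ 2 + (b + r * d) ^ 2) := by
    intro r
    rw [← Real.sqrt_sq (norm_nonneg (Z r))]
    simp only [hZ]
    rw [norm_sq_aux]
  have hnZ' : ∀ r, ‖Z' r‖ = ‖Z r‖ := fun r => norm_aux _ _
  have hnh : ‖h‖ = √(c ^ 2 + d ^ 2) := by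
    rw [← Real.sqrt_sq (norm_nonneg h)]
    simp only [hh]
    rw [norm_sq_aux]
  have hnh' : ‖h'‖ = ‖h‖ := norm_aux _ _
  have hnh2 : ‖h‖ ^ 2 = c ^ 2 + d ^ 2 := norm_sq_aux _ _
  have hq : (fun r => q4 (a + r * c) (b + r * d)) = fun r => (Z r ^ 3 / Z' r).re := rfl
  rw [hq, ← hnZ, ← hnh, ← hnh2]
  rcases eq_or_ne (Z r0) 0 with h0 | h0
  · -- through the origin
    have h0' : Z' r0 = 0 := by
      rw [← norm_eq_zero, hnZ', h0, norm_zero]
    have e1 : ∀ r : ℝ, Z r = ((r - r0 : ℝ) : ℂ) * h := by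
      intro r
      have h1 := hZeq r
      have h2 := hZeq r0
      rw [h0] at h2
      rw [h1]; push_cast; linear_combination -h2
    have e2 : ∀ r : ℝ, Z' r = ((r - r0 : ℝ) : ℂ) * h' := by
      intro r
      have h1 := hZeq' r
      have h2 := hZeq' r0
      rw [h0'] at h2
      rw [h1]; push_cast; linear_combination -h2
    set cc : ℝ := (h ^ 3 / h').re with hcc
    have e3 : ∀ r : ℝ, (Z r ^ 3 / Z' r).re = (r - r0) ^ 2 * cc := by
      intro r
      rw [e1, e2, mul_pow, mul_div_mul_comm]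
      rcases eq_or_ne (r - r0) 0 with hr | hr
      · rw [hr]; simp
      · have hr' : ((r - r0 : ℝ) : ℂ) ≠ 0 := by exact_mod_cast hr
        have : (((r - r0 : ℝ) : ℂ)) ^ 3 / ((r - r0 : ℝ) : ℂ) = (((r - r0) ^ 2 : ℝ) : ℂ) := by
          rw [Complex.ofReal_pow]; field_simp
        rw [this, Complex.re_ofReal_mul]
    have hccb : |cc| ≤ ‖h‖ ^ 2 := by
      refine (Complex.abs_re_le_norm _).trans ?_
      rw [hnh2]
      exact (norm_w c d).le
    refine ⟨fun r => 2 * (r - r0) * cc, 2 * cc, Eventually.of_forall fun r => ?_, ?_, ?_, ?_⟩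
    · have e4 : (fun r => (Z r ^ 3 / Z' r).re) = fun r => (r - r0) ^ 2 * cc := funext e3
      rw [e4]
      have := (((hasDerivAt_id r).sub_const r0).fun_pow 2).mul_const cc
      refine this.congr_deriv ?_
      simp
    · have := (((hasDerivAt_id r0).sub_const r0).const_mul 2).mul_const cc
      refine this.congr_deriv ?_
      simp
    · simp only [sub_self, mul_zero, zero_mul, abs_zero]
      positivity
    · rw [abs_mul, abs_two]
      nlinarith [sq_nonneg ‖h‖]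
  · have h0' : Z' r0 ≠ 0 := by
      rw [← norm_ne_zero_iff, hnZ', norm_ne_zero_iff]; exact h0
    have hev : ∀ᶠ r in 𝓝 r0, Z' r ≠ 0 :=
      (hZd' r0).continuousAt.eventually_ne h0'
    set w1 : ℝ → ℂ := fun r => 3 * Z r ^ 2 * h / Z' r - Z r ^ 3 * h' / Z' r ^ 2 with hw1
    set w2 : ℂ := 6 * Z r0 * h ^ 2 / Z' r0 - 6 * Z r0 ^ 2 * h * h' / Z' r0 ^ 2
      + 2 * Z r0 ^ 3 * h' ^ 2 / Z' r0 ^ 3 with hw2
    have hd1 : ∀ r, Z' r ≠ 0 → HasDerivAt (fun r => Z r ^ 3 / Z' r) (w1 r) r := by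
      intro r hr
      have := ((hZd r).fun_pow 3).div (hZd' r) hr
      refine this.congr_deriv ?_
      simp only [hw1]
      push_cast
      field_simp
    have hd2 : HasDerivAt w1 w2 r0 := by
      have t1 := ((((hZd r0).fun_pow 2).const_mul 3).mul_const h).div (hZd' r0) h0'
      have t2 := (((hZd r0).fun_pow 3).mul_const h').div ((hZd' r0).fun_pow 2) (pow_ne_zero 2 h0')
      refine (t1.sub t2).congr_deriv ?_
      simp only [hw2]
      push_cast
      field_simp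
      ring
    refine ⟨fun r => (w1 r).re, w2.re, ?_, ?_, ?_, ?_⟩
    · filter_upwards [hev] with r hr
      exact Complex.reCLM.hasFDerivAt.comp_hasDerivAt r (hd1 r hr)
    · exact Complex.reCLM.hasFDerivAt.comp_hasDerivAt r0 hd2
    · refine (Complex.abs_re_le_norm _).trans ?_
      have hn : ‖Z r0‖ ≠ 0 := norm_ne_zero_iff.2 h0
      have b1 : ‖3 * Z r0 ^ 2 * h / Z' r0‖ = 3 * (‖Z r0‖ * ‖h‖) := by
        rw [norm_div, norm_mul, norm_mul, norm_pow, hnZ']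
        have : ‖(3:ℂ)‖ = 3 := by simp
        rw [this]; field_simp
      have b2 : ‖Z r0 ^ 3 * h' / Z' r0 ^ 2‖ = ‖Z r0‖ * ‖h‖ := by
        rw [norm_div, norm_mul, norm_pow, norm_pow, hnZ', hnh']
        field_simp
      simp only [hw1]
      refine (norm_sub_le _ _).trans ?_
      rw [b1, b2]; linarith
    · refine (Complex.abs_re_le_norm _).trans ?_
      have hn : ‖Z r0‖ ≠ 0 := norm_ne_zero_iff.2 h0
      have b1 : ‖6 * Z r0 * h ^ 2 / Z' r0‖ = 6 * ‖h‖ ^ 2 := by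
        rw [norm_div, norm_mul, norm_mul, norm_pow, hnZ']
        have : ‖(6:ℂ)‖ = 6 := by simp
        rw [this]; field_simp
      have b2 : ‖6 * Z r0 ^ 2 * h * h' / Z' r0 ^ 2‖ = 6 * ‖h‖ ^ 2 := by
        rw [norm_div, norm_mul, norm_mul, norm_mul, norm_pow, norm_pow, hnZ', hnh']
        have : ‖(6:ℂ)‖ = 6 := by simp
        rw [this]; field_simp
      have b3 : ‖2 * Z r0 ^ 3 * h' ^ 2 / Z' r0 ^ 3‖ = 2 * ‖h‖ ^ 2 := by
        rw [norm_div, norm_mul, norm_mul, norm_pow, norm_pow, norm_pow, hnZ', hnh']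
        have : ‖(2:ℂ)‖ = 2 := by simp
        rw [this]; field_simp
      simp only [hw2]
      refine (norm_add_le _ _).trans ?_
      refine (add_le_add_left (norm_sub_le _ _) _).trans ?_
      rw [b1, b2, b3]; linarith

/-- second derivative principle -/
lemma quasi_line {φ : ℝ → ℝ} (hc : ContinuousOn φ (Icc 0 1)) (h0 : 1 ≤ φ 0) (h1 : 1 ≤ φ 1)
    (hd : ∀ r0 ∈ Ioo (0:ℝ) 1, ∃ (φ1 : ℝ → ℝ) (φ2 : ℝ),
      (∀ᶠ r in 𝓝 r0, HasDerivAt φ (φ1 r) r) ∧ HasDerivAt φ1 φ2 r0 ∧ (φ1 r0 = 0 → φ2 < 0)) :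
    ∀ r ∈ Icc (0:ℝ) 1, 1 ≤ φ r := by
  by_contra hcon
  push Not at hcon
  obtain ⟨r, hr, hlt⟩ := hcon
  obtain ⟨r0, hr0, hmin⟩ := isCompact_Icc.exists_isMinOn ⟨r, hr⟩ hc
  have hr0lt : φ r0 < 1 := (hmin hr).trans_lt hlt
  have hr0' : r0 ∈ Ioo (0:ℝ) 1 := by
    refine ⟨lt_of_le_of_ne hr0.1 ?_, lt_of_le_of_ne hr0.2 ?_⟩
    · intro h; rw [← h] at hr0lt; linarith
    · intro h; rw [h] at hr0lt; linarith
  have hloc : IsLocalMin φ r0 := hmin.isLocalMin (Icc_mem_nhds hr0'.1 hr0'.2)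
  obtain ⟨φ1, φ2, e1, e2, e3⟩ := hd r0 hr0'
  have hφ1 : φ1 r0 = 0 := hloc.hasDerivAt_eq_zero e1.self_of_nhds
  have hφ2 := e3 hφ1
  have hderiv : deriv φ =ᶠ[𝓝 r0] φ1 := e1.mono fun x hx => hx.deriv
  have hdd : deriv (deriv φ) r0 = φ2 := by
    rw [hderiv.deriv_eq]; exact e2.deriv
  have hmax : IsLocalMax φ r0 := by
    refine isLocalMax_of_deriv_deriv_neg (by rw [hdd]; exact hφ2) ?_ e1.self_of_nhds.continuousAt
    rw [e1.self_of_nhds.deriv, hφ1]
  have hconst : φ =ᶠ[𝓝 r0] fun _ => φ r0 := by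
    filter_upwards [hloc, hmax] with x a b
    exact le_antisymm b a
  have hz : deriv φ =ᶠ[𝓝 r0] fun _ => 0 := by
    have := hconst.eventuallyEq_nhds
    filter_upwards [this] with x hx
    rw [hx.deriv_eq]; simp
  have : deriv (deriv φ) r0 = 0 := by
    rw [hz.deriv_eq]; simp
  rw [hdd] at this
  linarith

end IB
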