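import Mathlib
import Pool.Agent.Helper689.IBLine
import Pool.Agent.Helper689.IBGeo

set_option autoImplicit false

open MeasureTheory Set Filter Topology Metric Real

namespace IB

section
variable {m : ℕ} {ι : Type*} [Fintype ι]

/-- The polynomial part. -/
noncomputable def Qf (p : ℕ) (ε : ℝ) (f : ι → EE m) (v : EE m) : ℝ :=
  ∑ i, (inner ℝ (f i) v) ^ (2 * p) + ε * (‖v‖ ^ 2) ^ p

noncomputable def kap (m p : ℕ) : ℝ := (m + 2 : ℝ) / (2 * p)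

/-- The perturbation. -/
noncomputable def gf (v : EE m) : ℝ := q4 (v 0) (v 1) * (‖v‖ ^ 2) ^ (-((m + 4 : ℝ) / 2))

/-- `ρ^{n-1}` of the body. -/
noncomputable def Phi (p : ℕ) (ε : ℝ) (f : ι → EE m) (τ : ℝ) (v : EE m) : ℝ :=
  (Qf p ε f v) ^ (-kap m p) + τ * gf v

noncomputable def CQ (p : ℕ) (ε : ℝ) (f : ι → EE m) : ℝ := ∑ i, (‖f i‖ ^ 2) ^ p + ε

lemma even_pow_nonneg (a : ℝ) (p : ℕ) : 0 ≤ a ^ (2 * p) := by
  rw [pow_mul]; positivity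

lemma Qf_lower (p : ℕ) (ε : ℝ) (f : ι → EE m) (v : EE m) : ε * (‖v‖ ^ 2) ^ p ≤ Qf p ε f v := by
  unfold Qf
  have : 0 ≤ ∑ i, (inner ℝ (f i) v) ^ (2 * p) := Finset.sum_nonneg fun i _ => even_pow_nonneg _ _
  linarith

lemma Qf_upper (p : ℕ) (ε : ℝ) (f : ι → EE m) (v : EE m) :
    Qf p ε f v ≤ CQ p ε f * (‖v‖ ^ 2) ^ p := by
  unfold Qf CQ
  rw [add_mul, Finset.sum_mul]
  gcongr with i
  have h1 : |inner ℝ (f i) v| ≤ ‖f i‖ * ‖v‖ := abs_real_inner_le_norm _ _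
  calc (inner ℝ (f i) v) ^ (2 * p) = (|inner ℝ (f i) v| ^ 2) ^ p := by rw [pow_mul, sq_abs]
    _ ≤ ((‖f i‖ * ‖v‖) ^ 2) ^ p := by gcongr
    _ = (‖f i‖ ^ 2) ^ p * (‖v‖ ^ 2) ^ p := by rw [mul_pow, mul_pow]

lemma CQ_pos (p : ℕ) {ε : ℝ} (hε : 0 < ε) (f : ι → EE m) : 0 < CQ p ε f := by
  unfold CQ
  have : 0 ≤ ∑ i, (‖f i‖ ^ 2) ^ p := Finset.sum_nonneg fun i _ => by positivity
  linarith

lemma Qf_pos (p : ℕ) {ε : ℝ} (hε : 0 < ε) (f : ι → EE m) {v : EE m} (hv : v ≠ 0) :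
    0 < Qf p ε f v := by
  have : 0 < ‖v‖ := norm_pos_iff.2 hv
  exact lt_of_lt_of_le (by positivity) (Qf_lower p ε f v)

lemma norm_line (v h : EE m) (r : ℝ) :
    ‖v + r • h‖ ^ 2 = ‖v‖ ^ 2 + 2 * r * inner ℝ v h + r ^ 2 * ‖h‖ ^ 2 := by
  rw [norm_add_sq_real, norm_smul, inner_smul_right, mul_pow, Real.norm_eq_abs, sq_abs]
  ring

lemma norm_line_deriv (v h : EE m) (r : ℝ) :
    HasDerivAt (fun r : ℝ => ‖v + r • h‖ ^ 2) (2 * inner ℝ (v + r • h) h) r := by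
  have e : (fun r : ℝ => ‖v + r • h‖ ^ 2)
      = fun r => ‖v‖ ^ 2 + 2 * r * inner ℝ v h + r ^ 2 * ‖h‖ ^ 2 := funext (norm_line v h)
  rw [e]
  have h1 := (((hasDerivAt_id r).const_mul 2).mul_const (inner ℝ v h)).const_add (‖v‖ ^ 2)
  have h2 := (hasDerivAt_pow 2 r).mul_const (‖h‖ ^ 2)
  refine (h1.add h2).congr_deriv ?_
  rw [inner_add_left, inner_smul_left, real_inner_self_eq_norm_sq]
  simp
  ring

lemma norm_line_deriv2 (v h : EE m) (r : ℝ) :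
    HasDerivAt (fun r : ℝ => 2 * inner ℝ (v + r • h) h) (2 * ‖h‖ ^ 2) r := by
  have e : (fun r : ℝ => 2 * inner ℝ (v + r • h) h)
      = fun r => 2 * (inner ℝ v h + r * ‖h‖ ^ 2) := by
    funext r
    rw [inner_add_left, inner_smul_left, real_inner_self_eq_norm_sq]
    simp
  rw [e]
  have h1 := (((hasDerivAt_id r).mul_const (‖h‖ ^ 2)).const_add (inner ℝ v h)).const_mul 2
  refine h1.congr_deriv ?_
  simp

lemma Qf_line {p : ℕ} {ε : ℝ} (hε : 0 < ε) (f : ι → EE m) (v h : EE m) :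
    ∃ A1 A2 : ℝ → ℝ, (∀ r, HasDerivAt (fun r : ℝ => Qf p ε f (v + r • h)) (A1 r) r) ∧
      (∀ r, HasDerivAt A1 (A2 r) r) ∧
      ∀ r, 2 * (ε * p * (‖v + r • h‖ ^ 2) ^ (p - 1) * ‖h‖ ^ 2) ≤ A2 r := by
  set a : ι → ℝ → ℝ := fun i r => inner ℝ (f i) (v + r • h) with ha
  set b : ι → ℝ := fun i => inner ℝ (f i) h with hb
  have had : ∀ i r, HasDerivAt (a i) (b i) r := by
    intro i r
    have e : a i = fun r => inner ℝ (f i) v + r * inner ℝ (f i) h := by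
      funext r
      simp only [ha]
      rw [inner_add_right, inner_smul_right]
    rw [e]
    have := ((hasDerivAt_id r).mul_const (inner ℝ (f i) h)).const_add (inner ℝ (f i) v)
    refine this.congr_deriv ?_
    simp [hb]
  set N : ℝ → ℝ := fun r => ‖v + r • h‖ ^ 2 with hN
  set N1 : ℝ → ℝ := fun r => 2 * inner ℝ (v + r • h) h with hN1
  have hNd : ∀ r, HasDerivAt N (N1 r) r := norm_line_deriv v h
  have hN1d : ∀ r, HasDerivAt N1 (2 * ‖h‖ ^ 2) r := norm_line_deriv2 v h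
  refine ⟨fun r => ∑ i, ((2 * p : ℕ) : ℝ) * a i r ^ (2 * p - 1) * b i
      + ε * ((p : ℝ) * N r ^ (p - 1) * N1 r),
    fun r => ∑ i, ((2 * p : ℕ) : ℝ) * (((2 * p - 1 : ℕ) : ℝ) * a i r ^ (2 * p - 1 - 1) * b i) * b i
      + ε * ((p : ℝ) * (((p - 1 : ℕ) : ℝ) * N r ^ (p - 1 - 1) * N1 r) * N1 r
        + (p : ℝ) * N r ^ (p - 1) * (2 * ‖h‖ ^ 2)), ?_, ?_, ?_⟩
  · intro r
    have h1 : HasDerivAt (fun r => ∑ i, a i r ^ (2 * p))
        (∑ i, ((2 * p : ℕ) : ℝ) * a i r ^ (2 * p - 1) * b i) r :=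
      HasDerivAt.fun_sum fun i _ => (had i r).fun_pow (2 * p)
    have h2 := ((hNd r).fun_pow p).const_mul ε
    exact h1.add h2
  · intro r
    have h1 : HasDerivAt (fun r => ∑ i, ((2 * p : ℕ) : ℝ) * a i r ^ (2 * p - 1) * b i)
        (∑ i, ((2 * p : ℕ) : ℝ) * (((2 * p - 1 : ℕ) : ℝ) * a i r ^ (2 * p - 1 - 1) * b i) * b i) r :=
      HasDerivAt.fun_sum fun i _ => (((had i r).fun_pow (2 * p - 1)).const_mul _).mul_const _
    have h2 := ((((hNd r).fun_pow (p - 1)).const_mul (p : ℝ)).mul (hN1d r)).const_mul ε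
    exact h1.add h2
  · intro r
    have hs : 0 ≤ ∑ i, ((2 * p : ℕ) : ℝ) * (((2 * p - 1 : ℕ) : ℝ) * a i r ^ (2 * p - 1 - 1) * b i) * b i := by
      refine Finset.sum_nonneg fun i _ => ?_
      have e : 2 * p - 1 - 1 = 2 * (p - 1) := by omega
      rw [e]
      have h1 := even_pow_nonneg (a i r) (p - 1)
      have h2 := mul_self_nonneg (b i)
      have : ((2 * p : ℕ) : ℝ) * (((2 * p - 1 : ℕ) : ℝ) * a i r ^ (2 * (p - 1)) * b i) * b i
        = ((2 * p : ℕ) : ℝ) * (((2 * p - 1 : ℕ) : ℝ) * a i r ^ (2 * (p - 1)) * (b i * b i)) := by ring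
      rw [this]
      positivity
    have hN0 : 0 ≤ N r := by simp only [hN]; positivity
    have h3 : 0 ≤ ε * ((p : ℝ) * (((p - 1 : ℕ) : ℝ) * N r ^ (p - 1 - 1) * N1 r) * N1 r) := by
      have : ε * ((p : ℝ) * (((p - 1 : ℕ) : ℝ) * N r ^ (p - 1 - 1) * N1 r) * N1 r)
        = ε * ((p : ℝ) * (((p - 1 : ℕ) : ℝ) * N r ^ (p - 1 - 1) * (N1 r * N1 r))) := by ring
      rw [this]
      have := mul_self_nonneg (N1 r)
      positivity
    have e4 : N r = ‖v + r • h‖ ^ 2 := rfl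
    simp only [← e4]
    nlinarith

end

end IB
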