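import Mathlib
import Pool.Agent.Helper689.IBQf

set_option autoImplicit false

open MeasureTheory Set Filter Topology Metric Real

namespace IB

/-- the real inequality behind quasi-concavity -/
lemma core_ineq {κ k A A1 A2 u N H M q q1 q2 N1 τ L c4 c5 : ℝ}
    (hκ : 0 < κ) (hk : 0 < k) (hA : 0 < A) (hu : 0 < u) (hN : 0 < N) (hH : 0 < H) (hM : 0 < M)
    (_hL : 0 ≤ L)
    (hq : |q| ≤ N) (hq1 : |q1| ≤ 4 * (√N * √H)) (hq2 : |q2| ≤ 14 * H)
    (hN1 : |N1| ≤ 2 * (√N * √H))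
    (hcrit : κ * A1 * u = τ * (M * (q1 - k * q * N1 / N)))
    (hb1 : (u * A)⁻¹ * (N * M) ≤ L)
    (hb2 : c4 * (H * M) ≤ κ * A2 * u)
    (hτ1 : |τ| ≤ 1)
    (hc5 : c5 = (κ + 1) / κ * L * (4 + 2 * k) ^ 2 + (14 + 18 * k + 4 * k * (k + 1)))
    (hτ : |τ| * c5 < c4) :
    κ * (κ + 1) * A1 ^ 2 * u / A - κ * A2 * u
      + τ * (M * (q2 - 2 * k * q1 * N1 / N - k * q * (2 * H) / N + k * (k + 1) * q * N1 ^ 2 / N ^ 2)) < 0 := by
  have hsN : 0 < √N := Real.sqrt_pos.2 hN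
  have hsH : 0 < √H := Real.sqrt_pos.2 hH
  have hNN : √N * √N = N := Real.mul_self_sqrt hN.le
  have hHH : √H * √H = H := Real.mul_self_sqrt hH.le
  -- first term
  have e1 : κ * (κ + 1) * A1 ^ 2 * u / A = (κ + 1) / κ * (u * A)⁻¹ * (κ * A1 * u) ^ 2 := by
    field_simp
  have b0 : |k * q * N1 / N| ≤ 2 * k * (√N * √H) := by
    rw [abs_div, abs_mul, abs_mul, abs_of_pos hN, abs_of_pos hk, div_le_iff₀ hN]
    calc k * |q| * |N1| ≤ k * N * (2 * (√N * √H)) := by gcongr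
      _ = 2 * k * (√N * √H) * N := by ring
  have b1 : |q1 - k * q * N1 / N| ≤ (4 + 2 * k) * (√N * √H) := by
    refine (abs_sub _ _).trans ?_
    linarith
  have b2 : (q1 - k * q * N1 / N) ^ 2 ≤ (4 + 2 * k) ^ 2 * (N * H) := by
    rw [← sq_abs]
    calc |q1 - k * q * N1 / N| ^ 2 ≤ ((4 + 2 * k) * (√N * √H)) ^ 2 := by gcongr
      _ = (4 + 2 * k) ^ 2 * ((√N * √N) * (√H * √H)) := by ring
      _ = _ := by rw [hNN, hHH]
  have b3 : κ * (κ + 1) * A1 ^ 2 * u / A ≤ |τ| * ((κ + 1) / κ * L * (4 + 2 * k) ^ 2 * (H * M)) := by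
    rw [e1, hcrit]
    have hinv : 0 < (u * A)⁻¹ := by positivity
    have hτ2 : τ ^ 2 ≤ |τ| := by
      rw [← sq_abs, sq]
      exact mul_le_of_le_one_left (abs_nonneg _) hτ1
    calc (κ + 1) / κ * (u * A)⁻¹ * (τ * (M * (q1 - k * q * N1 / N))) ^ 2
        = (κ + 1) / κ * ((u * A)⁻¹ * M ^ 2) * (τ ^ 2 * (q1 - k * q * N1 / N) ^ 2) := by ring
      _ ≤ (κ + 1) / κ * ((u * A)⁻¹ * M ^ 2) * (|τ| * ((4 + 2 * k) ^ 2 * (N * H))) := by
          gcongr
      _ = (κ + 1) / κ * ((u * A)⁻¹ * (N * M)) * (|τ| * ((4 + 2 * k) ^ 2 * (H * M))) := by ring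
      _ ≤ (κ + 1) / κ * L * (|τ| * ((4 + 2 * k) ^ 2 * (H * M))) := by gcongr
      _ = _ := by ring
  -- last term
  have hN1sq : N1 ^ 2 ≤ 4 * (N * H) := by
    rw [← sq_abs]
    calc |N1| ^ 2 ≤ (2 * (√N * √H)) ^ 2 := by gcongr
      _ = 4 * ((√N * √N) * (√H * √H)) := by ring
      _ = _ := by rw [hNN, hHH]
  have b4 : |2 * k * q1 * N1 / N| ≤ 16 * k * H := by
    rw [abs_div, abs_mul, abs_mul, abs_mul, abs_two, abs_of_pos hN, abs_of_pos hk, div_le_iff₀ hN]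
    calc 2 * k * |q1| * |N1| ≤ 2 * k * (4 * (√N * √H)) * (2 * (√N * √H)) := by gcongr
      _ = 16 * k * ((√H * √H) * (√N * √N)) := by ring
      _ = 16 * k * H * N := by rw [hNN, hHH]; ring
  have b5 : |k * q * (2 * H) / N| ≤ 2 * k * H := by
    rw [abs_div, abs_mul, abs_mul, abs_of_pos hN, abs_of_pos hk,
      abs_of_pos (by positivity : 0 < 2 * H), div_le_iff₀ hN]
    calc k * |q| * (2 * H) ≤ k * N * (2 * H) := by gcongr
      _ = 2 * k * H * N := by ring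
  have b6 : |k * (k + 1) * q * N1 ^ 2 / N ^ 2| ≤ 4 * k * (k + 1) * H := by
    rw [abs_div, abs_mul, abs_mul, abs_of_pos (by positivity : 0 < N ^ 2),
      abs_of_pos (by positivity : 0 < k * (k + 1)), abs_of_nonneg (sq_nonneg N1),
      div_le_iff₀ (by positivity)]
    calc k * (k + 1) * |q| * N1 ^ 2 ≤ k * (k + 1) * N * (4 * (N * H)) := by gcongr
      _ = 4 * k * (k + 1) * H * N ^ 2 := by ring
  have b7 : |q2 - 2 * k * q1 * N1 / N - k * q * (2 * H) / N + k * (k + 1) * q * N1 ^ 2 / N ^ 2|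
      ≤ (14 + 18 * k + 4 * k * (k + 1)) * H := by
    refine (abs_add_le _ _).trans ?_
    refine (add_le_add_left ((abs_sub _ _).trans (add_le_add_left (abs_sub _ _) _)) _).trans ?_
    linarith
  have b8 : τ * (M * (q2 - 2 * k * q1 * N1 / N - k * q * (2 * H) / N + k * (k + 1) * q * N1 ^ 2 / N ^ 2))
      ≤ |τ| * ((14 + 18 * k + 4 * k * (k + 1)) * (H * M)) := by
    refine (le_abs_self _).trans ?_
    rw [abs_mul, abs_mul, abs_of_pos hM]
    refine mul_le_mul_of_nonneg_left ?_ (abs_nonneg τ)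
    calc M * |q2 - 2 * k * q1 * N1 / N - k * q * (2 * H) / N + k * (k + 1) * q * N1 ^ 2 / N ^ 2|
        ≤ M * ((14 + 18 * k + 4 * k * (k + 1)) * H) := by gcongr
      _ = _ := by ring
  have hHM : 0 < H * M := by positivity
  have b9 : |τ| * c5 * (H * M) < c4 * (H * M) := mul_lt_mul_of_pos_right hτ hHM
  rw [hc5] at b9
  have b10 : |τ| * ((κ + 1) / κ * L * (4 + 2 * k) ^ 2 + (14 + 18 * k + 4 * k * (k + 1))) * (H * M)
    = |τ| * ((κ + 1) / κ * L * (4 + 2 * k) ^ 2 * (H * M))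
      + |τ| * ((14 + 18 * k + 4 * k * (k + 1)) * (H * M)) := by ring
  linarith

section
variable {m : ℕ} {ι : Type*} [Fintype ι]

lemma abs_q4_le_norm (v : EE m) : |q4 (v 0) (v 1)| ≤ ‖v‖ ^ 2 := by
  refine (abs_q4_le _ _).trans ?_
  rw [norm_sq_EE]
  have : 0 ≤ ∑ j : Fin m, v j.succ.succ.succ ^ 2 := Finset.sum_nonneg fun j _ => sq_nonneg _
  nlinarith [sq_nonneg (v 2)]

lemma plane_le (v : EE m) : v 0 ^ 2 + v 1 ^ 2 ≤ ‖v‖ ^ 2 := by
  rw [norm_sq_EE]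
  have : 0 ≤ ∑ j : Fin m, v j.succ.succ.succ ^ 2 := Finset.sum_nonneg fun j _ => sq_nonneg _
  have := sq_nonneg (v 2)
  linarith

lemma sqrt_plane_le (v : EE m) : √(v 0 ^ 2 + v 1 ^ 2) ≤ √(‖v‖ ^ 2) :=
  Real.sqrt_le_sqrt (plane_le v)

/-- Along a line, at critical points, the second derivative of `Phi` is negative. -/
lemma Phi_line {p : ℕ} (hp : 1 ≤ p) {ε : ℝ} (hε : 0 < ε) (f : ι → EE m) :
    ∃ τ0 : ℝ, 0 < τ0 ∧ ∀ τ : ℝ, |τ| ≤ τ0 → ∀ (v h : EE m) (r0 : ℝ), h ≠ 0 → v + r0 • h ≠ 0 →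
      ∃ (φ1 : ℝ → ℝ) (φ2 : ℝ),
      (∀ᶠ r in 𝓝 r0, HasDerivAt (fun r : ℝ => Phi p ε f τ (v + r • h)) (φ1 r) r) ∧
      HasDerivAt φ1 φ2 r0 ∧ (φ1 r0 = 0 → φ2 < 0) := by
  set κ : ℝ := kap m p with hκdef
  set k : ℝ := (m + 4 : ℝ) / 2 with hkdef
  have hp0 : (0:ℝ) < p := by exact_mod_cast hp
  have hκ : 0 < κ := by rw [hκdef, kap]; positivity
  have hk : 0 < k := by positivity
  have hC := CQ_pos p hε f
  set C : ℝ := CQ p ε f with hCdef
  set L : ℝ := C ^ κ with hL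
  have hL0 : 0 < L := rpow_pos_of_pos hC _
  set c4 : ℝ := 2 * κ * ε * p * C ^ (-κ - 1) with hc4
  have hc4pos : 0 < c4 := by have := rpow_pos_of_pos hC (-κ - 1); positivity
  set c5 : ℝ := (κ + 1) / κ * L * (4 + 2 * k) ^ 2 + (14 + 18 * k + 4 * k * (k + 1)) with hc5
  have hc5pos : 0 < c5 := by positivity
  refine ⟨min 1 (c4 / (2 * c5)), by positivity, ?_⟩
  intro τ hτ v h r0 hh hv0
  have hτ1 : |τ| ≤ 1 := hτ.trans (min_le_left _ _)
  have hτ2 : |τ| * c5 < c4 := by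
    have h1 : |τ| ≤ c4 / (2 * c5) := hτ.trans (min_le_right _ _)
    calc |τ| * c5 ≤ c4 / (2 * c5) * c5 := by gcongr
      _ = c4 / 2 := by field_simp
      _ < c4 := by linarith
  obtain ⟨A1, A2, hA1, hA2, hA2b⟩ := Qf_line (p := p) hε f v h
  obtain ⟨q1, q2, hq1, hq2, hq1b, hq2b⟩ := q4_line (v 0) (v 1) (h 0) (h 1) r0
  set A : ℝ → ℝ := fun r => Qf p ε f (v + r • h) with hA
  set N : ℝ → ℝ := fun r => ‖v + r • h‖ ^ 2 with hN
  set N1 : ℝ → ℝ := fun r => 2 * inner ℝ (v + r • h) h with hN1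
  set q : ℝ → ℝ := fun r => q4 (v 0 + r * h 0) (v 1 + r * h 1) with hq
  have hNd : ∀ r, HasDerivAt N (N1 r) r := norm_line_deriv v h
  have hN1d : ∀ r, HasDerivAt N1 (2 * ‖h‖ ^ 2) r := norm_line_deriv2 v h
  have hvev : ∀ᶠ r in 𝓝 r0, v + r • h ≠ 0 := by
    have : ContinuousAt (fun r : ℝ => v + r • h) r0 := by fun_prop
    exact this.eventually_ne hv0
  set φ1 : ℝ → ℝ := fun r => A1 r * (-κ) * (A r) ^ (-κ - 1)
    + τ * (q1 r * (N r) ^ (-k) + q r * (N1 r * (-k) * (N r) ^ (-k - 1))) with hφ1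
  set φ2 : ℝ := (A2 r0 * (-κ)) * (A r0) ^ (-κ - 1)
      + A1 r0 * (-κ) * (A1 r0 * (-κ - 1) * (A r0) ^ (-κ - 1 - 1))
    + τ * ((q2 * (N r0) ^ (-k) + q1 r0 * (N1 r0 * (-k) * (N r0) ^ (-k - 1)))
      + (q1 r0 * (N1 r0 * (-k) * (N r0) ^ (-k - 1))
        + q r0 * ((2 * ‖h‖ ^ 2 * (-k)) * (N r0) ^ (-k - 1)
          + N1 r0 * (-k) * (N1 r0 * (-k - 1) * (N r0) ^ (-k - 1 - 1))))) with hφ2
  have hNpos : ∀ r, v + r • h ≠ 0 → 0 < N r := fun r hr => by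
    have := norm_pos_iff.2 hr; simp only [hN]; positivity
  have hApos : ∀ r, v + r • h ≠ 0 → 0 < A r := fun r hr => Qf_pos p hε f hr
  refine ⟨φ1, φ2, ?_, ?_, ?_⟩
  · filter_upwards [hvev, hq1] with r hr hqr
    have d1 := (hA1 r).rpow_const (p := -κ) (Or.inl (hApos r hr).ne')
    have d2 := (hNd r).rpow_const (p := -k) (Or.inl (hNpos r hr).ne')
    have d3 := (hqr.mul d2).const_mul τ
    exact d1.add d3
  · have hqr : HasDerivAt q (q1 r0) r0 := hq1.self_of_nhds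
    have hA0 := (hApos r0 hv0).ne'
    have hN0 := (hNpos r0 hv0).ne'
    have d1 := (hA1 r0).rpow_const (p := -κ - 1) (Or.inl hA0)
    have d2 := (hNd r0).rpow_const (p := -k - 1) (Or.inl hN0)
    have d3 := (hNd r0).rpow_const (p := -k) (Or.inl hN0)
    have d4 := ((hA2 r0).mul_const (-κ)).mul d1
    have d5 := hq2.mul d3
    have d6 := hqr.mul (((hN1d r0).mul_const (-k)).mul d2)
    exact d4.add ((d5.add d6).const_mul τ)
  · intro hcrit
    have hA0 := hApos r0 hv0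
    have hN0 := hNpos r0 hv0
    have hH : 0 < ‖h‖ ^ 2 := by have := norm_pos_iff.2 hh; positivity
    set u : ℝ := (A r0) ^ (-κ - 1) with hu
    have hu0 : 0 < u := rpow_pos_of_pos hA0 _
    set M : ℝ := (N r0) ^ (-k) with hM
    have hM0 : 0 < M := rpow_pos_of_pos hN0 _
    have eM1 : (N r0) ^ (-k - 1) = M / N r0 := by rw [rpow_sub_one hN0.ne']
    have eM2 : (N r0) ^ (-k - 1 - 1) = M / N r0 / N r0 := by
      rw [rpow_sub_one hN0.ne', rpow_sub_one hN0.ne']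
    have eu : (A r0) ^ (-κ - 1 - 1) = u / A r0 := by rw [rpow_sub_one hA0.ne']
    have hqN : |q r0| ≤ N r0 := by
      have := abs_q4_le_norm (v + r0 • h)
      simpa [hq, hN] using this
    have hpl : √((v 0 + r0 * h 0) ^ 2 + (v 1 + r0 * h 1) ^ 2) ≤ √(N r0) := by
      have := sqrt_plane_le (v + r0 • h)
      simpa [hN] using this
    have hph : √(h 0 ^ 2 + h 1 ^ 2) ≤ √(‖h‖ ^ 2) := sqrt_plane_le h
    have hq1' : |q1 r0| ≤ 4 * (√(N r0) * √(‖h‖ ^ 2)) := by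
      refine hq1b.trans ?_
      gcongr
    have hq2' : |q2| ≤ 14 * ‖h‖ ^ 2 := by
      exact hq2b.trans (mul_le_mul_of_nonneg_left (plane_le h) (by norm_num))
    have hN1' : |N1 r0| ≤ 2 * (√(N r0) * √(‖h‖ ^ 2)) := by
      simp only [hN1, hN]
      rw [abs_mul, abs_two, Real.sqrt_sq (norm_nonneg _), Real.sqrt_sq (norm_nonneg _)]
      gcongr
      exact abs_real_inner_le_norm _ _
    have hcrit' : κ * A1 r0 * u = τ * (M * (q1 r0 - k * q r0 * N1 r0 / N r0)) := by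
      simp only [hφ1] at hcrit
      rw [eM1] at hcrit
      have : A1 r0 * -κ * u + τ * (q1 r0 * M + q r0 * (N1 r0 * -k * (M / N r0))) = 0 := hcrit
      have e : τ * (M * (q1 r0 - k * q r0 * N1 r0 / N r0))
        = τ * (q1 r0 * M + q r0 * (N1 r0 * -k * (M / N r0))) := by ring
      rw [e]; linarith
    have hAup : A r0 ≤ C * (N r0) ^ p := Qf_upper p ε f (v + r0 • h)
    have hpκ : (p : ℝ) * κ = k - 1 := by
      rw [hκdef, kap, hkdef]; field_simp; ring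
    have hb1 : (u * A r0)⁻¹ * (N r0 * M) ≤ L := by
      have e1 : (u * A r0)⁻¹ = (A r0) ^ κ := by
        rw [hu, ← rpow_add_one hA0.ne', ← rpow_neg hA0.le]
        congr 1; ring
      have e2 : N r0 * M = (N r0) ^ (1 - k) := by
        rw [hM, sub_eq_add_neg, rpow_add hN0, rpow_one]
      rw [e1, e2]
      calc (A r0) ^ κ * (N r0) ^ (1 - k) ≤ (C * (N r0) ^ p) ^ κ * (N r0) ^ (1 - k) := by
            gcongr
        _ = C ^ κ * ((N r0) ^ ((p:ℝ) * κ) * (N r0) ^ (1 - k)) := by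
            rw [mul_rpow hC.le (by positivity), ← rpow_natCast, ← rpow_mul hN0.le]; ring
        _ = L := by
            rw [← rpow_add hN0, hpκ]
            have : k - 1 + (1 - k) = 0 := by ring
            rw [this, rpow_zero, mul_one]
    have hb2 : c4 * (‖h‖ ^ 2 * M) ≤ κ * A2 r0 * u := by
      have h1 := hA2b r0
      have h2 : C ^ (-κ - 1) * (N r0) ^ ((p:ℝ) * (-κ - 1)) ≤ u := by
        rw [hu]
        calc C ^ (-κ - 1) * (N r0) ^ ((p:ℝ) * (-κ - 1)) = (C * (N r0) ^ p) ^ (-κ - 1) := by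
              rw [mul_rpow hC.le (by positivity), ← rpow_natCast, ← rpow_mul hN0.le]
          _ ≤ (A r0) ^ (-κ - 1) := rpow_le_rpow_of_nonpos hA0 hAup (by linarith)
      have h3 : (N r0) ^ (p - 1) * (N r0) ^ ((p:ℝ) * (-κ - 1)) = M := by
        rw [hM, ← rpow_natCast, ← rpow_add hN0]
        congr 1
        rw [Nat.cast_sub hp]
        push_cast
        linear_combination -hpκ
      have hx := rpow_pos_of_pos hC (-κ - 1)
      calc c4 * (‖h‖ ^ 2 * M)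
          = κ * (2 * (ε * p * (N r0) ^ (p - 1) * ‖h‖ ^ 2))
            * (C ^ (-κ - 1) * (N r0) ^ ((p:ℝ) * (-κ - 1))) := by
            rw [hc4, ← h3]; ring
        _ ≤ κ * A2 r0 * u := by
            have h4 : 0 ≤ 2 * (ε * p * (N r0) ^ (p - 1) * ‖h‖ ^ 2) := by positivity
            have h5 : 0 ≤ A2 r0 := h4.trans h1
            have h6 : 2 * (ε * p * (N r0) ^ (p - 1) * ‖h‖ ^ 2) ≤ A2 r0 := h1
            gcongr
    have hfin := core_ineq (κ := κ) (k := k) (A := A r0) (A1 := A1 r0) (A2 := A2 r0) (u := u)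
      (N := N r0) (H := ‖h‖ ^ 2) (M := M) (q := q r0) (q1 := q1 r0) (q2 := q2) (N1 := N1 r0)
      (τ := τ) (L := L) (c4 := c4) (c5 := c5) hκ hk hA0 hu0 hN0 hH hM0 hL0.le hqN hq1' hq2' hN1'
      hcrit' hb1 hb2 hτ1 hc5 hτ2
    rw [hφ2, eM1, eM2, eu]
    refine lt_of_eq_of_lt ?_ hfin
    field_simp
    ring

end

end IB
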