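import Mathlib
import Pool.Agent.Helper689.IBPhi

set_option autoImplicit false

open MeasureTheory Set Filter Topology Metric Real

namespace IB

lemma q4_smul (c a b : ℝ) : q4 (c * a) (c * b) = c ^ 2 * q4 a b := by
  rcases eq_or_ne c 0 with hc | hc
  · subst hc; simp [q4]
  · unfold q4
    have hc' : (c : ℂ) ≠ 0 := by exact_mod_cast hc
    have e : (((c * a : ℝ) : ℂ) + ((c * b : ℝ) : ℂ) * Complex.I) ^ 3 /
        (((c * a : ℝ) : ℂ) - ((c * b : ℝ) : ℂ) * Complex.I)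
        = ((c ^ 2 : ℝ) : ℂ) * (((a : ℂ) + b * Complex.I) ^ 3 / ((a : ℂ) - b * Complex.I)) := by
      have e1 : ((c * a : ℝ) : ℂ) + ((c * b : ℝ) : ℂ) * Complex.I = c * ((a : ℂ) + b * Complex.I) := by
        push_cast; ring
      have e2 : ((c * a : ℝ) : ℂ) - ((c * b : ℝ) : ℂ) * Complex.I = c * ((a : ℂ) - b * Complex.I) := by
        push_cast; ring
      rw [e1, e2, mul_pow, mul_div_mul_comm]
      congr 1
      push_cast
      field_simp
    rw [e, Complex.re_ofReal_mul]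

lemma continuous_q4 : Continuous (fun z : ℝ × ℝ => q4 z.1 z.2) := by
  rw [continuous_iff_continuousAt]
  intro z
  by_cases hz : z.1 ^ 2 + z.2 ^ 2 = 0
  · have h1 : z.1 = 0 := by nlinarith [sq_nonneg z.1, sq_nonneg z.2]
    have h2 : z.2 = 0 := by nlinarith [sq_nonneg z.1, sq_nonneg z.2]
    have hv : q4 z.1 z.2 = 0 := by rw [h1, h2]; simp [q4]
    show Tendsto _ _ (𝓝 (q4 z.1 z.2))
    rw [hv]
    have hb : Tendsto (fun z : ℝ × ℝ => z.1 ^ 2 + z.2 ^ 2) (𝓝 z) (𝓝 0) := by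
      have : Continuous (fun z : ℝ × ℝ => z.1 ^ 2 + z.2 ^ 2) := by fun_prop
      have h := this.tendsto z
      rwa [hz] at h
    exact squeeze_zero_norm (fun z => by rw [Real.norm_eq_abs]; exact abs_q4_le _ _) hb
  · unfold q4
    have hne : ((z.1 : ℂ) - z.2 * Complex.I) ≠ 0 := by
      intro h
      have h1 := congrArg norm h
      rw [norm_aux, norm_zero] at h1
      have h2 := norm_sq_aux z.1 z.2
      rw [h1] at h2
      apply hz; rw [← h2]; simp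
    have hc : ContinuousAt (fun z : ℝ × ℝ =>
        ((z.1 : ℂ) + z.2 * Complex.I) ^ 3 / ((z.1 : ℂ) - z.2 * Complex.I)) z := by
      refine ContinuousAt.div ?_ ?_ hne
      · fun_prop
      · fun_prop
    exact Complex.continuous_re.continuousAt.comp hc

section
variable {m : ℕ} {ι : Type*} [Fintype ι]

lemma pkap {m p : ℕ} (hp : 1 ≤ p) : (p : ℝ) * kap m p = (m + 2 : ℝ) / 2 := by
  have hp0 : (0:ℝ) < p := by exact_mod_cast hp
  rw [kap]; field_simp

lemma kap_pos {m p : ℕ} (hp : 1 ≤ p) : 0 < kap m p := by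
  have hp0 : (0:ℝ) < p := by exact_mod_cast hp
  rw [kap]; positivity

lemma Qf_smul (p : ℕ) (ε : ℝ) (f : ι → EE m) (c : ℝ) (v : EE m) :
    Qf p ε f (c • v) = (c ^ 2) ^ p * Qf p ε f v := by
  unfold Qf
  rw [mul_add, Finset.mul_sum]
  congr 1
  · refine Finset.sum_congr rfl fun i _ => ?_
    rw [inner_smul_right, mul_pow, pow_mul c]
  · rw [norm_smul, mul_pow, mul_pow, Real.norm_eq_abs, sq_abs]; ring

lemma abs_rpow_aux {c : ℝ} (hc : c ≠ 0) (k : ℕ) : (c ^ 2) ^ (-((k : ℝ) / 2)) = (|c| ^ k)⁻¹ := by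
  have h := abs_pos.2 hc
  rw [← sq_abs, ← rpow_natCast (|c|) 2, ← rpow_mul h.le, ← rpow_natCast (|c|) k, ← rpow_neg h.le]
  congr 1; push_cast; ring

lemma gf_smul {c : ℝ} (hc : c ≠ 0) (v : EE m) : gf (c • v) = (|c| ^ (m + 2))⁻¹ * gf v := by
  unfold gf
  have e1 : (c • v) 0 = c * v 0 := rfl
  have e2 : (c • v) 1 = c * v 1 := rfl
  have h := abs_pos.2 hc
  rw [e1, e2, q4_smul, norm_smul, mul_pow, Real.norm_eq_abs, sq_abs, mul_rpow (by positivity) (by positivity)]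
  have e3 : (c ^ 2) ^ (-((m + 4 : ℝ) / 2)) = (|c| ^ (m + 4))⁻¹ := by
    have := abs_rpow_aux hc (m + 4)
    push_cast at this
    exact this
  have e4 : c ^ 2 * (|c| ^ (m + 4))⁻¹ = (|c| ^ (m + 2))⁻¹ := by
    rw [← sq_abs, pow_add |c| m 4, pow_add |c| m 2]
    field_simp
  rw [e3, ← e4]; ring

lemma Phi_smul {p : ℕ} (hp : 1 ≤ p) {ε : ℝ} (hε : 0 < ε) (f : ι → EE m) (τ : ℝ) {c : ℝ}
    (hc : c ≠ 0) (v : EE m) : Phi p ε f τ (c • v) = (|c| ^ (m + 2))⁻¹ * Phi p ε f τ v := by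
  unfold Phi
  rw [gf_smul hc, Qf_smul]
  have hQ : 0 ≤ Qf p ε f v := le_trans (by positivity) (Qf_lower p ε f v)
  rw [mul_rpow (by positivity) hQ, ← rpow_natCast (c ^ 2) p, ← rpow_mul (by positivity)]
  have e1 : (p : ℝ) * -kap m p = -(((m + 2 : ℕ) : ℝ) / 2) := by
    push_cast; rw [mul_neg, pkap hp]
  rw [e1, abs_rpow_aux hc]
  ring

lemma abs_gf_le (v : EE m) (hv : v ≠ 0) : |gf v| ≤ (‖v‖ ^ 2) ^ (-((m + 2 : ℝ) / 2)) := by
  unfold gf
  have hn : 0 < ‖v‖ ^ 2 := by have := norm_pos_iff.2 hv; positivity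
  rw [abs_mul, abs_of_nonneg (rpow_nonneg hn.le _)]
  calc |q4 (v 0) (v 1)| * (‖v‖ ^ 2) ^ (-((m + 4 : ℝ) / 2))
      ≤ (‖v‖ ^ 2) ^ (1:ℝ) * (‖v‖ ^ 2) ^ (-((m + 4 : ℝ) / 2)) := by
        rw [rpow_one]; gcongr; exact abs_q4_le_norm v
    _ = _ := by rw [← rpow_add hn]; congr 1; ring

/-- comparison with the unperturbed function -/
lemma gf_le_Q {p : ℕ} (hp : 1 ≤ p) {ε : ℝ} (hε : 0 < ε) (f : ι → EE m) (v : EE m) (hv : v ≠ 0) :
    |gf v| ≤ (CQ p ε f) ^ (kap m p) * (Qf p ε f v) ^ (-kap m p) := by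
  refine (abs_gf_le v hv).trans ?_
  have hn : 0 < ‖v‖ ^ 2 := by have := norm_pos_iff.2 hv; positivity
  have hC := CQ_pos p hε f
  have hQ := Qf_pos p hε f hv
  have h1 := Qf_upper p ε f v
  have h2 : Qf p ε f v / CQ p ε f ≤ (‖v‖ ^ 2) ^ p := by
    rw [div_le_iff₀ hC, mul_comm]; exact h1
  have e : (‖v‖ ^ 2) ^ (-((m + 2 : ℝ) / 2)) = ((‖v‖ ^ 2) ^ p) ^ (-kap m p) := by
    rw [← rpow_natCast (‖v‖ ^ 2) p, ← rpow_mul hn.le, mul_neg, pkap hp]
  rw [e]
  calc ((‖v‖ ^ 2) ^ p) ^ (-kap m p) ≤ (Qf p ε f v / CQ p ε f) ^ (-kap m p) :=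
        rpow_le_rpow_of_nonpos (by positivity) h2 (by have := kap_pos (m := m) hp; linarith)
    _ = _ := by
        rw [div_rpow hQ.le hC.le, rpow_neg hC.le, div_inv_eq_mul, mul_comm]

lemma Phi_bounds {p : ℕ} (hp : 1 ≤ p) {ε : ℝ} (hε : 0 < ε) (f : ι → EE m) {τ σ : ℝ}
    (hτ : |τ| * (CQ p ε f) ^ (kap m p) ≤ σ) (v : EE m) (hv : v ≠ 0) :
    (1 - σ) * (Qf p ε f v) ^ (-kap m p) ≤ Phi p ε f τ v ∧
      Phi p ε f τ v ≤ (1 + σ) * (Qf p ε f v) ^ (-kap m p) := by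
  have h1 := gf_le_Q hp hε f v hv
  have hQ : 0 < (Qf p ε f v) ^ (-kap m p) := rpow_pos_of_pos (Qf_pos p hε f hv) _
  have h2 : |τ * gf v| ≤ σ * (Qf p ε f v) ^ (-kap m p) := by
    rw [abs_mul]
    calc |τ| * |gf v| ≤ |τ| * ((CQ p ε f) ^ (kap m p) * (Qf p ε f v) ^ (-kap m p)) := by gcongr
      _ = (|τ| * (CQ p ε f) ^ (kap m p)) * (Qf p ε f v) ^ (-kap m p) := by ring
      _ ≤ _ := by gcongr
  have h3 := abs_le.1 h2
  unfold Phi
  constructor <;> linarith [h3.1, h3.2]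

/-- two-sided bounds by the Euclidean norm -/
lemma Phi_norm_bounds {p : ℕ} (hp : 1 ≤ p) {ε : ℝ} (hε : 0 < ε) (f : ι → EE m) {τ : ℝ}
    (hτ : |τ| * (CQ p ε f) ^ (kap m p) ≤ 1 / 2) :
    ∃ c C : ℝ, 0 < c ∧ 0 < C ∧ ∀ v : EE m, v ≠ 0 →
      c * (‖v‖ ^ 2) ^ (-((m + 2 : ℝ) / 2)) ≤ Phi p ε f τ v ∧
      Phi p ε f τ v ≤ C * (‖v‖ ^ 2) ^ (-((m + 2 : ℝ) / 2)) := by
  have hC := CQ_pos p hε f
  have hκ := kap_pos (m := m) hp
  refine ⟨1 / 2 * (CQ p ε f) ^ (-kap m p), 3 / 2 * ε ^ (-kap m p), ?_, ?_, ?_⟩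
  · have := rpow_pos_of_pos hC (-kap m p); positivity
  · have := rpow_pos_of_pos hε (-kap m p); positivity
  intro v hv
  have hn : 0 < ‖v‖ ^ 2 := by have := norm_pos_iff.2 hv; positivity
  have hb := Phi_bounds hp hε f hτ v hv
  have e : (‖v‖ ^ 2) ^ (-((m + 2 : ℝ) / 2)) = ((‖v‖ ^ 2) ^ p) ^ (-kap m p) := by
    rw [← rpow_natCast (‖v‖ ^ 2) p, ← rpow_mul hn.le, mul_neg, pkap hp]
  have hQ := Qf_pos p hε f hv
  have l1 : (CQ p ε f) ^ (-kap m p) * ((‖v‖ ^ 2) ^ p) ^ (-kap m p) ≤ (Qf p ε f v) ^ (-kap m p) := by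
    rw [← mul_rpow hC.le (by positivity)]
    exact rpow_le_rpow_of_nonpos hQ (Qf_upper p ε f v) (by linarith)
  have l2 : (Qf p ε f v) ^ (-kap m p) ≤ ε ^ (-kap m p) * ((‖v‖ ^ 2) ^ p) ^ (-kap m p) := by
    rw [← mul_rpow hε.le (by positivity)]
    exact rpow_le_rpow_of_nonpos (by positivity) (Qf_lower p ε f v) (by linarith)
  rw [e]
  constructor
  · linarith [hb.1]
  · linarith [hb.2]

/-- The body. -/
def Kset (p : ℕ) (ε : ℝ) (f : ι → EE m) (τ : ℝ) : Set (EE m) := {v | v = 0 ∨ 1 ≤ Phi p ε f τ v}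

lemma continuous_Qf (p : ℕ) (ε : ℝ) (f : ι → EE m) : Continuous (Qf p ε f) := by
  unfold Qf
  fun_prop

lemma continuous_q4v : Continuous (fun v : EE m => q4 (v 0) (v 1)) := by
  have h1 : Continuous (fun v : EE m => ((v 0, v 1) : ℝ × ℝ)) := by fun_prop
  have h2 := continuous_q4.comp h1
  exact h2

lemma continuousOn_Phi (p : ℕ) {ε : ℝ} (hε : 0 < ε) (f : ι → EE m) (τ : ℝ) :
    ContinuousOn (Phi p ε f τ) {v | v ≠ 0} := by
  unfold Phi gf
  refine ContinuousOn.add ?_ ?_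
  · exact (continuous_Qf p ε f).continuousOn.rpow_const (fun v hv => Or.inl (Qf_pos p hε f hv).ne')
  · refine continuousOn_const.mul (ContinuousOn.mul ?_ ?_)
    · exact continuous_q4v.continuousOn
    · refine ContinuousOn.rpow_const (by fun_prop) (fun v hv => Or.inl ?_)
      have := norm_pos_iff.2 hv
      positivity

lemma measurable_Phi (p : ℕ) (ε : ℝ) (f : ι → EE m) (τ : ℝ) : Measurable (Phi p ε f τ) := by
  unfold Phi gf
  refine ((continuous_Qf p ε f).measurable.pow_const _).add (measurable_const.mul ?_)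
  refine Measurable.mul ?_ ?_
  · exact continuous_q4v.measurable
  · exact (by fun_prop : Continuous fun v : EE m => ‖v‖ ^ 2).measurable.pow_const _

lemma Kset_isClosed (p : ℕ) {ε : ℝ} (hε : 0 < ε) (f : ι → EE m) (τ : ℝ) :
    IsClosed (Kset p ε f τ) := by
  rw [← isOpen_compl_iff]
  have h1 : (Kset p ε f τ)ᶜ = {v | v ≠ 0} ∩ (Phi p ε f τ) ⁻¹' (Iio 1) := by
    ext v
    simp only [Kset, mem_compl_iff, mem_ofPred_eq, not_or, not_le, mem_inter_iff, mem_preimage,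
      mem_Iio]
  rw [h1]
  exact (continuousOn_Phi p hε f τ).isOpen_inter_preimage isOpen_ne isOpen_Iio

lemma Kset_scale {p : ℕ} (hp : 1 ≤ p) {ε : ℝ} (hε : 0 < ε) (f : ι → EE m) {τ : ℝ}
    {v : EE m} (hv : v ∈ Kset p ε f τ) {c : ℝ} (hc : |c| ≤ 1) : c • v ∈ Kset p ε f τ := by
  rcases eq_or_ne c 0 with h | h
  · left; rw [h, zero_smul]
  rcases hv with hv | hv
  · left; rw [hv, smul_zero]
  · right
    rw [Phi_smul hp hε f τ h]
    have hc0 := abs_pos.2 h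
    have h1 : 1 ≤ (|c| ^ (m + 2))⁻¹ := by
      rw [one_le_inv₀ (by positivity)]
      exact pow_le_one₀ hc0.le hc
    nlinarith

lemma Kset_convex {p : ℕ} (hp : 1 ≤ p) {ε : ℝ} (hε : 0 < ε) (f : ι → EE m) :
    ∃ τ0 : ℝ, 0 < τ0 ∧ ∀ τ : ℝ, |τ| ≤ τ0 → Convex ℝ (Kset p ε f τ) := by
  obtain ⟨τ0, hτ0, hmain⟩ := Phi_line hp hε f
  refine ⟨τ0, hτ0, fun τ hτ => ?_⟩
  rw [convex_iff_segment_subset]
  intro a ha b hb
  rw [segment_eq_image']
  rintro _ ⟨r, hr, rfl⟩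
  show a + r • (b - a) ∈ Kset p ε f τ
  by_cases hab : b - a = 0
  · rw [hab, smul_zero, add_zero]; exact ha
  by_cases hz : ∃ r0 ∈ Icc (0:ℝ) 1, a + r0 • (b - a) = 0
  · obtain ⟨r0, hr0, hz⟩ := hz
    have ha' : a = (-r0) • (b - a) := by
      rw [neg_smul, eq_neg_iff_add_eq_zero]; exact hz
    have hb' : b = (1 - r0) • (b - a) := by
      have : b = a + (b - a) := by abel
      rw [sub_smul, one_smul]
      nth_rewrite 1 [this]
      nth_rewrite 1 [ha']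
      rw [neg_smul]; abel
    have hpt : a + r • (b - a) = (r - r0) • (b - a) := by
      nth_rewrite 1 [ha']
      rw [← add_smul]; congr 1; ring
    rw [hpt]
    rcases le_or_gt r r0 with h | h
    · rcases eq_or_lt_of_le hr0.1 with h0 | h0
      · have : r = r0 := le_antisymm h (by rw [← h0]; exact hr.1)
        rw [this, sub_self, zero_smul]; left; rfl
      · have e : (r - r0) • (b - a) = ((r0 - r) / r0) • a := by
          nth_rewrite 2 [ha']
          rw [smul_smul]; congr 1; field_simp; ring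
        rw [e]
        refine Kset_scale hp hε f ha ?_
        rw [abs_of_nonneg (div_nonneg (by linarith) h0.le), div_le_one h0]
        linarith [hr.1]
    · have h1 : 0 < 1 - r0 := by linarith [hr.2]
      have e : (r - r0) • (b - a) = ((r - r0) / (1 - r0)) • b := by
        nth_rewrite 2 [hb']
        rw [smul_smul]; congr 1; field_simp
      rw [e]
      refine Kset_scale hp hε f hb ?_
      rw [abs_of_nonneg (div_nonneg (by linarith) h1.le), div_le_one h1]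
      linarith [hr.2]
  · push Not at hz
    right
    set φ : ℝ → ℝ := fun r => Phi p ε f τ (a + r • (b - a)) with hφ
    have hc : ContinuousOn φ (Icc 0 1) := by
      refine (continuousOn_Phi p hε f τ).comp (by fun_prop) ?_
      intro r hr
      exact hz r hr
    have h0 : 1 ≤ φ 0 := by
      simp only [hφ, zero_smul, add_zero]
      rcases ha with h | h
      · exact absurd (by simpa using h) (hz 0 ⟨le_refl _, zero_le_one⟩)
      · exact h
    have h1 : 1 ≤ φ 1 := by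
      simp only [hφ, one_smul, add_sub_cancel]
      rcases hb with h | h
      · exact absurd (by simpa using h) (hz 1 ⟨zero_le_one, le_refl _⟩)
      · exact h
    refine quasi_line hc h0 h1 ?_ r hr
    intro r0 hr0
    exact hmain τ hτ a (b - a) r0 hab (hz r0 ⟨hr0.1.le, hr0.2.le⟩)

lemma Kset_bounded {p : ℕ} (hp : 1 ≤ p) {ε : ℝ} (hε : 0 < ε) (f : ι → EE m) {τ : ℝ}
    (hτ : |τ| * (CQ p ε f) ^ (kap m p) ≤ 1 / 2) :
    ∃ R : ℝ, 0 < R ∧ Kset p ε f τ ⊆ closedBall 0 R := by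
  obtain ⟨c, C, hc, hC, hb⟩ := Phi_norm_bounds hp hε f hτ
  refine ⟨max 1 C, by positivity, ?_⟩
  intro v hv
  rw [mem_closedBall, dist_zero_right]
  rcases hv with hv | hv
  · rw [hv, norm_zero]; positivity
  by_contra hcon
  push Not at hcon
  have h1 : 1 < ‖v‖ := (le_max_left _ _).trans_lt hcon
  have h2 : C < ‖v‖ := (le_max_right _ _).trans_lt hcon
  have hv0 : v ≠ 0 := norm_pos_iff.1 (by linarith)
  have h3 := hv.trans (hb v hv0).2
  have e := abs_rpow_aux (c := ‖v‖) (norm_ne_zero_iff.2 hv0) (m + 2)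
  rw [abs_norm] at e
  push_cast at e
  rw [e] at h3
  have hp2 : 0 < ‖v‖ ^ (m + 2) := by positivity
  rw [← div_eq_mul_inv, le_div_iff₀ hp2, one_mul] at h3
  have h4 : ‖v‖ ≤ ‖v‖ ^ (m + 2) := le_self_pow₀ h1.le (by omega)
  linarith

end

end IB
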