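import Mathlib

set_option autoImplicit false

open MeasureTheory Set Filter Topology Real

namespace IB

/-- The kernel `Re (δ + i s)⁻²`. -/
noncomputable def ker (δ s : ℝ) : ℝ := (δ ^ 2 - s ^ 2) / (δ ^ 2 + s ^ 2) ^ 2
noncomputable def ker1 (δ s : ℝ) : ℝ := 2 * (s ^ 3 - 3 * δ ^ 2 * s) / (δ ^ 2 + s ^ 2) ^ 3
noncomputable def ker2 (δ s : ℝ) : ℝ :=
  -6 * (δ ^ 4 - 6 * δ ^ 2 * s ^ 2 + s ^ 4) / (δ ^ 2 + s ^ 2) ^ 4

lemma den_pos {δ : ℝ} (hδ : 0 < δ) (s : ℝ) : 0 < δ ^ 2 + s ^ 2 := by positivity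

lemma hasDerivAt_ker {δ : ℝ} (hδ : 0 < δ) (s : ℝ) : HasDerivAt (ker δ) (ker1 δ s) s := by
  have hd := (den_pos hδ s).ne'
  have h1 : HasDerivAt (fun s : ℝ => δ ^ 2 - s ^ 2) (-(2 * s)) s := by
    simpa using (hasDerivAt_pow 2 s).const_sub (δ ^ 2)
  have h2 : HasDerivAt (fun s : ℝ => δ ^ 2 + s ^ 2) (2 * s) s := by
    simpa using (hasDerivAt_pow 2 s).const_add (δ ^ 2)
  have h3 : HasDerivAt (fun s : ℝ => (δ ^ 2 + s ^ 2) ^ 2) (2 * (δ ^ 2 + s ^ 2) * (2 * s)) s := by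
    simpa using h2.fun_pow 2
  have h4 := h1.div h3 (pow_ne_zero 2 hd)
  refine h4.congr_deriv ?_
  unfold ker1
  field_simp
  ring

lemma hasDerivAt_ker1 {δ : ℝ} (hδ : 0 < δ) (s : ℝ) : HasDerivAt (ker1 δ) (ker2 δ s) s := by
  have hd := (den_pos hδ s).ne'
  have h1 : HasDerivAt (fun s : ℝ => 2 * (s ^ 3 - 3 * δ ^ 2 * s)) (2 * (3 * s ^ 2 - 3 * δ ^ 2)) s := by
    have := ((hasDerivAt_pow 3 s).sub ((hasDerivAt_id s).const_mul (3 * δ ^ 2))).const_mul 2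
    refine this.congr_deriv ?_
    norm_num
  have h2 : HasDerivAt (fun s : ℝ => δ ^ 2 + s ^ 2) (2 * s) s := by
    simpa using (hasDerivAt_pow 2 s).const_add (δ ^ 2)
  have h3 : HasDerivAt (fun s : ℝ => (δ ^ 2 + s ^ 2) ^ 3) (3 * (δ ^ 2 + s ^ 2) ^ 2 * (2 * s)) s := by
    simpa using h2.fun_pow 3
  have h4 := h1.div h3 (pow_ne_zero 3 hd)
  refine h4.congr_deriv ?_
  unfold ker2
  field_simp
  ring

lemma abs_ker2_le {δ : ℝ} (hδ : 0 < δ) (s : ℝ) : |ker2 δ s| ≤ 18 / (δ ^ 2 + s ^ 2) ^ 2 := by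
  have hd := den_pos hδ s
  unfold ker2
  rw [abs_div, abs_of_pos (pow_pos hd 4), div_le_div_iff₀ (pow_pos hd 4) (pow_pos hd 2)]
  have h1 : |-6 * (δ ^ 4 - 6 * δ ^ 2 * s ^ 2 + s ^ 4)| ≤ 18 * (δ ^ 2 + s ^ 2) ^ 2 := by
    rw [abs_le]
    constructor <;> nlinarith [sq_nonneg (δ ^ 2 - s ^ 2), sq_nonneg (δ ^ 2 + s ^ 2),
      mul_nonneg (sq_nonneg δ) (sq_nonneg s), sq_nonneg (δ^2), sq_nonneg (s^2)]
  calc |-6 * (δ ^ 4 - 6 * δ ^ 2 * s ^ 2 + s ^ 4)| * (δ ^ 2 + s ^ 2) ^ 2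
      ≤ 18 * (δ ^ 2 + s ^ 2) ^ 2 * (δ ^ 2 + s ^ 2) ^ 2 := by gcongr
    _ = 18 * (δ ^ 2 + s ^ 2) ^ 4 := by ring

lemma abs_ker1_le {δ : ℝ} (hδ : 0 < δ) (s : ℝ) : |ker1 δ s| * |s| ≤ 6 / (δ ^ 2 + s ^ 2) := by
  have hd := den_pos hδ s
  unfold ker1
  rw [abs_div, abs_of_pos (pow_pos hd 3), div_mul_eq_mul_div, div_le_div_iff₀ (pow_pos hd 3) hd,
    ← abs_mul]
  have h1 : |2 * (s ^ 3 - 3 * δ ^ 2 * s) * s| ≤ 6 * (δ ^ 2 + s ^ 2) ^ 2 := by
    rw [abs_le]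
    constructor <;> nlinarith [sq_nonneg (δ ^ 2 - s ^ 2), sq_nonneg (δ ^ 2 + s ^ 2),
      mul_nonneg (sq_nonneg δ) (sq_nonneg s), sq_nonneg (δ^2), sq_nonneg (s^2)]
  calc |2 * (s ^ 3 - 3 * δ ^ 2 * s) * s| * (δ ^ 2 + s ^ 2)
      ≤ 6 * (δ ^ 2 + s ^ 2) ^ 2 * (δ ^ 2 + s ^ 2) := by gcongr
    _ = 6 * (δ ^ 2 + s ^ 2) ^ 3 := by ring

lemma abs_ker_le {δ : ℝ} (hδ : 0 < δ) (s : ℝ) : |ker δ s| ≤ 1 / (δ ^ 2 + s ^ 2) := by
  have hd := den_pos hδ s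
  unfold ker
  rw [abs_div, abs_of_pos (pow_pos hd 2), div_le_div_iff₀ (pow_pos hd 2) hd]
  have h1 : |δ ^ 2 - s ^ 2| ≤ δ ^ 2 + s ^ 2 := by
    rw [abs_le]
    constructor <;> nlinarith [sq_nonneg δ, sq_nonneg s]
  calc |δ ^ 2 - s ^ 2| * (δ ^ 2 + s ^ 2) ≤ (δ ^ 2 + s ^ 2) * (δ ^ 2 + s ^ 2) := by gcongr
    _ = 1 * (δ ^ 2 + s ^ 2) ^ 2 := by ring

lemma continuous_ker2 {δ : ℝ} (hδ : 0 < δ) : Continuous (ker2 δ) := by
  unfold ker2
  refine Continuous.div (by fun_prop) (by fun_prop) (fun s => (pow_pos (den_pos hδ s) 4).ne')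

lemma continuous_ker1 {δ : ℝ} (hδ : 0 < δ) : Continuous (ker1 δ) := by
  unfold ker1
  refine Continuous.div (by fun_prop) (by fun_prop) (fun s => (pow_pos (den_pos hδ s) 3).ne')

lemma continuous_ker {δ : ℝ} (hδ : 0 < δ) : Continuous (ker δ) := by
  unfold ker
  refine Continuous.div (by fun_prop) (by fun_prop) (fun s => (pow_pos (den_pos hδ s) 2).ne')

/-- Comparison function. -/
lemma one_div_den_sq_le {δ : ℝ} (hδ : 0 < δ) :
    ∃ C : ℝ, 0 < C ∧ ∀ s : ℝ, (1 + s ^ 2) / (δ ^ 2 + s ^ 2) ^ 2 ≤ C * (1 + s ^ 2)⁻¹ := by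
  refine ⟨(1 + 1 / δ ^ 2) ^ 2, by positivity, fun s => ?_⟩
  have hd := den_pos hδ s
  have h1 : 0 < 1 + s ^ 2 := by positivity
  rw [div_le_iff₀ (pow_pos hd 2), mul_assoc, inv_mul_eq_div, ← mul_div_assoc, le_div_iff₀ h1,
    ← mul_pow, ← sq]
  have : 1 + s ^ 2 ≤ (1 + 1 / δ ^ 2) * (δ ^ 2 + s ^ 2) := by
    have h3 : (1 + 1 / δ ^ 2) * (δ ^ 2 + s ^ 2) = δ ^ 2 + 1 + s ^ 2 + s ^ 2 / δ ^ 2 := by
      field_simp; ring
    rw [h3]
    have : 0 ≤ s ^ 2 / δ ^ 2 := by positivity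
    nlinarith [sq_nonneg δ]
  gcongr

lemma integrable_ker2_mul {δ : ℝ} (hδ : 0 < δ) {g : ℝ → ℝ} (hg : AEStronglyMeasurable g volume)
    {C : ℝ} (hC : ∀ s, |g s| ≤ C * (1 + s ^ 2)) : Integrable (fun s => ker2 δ s * g s) := by
  obtain ⟨C', hC', h'⟩ := one_div_den_sq_le hδ
  have hC0 : 0 ≤ C := by
    have := (abs_nonneg _).trans (hC 0); simpa using this
  refine Integrable.mono' (g := fun s => 18 * C * (C' * (1 + s ^ 2)⁻¹)) ?_ ?_ ?_
  · exact ((integrable_inv_one_add_sq).const_mul C').const_mul _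
  · exact (continuous_ker2 hδ).aestronglyMeasurable.mul hg
  · refine Eventually.of_forall fun s => ?_
    have hd := den_pos hδ s
    rw [norm_mul, Real.norm_eq_abs, Real.norm_eq_abs]
    calc |ker2 δ s| * |g s| ≤ (18 / (δ ^ 2 + s ^ 2) ^ 2) * (C * (1 + s ^ 2)) := by
          gcongr
          · exact abs_ker2_le hδ s
          · exact hC s
      _ = 18 * C * ((1 + s ^ 2) / (δ ^ 2 + s ^ 2) ^ 2) := by ring
      _ ≤ 18 * C * (C' * (1 + s ^ 2)⁻¹) := by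
          have := h' s
          gcongr

lemma tendsto_inv_den_atTop (δ : ℝ) : Tendsto (fun s : ℝ => (δ ^ 2 + s ^ 2)⁻¹) atTop (𝓝 0) := by
  refine tendsto_inv_atTop_zero.comp ?_
  exact tendsto_atTop_add_const_left _ _ (tendsto_pow_atTop two_ne_zero)

lemma tendsto_inv_den_atBot (δ : ℝ) : Tendsto (fun s : ℝ => (δ ^ 2 + s ^ 2)⁻¹) atBot (𝓝 0) := by
  have := (tendsto_inv_den_atTop δ).comp tendsto_neg_atBot_atTop
  simpa [Function.comp_def] using this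

/-- combined antiderivative -/
noncomputable def anti (δ τ s : ℝ) : ℝ := ker1 δ s * (s - τ) - ker δ s

lemma hasDerivAt_anti {δ : ℝ} (hδ : 0 < δ) (τ s : ℝ) :
    HasDerivAt (anti δ τ) (ker2 δ s * (s - τ)) s := by
  have h := ((hasDerivAt_ker1 hδ s).mul ((hasDerivAt_id s).sub_const τ)).sub (hasDerivAt_ker hδ s)
  refine h.congr_deriv ?_
  simp

lemma abs_anti_le {δ : ℝ} (hδ : 0 < δ) (τ s : ℝ) (hs : 1 ≤ |s|) :
    |anti δ τ s| ≤ (7 + 6 * |τ|) * (δ ^ 2 + s ^ 2)⁻¹ := by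
  have hd := den_pos hδ s
  have h1 := abs_ker1_le hδ s
  have h2 := abs_ker_le hδ s
  have h3 : |ker1 δ s| ≤ 6 / (δ ^ 2 + s ^ 2) := by
    calc |ker1 δ s| = |ker1 δ s| * 1 := by ring
      _ ≤ |ker1 δ s| * |s| := by gcongr
      _ ≤ _ := h1
  unfold anti
  calc |ker1 δ s * (s - τ) - ker δ s| ≤ |ker1 δ s * (s - τ)| + |ker δ s| := abs_sub _ _
    _ = |ker1 δ s| * |s - τ| + |ker δ s| := by rw [abs_mul]
    _ ≤ |ker1 δ s| * (|s| + |τ|) + |ker δ s| := by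
        gcongr
        exact abs_sub _ _
    _ = |ker1 δ s| * |s| + |ker1 δ s| * |τ| + |ker δ s| := by ring
    _ ≤ 6 / (δ ^ 2 + s ^ 2) + 6 / (δ ^ 2 + s ^ 2) * |τ| + 1 / (δ ^ 2 + s ^ 2) := by gcongr
    _ = (7 + 6 * |τ|) * (δ ^ 2 + s ^ 2)⁻¹ := by ring

lemma tendsto_anti_atTop {δ : ℝ} (hδ : 0 < δ) (τ : ℝ) : Tendsto (anti δ τ) atTop (𝓝 0) := by
  have h := (tendsto_inv_den_atTop δ).const_mul (7 + 6 * |τ|)
  rw [mul_zero] at h
  refine squeeze_zero_norm' ?_ h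
  filter_upwards [eventually_ge_atTop 1] with s hs
  exact abs_anti_le hδ τ s (hs.trans (le_abs_self s))

lemma tendsto_anti_atBot {δ : ℝ} (hδ : 0 < δ) (τ : ℝ) : Tendsto (anti δ τ) atBot (𝓝 0) := by
  have h := (tendsto_inv_den_atBot δ).const_mul (7 + 6 * |τ|)
  rw [mul_zero] at h
  refine squeeze_zero_norm' ?_ h
  filter_upwards [eventually_le_atBot (-1)] with s hs
  exact abs_anti_le hδ τ s ((by linarith : (1:ℝ) ≤ -s).trans (neg_le_abs s))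

lemma lin_bound (τ s : ℝ) : |s - τ| ≤ (1 + |τ|) * (1 + s ^ 2) := by
  have h1 : |s - τ| ≤ |s| + |τ| := abs_sub _ _
  have h2 : |s| ≤ 1 + s ^ 2 := by nlinarith [sq_nonneg (|s| - 1), sq_abs s, abs_nonneg s]
  nlinarith [abs_nonneg τ, sq_nonneg s, mul_nonneg (abs_nonneg τ) (sq_nonneg s)]

lemma integrable_ker2_lin {δ : ℝ} (hδ : 0 < δ) (τ : ℝ) :
    Integrable (fun s => ker2 δ s * (s - τ)) :=
  integrable_ker2_mul hδ (by fun_prop) (lin_bound τ)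

/-- `∫ K'' |s - τ| = 2 K(τ)`. -/
lemma integral_ker2_abs {δ : ℝ} (hδ : 0 < δ) (τ : ℝ) :
    ∫ s, ker2 δ s * |s - τ| = 2 * ker δ τ := by
  have hint : Integrable (fun s => ker2 δ s * |s - τ|) :=
    integrable_ker2_mul hδ (by fun_prop) (fun s => by rw [abs_abs]; exact lin_bound τ s)
  rw [← intervalIntegral.integral_Iic_add_Ioi (b := τ) hint.integrableOn hint.integrableOn]
  have h1 : ∫ s in Ioi τ, ker2 δ s * |s - τ| = ker δ τ := by
    have e : ∫ s in Ioi τ, ker2 δ s * |s - τ| = ∫ s in Ioi τ, ker2 δ s * (s - τ) := by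
      refine setIntegral_congr_fun measurableSet_Ioi fun s hs => ?_
      show ker2 δ s * |s - τ| = ker2 δ s * (s - τ)
      rw [abs_of_pos (sub_pos.2 hs)]
    rw [e, integral_Ioi_of_hasDerivAt_of_tendsto (f := anti δ τ) (m := 0)
      (hasDerivAt_anti hδ τ τ).continuousAt.continuousWithinAt
      (fun x _ => hasDerivAt_anti hδ τ x) (integrable_ker2_lin hδ τ).integrableOn
      (tendsto_anti_atTop hδ τ)]
    simp [anti]
  have h2 : ∫ s in Iic τ, ker2 δ s * |s - τ| = ker δ τ := by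
    have e : ∫ s in Iic τ, ker2 δ s * |s - τ| = ∫ s in Iic τ, -(ker2 δ s * (s - τ)) := by
      refine setIntegral_congr_fun measurableSet_Iic fun s hs => ?_
      show ker2 δ s * |s - τ| = -(ker2 δ s * (s - τ))
      rw [abs_of_nonpos (sub_nonpos.2 hs)]
      ring
    rw [e, integral_neg, integral_Iic_of_hasDerivAt_of_tendsto (f := anti δ τ) (m := 0)
      (hasDerivAt_anti hδ τ τ).continuousAt.continuousWithinAt
      (fun x _ => hasDerivAt_anti hδ τ x) (integrable_ker2_lin hδ τ).integrableOn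
      (tendsto_anti_atBot hδ τ)]
    simp [anti]
  rw [h1, h2]; ring

/-- moments of order 0 -/
lemma integral_ker2_zero {δ : ℝ} (hδ : 0 < δ) : ∫ s, ker2 δ s = 0 := by
  have hint : Integrable (ker2 δ) := by
    have h0 := integrable_ker2_mul hδ (g := fun _ => 1) (C := 1)
      aestronglyMeasurable_const (fun s => by
        rw [abs_one]; nlinarith [sq_nonneg s])
    simpa using h0
  have h1 := integral_of_hasDerivAt_of_tendsto (f := ker1 δ) (f' := ker2 δ) (m := 0) (n := 0)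
    (fun x => hasDerivAt_ker1 hδ x) hint ?_ ?_
  · simpa using h1
  · have h := (tendsto_inv_den_atBot δ).const_mul 6
    rw [mul_zero] at h
    refine squeeze_zero_norm' ?_ h
    filter_upwards [eventually_le_atBot (-1)] with s hs
    have h1 : (1:ℝ) ≤ |s| := (by linarith : (1:ℝ) ≤ -s).trans (neg_le_abs s)
    calc ‖ker1 δ s‖ = |ker1 δ s| * 1 := by simp
      _ ≤ |ker1 δ s| * |s| := by gcongr
      _ ≤ _ := abs_ker1_le hδ s
      _ = _ := by ring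
  · have h := (tendsto_inv_den_atTop δ).const_mul 6
    rw [mul_zero] at h
    refine squeeze_zero_norm' ?_ h
    filter_upwards [eventually_ge_atTop 1] with s hs
    have h1 : (1:ℝ) ≤ |s| := hs.trans (le_abs_self s)
    calc ‖ker1 δ s‖ = |ker1 δ s| * 1 := by simp
      _ ≤ |ker1 δ s| * |s| := by gcongr
      _ ≤ _ := abs_ker1_le hδ s
      _ = _ := by ring

/-- moments of order 2: antiderivative `K' s² - 2 K s - 2 s/(δ²+s²)`. -/
lemma integral_ker2_sq {δ : ℝ} (hδ : 0 < δ) : ∫ s, ker2 δ s * s ^ 2 = 0 := by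
  set G : ℝ → ℝ := fun s => ker1 δ s * s ^ 2 - 2 * (ker δ s * s) + 2 * (s / (δ ^ 2 + s ^ 2)) with hG
  have hder : ∀ s, HasDerivAt G (ker2 δ s * s ^ 2) s := by
    intro s
    have hd := (den_pos hδ s).ne'
    have h2 : HasDerivAt (fun s : ℝ => δ ^ 2 + s ^ 2) (2 * s) s := by
      simpa using (hasDerivAt_pow 2 s).const_add (δ ^ 2)
    have h3 := ((hasDerivAt_id s).div h2 hd)
    have h := (((hasDerivAt_ker1 hδ s).mul (hasDerivAt_pow 2 s)).sub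
      (((hasDerivAt_ker hδ s).mul (hasDerivAt_id s)).const_mul 2)).add (h3.const_mul 2)
    refine h.congr_deriv ?_
    simp only [id, ker]
    push_cast
    field_simp
    ring
  have hb : ∀ s : ℝ, 1 ≤ |s| → ‖G s‖ ≤ 10 * |s|⁻¹ := by
    intro s hs
    have hd := den_pos hδ s
    have hs0 : 0 < |s| := by linarith
    have e1 : 1 / (δ ^ 2 + s ^ 2) ≤ 1 / (|s| * |s|) := by
      apply one_div_le_one_div_of_le (by positivity)
      rw [abs_mul_abs_self]; nlinarith [sq_nonneg δ]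
    have e2 : (1 / (|s| * |s|)) * |s| = |s|⁻¹ := by field_simp
    have h1 := abs_ker1_le hδ s
    have h2 := abs_ker_le hδ s
    have a1 : |ker1 δ s * s ^ 2| ≤ 6 * |s|⁻¹ := by
      rw [abs_mul, abs_pow, sq, ← mul_assoc]
      calc |ker1 δ s| * |s| * |s| ≤ 6 / (δ ^ 2 + s ^ 2) * |s| := by gcongr
        _ = 6 * (1 / (δ ^ 2 + s ^ 2)) * |s| := by ring
        _ ≤ 6 * (1 / (|s| * |s|)) * |s| := by gcongr
        _ = 6 * |s|⁻¹ := by rw [mul_assoc, e2]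
    have a2 : |2 * (ker δ s * s)| ≤ 2 * |s|⁻¹ := by
      rw [abs_mul, abs_mul, abs_two]
      calc 2 * (|ker δ s| * |s|) ≤ 2 * (1 / (δ ^ 2 + s ^ 2) * |s|) := by gcongr
        _ ≤ 2 * (1 / (|s| * |s|) * |s|) := by gcongr
        _ = 2 * |s|⁻¹ := by rw [e2]
    have a3 : |2 * (s / (δ ^ 2 + s ^ 2))| ≤ 2 * |s|⁻¹ := by
      rw [abs_mul, abs_div, abs_two, abs_of_pos hd]
      calc 2 * (|s| / (δ ^ 2 + s ^ 2)) = 2 * (1 / (δ ^ 2 + s ^ 2) * |s|) := by ring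
        _ ≤ 2 * (1 / (|s| * |s|) * |s|) := by gcongr
        _ = 2 * |s|⁻¹ := by rw [e2]
    calc ‖G s‖ ≤ |ker1 δ s * s ^ 2 - 2 * (ker δ s * s)| + |2 * (s / (δ ^ 2 + s ^ 2))| := by
          simp only [hG]; exact abs_add_le _ _
      _ ≤ |ker1 δ s * s ^ 2| + |2 * (ker δ s * s)| + |2 * (s / (δ ^ 2 + s ^ 2))| := by
          gcongr; exact abs_sub _ _
      _ ≤ 10 * |s|⁻¹ := by linarith
  have hint : Integrable (fun s => ker2 δ s * s ^ 2) :=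
    integrable_ker2_mul hδ (C := 1) (by fun_prop) (fun s => by
      rw [abs_of_nonneg (sq_nonneg s)]; nlinarith [sq_nonneg s])
  have t1 : Tendsto (fun s : ℝ => 10 * |s|⁻¹) atTop (𝓝 0) := by
    have := (tendsto_inv_atTop_zero.comp (tendsto_abs_atTop_atTop (G := ℝ))).const_mul 10
    simpa [Function.comp_def] using this
  have t2 : Tendsto (fun s : ℝ => 10 * |s|⁻¹) atBot (𝓝 0) := by
    have := (tendsto_inv_atTop_zero.comp (tendsto_abs_atBot_atTop (G := ℝ))).const_mul 10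
    simpa [Function.comp_def] using this
  have h1 := integral_of_hasDerivAt_of_tendsto (f := G) (f' := fun s => ker2 δ s * s ^ 2)
    (m := 0) (n := 0) hder hint ?_ ?_
  · simpa using h1
  · refine squeeze_zero_norm' ?_ t2
    filter_upwards [eventually_le_atBot (-1)] with s hs
    exact hb s ((by linarith : (1:ℝ) ≤ -s).trans (neg_le_abs s))
  · refine squeeze_zero_norm' ?_ t1
    filter_upwards [eventually_ge_atTop 1] with s hs
    exact hb s (hs.trans (le_abs_self s))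

end IB
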