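import Mathlib
import Pool.Agent.Helper689.IBKer

set_option autoImplicit false

open MeasureTheory Set Filter Topology Real

namespace IB

lemma ker2_neg (δ s : ℝ) : ker2 δ (-s) = ker2 δ s := by
  unfold ker2; ring_nf

/-- `K''(s) ≤ -(29/10)/s⁴` for `s ≥ 4δ`. -/
lemma ker2_le_far {δ s : ℝ} (hδ : 0 < δ) (hs : 4 * δ ≤ s) : ker2 δ s ≤ -(29 / 10) / s ^ 4 := by
  have hs0 : 0 < s := by linarith
  have hd := den_pos hδ s
  unfold ker2
  rw [div_le_div_iff₀ (pow_pos hd 4) (pow_pos hs0 4)]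
  have h1 : δ ^ 2 ≤ s ^ 2 / 16 := by nlinarith
  have h2 : (δ ^ 2 + s ^ 2) ^ 4 ≤ (17 / 16 * s ^ 2) ^ 4 := by
    gcongr; linarith
  have h3 : (17 / 16 * s ^ 2) ^ 4 = (17 / 16) ^ 4 * s ^ 8 := by ring
  have h4 : 5 / 8 * s ^ 4 ≤ δ ^ 4 - 6 * δ ^ 2 * s ^ 2 + s ^ 4 := by
    nlinarith [mul_le_mul_of_nonneg_right h1 (sq_nonneg s), sq_nonneg (δ ^ 2)]
  have h5 : 5 / 8 * s ^ 4 * s ^ 4 ≤ (δ ^ 4 - 6 * δ ^ 2 * s ^ 2 + s ^ 4) * s ^ 4 := by
    gcongr
  have h6 : 0 < s ^ 8 := by positivity
  have h7 : s ^ 4 * s ^ 4 = s ^ 8 := by ring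
  nlinarith

lemma ker2_near_bound {δ s : ℝ} (hδ : 0 < δ) (hs : 0 ≤ s) : |ker2 δ s| * s ^ 3 ≤ 18 / δ := by
  have hd := den_pos hδ s
  calc |ker2 δ s| * s ^ 3 ≤ 18 / (δ ^ 2 + s ^ 2) ^ 2 * s ^ 3 := by
        gcongr; exact abs_ker2_le hδ s
    _ = 18 * s ^ 3 / (δ ^ 2 + s ^ 2) ^ 2 := by ring
    _ ≤ 18 / δ := by
        rw [div_le_div_iff₀ (pow_pos hd 2) hδ]
        have : s ^ 3 * δ ≤ (δ ^ 2 + s ^ 2) ^ 2 := by
          have h1 : s * δ ≤ δ ^ 2 + s ^ 2 := by nlinarith [sq_nonneg (s - δ), mul_nonneg hs hδ.le]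
          have h2 : s ^ 2 ≤ δ ^ 2 + s ^ 2 := by nlinarith [sq_nonneg δ]
          calc s ^ 3 * δ = s ^ 2 * (s * δ) := by ring
            _ ≤ (δ ^ 2 + s ^ 2) * (δ ^ 2 + s ^ 2) := by gcongr
            _ = _ := by ring
        linarith

lemma ker2_far_abs {δ s : ℝ} (hδ : 0 < δ) (hs : 0 < s) : |ker2 δ s| ≤ 18 / s ^ 4 := by
  refine (abs_ker2_le hδ s).trans ?_
  gcongr
  calc s ^ 4 = (s ^ 2) ^ 2 := by ring
    _ ≤ (δ ^ 2 + s ^ 2) ^ 2 := by gcongr; nlinarith [sq_nonneg δ]

lemma integral_even_split {f : ℝ → ℝ} (hf : Integrable f) :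
    ∫ s, f s = ∫ s in Ioi (0:ℝ), (f s + f (-s)) := by
  have h1 : IntegrableOn (fun s => f (-s)) (Ioi 0) := (hf.comp_neg).integrableOn
  rw [integral_add hf.integrableOn h1, integral_comp_neg_Ioi (0:ℝ) f, neg_zero,
    ← intervalIntegral.integral_Iic_add_Ioi (b := (0:ℝ)) hf.integrableOn hf.integrableOn]
  ring

/-- Half-line divergence lemma. -/
lemma half_div {h : ℝ → ℝ} (hm : AEStronglyMeasurable h volume) {C : ℝ}
    (hC : ∀ s, |h s| ≤ C * (1 + s ^ 2)) {a : ℝ} (ha : 0 < a) {s0 : ℝ} (hs0 : 0 < s0)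
    (hlim : ∀ s, 0 < s → s ≤ s0 → |h s - 2 * a * s ^ 3| ≤ a / 9 * s ^ 3) :
    ∃ δ : ℝ, 0 < δ ∧ ∫ s in Ioi (0:ℝ), ker2 δ s * h s < 0 := by
  have hC0 : 0 ≤ C := by
    have := (abs_nonneg _).trans (hC 0); simpa using this
  set C3 : ℝ := 18 * C * (1 + 1 / s0 ^ 2) ^ 2 * π with hC3
  -- choose δ
  obtain ⟨δ, hδ, hδ4, hlog⟩ : ∃ δ : ℝ, 0 < δ ∧ 4 * δ < s0 ∧ 216 * a + C3 < a * log (s0 / (4 * δ)) := by
    set T : ℝ := (216 * a + C3) / a + 1 with hT
    have hT0 : 0 < T := by
      have : 0 ≤ C3 := by positivity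
      positivity
    refine ⟨s0 / (4 * exp T), by positivity, ?_, ?_⟩
    · have h1 : 4 * (s0 / (4 * exp T)) = s0 / exp T := by field_simp
      rw [h1]
      have : 1 < exp T := Real.one_lt_exp_iff.2 hT0
      exact div_lt_self hs0 this
    · have h1 : s0 / (4 * (s0 / (4 * exp T))) = exp T := by
        field_simp
      rw [h1, Real.log_exp, hT]
      have : a * ((216 * a + C3) / a + 1) = 216 * a + C3 + a := by field_simp
      rw [this]; linarith
  refine ⟨δ, hδ, ?_⟩
  have hint : Integrable (fun s => ker2 δ s * h s) := integrable_ker2_mul hδ hm hC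
  have hii : ∀ a b : ℝ, IntervalIntegrable (fun s => ker2 δ s * h s) volume a b :=
    fun a b => hint.intervalIntegrable
  have r1 : ∫ s in (0:ℝ)..(4 * δ), ker2 δ s * h s ≤ 216 * a := by
    calc ∫ s in (0:ℝ)..(4 * δ), ker2 δ s * h s ≤ ∫ s in (0:ℝ)..(4 * δ), 54 * a / δ := by
          refine intervalIntegral.integral_mono_on_of_le_Ioo (by positivity) (hii _ _)
            (by simp) ?_
          intro s hs
          have hs1 : 0 < s := hs.1
          have hss0 : s ≤ s0 := (hs.2.trans hδ4).le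
          have b1 : |h s| ≤ 3 * a * s ^ 3 := by
            have h1 := hlim s hs1 hss0
            have h2 : |h s| ≤ |h s - 2 * a * s ^ 3| + |2 * a * s ^ 3| := by
              have := abs_add_le (h s - 2 * a * s ^ 3) (2 * a * s ^ 3)
              simpa using this
            have h3 : |2 * a * s ^ 3| = 2 * a * s ^ 3 := abs_of_nonneg (by positivity)
            have h4 : 0 ≤ a * s ^ 3 := by positivity
            linarith
          calc ker2 δ s * h s ≤ |ker2 δ s * h s| := le_abs_self _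
            _ = |ker2 δ s| * |h s| := abs_mul _ _
            _ ≤ |ker2 δ s| * (3 * a * s ^ 3) := by gcongr
            _ = 3 * a * (|ker2 δ s| * s ^ 3) := by ring
            _ ≤ 3 * a * (18 / δ) := by
                gcongr; exact ker2_near_bound hδ hs1.le
            _ = 54 * a / δ := by ring
      _ = 216 * a := by
          rw [intervalIntegral.integral_const, smul_eq_mul]
          field_simp
          ring
  have r2 : ∫ s in (4 * δ)..s0, ker2 δ s * h s ≤ -(a * log (s0 / (4 * δ))) := by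
    have h4 : 0 < 4 * δ := by positivity
    have hni : (0:ℝ) ∉ uIcc (4 * δ) s0 := by
      rw [uIcc_of_le hδ4.le]
      intro h0; exact absurd h0.1 (not_le.2 h4)
    calc ∫ s in (4 * δ)..s0, ker2 δ s * h s ≤ ∫ s in (4 * δ)..s0, -a * s⁻¹ := by
          refine intervalIntegral.integral_mono_on hδ4.le (hii _ _) ?_ ?_
          · exact (intervalIntegral.intervalIntegrable_inv (by
              intro x hx hx0; subst hx0; exact hni hx) continuousOn_id).const_mul _
          · intro s hs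
            have hs1 : 0 < s := h4.trans_le hs.1
            have c1 := ker2_le_far hδ hs.1
            have c2 := ker2_far_abs hδ hs1
            have c3 := hlim s hs1 hs.2
            have hs4 : 0 < s ^ 4 := by positivity
            have hs3 : 0 < s ^ 3 := by positivity
            calc ker2 δ s * h s = ker2 δ s * (2 * a * s ^ 3) + ker2 δ s * (h s - 2 * a * s ^ 3) := by ring
              _ ≤ (-(29 / 10) / s ^ 4) * (2 * a * s ^ 3) + |ker2 δ s| * |h s - 2 * a * s ^ 3| := by
                  refine add_le_add (mul_le_mul_of_nonneg_right c1 (by positivity)) ?_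
                  rw [← abs_mul]; exact le_abs_self _
              _ ≤ (-(29 / 10) / s ^ 4) * (2 * a * s ^ 3) + (18 / s ^ 4) * (a / 9 * s ^ 3) := by
                  gcongr
              _ = -(19 / 5) * a * s⁻¹ := by field_simp; ring
              _ ≤ -a * s⁻¹ := by
                  have : 0 < a * s⁻¹ := by positivity
                  nlinarith
      _ = -(a * log (s0 / (4 * δ))) := by
          rw [intervalIntegral.integral_const_mul, integral_inv hni]
          ring
  have r3 : ∫ s in Ioi s0, ker2 δ s * h s ≤ C3 := by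
    calc ∫ s in Ioi s0, ker2 δ s * h s
        ≤ ∫ s in Ioi s0, 18 * C * (1 + 1 / s0 ^ 2) ^ 2 * (1 + s ^ 2)⁻¹ := by
          refine setIntegral_mono_on hint.integrableOn
            ((integrable_inv_one_add_sq).const_mul _).integrableOn measurableSet_Ioi ?_
          intro s hs
          have hs1 : 0 < s := hs0.trans hs
          have hss : s0 ≤ s := le_of_lt hs
          have c2 := ker2_far_abs hδ hs1
          have e1 : (1 + s ^ 2) / s ^ 2 ≤ 1 + 1 / s0 ^ 2 := by
            have : (1 + s ^ 2) / s ^ 2 = 1 + 1 / s ^ 2 := by field_simp; ring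
            rw [this]; gcongr
          calc ker2 δ s * h s ≤ |ker2 δ s| * |h s| := by rw [← abs_mul]; exact le_abs_self _
            _ ≤ (18 / s ^ 4) * (C * (1 + s ^ 2)) := by
                gcongr; exact hC s
            _ = 18 * C * ((1 + s ^ 2) / s ^ 2) ^ 2 * (1 + s ^ 2)⁻¹ := by
                field_simp
            _ ≤ 18 * C * (1 + 1 / s0 ^ 2) ^ 2 * (1 + s ^ 2)⁻¹ := by gcongr
      _ ≤ ∫ s, 18 * C * (1 + 1 / s0 ^ 2) ^ 2 * (1 + s ^ 2)⁻¹ := by
          refine setIntegral_le_integral ((integrable_inv_one_add_sq).const_mul _) ?_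
          refine Eventually.of_forall fun s => ?_
          show (0:ℝ) ≤ _
          positivity
      _ = C3 := by
          rw [integral_const_mul, integral_univ_inv_one_add_sq]
  have split : ∫ s in Ioi (0:ℝ), ker2 δ s * h s = (∫ s in (0:ℝ)..(4 * δ), ker2 δ s * h s)
      + (∫ s in (4 * δ)..s0, ker2 δ s * h s) + ∫ s in Ioi s0, ker2 δ s * h s := by
    rw [intervalIntegral.integral_add_adjacent_intervals (hii _ _) (hii _ _)]
    have := intervalIntegral.integral_interval_add_Ioi (μ := volume) (a := (0:ℝ)) (b := s0)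
      (f := fun s => ker2 δ s * h s) hint.integrableOn hint.integrableOn
    exact this.symm
  rw [split]
  linarith

lemma div_lemma {I : ℝ → ℝ} (hI : AEStronglyMeasurable I volume) {C : ℝ}
    (hC : ∀ s, |I s| ≤ C * (1 + s ^ 2)) {a0 a1 a2 a3 a : ℝ} (ha : 0 < a)
    (hlim : Tendsto (fun s => (I s - (a0 + a1 * s + a2 * s ^ 2 + a3 * s ^ 3)) / |s| ^ 3)
      (𝓝[≠] 0) (𝓝 a)) :
    ∃ δ : ℝ, 0 < δ ∧ ∫ s, ker2 δ s * I s < 0 := by
  set P : ℝ → ℝ := fun s => a0 + a1 * s + a2 * s ^ 2 + a3 * s ^ 3 with hP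
  set h : ℝ → ℝ := fun s => I s + I (-s) - 2 * a0 - 2 * a2 * s ^ 2 with hh
  have hneg : AEStronglyMeasurable (fun s => I (-s)) volume :=
    hI.comp_quasiMeasurePreserving (Measure.measurePreserving_neg volume).quasiMeasurePreserving
  have hhm : AEStronglyMeasurable h volume := by
    refine ((hI.add hneg).sub aestronglyMeasurable_const).sub ?_
    exact (by fun_prop : Continuous fun s : ℝ => 2 * a2 * s ^ 2).aestronglyMeasurable
  have hhC : ∀ s, |h s| ≤ (2 * C + 2 * |a0| + 2 * |a2|) * (1 + s ^ 2) := by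
    intro s
    have h1 := hC s
    have h2 := hC (-s)
    rw [neg_sq] at h2
    have h3 : |2 * a0| = 2 * |a0| := by rw [abs_mul, abs_two]
    have h4 : |2 * a2 * s ^ 2| = 2 * |a2| * s ^ 2 := by
      rw [abs_mul, abs_mul, abs_two, abs_of_nonneg (sq_nonneg s)]
    have h5 : |h s| ≤ |I s| + |I (-s)| + |2 * a0| + |2 * a2 * s ^ 2| := by
      simp only [hh]
      refine (abs_sub _ _).trans ?_
      gcongr
      refine (abs_sub _ _).trans ?_
      gcongr
      exact abs_add_le _ _
    rw [h3, h4] at h5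
    have : 0 ≤ |a0| * s ^ 2 := by positivity
    have : 0 ≤ |a2| := by positivity
    nlinarith
  obtain ⟨s0, hs0, hs0'⟩ : ∃ s0 : ℝ, 0 < s0 ∧ ∀ s, 0 < |s| → |s| ≤ s0 →
      |(I s - P s) / |s| ^ 3 - a| < a / 18 := by
    have := Metric.tendsto_nhdsWithin_nhds.1 hlim (a / 18) (by positivity)
    obtain ⟨d, hd, hd'⟩ := this
    refine ⟨d / 2, by positivity, fun s hs1 hs2 => ?_⟩
    have := hd' (x := s) (by simpa using hs1) (by rw [dist_zero_right]; simpa using by linarith)
    rwa [Real.dist_eq] at this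
  have hb : ∀ s, 0 < s → s ≤ s0 → |h s - 2 * a * s ^ 3| ≤ a / 9 * s ^ 3 := by
    intro s h1 h2
    have hs3 : 0 < s ^ 3 := by positivity
    have e1 := hs0' s (by rw [abs_of_pos h1]; exact h1) (by rw [abs_of_pos h1]; exact h2)
    have e2 := hs0' (-s) (by rw [abs_neg, abs_of_pos h1]; exact h1)
      (by rw [abs_neg, abs_of_pos h1]; exact h2)
    rw [abs_neg] at e2
    rw [abs_of_pos h1] at e1 e2
    have f1 : |I s - P s - a * s ^ 3| ≤ a / 18 * s ^ 3 := by
      have : I s - P s - a * s ^ 3 = ((I s - P s) / s ^ 3 - a) * s ^ 3 := by field_simp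
      rw [this, abs_mul, abs_of_pos hs3]; gcongr
    have f2 : |I (-s) - P (-s) - a * s ^ 3| ≤ a / 18 * s ^ 3 := by
      have : I (-s) - P (-s) - a * s ^ 3 = ((I (-s) - P (-s)) / s ^ 3 - a) * s ^ 3 := by field_simp
      rw [this, abs_mul, abs_of_pos hs3]; gcongr
    have e : h s - 2 * a * s ^ 3 = (I s - P s - a * s ^ 3) + (I (-s) - P (-s) - a * s ^ 3) := by
      simp only [hh, hP]; ring
    rw [e]
    refine (abs_add_le _ _).trans ?_
    linarith
  obtain ⟨δ, hδ, hneg'⟩ := half_div hhm hhC ha hs0 hb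
  refine ⟨δ, hδ, ?_⟩
  have i1 : Integrable (fun s => ker2 δ s * I s) := integrable_ker2_mul hδ hI hC
  have i2 : Integrable (fun s => ker2 δ s * (a0 + a2 * s ^ 2)) :=
    integrable_ker2_mul hδ (C := |a0| + |a2|) (by fun_prop) (fun s => by
      refine (abs_add_le _ _).trans ?_
      rw [abs_mul, abs_of_nonneg (sq_nonneg s)]
      nlinarith [abs_nonneg a0, abs_nonneg a2, sq_nonneg s, mul_nonneg (abs_nonneg a0) (sq_nonneg s)])
  have z : ∫ s, ker2 δ s * (a0 + a2 * s ^ 2) = 0 := by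
    have i3 : Integrable (fun s => ker2 δ s * s ^ 2) :=
      integrable_ker2_mul hδ (C := 1) (by fun_prop) (fun s => by
        rw [abs_of_nonneg (sq_nonneg s)]; nlinarith [sq_nonneg s])
    have i4 : Integrable (ker2 δ) := by
      have h0 := integrable_ker2_mul hδ (g := fun _ => 1) (C := 1)
        aestronglyMeasurable_const (fun s => by
          rw [abs_one]; nlinarith [sq_nonneg s])
      simpa using h0
    have e : ∀ s, ker2 δ s * (a0 + a2 * s ^ 2) = a0 * ker2 δ s + a2 * (ker2 δ s * s ^ 2) := by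
      intro s; ring
    simp_rw [e]
    rw [integral_add (i4.const_mul _) (i3.const_mul _), integral_const_mul, integral_const_mul,
      integral_ker2_zero hδ, integral_ker2_sq hδ]
    ring
  have e2 : ∫ s, ker2 δ s * I s = ∫ s, (ker2 δ s * I s - ker2 δ s * (a0 + a2 * s ^ 2)) := by
    rw [integral_sub i1 i2, z, sub_zero]
  rw [e2, integral_even_split (f := fun s => ker2 δ s * I s - ker2 δ s * (a0 + a2 * s ^ 2)) (i1.sub i2)]
  refine lt_of_eq_of_lt ?_ hneg'
  refine integral_congr_ae (Eventually.of_forall fun s => ?_)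
  simp only [hh, ker2_neg]
  ring

end IB
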