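import Mathlib
import Pool.Agent.Helper689.IBHol

set_option autoImplicit false

open MeasureTheory Set Filter Topology Metric Real

namespace IB

/-- Order-four expansion of a holomorphic function at the origin, along the reals. -/
lemma taylor_real {J : ℂ → ℂ} {r : ℝ} (hr : 0 < r) (hJ : DifferentiableOn ℂ J (ball 0 r)) :
    ∃ a0 a1 a2 a3 : ℝ, Tendsto (fun s : ℝ => ((J s).re - (a0 + a1 * s + a2 * s ^ 2 + a3 * s ^ 3))
      / |s| ^ 3) (𝓝[≠] 0) (𝓝 0) := by
  have han : AnalyticAt ℂ J 0 := hJ.analyticAt (ball_mem_nhds _ hr)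
  obtain ⟨p, hp⟩ := han
  have hO := hp.isBigO_sub_partialSum_pow 4
  refine ⟨(p.coeff 0).re, (p.coeff 1).re, (p.coeff 2).re, (p.coeff 3).re, ?_⟩
  have hO2 : (fun s : ℝ => (J s).re - ((p.coeff 0).re + (p.coeff 1).re * s + (p.coeff 2).re * s ^ 2
      + (p.coeff 3).re * s ^ 3)) =O[𝓝 0] fun s : ℝ => |s| ^ 4 := by
    have h1 : Tendsto (fun s : ℝ => (s : ℂ)) (𝓝 0) (𝓝 0) := by
      have := Complex.continuous_ofReal.tendsto 0
      simpa using this
    have h2 := hO.comp_tendsto h1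
    refine Asymptotics.IsBigO.trans (Asymptotics.IsBigO.of_bound' (Eventually.of_forall fun s => ?_)) ?_
      (g := fun s : ℝ => J (0 + (s:ℂ)) - p.partialSum 4 (s:ℂ))
    · have e : (J s).re - ((p.coeff 0).re + (p.coeff 1).re * s + (p.coeff 2).re * s ^ 2
        + (p.coeff 3).re * s ^ 3) = (J (0 + (s:ℂ)) - p.partialSum 4 (s:ℂ)).re := by
        rw [FormalMultilinearSeries.partialSum, Complex.sub_re, zero_add]
        congr 1
        simp only [FormalMultilinearSeries.apply_eq_pow_smul_coeff, Finset.sum_range_succ,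
          Finset.sum_range_zero, zero_add, Complex.add_re, smul_eq_mul, pow_zero, one_mul,
          pow_one]
        rw [← Complex.ofReal_pow, ← Complex.ofReal_pow, Complex.re_ofReal_mul,
          Complex.re_ofReal_mul, Complex.re_ofReal_mul]
        ring
      rw [e]
      exact Complex.abs_re_le_norm _
    · refine h2.congr_right fun s => ?_
      simp
  have hO3 : (fun s : ℝ => ((J s).re - ((p.coeff 0).re + (p.coeff 1).re * s + (p.coeff 2).re * s ^ 2
      + (p.coeff 3).re * s ^ 3)) / |s| ^ 3) =O[𝓝[≠] 0] fun s : ℝ => |s| := by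
    have h1 : (fun s : ℝ => (|s| ^ 3)⁻¹) =O[𝓝[≠] 0] fun s : ℝ => (|s| ^ 3)⁻¹ :=
      Asymptotics.isBigO_refl _ _
    have h2 := (hO2.mono nhdsWithin_le_nhds).mul h1
    refine (h2.congr' ?_ ?_)
    · exact Eventually.of_forall fun s => (div_eq_mul_inv _ _).symm
    · filter_upwards [self_mem_nhdsWithin] with s hs
      have : |s| ≠ 0 := abs_ne_zero.2 hs
      field_simp
  refine hO3.trans_tendsto ?_
  have : Tendsto (fun s : ℝ => |s|) (𝓝 0) (𝓝 0) := by
    have := (continuous_abs (G := ℝ)).tendsto 0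
    simpa using this
  exact this.mono_left nhdsWithin_le_nhds

lemma expansion {Dc : ℝ → ℂ → ℂ} {D : ℝ → ℝ → ℝ} {r B c0 : ℝ} (hr : 0 < r) (hc0 : 0 < c0)
    (hol : ∀ θ, DifferentiableOn ℂ (Dc θ) (ball 0 r))
    (meas : ∀ s ∈ ball (0:ℂ) r, Measurable (fun θ => Dc θ s))
    (bd : ∀ θ, ∀ s ∈ ball (0:ℂ) r, ‖Dc θ s‖ ≤ B)
    (hreal : ∀ θ s, |s| < r → Dc θ (s:ℂ) = (D θ s : ℂ))
    (lower : ∀ θ, c0 ≤ D θ 0)
    {e : ℝ → ℝ} (he : Measurable e) {E0 : ℝ} (heb : ∀ θ, |e θ| ≤ E0) :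
    ∃ a0 a1 a2 a3 : ℝ, Tendsto (fun s : ℝ => ((∫ θ in (0:ℝ)..(2 * π), (D θ s + e θ * |s| ^ 3)⁻¹)
      - (a0 + a1 * s + a2 * s ^ 2 + a3 * s ^ 3)) / |s| ^ 3) (𝓝[≠] 0)
      (𝓝 (-∫ θ in (0:ℝ)..(2 * π), e θ / (D θ 0) ^ 2)) := by
  have h0r : (0:ℂ) ∈ ball (0:ℂ) r := mem_ball_self hr
  have hB0 : 0 ≤ B := (norm_nonneg _).trans (bd 0 0 h0r)
  have hE0 : 0 ≤ E0 := (abs_nonneg _).trans (heb 0)
  set L : ℝ := (2 * B + 1) / r with hL
  have hLpos : 0 < L := by positivity
  have lip : ∀ θ, ∀ s ∈ ball (0:ℂ) r, ‖Dc θ s - Dc θ 0‖ ≤ L * ‖s‖ := by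
    intro θ s hs
    have h1 : MapsTo (Dc θ) (ball 0 r) (closedBall (Dc θ 0) (2 * B + 1)) := by
      intro z hz
      rw [mem_closedBall, dist_eq_norm]
      have := norm_sub_le (Dc θ z) (Dc θ 0)
      have := bd θ z hz
      have := bd θ 0 h0r
      linarith
    have := Complex.dist_le_div_mul_dist_of_mapsTo_ball (hol θ) h1 hs
    rwa [dist_eq_norm, dist_eq_norm, sub_zero] at this
  set r2 : ℝ := min r (c0 / (2 * L)) with hr2
  have hr2pos : 0 < r2 := by
    rw [hr2]; exact lt_min hr (by positivity)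
  have hr2r : ball (0:ℂ) r2 ⊆ ball (0:ℂ) r := ball_subset_ball (min_le_left _ _)
  have low : ∀ θ, ∀ s ∈ ball (0:ℂ) r2, c0 / 2 ≤ ‖Dc θ s‖ := by
    intro θ s hs
    have h1 := lip θ s (hr2r hs)
    have h2 : ‖s‖ < c0 / (2 * L) := by
      rw [mem_ball, dist_zero_right] at hs
      exact hs.trans_le (min_le_right _ _)
    have h3 : L * ‖s‖ ≤ c0 / 2 := by
      calc L * ‖s‖ ≤ L * (c0 / (2 * L)) := by gcongr
        _ = c0 / 2 := by field_simp
    have h4 : c0 ≤ ‖Dc θ 0‖ := by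
      have := hreal θ 0 (by simpa using hr)
      rw [Complex.ofReal_zero] at this
      rw [this, Complex.norm_real, Real.norm_eq_abs]
      exact (lower θ).trans (le_abs_self _)
    have h5 : ‖Dc θ 0‖ ≤ ‖Dc θ s‖ + ‖Dc θ s - Dc θ 0‖ := by
      have := norm_sub_norm_le (Dc θ 0) (Dc θ s)
      rw [norm_sub_rev] at this
      linarith
    linarith
  -- real version
  have lipR : ∀ θ s, |s| < r → |D θ s - D θ 0| ≤ L * |s| := by
    intro θ s hs
    have hs' : (s:ℂ) ∈ ball (0:ℂ) r := by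
      rw [mem_ball, dist_zero_right, Complex.norm_real]; exact hs
    have h1 := lip θ s hs'
    have h0 := hreal θ 0 (by simpa using hr)
    rw [Complex.ofReal_zero] at h0
    rw [hreal θ s hs, h0, ← Complex.ofReal_sub, Complex.norm_real, Complex.norm_real] at h1
    exact h1
  have lowR : ∀ θ s, |s| < r2 → c0 / 2 ≤ D θ s := by
    intro θ s hs
    have h1 := lipR θ s (hs.trans_le (min_le_left _ _))
    have h2 : |s| < c0 / (2 * L) := hs.trans_le (min_le_right _ _)
    have h3 : L * |s| ≤ c0 / 2 := by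
      calc L * |s| ≤ L * (c0 / (2 * L)) := by gcongr
        _ = c0 / 2 := by field_simp
    have := lower θ
    have := (abs_le.1 h1).1
    linarith
  set vθ : Measure ℝ := volume.restrict (Ioc 0 (2 * π)) with hvθ
  set Jc : ℂ → ℂ := fun s => ∫ θ, (Dc θ s)⁻¹ ∂vθ with hJc
  have hJ : DifferentiableOn ℂ Jc (ball 0 r2) := by
    refine holInt (f := fun s θ => (Dc θ s)⁻¹) (b := fun _ => 2 / c0) ?_ ?_ (integrable_const _) ?_
    · intro θ
      refine DifferentiableOn.inv ((hol θ).mono hr2r) ?_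
      intro s hs h0
      have := low θ s hs
      rw [h0, norm_zero] at this
      linarith
    · intro s hs
      exact (meas s (hr2r hs)).inv.aestronglyMeasurable
    · intro s hs θ
      rw [norm_inv]
      calc ‖Dc θ s‖⁻¹ ≤ (c0 / 2)⁻¹ := inv_anti₀ (by positivity) (low θ s hs)
        _ = 2 / c0 := by rw [inv_div]
  obtain ⟨a0, a1, a2, a3, hT⟩ := taylor_real hr2pos hJ
  refine ⟨a0, a1, a2, a3, ?_⟩
  have hJre : ∀ s : ℝ, |s| < r2 → (Jc s).re = ∫ θ in (0:ℝ)..(2 * π), (D θ s)⁻¹ := by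
    intro s hs
    have e : ∀ θ, (Dc θ (s:ℂ))⁻¹ = (((D θ s)⁻¹ : ℝ) : ℂ) := by
      intro θ; rw [hreal θ s (hs.trans_le (min_le_left _ _)), Complex.ofReal_inv]
    simp only [hJc]
    simp_rw [e]
    rw [integral_complex_ofReal, Complex.ofReal_re, intervalIntegral.integral_of_le (by positivity)]
  have hmeasD : ∀ s, |s| < r → Measurable (fun θ => D θ s) := by
    intro s hs
    have hs' : (s:ℂ) ∈ ball (0:ℂ) r := by
      rw [mem_ball, dist_zero_right, Complex.norm_real]; exact hs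
    have h1 := Complex.measurable_re.comp (meas s hs')
    have h2 : (fun θ => D θ s) = Complex.re ∘ fun θ => Dc θ (s:ℂ) := by
      ext θ
      simp [hreal θ s hs]
    rw [h2]; exact h1
  -- the limit of the singular part
  have hE1 : 0 < E0 + 1 := by positivity
  obtain ⟨r3, hr3pos, hr3r2, hr3e⟩ : ∃ r3 : ℝ, 0 < r3 ∧ r3 ≤ r2 ∧ ∀ s : ℝ, |s| < r3 →
      (E0 + 1) * |s| ^ 3 ≤ c0 / 4 := by
    refine ⟨min r2 (min 1 (c0 / (4 * (E0 + 1)))), by positivity, min_le_left _ _, fun s hs => ?_⟩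
    have h1 : |s| < 1 := hs.trans_le ((min_le_right _ _).trans (min_le_left _ _))
    have h2 : |s| < c0 / (4 * (E0 + 1)) := hs.trans_le ((min_le_right _ _).trans (min_le_right _ _))
    calc (E0 + 1) * |s| ^ 3 ≤ (E0 + 1) * |s| := by
          gcongr
          calc |s| ^ 3 ≤ |s| ^ 1 := pow_le_pow_of_le_one (abs_nonneg _) h1.le (by norm_num)
            _ = |s| := pow_one _
      _ ≤ (E0 + 1) * (c0 / (4 * (E0 + 1))) := by gcongr
      _ = c0 / 4 := by field_simp
  have low2 : ∀ θ s, |s| < r3 → c0 / 4 ≤ D θ s + e θ * |s| ^ 3 := by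
    intro θ s hs
    have h1 := lowR θ s (hs.trans_le hr3r2)
    have h2 := hr3e s hs
    have h3 : |e θ * |s| ^ 3| ≤ c0 / 4 := by
      rw [abs_mul, abs_of_nonneg (by positivity : (0:ℝ) ≤ |s| ^ 3)]
      refine le_trans ?_ h2
      gcongr
      linarith [heb θ]
    have := (abs_le.1 h3).1
    linarith
  have hlim2 : Tendsto (fun s : ℝ => ∫ θ, (-(e θ) * (D θ s)⁻¹ * (D θ s + e θ * |s| ^ 3)⁻¹) ∂vθ)
      (𝓝[≠] 0) (𝓝 (∫ θ, (-(e θ) * (D θ 0)⁻¹ * (D θ 0)⁻¹) ∂vθ)) := by
    have hev : ∀ᶠ s : ℝ in 𝓝[≠] 0, |s| < r3 := by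
      refine nhdsWithin_le_nhds ?_
      have := ball_mem_nhds (0:ℝ) hr3pos
      filter_upwards [this] with s hs
      rwa [mem_ball, dist_zero_right] at hs
    refine tendsto_integral_filter_of_dominated_convergence
      (fun _ => E0 * (c0 / 2)⁻¹ * (c0 / 4)⁻¹) ?_ ?_ (integrable_const _) ?_
    · filter_upwards [hev] with s hs
      have hm := hmeasD s ((hs.trans_le hr3r2).trans_le (min_le_left _ _))
      refine Measurable.aestronglyMeasurable ?_
      exact (he.neg.mul hm.inv).mul (hm.add (he.mul_const _)).inv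
    · filter_upwards [hev] with s hs
      refine Eventually.of_forall fun θ => ?_
      have l1 := lowR θ s (hs.trans_le hr3r2)
      have l2 := low2 θ s hs
      rw [norm_mul, norm_mul, norm_neg, norm_inv, norm_inv, Real.norm_eq_abs, Real.norm_eq_abs,
        Real.norm_eq_abs]
      gcongr
      · exact heb θ
      · exact l1.trans (le_abs_self _)
      · exact l2.trans (le_abs_self _)
    · refine Eventually.of_forall fun θ => ?_
      have hc : Tendsto (fun s : ℝ => D θ s) (𝓝[≠] 0) (𝓝 (D θ 0)) := by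
        have h1 : Tendsto (fun s : ℝ => L * |s|) (𝓝[≠] 0) (𝓝 0) := by
          have : Tendsto (fun s : ℝ => L * |s|) (𝓝 0) (𝓝 (L * |0|)) :=
            (continuous_const.mul continuous_abs).tendsto 0
          rw [abs_zero, mul_zero] at this
          exact this.mono_left nhdsWithin_le_nhds
        rw [tendsto_iff_dist_tendsto_zero]
        refine squeeze_zero' (Eventually.of_forall fun _ => dist_nonneg) ?_ h1
        filter_upwards [hev] with s hs
        rw [Real.dist_eq]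
        exact lipR θ s ((hs.trans_le hr3r2).trans_le (min_le_left _ _))
      have hc2 : Tendsto (fun s : ℝ => D θ s + e θ * |s| ^ 3) (𝓝[≠] 0) (𝓝 (D θ 0)) := by
        have h1 : Tendsto (fun s : ℝ => e θ * |s| ^ 3) (𝓝[≠] 0) (𝓝 0) := by
          have : Tendsto (fun s : ℝ => e θ * |s| ^ 3) (𝓝 0) (𝓝 (e θ * |0| ^ 3)) :=
            (continuous_const.mul (continuous_abs.pow 3)).tendsto 0
          rw [abs_zero, zero_pow three_ne_zero, mul_zero] at this
          exact this.mono_left nhdsWithin_le_nhds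
        simpa using hc.add h1
      have hD0 : D θ 0 ≠ 0 := by
        have := lower θ
        intro h; linarith
      exact ((tendsto_const_nhds).mul (hc.inv₀ hD0)).mul (hc2.inv₀ hD0)
  have hfin := hT.add hlim2
  rw [zero_add] at hfin
  have etarget : ∫ θ, (-(e θ) * (D θ 0)⁻¹ * (D θ 0)⁻¹) ∂vθ
      = -∫ θ in (0:ℝ)..(2 * π), e θ / (D θ 0) ^ 2 := by
    rw [intervalIntegral.integral_of_le (by positivity), ← integral_neg]
    refine integral_congr_ae (Eventually.of_forall fun θ => ?_)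
    simp only
    rw [div_eq_mul_inv, ← inv_pow]
    ring
  rw [etarget] at hfin
  refine hfin.congr' ?_
  have hev : ∀ᶠ s : ℝ in 𝓝[≠] 0, |s| < r3 := by
    refine nhdsWithin_le_nhds ?_
    have := ball_mem_nhds (0:ℝ) hr3pos
    filter_upwards [this] with s hs
    rwa [mem_ball, dist_zero_right] at hs
  filter_upwards [hev, self_mem_nhdsWithin] with s hs hs0
  have hs0' : |s| ≠ 0 := abs_ne_zero.2 hs0
  have hs3 : |s| ^ 3 ≠ 0 := pow_ne_zero 3 hs0'
  have hm := hmeasD s ((hs.trans_le hr3r2).trans_le (min_le_left _ _))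
  rw [hJre s (hs.trans_le hr3r2)]
  have i1 : Integrable (fun θ => (D θ s + e θ * |s| ^ 3)⁻¹) vθ := by
    refine Integrable.mono' (integrable_const ((c0 / 4)⁻¹))
      (hm.add (he.mul_const _)).inv.aestronglyMeasurable (Eventually.of_forall fun θ => ?_)
    rw [norm_inv, Real.norm_eq_abs]
    exact inv_anti₀ (by positivity) ((low2 θ s hs).trans (le_abs_self _))
  have i2 : Integrable (fun θ => (D θ s)⁻¹) vθ := by
    refine Integrable.mono' (integrable_const ((c0 / 2)⁻¹))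
      hm.inv.aestronglyMeasurable (Eventually.of_forall fun θ => ?_)
    rw [norm_inv, Real.norm_eq_abs]
    exact inv_anti₀ (by positivity) ((lowR θ s (hs.trans_le hr3r2)).trans (le_abs_self _))
  have e3 : (∫ θ in (0:ℝ)..(2 * π), (D θ s + e θ * |s| ^ 3)⁻¹) - ∫ θ in (0:ℝ)..(2 * π), (D θ s)⁻¹
      = |s| ^ 3 * ∫ θ, (-(e θ) * (D θ s)⁻¹ * (D θ s + e θ * |s| ^ 3)⁻¹) ∂vθ := by
    rw [intervalIntegral.integral_of_le (by positivity),
      intervalIntegral.integral_of_le (by positivity), ← integral_sub i1 i2,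
      ← integral_const_mul]
    refine integral_congr_ae (Eventually.of_forall fun θ => ?_)
    have l1 : D θ s ≠ 0 := by
      have := lowR θ s (hs.trans_le hr3r2); intro h; linarith
    have l2 : D θ s + e θ * |s| ^ 3 ≠ 0 := by
      have := low2 θ s hs; intro h; linarith
    simp only
    field_simp
    ring
  have e4 : ∫ θ in (0:ℝ)..(2 * π), (D θ s + e θ * |s| ^ 3)⁻¹ = (∫ θ in (0:ℝ)..(2 * π), (D θ s)⁻¹)
      + |s| ^ 3 * ∫ θ, (-(e θ) * (D θ s)⁻¹ * (D θ s + e θ * |s| ^ 3)⁻¹) ∂vθ := by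
    linarith
  rw [e4]
  field_simp
  ring

end IB
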