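import Mathlib
import Pool.Agent.Helper689.IBHol
import Pool.Agent.Helper689.IBPoly

set_option autoImplicit false

open MeasureTheory Set Filter Topology Metric Real

namespace IB

section
variable {ι : Type*} [Fintype ι]

lemma F0_hol {m p : ℕ} (hp : 1 ≤ p) {ε : ℝ} (hε : 0 < ε) {α : ι → ℝ → (ℝ × (Fin m → ℝ)) → ℝ}
    {β : ι → ℝ → ℝ}
    (hα : ∀ i, Continuous (fun z : ℝ × (ℝ × (Fin m → ℝ)) => α i z.1 z.2))
    (hβ : ∀ i, Continuous (β i)) {A : ℝ} (hA : 0 ≤ A)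
    (bα : ∀ i θ x, |α i θ x| ≤ A * √(R2 x)) (bβ : ∀ i θ, |β i θ| ≤ A) :
    ∃ r : ℝ, 0 < r ∧ r ≤ 1 ∧ ∃ B : ℝ, ∃ Fc : ℝ → ℂ → ℂ,
      (∀ θ, DifferentiableOn ℂ (Fc θ) (ball 0 r)) ∧
      (∀ s ∈ ball (0:ℂ) r, Measurable (fun θ => Fc θ s)) ∧
      (∀ θ, ∀ s ∈ ball (0:ℂ) r, ‖Fc θ s‖ ≤ B) ∧
      (∀ θ (s : ℝ), |s| < r → Fc θ (s:ℂ) = ((∫ x : ℝ × (Fin m → ℝ),
        (qr p ε (fun i => α i θ x) (fun i => β i θ) (R2 x) s) ^ (-((m + 2 : ℝ) / (2 * p))) : ℝ) : ℂ)) := by
  obtain ⟨r, hr, hr1, hlow⟩ := qc_re_lower (ι := ι) (p := p) hε hA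
  set κ : ℝ := (m + 2 : ℝ) / (2 * p) with hκ
  have hp0 : (0:ℝ) < p := by exact_mod_cast hp
  have hκ0 : 0 < κ := by positivity
  set q : ℝ → ℂ → (ℝ × (Fin m → ℝ)) → ℂ := fun θ s x =>
    qc p ε (fun i => α i θ x) (fun i => β i θ) (R2 x) s with hq
  have hsq : ∀ x : ℝ × (Fin m → ℝ), √(R2 x) ^ 2 = R2 x := fun x => Real.sq_sqrt (R2_pos x).le
  have hre : ∀ θ, ∀ s ∈ ball (0:ℂ) r, ∀ x, ε / 2 * (R2 x) ^ p ≤ (q θ s x).re := by
    intro θ s hs x
    rw [mem_ball, dist_zero_right] at hs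
    have h1 : 1 ≤ √(R2 x) := Real.one_le_sqrt.2 (one_le_R2 x)
    have := hlow (fun i => α i θ x) (fun i => β i θ) (√(R2 x)) s h1 (fun i => bα i θ x)
      (fun i => bβ i θ) hs
    rwa [hsq] at this
  have hpos : ∀ x : ℝ × (Fin m → ℝ), 0 < ε / 2 * (R2 x) ^ p := fun x => by
    have := R2_pos x; positivity
  have hslit : ∀ θ, ∀ s ∈ ball (0:ℂ) r, ∀ x, q θ s x ∈ Complex.slitPlane := by
    intro θ s hs x
    exact Or.inl ((hpos x).trans_le (hre θ s hs x))
  set f : ℝ → ℂ → (ℝ × (Fin m → ℝ)) → ℂ := fun θ s x => (q θ s x) ^ ((-κ : ℝ) : ℂ) with hf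
  set b : (ℝ × (Fin m → ℝ)) → ℝ := fun x => (ε / 2) ^ (-κ) * (R2 x) ^ (-(m + 2 : ℝ) / 2) with hb
  have hbint : Integrable b :=
    (integrable_R2_rpow (m := m) (r := (m + 2 : ℝ)) (by linarith)).const_mul _
  have hfb : ∀ θ, ∀ s ∈ ball (0:ℂ) r, ∀ x, ‖f θ s x‖ ≤ b x := by
    intro θ s hs x
    have h1 := hre θ s hs x
    have h2 : q θ s x ≠ 0 := Complex.slitPlane_ne_zero (hslit θ s hs x)
    have h3 : ‖f θ s x‖ = ‖q θ s x‖ ^ (-κ) := by
      simp only [hf]
      rw [Complex.norm_cpow_of_ne_zero h2]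
      simp
    rw [h3]
    have h4 : ε / 2 * (R2 x) ^ p ≤ ‖q θ s x‖ := h1.trans (Complex.re_le_norm _)
    calc ‖q θ s x‖ ^ (-κ) ≤ (ε / 2 * (R2 x) ^ p) ^ (-κ) :=
          rpow_le_rpow_of_nonpos (hpos x) h4 (by linarith)
      _ = b x := by
          have h5 := (R2_pos x).le
          rw [mul_rpow (by positivity) (by positivity), ← rpow_natCast, ← rpow_mul h5]
          simp only [hb]
          congr 2
          rw [hκ]; field_simp
  have hqcont : ∀ s : ℂ, Continuous (fun z : ℝ × (ℝ × (Fin m → ℝ)) => q z.1 s z.2) := by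
    intro s
    simp only [hq, qc]
    have h1 : Continuous (fun z : ℝ × (ℝ × (Fin m → ℝ)) => R2 z.2) := continuous_R2.comp continuous_snd
    have h2 : ∀ i, Continuous (fun z : ℝ × (ℝ × (Fin m → ℝ)) => β i z.1) := fun i =>
      (hβ i).comp continuous_fst
    refine (continuous_finsetSum _ fun i _ => ?_).add ?_
    · exact ((Complex.continuous_ofReal.comp (hα i)).add
        (continuous_const.mul (Complex.continuous_ofReal.comp (h2 i)))).pow _
    · exact continuous_const.mul (((Complex.continuous_ofReal.comp h1).add continuous_const).pow _)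
  have hfmeas : ∀ s : ℂ, Measurable (fun z : ℝ × (ℝ × (Fin m → ℝ)) => f z.1 s z.2) := by
    intro s
    simp only [hf]
    exact (hqcont s).measurable.pow_const _
  refine ⟨r, hr, hr1, ∫ x, b x, fun θ s => ∫ x, f θ s x, ?_, ?_, ?_, ?_⟩
  · intro θ
    refine holInt (f := fun s x => f θ s x) (b := b) ?_ ?_ hbint (hfb θ)
    · intro x s hs
      have hd : DifferentiableAt ℂ (fun s => q θ s x) s := by
        simp only [hq, qc]
        fun_prop
      exact (hd.cpow_const (hslit θ s hs x)).differentiableWithinAt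
    · intro s _
      exact ((hfmeas s).comp measurable_prodMk_left).aestronglyMeasurable
  · intro s _
    exact (hfmeas s).stronglyMeasurable.integral_prod_right.measurable
  · intro θ s hs
    exact norm_integral_le_of_norm_le hbint (Eventually.of_forall (hfb θ s hs))
  · intro θ s hs
    have hs' : (s:ℂ) ∈ ball (0:ℂ) r := by
      rw [mem_ball, dist_zero_right, Complex.norm_real]; exact hs
    rw [← integral_complex_ofReal]
    refine integral_congr_ae (Eventually.of_forall fun x => ?_)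
    have h1 := hre θ s hs' x
    simp only [hf, hq] at h1 ⊢
    rw [qc_real] at h1 ⊢
    rw [Complex.ofReal_re] at h1
    rw [Complex.ofReal_cpow ((hpos x).le.trans h1)]

end

end IB
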