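import Mathlib
import Pool.Agent.Helper689.IBConv
import Pool.Agent.Helper689.IBF0
import Pool.Agent.Helper689.IBExp
import Pool.Agent.Helper689.IBDiv

set_option autoImplicit false

open MeasureTheory Set Filter Topology Metric Real

namespace IB

section
variable {m : ℕ} {ι : Type*} [Fintype ι]

/-- base radial integral -/
noncomputable def Fint (p : ℕ) (ε : ℝ) (f : ι → EE m) (τ θ s : ℝ) : ℝ :=
  ∫ x : ℝ × (Fin m → ℝ), Phi p ε f τ (pt θ s 1 x)

lemma pt_ne {m : ℕ} (θ s : ℝ) (x : ℝ × (Fin m → ℝ)) : pt θ s 1 x ≠ 0 := by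
  intro h
  have := congrArg (fun v : EE m => v 2) h
  simp at this

/-- the constant from integrating out `y` -/
noncomputable def cm (m : ℕ) : ℝ := ∫ y : Fin m → ℝ, (1 + ∑ j, y j ^ 2) ^ (-((m + 4 : ℝ) / 2))

lemma integrable_y (m : ℕ) : Integrable (fun y : Fin m → ℝ => (1 + ∑ j, y j ^ 2) ^ (-((m + 4 : ℝ) / 2))) := by
  have hfr : (Module.finrank ℝ (Fin m → ℝ) : ℝ) < (m + 4 : ℝ) := by
    simp
  have h := integrable_rpow_neg_one_add_norm_sq (E := Fin m → ℝ) (μ := volume) hfr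
  refine h.mono' ?_ ?_
  · refine Continuous.aestronglyMeasurable ?_
    refine Continuous.rpow_const (by fun_prop) (fun y => Or.inl ?_)
    have : 0 ≤ ∑ j, y j ^ 2 := Finset.sum_nonneg fun j _ => sq_nonneg _
    positivity
  · refine Eventually.of_forall fun y => ?_
    have h0 : 0 ≤ ∑ j, y j ^ 2 := Finset.sum_nonneg fun j _ => sq_nonneg _
    rw [Real.norm_eq_abs, abs_of_nonneg (rpow_nonneg (by positivity) _), neg_div]
    refine rpow_le_rpow_of_nonpos (by positivity) ?_ (by have : (0:ℝ) ≤ m := Nat.cast_nonneg m; linarith)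
    have h1 : ‖y‖ ≤ √(∑ j, y j ^ 2) := by
      rw [pi_norm_le_iff_of_nonneg (Real.sqrt_nonneg _)]
      intro j
      rw [Real.norm_eq_abs]
      refine Real.abs_le_sqrt ?_
      exact Finset.single_le_sum (f := fun j => y j ^ 2) (fun j _ => sq_nonneg _) (Finset.mem_univ j)
    have h2 : ‖y‖ ^ 2 ≤ ∑ j, y j ^ 2 := by
      rw [← Real.sq_sqrt h0]; gcongr
    linarith

lemma cm_pos (m : ℕ) : 0 < cm m := by
  unfold cm
  have hp : ∀ y : Fin m → ℝ, 0 < (1 + ∑ j, y j ^ 2) ^ (-((m + 4 : ℝ) / 2)) := fun y => by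
    have : 0 ≤ ∑ j, y j ^ 2 := Finset.sum_nonneg fun j _ => sq_nonneg _
    exact rpow_pos_of_pos (by positivity) _
  rw [integral_pos_iff_support_of_nonneg (fun y => (hp y).le) (integrable_y m)]
  have : Function.support (fun y : Fin m → ℝ => (1 + ∑ j, y j ^ 2) ^ (-((m + 4 : ℝ) / 2))) = univ := by
    ext y; simpa using (hp y).ne'
  rw [this]
  exact (Measure.measure_univ_pos).2 (NeZero.ne _)

lemma gf_pt (θ s : ℝ) (x : ℝ × (Fin m → ℝ)) : gf (pt θ s 1 x)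
    = q4 (s * cos θ - x.1 * sin θ) (s * sin θ + x.1 * cos θ) * (R2 x + s ^ 2) ^ (-((m + 4 : ℝ) / 2)) := by
  unfold gf
  rw [norm_sq_pt_one]
  simp

lemma continuous_pt1 (θ s : ℝ) : Continuous (fun x : ℝ × (Fin m → ℝ) => pt θ s 1 x) :=
  (continuous_pt (m := m)).comp (by fun_prop : Continuous fun x : ℝ × (Fin m → ℝ) => (θ, s, (1:ℝ), x))

lemma measurable_gf : Measurable (gf (m := m)) := by
  unfold gf
  exact continuous_q4v.measurable.mul
    ((by fun_prop : Continuous fun v : EE m => ‖v‖ ^ 2).measurable.pow_const _)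

lemma integrable_bound : Integrable (fun x : ℝ × (Fin m → ℝ) => (R2 x) ^ (-((m + 2 : ℝ) / 2))) := by
  have h := integrable_R2_rpow (m := m) (r := (m + 2 : ℝ)) (by linarith)
  have e : -((m + 2 : ℝ) / 2) = -(m + 2 : ℝ) / 2 := by ring
  rw [e]; exact h

lemma pt_bound (θ s : ℝ) (x : ℝ × (Fin m → ℝ)) :
    (‖pt θ s 1 x‖ ^ 2) ^ (-((m + 2 : ℝ) / 2)) ≤ (R2 x) ^ (-((m + 2 : ℝ) / 2)) := by
  rw [norm_sq_pt_one]
  refine rpow_le_rpow_of_nonpos (R2_pos x) (by nlinarith [sq_nonneg s]) ?_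
  have : (0:ℝ) ≤ m := Nat.cast_nonneg m
  linarith

lemma integrable_gf (θ s : ℝ) : Integrable (fun x : ℝ × (Fin m → ℝ) => gf (pt θ s 1 x)) := by
  refine (integrable_bound (m := m)).mono' ?_ ?_
  · exact (measurable_gf.comp (continuous_pt1 θ s).measurable).aestronglyMeasurable
  · refine Eventually.of_forall fun x => ?_
    rw [Real.norm_eq_abs]
    exact (abs_gf_le _ (pt_ne θ s x)).trans (pt_bound θ s x)

lemma integrable_Q {p : ℕ} (hp : 1 ≤ p) {ε : ℝ} (hε : 0 < ε) (f : ι → EE m) (θ s : ℝ) :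
    Integrable (fun x : ℝ × (Fin m → ℝ) => (Qf p ε f (pt θ s 1 x)) ^ (-kap m p)) := by
  refine ((integrable_bound (m := m)).const_mul (ε ^ (-kap m p))).mono' ?_ ?_
  · have h1 : Continuous (fun x : ℝ × (Fin m → ℝ) => (Qf p ε f (pt θ s 1 x))) :=
      (continuous_Qf p ε f).comp (continuous_pt1 θ s)
    exact (h1.rpow_const (fun x => Or.inl (Qf_pos p hε f (pt_ne θ s x)).ne')).aestronglyMeasurable
  · refine Eventually.of_forall fun x => ?_
    set v := pt θ s 1 x with hv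
    have hv0 : v ≠ 0 := pt_ne θ s x
    have hn : 0 < ‖v‖ ^ 2 := by have := norm_pos_iff.2 hv0; positivity
    have hQ := Qf_pos p hε f hv0
    have hκ := kap_pos (m := m) hp
    rw [Real.norm_eq_abs, abs_of_nonneg (rpow_nonneg hQ.le _)]
    have e : (‖v‖ ^ 2) ^ (-((m + 2 : ℝ) / 2)) = ((‖v‖ ^ 2) ^ p) ^ (-kap m p) := by
      rw [← rpow_natCast (‖v‖ ^ 2) p, ← rpow_mul hn.le, mul_neg, pkap hp]
    have l2 : (Qf p ε f v) ^ (-kap m p) ≤ ε ^ (-kap m p) * ((‖v‖ ^ 2) ^ p) ^ (-kap m p) := by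
      rw [← mul_rpow hε.le (by positivity)]
      exact rpow_le_rpow_of_nonpos (by positivity) (Qf_lower p ε f v) (by linarith)
    rw [← e] at l2
    refine l2.trans ?_
    have := pt_bound (m := m) θ s x
    have h3 := rpow_pos_of_pos hε (-kap m p)
    gcongr

lemma integral_gf (θ s : ℝ) :
    ∫ x : ℝ × (Fin m → ℝ), gf (pt θ s 1 x) = cm m * (cos (4 * θ) * (gsm s + 8 * π * |s| ^ 3)) := by
  have hint := integrable_gf (m := m) θ s
  rw [Measure.volume_eq_prod] at hint ⊢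
  rw [integral_prod _ hint]
  have h1 : ∀ t : ℝ, ∫ y : Fin m → ℝ, gf (pt θ s 1 (t, y))
      = cm m * (q4 (s * cos θ - t * sin θ) (s * sin θ + t * cos θ) * (1 + s ^ 2 + t ^ 2) ^ (-(2:ℝ))) := by
    intro t
    have e : ∀ y : Fin m → ℝ, gf (pt θ s 1 (t, y))
        = q4 (s * cos θ - t * sin θ) (s * sin θ + t * cos θ)
          * ((1 + s ^ 2 + t ^ 2) + ∑ j, y j ^ 2) ^ (-((m + 4 : ℝ) / 2)) := by
      intro y
      rw [gf_pt]
      unfold R2
      simp only
      congr 2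
      ring
    simp_rw [e]
    rw [integral_const_mul, scale_integral (V := Fin m → ℝ) volume (fun y => ∑ j, y j ^ 2)
      (fun y => Finset.sum_nonneg fun j _ => sq_nonneg _)
      (fun c y => by
        rw [Finset.mul_sum]
        refine Finset.sum_congr rfl fun j _ => ?_
        simp [mul_pow]) (by positivity) ((m + 4 : ℝ) / 2)]
    have e2 : ((Module.finrank ℝ (Fin m → ℝ) : ℝ) / 2 - (m + 4 : ℝ) / 2) = -2 := by
      simp; ring
    rw [e2]
    unfold cm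
    ring
  simp_rw [h1]
  rw [integral_const_mul, integral_q4]

lemma Fint_eq {p : ℕ} (hp : 1 ≤ p) {ε : ℝ} (hε : 0 < ε) (f : ι → EE m) (τ θ s : ℝ) :
    Integrable (fun x : ℝ × (Fin m → ℝ) => Phi p ε f τ (pt θ s 1 x)) ∧
    Fint p ε f τ θ s = (∫ x : ℝ × (Fin m → ℝ), (Qf p ε f (pt θ s 1 x)) ^ (-kap m p))
      + τ * (cm m * (cos (4 * θ) * (gsm s + 8 * π * |s| ^ 3))) := by
  have i1 := integrable_Q hp hε f θ s
  have i2 := (integrable_gf (m := m) θ s).const_mul τ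
  refine ⟨i1.add i2, ?_⟩
  unfold Fint Phi
  rw [integral_add i1 i2, integral_const_mul, integral_gf]

lemma integral_bound_pos : 0 < ∫ x : ℝ × (Fin m → ℝ), (R2 x) ^ (-((m + 2 : ℝ) / 2)) := by
  have hp : ∀ x : ℝ × (Fin m → ℝ), 0 < (R2 x) ^ (-((m + 2 : ℝ) / 2)) := fun x =>
    rpow_pos_of_pos (R2_pos x) _
  rw [integral_pos_iff_support_of_nonneg (fun x => (hp x).le) (integrable_bound (m := m))]
  have : Function.support (fun x : ℝ × (Fin m → ℝ) => (R2 x) ^ (-((m + 2 : ℝ) / 2))) = univ := by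
    ext y; simpa using (hp y).ne'
  rw [this]
  exact (Measure.measure_univ_pos).2 (NeZero.ne _)

/-- lower bound for the section function -/
lemma Fint_lower {p : ℕ} (hp : 1 ≤ p) {ε : ℝ} (hε : 0 < ε) (f : ι → EE m) {τ : ℝ}
    (hτ : |τ| * (CQ p ε f) ^ (kap m p) ≤ 1 / 2) :
    ∃ c : ℝ, 0 < c ∧ ∀ θ s, c * (1 + s ^ 2) ^ (-(1:ℝ) / 2) ≤ Fint p ε f τ θ s := by
  obtain ⟨c, C, hc, hC, hb⟩ := Phi_norm_bounds hp hε f hτ
  refine ⟨c * ∫ x : ℝ × (Fin m → ℝ), (R2 x) ^ (-((m + 2 : ℝ) / 2)), by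
    have := integral_bound_pos (m := m); positivity, ?_⟩
  intro θ s
  have hint := (Fint_eq hp hε f τ θ s).1
  have hsc := scale_integral (V := ℝ × (Fin m → ℝ)) volume (fun x => x.1 ^ 2 + ∑ j, x.2 j ^ 2)
    (fun x => by
      have : 0 ≤ ∑ j, x.2 j ^ 2 := Finset.sum_nonneg fun j _ => sq_nonneg _
      positivity)
    (fun c x => by
      rw [mul_add, Finset.mul_sum]
      simp only [Prod.smul_fst, Prod.smul_snd, Pi.smul_apply, smul_eq_mul, mul_pow])
    (A := 1 + s ^ 2) (by positivity) ((m + 2 : ℝ) / 2)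
  have e1 : ∀ x : ℝ × (Fin m → ℝ), (‖pt θ s 1 x‖ ^ 2) ^ (-((m + 2 : ℝ) / 2))
      = ((1 + s ^ 2) + (x.1 ^ 2 + ∑ j, x.2 j ^ 2)) ^ (-((m + 2 : ℝ) / 2)) := by
    intro x
    rw [norm_sq_pt_one]
    unfold R2
    congr 1; ring
  have e2 : ∀ x : ℝ × (Fin m → ℝ), (1 + (x.1 ^ 2 + ∑ j, x.2 j ^ 2)) = R2 x := by
    intro x; unfold R2; ring
  have e3 : ((Module.finrank ℝ (ℝ × (Fin m → ℝ)) : ℝ) / 2 - (m + 2 : ℝ) / 2) = -(1:ℝ) / 2 := by
    simp only [Module.finrank_prod, Module.finrank_self, Module.finrank_pi, Fintype.card_fin]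
    push_cast; ring
  rw [e3] at hsc
  simp_rw [e2] at hsc
  have hintl : Integrable (fun x : ℝ × (Fin m → ℝ) => c * (‖pt θ s 1 x‖ ^ 2) ^ (-((m + 2 : ℝ) / 2))) := by
    refine Integrable.const_mul ?_ _
    refine (integrable_bound (m := m)).mono' ?_ ?_
    · refine Measurable.aestronglyMeasurable ?_
      exact ((continuous_pt1 (m := m) θ s).norm.pow 2).measurable.pow_const _
    · refine Eventually.of_forall fun x => ?_
      rw [Real.norm_eq_abs, abs_of_nonneg (rpow_nonneg (by positivity) _)]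
      exact pt_bound θ s x
  calc c * (∫ x : ℝ × (Fin m → ℝ), (R2 x) ^ (-((m + 2 : ℝ) / 2))) * (1 + s ^ 2) ^ (-(1:ℝ) / 2)
      = ∫ x : ℝ × (Fin m → ℝ), c * (‖pt θ s 1 x‖ ^ 2) ^ (-((m + 2 : ℝ) / 2)) := by
        rw [integral_const_mul]
        simp_rw [e1]
        rw [hsc]; ring
    _ ≤ Fint p ε f τ θ s := by
        unfold Fint
        exact integral_mono hintl hint (fun x => (hb _ (pt_ne θ s x)).1)

end

end IB
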