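import Mathlib
import Pool.Agent.Helper689.IBFint

set_option autoImplicit false

open MeasureTheory Set Filter Topology Metric Real

namespace IB

lemma integral_cos4_sq : ∫ θ in (0:ℝ)..(2 * π), cos (4 * θ) ^ 2 = π := by
  have hd : ∀ θ : ℝ, HasDerivAt (fun θ => θ / 2 + sin (8 * θ) / 16) (cos (4 * θ) ^ 2) θ := by
    intro θ
    have h1 : HasDerivAt (fun θ : ℝ => sin (8 * θ)) (cos (8 * θ) * 8) θ := by
      have h2 : HasDerivAt (fun θ : ℝ => 8 * θ) 8 θ := by
        simpa using (hasDerivAt_id θ).const_mul (8:ℝ)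
      exact (Real.hasDerivAt_sin (8 * θ)).comp θ h2
    have h3 := ((hasDerivAt_id θ).div_const 2).add (h1.div_const 16)
    refine h3.congr_deriv ?_
    have h4 : cos (8 * θ) = 2 * cos (4 * θ) ^ 2 - 1 := by
      rw [← Real.cos_two_mul]; congr 1; ring
    rw [h4]; ring
  rw [intervalIntegral.integral_eq_sub_of_hasDerivAt (fun θ _ => hd θ)
    ((by fun_prop : Continuous fun θ : ℝ => cos (4 * θ) ^ 2).intervalIntegrable _ _)]
  have h1 : sin (8 * (2 * π)) = 0 := by
    have := Real.sin_nat_mul_pi 16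
    rw [← this]; congr 1; push_cast; ring
  rw [h1]; simp

/-- The sign of the singular coefficient. -/
lemma sign_lemma {F : ℝ → ℝ} (hF : Measurable F) {b1 b2 g u : ℝ} (hb1 : 0 < b1)
    (hlo : ∀ θ, b1 ≤ F θ) (hhi : ∀ θ, F θ ≤ b2) (hg : 0 < g) (hu : u ≠ 0)
    (hsign : u * ∫ θ in (0:ℝ)..(2 * π), cos (4 * θ) / F θ ^ 2 ≤ 0)
    {c0 : ℝ} (hc0 : 0 < c0) (hpos : ∀ θ, c0 ≤ F θ + u * g * cos (4 * θ)) :
    0 < -(u * ∫ θ in (0:ℝ)..(2 * π), cos (4 * θ) / (F θ + u * g * cos (4 * θ)) ^ 2) := by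
  have hb2 : 0 < b2 := hb1.trans_le ((hlo 0).trans (hhi 0))
  set b3 : ℝ := b2 + |u| * g with hb3
  have hb3pos : 0 < b3 := by positivity
  set κ0 : ℝ := u ^ 2 * g / (b2 * b3 ^ 2) with hκ0
  have hu2 : 0 < u ^ 2 := by positivity
  have hκ0pos : 0 < κ0 := by positivity
  have hcm : Measurable (fun θ : ℝ => cos (4 * θ)) := by fun_prop
  have i1 : IntervalIntegrable (fun θ => cos (4 * θ) / F θ ^ 2) volume 0 (2 * π) := by
    rw [intervalIntegrable_iff_integrableOn_Ioc_of_le (by positivity)]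
    refine Integrable.mono' (g := fun _ => 1 / b1 ^ 2) (by simp) (hcm.div (hF.pow_const 2)).aestronglyMeasurable ?_
    refine Eventually.of_forall fun θ => ?_
    have h0 : 0 < F θ := hb1.trans_le (hlo θ)
    rw [norm_div, Real.norm_eq_abs, Real.norm_eq_abs, abs_of_pos (by positivity : 0 < F θ ^ 2)]
    have := abs_cos_le_one (4 * θ)
    have := hlo θ
    gcongr
  have i2 : IntervalIntegrable (fun θ => cos (4 * θ) / (F θ + u * g * cos (4 * θ)) ^ 2) volume 0 (2 * π) := by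
    rw [intervalIntegrable_iff_integrableOn_Ioc_of_le (by positivity)]
    refine Integrable.mono' (g := fun _ => 1 / c0 ^ 2) (by simp)
      (hcm.div ((hF.add (hcm.const_mul _)).pow_const 2)).aestronglyMeasurable ?_
    refine Eventually.of_forall fun θ => ?_
    have h0 : 0 < F θ + u * g * cos (4 * θ) := hc0.trans_le (hpos θ)
    rw [norm_div, Real.norm_eq_abs, Real.norm_eq_abs,
      abs_of_pos (by positivity : 0 < (F θ + u * g * cos (4 * θ)) ^ 2)]
    have := abs_cos_le_one (4 * θ)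
    have := hpos θ
    gcongr
  have i3 : IntervalIntegrable (fun θ : ℝ => cos (4 * θ) ^ 2) volume 0 (2 * π) :=
    (by fun_prop : Continuous fun θ : ℝ => cos (4 * θ) ^ 2).intervalIntegrable _ _
  have key : ∀ θ, -(u * (cos (4 * θ) / F θ ^ 2)) + κ0 * cos (4 * θ) ^ 2
      ≤ -(u * (cos (4 * θ) / (F θ + u * g * cos (4 * θ)) ^ 2)) := by
    intro θ
    set c := cos (4 * θ) with hc
    have hF0 : 0 < F θ := hb1.trans_le (hlo θ)
    set G := F θ + u * g * c with hG
    have hG0 : 0 < G := hc0.trans_le (hpos θ)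
    have hGb : G ≤ b3 := by
      have h1 : |u * g * c| ≤ |u| * g := by
        rw [abs_mul, abs_mul, abs_of_pos hg]
        have := abs_cos_le_one (4 * θ)
        calc |u| * g * |c| ≤ |u| * g * 1 := by gcongr
          _ = |u| * g := mul_one _
      have := (abs_le.1 h1).2
      have := hhi θ
      linarith
    have e : -(u * (c / G ^ 2)) - -(u * (c / F θ ^ 2)) = u ^ 2 * g * c ^ 2 * (F θ + G) / (F θ ^ 2 * G ^ 2) := by
      have : G - F θ = u * g * c := by rw [hG]; ring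
      have h2 : u ^ 2 * g * c ^ 2 * (F θ + G) = u * c * ((G - F θ) * (G + F θ)) := by rw [this]; ring
      rw [h2]
      field_simp
      ring
    have e2 : κ0 * c ^ 2 ≤ u ^ 2 * g * c ^ 2 * (F θ + G) / (F θ ^ 2 * G ^ 2) := by
      have h3 : u ^ 2 * g * c ^ 2 * (F θ) / (F θ ^ 2 * G ^ 2) = u ^ 2 * g / (F θ * G ^ 2) * c ^ 2 := by
        field_simp
      calc κ0 * c ^ 2 ≤ u ^ 2 * g / (F θ * G ^ 2) * c ^ 2 := by
            rw [hκ0]
            have := hhi θ
            gcongr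
        _ = u ^ 2 * g * c ^ 2 * (F θ) / (F θ ^ 2 * G ^ 2) := h3.symm
        _ ≤ _ := by
            gcongr
            linarith
    linarith
  have j1 : IntervalIntegrable (fun θ => -(u * (cos (4 * θ) / F θ ^ 2))) volume 0 (2 * π) :=
    (i1.const_mul u).neg
  have j2 : IntervalIntegrable (fun θ => -(u * (cos (4 * θ) / (F θ + u * g * cos (4 * θ)) ^ 2)))
    volume 0 (2 * π) := (i2.const_mul u).neg
  have j3 : IntervalIntegrable (fun θ : ℝ => κ0 * cos (4 * θ) ^ 2) volume 0 (2 * π) :=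
    i3.const_mul κ0
  have hint := intervalIntegral.integral_mono_on (a := 0) (b := 2 * π) (by positivity)
    (j1.add j3) j2 (fun θ _ => key θ)
  rw [intervalIntegral.integral_add j1 j3,
    intervalIntegral.integral_neg, intervalIntegral.integral_const_mul,
    intervalIntegral.integral_const_mul, intervalIntegral.integral_neg,
    intervalIntegral.integral_const_mul, integral_cos4_sq] at hint
  have : 0 < κ0 * π := by positivity
  linarith

section
variable {m : ℕ} {ι : Type*} [Fintype ι]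

lemma coord_le_norm (v : EE m) (i : Fin (m + 3)) : |v i| ≤ ‖v‖ := by
  have := PiLp.norm_apply_le v i
  simpa using this

lemma Qf_pt (p : ℕ) (ε : ℝ) (f : ι → EE m) (θ s : ℝ) (x : ℝ × (Fin m → ℝ)) :
    Qf p ε f (pt θ s 1 x) = qr p ε (fun i => inner ℝ (f i) (pt θ 0 1 x))
      (fun i => f i 0 * cos θ + f i 1 * sin θ) (R2 x) s := by
  unfold Qf qr
  rw [norm_sq_pt_one]
  congr 1
  refine Finset.sum_congr rfl fun i _ => ?_
  congr 1
  show inner ℝ (f i) (pt θ s 1 x) = inner ℝ (f i) (pt θ 0 1 x) + s * (f i 0 * cos θ + f i 1 * sin θ)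
  rw [inner_EE, inner_EE]
  simp only [pt_zero, pt_one, pt_two, pt_succ]
  ring

/-- The key existence statement: the test is negative for suitable arbitrarily small `τ`. -/
theorem neg_test {p : ℕ} (hp : 1 ≤ p) {ε : ℝ} (hε : 0 < ε) (f : ι → EE m) {τmax : ℝ}
    (hmax : 0 < τmax) (hmax2 : τmax * (CQ p ε f) ^ (kap m p) ≤ 1 / 2) :
    ∃ τ : ℝ, |τ| ≤ τmax ∧ ∃ δ : ℝ, 0 < δ ∧
      ∫ s, ker2 δ s * ∫ θ in (0:ℝ)..(2 * π), (Fint p ε f τ θ s)⁻¹ < 0 := by
  -- holomorphic extension of the base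
  obtain ⟨r, hr, hr1, B, Fc, hFh, hFm, hFb, hFr⟩ := F0_hol (ι := ι) (m := m) hp hε
    (α := fun i θ x => inner ℝ (f i) (pt θ 0 1 x)) (β := fun i θ => f i 0 * cos θ + f i 1 * sin θ)
    (A := ∑ i, 2 * ‖f i‖)
    (fun i => by
      have h1 : Continuous (fun z : ℝ × (ℝ × (Fin m → ℝ)) => pt (m := m) z.1 0 1 z.2) :=
        (continuous_pt (m := m)).comp
          (by fun_prop : Continuous fun z : ℝ × (ℝ × (Fin m → ℝ)) => (z.1, (0:ℝ), (1:ℝ), z.2))
      exact continuous_const.inner h1)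
    (fun i => by fun_prop)
    (Finset.sum_nonneg fun i _ => by positivity)
    (fun i θ x => by
      refine (abs_real_inner_le_norm _ _).trans ?_
      have h1 : ‖pt θ 0 1 x‖ = √(R2 x) := by
        rw [← Real.sqrt_sq (norm_nonneg (pt θ 0 1 x)), norm_sq_pt_one]; simp
      rw [h1]
      gcongr
      calc ‖f i‖ ≤ 2 * ‖f i‖ := by linarith [norm_nonneg (f i)]
        _ ≤ _ := Finset.single_le_sum (f := fun i => 2 * ‖f i‖) (fun i _ => by positivity)
          (Finset.mem_univ i))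
    (fun i θ => by
      have h1 : |f i 0 * cos θ + f i 1 * sin θ| ≤ 2 * ‖f i‖ := by
        refine (abs_add_le _ _).trans ?_
        rw [abs_mul, abs_mul]
        have a1 := coord_le_norm (f i) 0
        have a2 := coord_le_norm (f i) 1
        have a3 := abs_cos_le_one θ
        have a4 := abs_sin_le_one θ
        calc |f i 0| * |cos θ| + |f i 1| * |sin θ| ≤ ‖f i‖ * 1 + ‖f i‖ * 1 := by gcongr
          _ = _ := by ring
      exact h1.trans (Finset.single_le_sum (f := fun i => 2 * ‖f i‖) (fun i _ => by positivity)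
        (Finset.mem_univ i)))
  set F0 : ℝ → ℝ → ℝ := fun θ s => ∫ x : ℝ × (Fin m → ℝ), (Qf p ε f (pt θ s 1 x)) ^ (-kap m p) with hF0
  have hFr' : ∀ θ (s : ℝ), |s| < r → Fc θ (s:ℂ) = (F0 θ s : ℂ) := by
    intro θ s hs
    rw [hFr θ s hs]
    simp only [hF0]
    simp_rw [Qf_pt]
    rfl
  -- real-variable facts for `F0 θ 0`
  have hF0m : Measurable (fun θ => F0 θ 0) := by
    have h1 := Complex.measurable_re.comp (hFm 0 (mem_ball_self hr))
    have h2 : (fun θ => F0 θ 0) = Complex.re ∘ fun θ => Fc θ 0 := by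
      ext θ
      have := hFr' θ 0 (by simpa using hr)
      rw [Complex.ofReal_zero] at this
      simp [this]
    rw [h2]; exact h1
  have hzero : |(0:ℝ)| * (CQ p ε f) ^ (kap m p) ≤ 1 / 2 := by simp
  obtain ⟨cb, hcb, hFlow⟩ := Fint_lower hp hε f hzero
  have hF00 : ∀ θ s, Fint p ε f 0 θ s = F0 θ s := by
    intro θ s
    rw [(Fint_eq hp hε f 0 θ s).2]; simp [hF0]
  have hlo : ∀ θ, cb ≤ F0 θ 0 := by
    intro θ
    have := hFlow θ 0
    rw [hF00] at this
    simpa using this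
  have hhi : ∀ θ, F0 θ 0 ≤ B := by
    intro θ
    have h1 := hFb θ 0 (mem_ball_self hr)
    have h2 := hFr' θ 0 (by simpa using hr)
    rw [Complex.ofReal_zero] at h2
    rw [h2, Complex.norm_real] at h1
    exact (le_abs_self _).trans h1
  -- choose the sign
  obtain ⟨τ, hτ0, hτmax, hsign⟩ : ∃ τ : ℝ, τ ≠ 0 ∧ |τ| ≤ τmax ∧
      τ * cm m * ∫ θ in (0:ℝ)..(2 * π), cos (4 * θ) / F0 θ 0 ^ 2 ≤ 0 := by
    have hcm := cm_pos m
    rcases le_total (∫ θ in (0:ℝ)..(2 * π), cos (4 * θ) / F0 θ 0 ^ 2) 0 with h | h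
    · refine ⟨τmax, hmax.ne', by rw [abs_of_pos hmax], ?_⟩
      exact mul_nonpos_of_nonneg_of_nonpos (by positivity) h
    · refine ⟨-τmax, by simpa using hmax.ne', by rw [abs_neg, abs_of_pos hmax], ?_⟩
      have : 0 ≤ τmax * cm m * ∫ θ in (0:ℝ)..(2 * π), cos (4 * θ) / F0 θ 0 ^ 2 := by positivity
      linarith
  refine ⟨τ, hτmax, ?_⟩
  have hC := CQ_pos p hε f
  have hCk := rpow_pos_of_pos hC (kap m p)
  have hτ2 : |τ| * (CQ p ε f) ^ (kap m p) ≤ 1 / 2 :=
    (mul_le_mul_of_nonneg_right hτmax hCk.le).trans hmax2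
  obtain ⟨c1, hc1, hlow⟩ := Fint_lower hp hε f hτ2
  set u : ℝ := τ * cm m with hu
  have hu0 : u ≠ 0 := mul_ne_zero hτ0 (cm_pos m).ne'
  -- the regular part
  set D : ℝ → ℝ → ℝ := fun θ s => F0 θ s + u * cos (4 * θ) * gsm s with hD
  set e : ℝ → ℝ := fun θ => u * cos (4 * θ) * (8 * π) with he
  have hFD : ∀ θ s, Fint p ε f τ θ s = D θ s + e θ * |s| ^ 3 := by
    intro θ s
    rw [(Fint_eq hp hε f τ θ s).2]
    simp only [hD, he, hF0, hu]
    ring
  have hD0 : ∀ θ, c1 ≤ D θ 0 := by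
    intro θ
    have h1 := hlow θ 0
    rw [hFD] at h1
    simpa using h1
  set r' : ℝ := min r (1 / 2) with hr'
  have hr'0 : 0 < r' := by positivity
  have hsub : ball (0:ℂ) r' ⊆ ball (0:ℂ) r := ball_subset_ball (min_le_left _ _)
  have hsub2 : ball (0:ℂ) r' ⊆ closedBall (0:ℂ) (1 / 2) :=
    (ball_subset_ball (min_le_right _ _)).trans ball_subset_closedBall
  have hsub3 : closedBall (0:ℂ) (1 / 2) ⊆ ball (0:ℂ) 1 := closedBall_subset_ball (by norm_num)
  obtain ⟨Bg, hBg⟩ : ∃ Bg : ℝ, ∀ s ∈ closedBall (0:ℂ) (1 / 2), ‖gsmC s‖ ≤ Bg :=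
    (isCompact_closedBall (0:ℂ) (1 / 2)).exists_bound_of_continuousOn
      (gsmC_diff.continuousOn.mono hsub3)
  obtain ⟨a0, a1, a2, a3, hexp⟩ := expansion (Dc := fun θ s => Fc θ s + ((u * cos (4 * θ) : ℝ) : ℂ) * gsmC s)
    (D := D) (r := r') (B := B + |u| * Bg) (c0 := c1) hr'0 hc1
    (fun θ => ((hFh θ).mono hsub).add
      ((gsmC_diff.mono (hsub2.trans hsub3)).const_mul _))
    (fun s hs => by
      refine (hFm s (hsub hs)).add (Measurable.mul_const ?_ _)
      exact Complex.measurable_ofReal.comp (by fun_prop))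
    (fun θ s hs => by
      refine (norm_add_le _ _).trans ?_
      rw [norm_mul, Complex.norm_real, Real.norm_eq_abs, abs_mul]
      have h1 := hFb θ s (hsub hs)
      have h2 := hBg s (hsub2 hs)
      have h3 := abs_cos_le_one (4 * θ)
      calc ‖Fc θ s‖ + |u| * |cos (4 * θ)| * ‖gsmC s‖ ≤ B + |u| * 1 * Bg := by gcongr
        _ = _ := by ring)
    (fun θ s hs => by
      rw [hFr' θ s (hs.trans_le (min_le_left _ _)), gsmC_real]
      simp only [hD]
      push_cast
      ring)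
    hD0 (e := e) (by fun_prop) (E0 := |u| * (8 * π))
    (fun θ => by
      simp only [he]
      rw [abs_mul, abs_mul, abs_of_pos (by positivity : (0:ℝ) < 8 * π)]
      have h3 := abs_cos_le_one (4 * θ)
      calc |u| * |cos (4 * θ)| * (8 * π) ≤ |u| * 1 * (8 * π) := by gcongr
        _ = _ := by ring)
  -- positivity of the singular coefficient
  have hgsm0 : gsm 0 = π / 2 := by unfold gsm; simp; ring
  have hcoef : 0 < -∫ θ in (0:ℝ)..(2 * π), e θ / (D θ 0) ^ 2 := by
    have h1 := sign_lemma (F := fun θ => F0 θ 0) hF0m hcb hlo hhi (g := π / 2) (by positivity) hu0 hsign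
      (c0 := c1) hc1 (fun θ => by
        have := hD0 θ
        simp only [hD, hgsm0] at this
        linarith)
    have h2 : ∫ θ in (0:ℝ)..(2 * π), e θ / (D θ 0) ^ 2
        = 8 * π * (u * ∫ θ in (0:ℝ)..(2 * π), cos (4 * θ) / (F0 θ 0 + u * (π / 2) * cos (4 * θ)) ^ 2) := by
      rw [← intervalIntegral.integral_const_mul, ← intervalIntegral.integral_const_mul]
      refine intervalIntegral.integral_congr fun θ _ => ?_
      simp only [he, hD, hgsm0]
      have : F0 θ 0 + u * cos (4 * θ) * (π / 2) = F0 θ 0 + u * (π / 2) * cos (4 * θ) := by ring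
      rw [this]; ring
    rw [h2]
    have h3 : 0 < 8 * π := by positivity
    nlinarith
  -- measurability and growth of I
  set I : ℝ → ℝ := fun s => ∫ θ in (0:ℝ)..(2 * π), (Fint p ε f τ θ s)⁻¹ with hI
  have hImeas : AEStronglyMeasurable I volume := by
    have h1 : Measurable (fun z : (ℝ × ℝ) × (ℝ × (Fin m → ℝ)) => Phi p ε f τ (pt z.1.2 z.1.1 1 z.2)) := by
      refine (measurable_Phi p ε f τ).comp ?_
      exact ((continuous_pt (m := m)).comp (by fun_prop : Continuous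
        fun z : (ℝ × ℝ) × (ℝ × (Fin m → ℝ)) => (z.1.2, z.1.1, (1:ℝ), z.2))).measurable
    have h2 : StronglyMeasurable (fun z : ℝ × ℝ => Fint p ε f τ z.2 z.1) :=
      h1.stronglyMeasurable.integral_prod_right
    have h3 : Measurable (fun z : ℝ × ℝ => (Fint p ε f τ z.2 z.1)⁻¹) := h2.measurable.inv
    have h4 : StronglyMeasurable (fun s => ∫ θ, (Fint p ε f τ θ s)⁻¹ ∂(volume.restrict (Ioc 0 (2 * π)))) :=
      h3.stronglyMeasurable.integral_prod_right
    have h5 : I = fun s => ∫ θ, (Fint p ε f τ θ s)⁻¹ ∂(volume.restrict (Ioc 0 (2 * π))) := by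
      funext s
      simp only [hI]
      rw [intervalIntegral.integral_of_le (by positivity)]
    rw [h5]
    exact h4.aestronglyMeasurable
  have hIgrow : ∀ s, |I s| ≤ (c1⁻¹ * (2 * π)) * (1 + s ^ 2) := by
    intro s
    have hb : ∀ θ, ‖(Fint p ε f τ θ s)⁻¹‖ ≤ c1⁻¹ * (1 + s ^ 2) := by
      intro θ
      have h1 := hlow θ s
      have h2 : (1 + s ^ 2)⁻¹ ≤ (1 + s ^ 2) ^ (-(1:ℝ) / 2) := by
        rw [← rpow_neg_one]
        refine rpow_le_rpow_of_exponent_le (by nlinarith [sq_nonneg s]) (by norm_num)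
      have h3 : c1 * (1 + s ^ 2)⁻¹ ≤ Fint p ε f τ θ s := le_trans (by gcongr) h1
      have h4 : 0 < c1 * (1 + s ^ 2)⁻¹ := by positivity
      rw [norm_inv, Real.norm_eq_abs, abs_of_pos (h4.trans_le h3)]
      calc (Fint p ε f τ θ s)⁻¹ ≤ (c1 * (1 + s ^ 2)⁻¹)⁻¹ := inv_anti₀ h4 h3
        _ = _ := by rw [mul_inv, inv_inv]
    have := intervalIntegral.norm_integral_le_of_norm_le_const (a := 0) (b := 2 * π)
      (f := fun θ => (Fint p ε f τ θ s)⁻¹) (C := c1⁻¹ * (1 + s ^ 2)) (fun θ _ => hb θ)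
    rw [sub_zero, abs_of_pos (by positivity : (0:ℝ) < 2 * π)] at this
    rw [← Real.norm_eq_abs]
    refine this.trans (le_of_eq ?_)
    ring
  refine div_lemma hImeas hIgrow hcoef (a0 := a0) (a1 := a1) (a2 := a2) (a3 := a3) ?_
  refine hexp.congr fun s => ?_
  simp_rw [hFD]

end

end IB
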