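import Mathlib
import Pool.Agent.Helper689.IBNeg

set_option autoImplicit false

open MeasureTheory Set Filter Topology Metric Real

namespace IB

section
variable {V : Type*} [NormedAddCommGroup V] [InnerProductSpace ℝ V]

/-- `y + z ∈ (1+η) K` if `y ∈ K`, `‖z‖ ≤ η ρ` and `closedBall 0 ρ ⊆ K`. -/
lemma mem_scaled {K : Set V} (hK : Convex ℝ K) {ρ η : ℝ} (hρ : closedBall (0:V) ρ ⊆ K) (hη : 0 < η)
    {y z : V} (hy : y ∈ K) (hz : ‖z‖ ≤ η * ρ) : ∃ k ∈ K, y + z = (1 + η) • k := by
  have h1 : 0 < 1 + η := by linarith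
  refine ⟨(1 / (1 + η)) • y + (η / (1 + η)) • (η⁻¹ • z), ?_, ?_⟩
  · refine hK hy (hρ ?_) (by positivity) (by positivity) (by field_simp)
    rw [mem_closedBall, dist_zero_right, norm_smul, norm_inv, Real.norm_eq_abs, abs_of_pos hη]
    rw [inv_mul_le_iff₀ hη]; exact hz
  · rw [smul_add, smul_smul, smul_smul, smul_smul]
    have e1 : (1 + η) * (1 / (1 + η)) = 1 := by field_simp
    have e2 : (1 + η) * (η / (1 + η)) * η⁻¹ = 1 := by field_simp
    rw [e1, e2, one_smul, one_smul]

/-- cancellation -/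
lemma mem_of_scaled [CompleteSpace V] {K K' : Set V} (hKc : IsCompact K) (hK' : Convex ℝ K')
    (hK'c : IsClosed K') {ρ η : ℝ} (hρ : closedBall (0:V) ρ ⊆ K) (hη : 0 < η)
    (hη1 : η < 1)
    (hnear : ∀ x ∈ K, ∃ y ∈ K', ‖x - y‖ ≤ η * ρ) {x : V} (hx : x ∈ K) : (1 - η) • x ∈ K' := by
  by_contra hcon
  obtain ⟨f, u, hf1, hf2⟩ := geometric_hahn_banach_closed_point hK' hK'c hcon
  obtain ⟨k, hk, hmax⟩ := hKc.exists_isMaxOn ⟨x, hx⟩ f.continuous.continuousOn
  obtain ⟨y, hy, hky⟩ := hnear k hk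
  have h1 : f (k - y) ≤ η * f k := by
    have hmem : η⁻¹ • (k - y) ∈ K := by
      apply hρ
      rw [mem_closedBall, dist_zero_right, norm_smul, norm_inv, Real.norm_eq_abs, abs_of_pos hη,
        inv_mul_le_iff₀ hη]
      exact hky
    have := hmax hmem
    simp only [mem_ofPred_eq] at this
    rw [map_smul, smul_eq_mul, inv_mul_le_iff₀ hη] at this
    exact this
  have h2 := hf1 y hy
  have h3 : f x ≤ f k := hmax hx
  rw [map_sub] at h1
  rw [map_smul, smul_eq_mul] at hf2
  have h4 : (1 - η) * f x ≤ (1 - η) * f k := mul_le_mul_of_nonneg_left h3 (by linarith)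
  linarith

/-- A finite family of functionals describing a convex body up to `1+η`. -/
lemma finite_family [FiniteDimensional ℝ V] {K : Set V} (hK : Convex ℝ K) (hKc : IsCompact K)
    (hsymm : ∀ x ∈ K, -x ∈ K) {ρ η : ℝ} (hρ0 : 0 < ρ) (hρ : closedBall (0:V) ρ ⊆ K) (hη : 0 < η) :
    ∃ t : Finset V, (∀ w ∈ t, ∀ a ∈ K, |inner ℝ w a| ≤ 1) ∧
      ∀ x, (∀ w ∈ t, |inner ℝ w x| ≤ 1) → ∃ k ∈ K, x = (1 + η) • k := by
  obtain ⟨R, hR⟩ := hKc.isBounded.subset_closedBall (0:V)
  have h0 : (0:V) ∈ K := hρ (mem_closedBall_self hρ0.le)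
  have hR0 : 0 ≤ R := by
    have := hR h0; simpa using this
  have hη1 : 0 < 1 + η := by linarith
  set R' : ℝ := (1 + η) * R + 1 with hR'
  have hR'0 : 0 < R' := by positivity
  set U : Set V := (fun k => (1 + η) • k) '' K with hU
  set A : Set V := closedBall 0 R' \ interior U with hA
  have hAc : IsCompact A := (isCompact_closedBall 0 R').diff isOpen_interior
  have hKU : ∀ x ∈ K, x ∈ interior U := by
    intro x hx
    rw [mem_interior_iff_mem_nhds, Metric.mem_nhds_iff]
    refine ⟨η * ρ, by positivity, fun y hy => ?_⟩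
    rw [mem_ball, dist_eq_norm] at hy
    obtain ⟨k, hk, e⟩ := mem_scaled hK hρ hη hx hy.le
    refine ⟨k, hk, ?_⟩
    show (1 + η) • k = y
    rw [← e]; abel
  set W : Set V := {w | ∀ a ∈ K, |inner ℝ w a| ≤ 1} with hW
  have hcover : A ⊆ ⋃ w : W, {x | 1 < inner ℝ (w : V) x} := by
    intro x hx
    have hxK : x ∉ K := fun h => hx.2 (hKU x h)
    obtain ⟨f, u, hf1, hf2⟩ := geometric_hahn_banach_closed_point hK hKc.isClosed hxK
    have hu : 0 < u := by simpa using hf1 0 h0
    set w : V := u⁻¹ • (InnerProductSpace.toDual ℝ V).symm f with hw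
    have hwin : ∀ y, inner ℝ w y = u⁻¹ * f y := by
      intro y
      rw [hw, inner_smul_left, InnerProductSpace.toDual_symm_apply]; simp
    have hwW : w ∈ W := by
      intro a ha
      rw [hwin, abs_mul, abs_of_pos (inv_pos.2 hu), inv_mul_le_iff₀ hu, mul_one, abs_le]
      have h1 := hf1 a ha
      have h2 := hf1 (-a) (hsymm a ha)
      rw [map_neg] at h2
      constructor <;> linarith
    refine mem_iUnion.2 ⟨⟨w, hwW⟩, ?_⟩
    show 1 < inner ℝ w x
    rw [hwin, lt_inv_mul_iff₀ hu, mul_one]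
    exact hf2
  obtain ⟨t, ht⟩ := hAc.elim_finite_subcover (fun w : W => {x | 1 < inner ℝ (w : V) x})
    (fun w => isOpen_lt continuous_const (by fun_prop)) hcover
  classical
  refine ⟨Finset.image (Subtype.val : W → V) t, ?_, ?_⟩
  · intro w hw a ha
    obtain ⟨w', _, rfl⟩ := Finset.mem_image.1 hw
    exact w'.2 a ha
  · intro x hx
    by_contra hcon
    push Not at hcon
    have hxU : x ∉ U := by
      rintro ⟨k, hk, e⟩
      exact hcon k hk e.symm
    have main : ∀ y ∈ A, ∃ w ∈ Finset.image (Subtype.val : W → V) t, 1 < inner ℝ w y := by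
      intro y hy
      obtain ⟨w, hwt, hwy⟩ := mem_iUnion₂.1 (ht hy)
      exact ⟨(w : V), Finset.mem_image_of_mem _ hwt, hwy⟩
    rcases le_or_gt ‖x‖ R' with h | h
    · have hxA : x ∈ A := ⟨by simpa using h, fun hi => hxU (interior_subset hi)⟩
      obtain ⟨w, hw, hwx⟩ := main x hxA
      have := (le_abs_self _).trans (hx w hw)
      linarith
    · have hx0 : 0 < ‖x‖ := hR'0.trans h
      set y : V := (R' / ‖x‖) • x with hy
      have hyn : ‖y‖ = R' := by
        rw [hy, norm_smul, norm_div, norm_norm, Real.norm_eq_abs, abs_of_pos hR'0]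
        field_simp
      have hyU : y ∉ U := by
        rintro ⟨k, hk, e⟩
        have h1 : ‖k‖ ≤ R := by simpa using hR hk
        have h2 : ‖y‖ ≤ (1 + η) * R := by
          have e' : (1 + η) • k = y := e
          rw [← e', norm_smul, Real.norm_eq_abs, abs_of_pos hη1]
          gcongr
        rw [hyn] at h2
        linarith
      have hyA : y ∈ A := ⟨by simp [hyn], fun hi => hyU (interior_subset hi)⟩
      obtain ⟨w, hw, hwy⟩ := main y hyA
      have h1 := (le_abs_self _).trans (hx w hw)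
      rw [hy, inner_smul_right] at hwy
      have h2 : R' / ‖x‖ < 1 := by rw [div_lt_one hx0]; exact h
      have h3 : 0 < R' / ‖x‖ := by positivity
      nlinarith

end

end IB
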