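import Mathlib
import Pool.Agent.Helper689.IBSep

set_option autoImplicit false

open MeasureTheory Set Filter Topology Metric Real

namespace IB

section
variable {m : ℕ}

/-- Existence of a nearby body with negative test. -/
theorem exists_body {K : Set (EE m)} (hK : Convex ℝ K) (hKc : IsCompact K)
    (hsymm : ∀ x ∈ K, -x ∈ K) {ρ η : ℝ} (hρ0 : 0 < ρ) (hρ : closedBall (0 : EE m) ρ ⊆ K)
    (hη : 0 < η) (hη1 : η < 1) :
    ∃ (t : Finset (EE m)) (p : ℕ) (ε τ : ℝ), 1 ≤ p ∧ 0 < ε ∧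
      Convex ℝ (Kset p ε (fun w : t => (w : EE m)) τ) ∧
      |τ| * (CQ p ε (fun w : t => (w : EE m))) ^ (kap m p) ≤ 1 / 2 ∧
      (∃ δ : ℝ, 0 < δ ∧ ∫ s, ker2 δ s * ∫ θ in (0:ℝ)..(2 * π),
        (Fint p ε (fun w : t => (w : EE m)) τ θ s)⁻¹ < 0) ∧
      (∀ x ∈ K, (1 - η) • x ∈ Kset p ε (fun w : t => (w : EE m)) τ) ∧
      (∀ x ∈ Kset p ε (fun w : t => (w : EE m)) τ, ∃ k ∈ K, x = ((1 + η) ^ 2) • k) := by
  obtain ⟨t, ht1, ht2⟩ := finite_family hK hKc hsymm hρ0 hρ hη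
  obtain ⟨R, hR1, hR⟩ : ∃ R : ℝ, 0 < R ∧ K ⊆ closedBall 0 R := by
    obtain ⟨R, hR⟩ := hKc.isBounded.subset_closedBall (0 : EE m)
    exact ⟨max R 1, by positivity, hR.trans (closedBall_subset_closedBall (le_max_left _ _))⟩
  have h0 : (0 : EE m) ∈ K := hρ (mem_closedBall_self hρ0.le)
  set y : ℝ := (1 - η) ^ 2 with hy
  have hy0 : 0 ≤ y := sq_nonneg _
  have hy1 : y < 1 := by rw [hy]; nlinarith
  obtain ⟨p, hp, hpc⟩ : ∃ p : ℕ, 1 ≤ p ∧ (t.card : ℝ) * y ^ p ≤ 1 / 4 := by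
    obtain ⟨n, hn⟩ := exists_pow_lt_of_lt_one (show (0:ℝ) < 1 / (4 * (t.card + 1)) by positivity) hy1
    refine ⟨n + 1, by omega, ?_⟩
    have h1 : y ^ (n + 1) ≤ y ^ n := pow_le_pow_of_le_one hy0 hy1.le (by omega)
    have h2 : y ^ (n + 1) ≤ 1 / (4 * (t.card + 1)) := h1.trans hn.le
    calc (t.card : ℝ) * y ^ (n + 1) ≤ t.card * (1 / (4 * (t.card + 1))) := by gcongr
      _ ≤ (t.card + 1) * (1 / (4 * (t.card + 1))) := by gcongr; linarith
      _ = 1 / 4 := by field_simp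
  set ε : ℝ := 1 / (4 * (R ^ 2) ^ p) with hεdef
  have hε : 0 < ε := by positivity
  set f : t → EE m := fun w => (w : EE m) with hf
  obtain ⟨τ0, hτ0, hconv⟩ := Kset_convex hp hε f
  set κ : ℝ := kap m p with hκdef
  have hκ : 0 < κ := kap_pos hp
  have hC := CQ_pos p hε f
  have hCk := rpow_pos_of_pos hC κ
  have h2κ : (2:ℝ) ^ (-κ) < 1 := rpow_lt_one_of_one_lt_of_neg (by norm_num) (by linarith)
  set σ : ℝ := min (min η (1 - 2 ^ (-κ))) (1 / 2) with hσ
  have hσ0 : 0 < σ := lt_min (lt_min hη (by linarith)) (by norm_num)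
  set τmax : ℝ := min τ0 (σ / (CQ p ε f) ^ κ) with hτmax
  have hτmax0 : 0 < τmax := by positivity
  have hτC : τmax * (CQ p ε f) ^ κ ≤ σ := by
    calc τmax * (CQ p ε f) ^ κ ≤ σ / (CQ p ε f) ^ κ * (CQ p ε f) ^ κ := by
          gcongr; exact min_le_right _ _
      _ = σ := by field_simp
  obtain ⟨τ, hτ, δ, hδ, hneg⟩ := neg_test hp hε f hτmax0 (hτC.trans (min_le_right _ _))
  have hτσ : |τ| * (CQ p ε f) ^ κ ≤ σ := (mul_le_mul_of_nonneg_right hτ hCk.le).trans hτC
  refine ⟨t, p, ε, τ, hp, hε, hconv τ (hτ.trans (min_le_left _ _)), hτσ.trans (min_le_right _ _),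
    ⟨δ, hδ, hneg⟩, ?_, ?_⟩
  · intro x hx
    by_cases hv : (1 - η) • x = 0
    · left; exact hv
    right
    set v : EE m := (1 - η) • x with hvdef
    have h1η : 0 ≤ 1 - η := by linarith
    have hQ : Qf p ε f v ≤ 1 / 2 := by
      unfold Qf
      have s1 : ∑ i : t, (inner ℝ (f i) v) ^ (2 * p) ≤ t.card * y ^ p := by
        calc ∑ i : t, (inner ℝ (f i) v) ^ (2 * p) ≤ ∑ _i : t, y ^ p := by
              refine Finset.sum_le_sum fun i _ => ?_
              have h1 : |inner ℝ (f i) v| ≤ 1 - η := by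
                rw [hvdef, inner_smul_right, abs_mul, abs_of_nonneg h1η]
                have := ht1 i i.2 x hx
                calc (1 - η) * |inner ℝ (f i) x| ≤ (1 - η) * 1 := by gcongr
                  _ = _ := mul_one _
              calc (inner ℝ (f i) v) ^ (2 * p) = (|inner ℝ (f i) v| ^ 2) ^ p := by rw [pow_mul, sq_abs]
                _ ≤ ((1 - η) ^ 2) ^ p := by gcongr
          _ = t.card * y ^ p := by
              rw [Finset.sum_const, Finset.card_univ, Fintype.card_coe, nsmul_eq_mul]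
      have s2 : ε * (‖v‖ ^ 2) ^ p ≤ 1 / 4 := by
        have hvn : ‖v‖ ≤ R := by
          rw [hvdef, norm_smul, Real.norm_eq_abs, abs_of_nonneg h1η]
          have : ‖x‖ ≤ R := by simpa using hR hx
          calc (1 - η) * ‖x‖ ≤ 1 * R := by gcongr; linarith
            _ = R := one_mul _
        calc ε * (‖v‖ ^ 2) ^ p ≤ ε * (R ^ 2) ^ p := by gcongr
          _ = 1 / 4 := by rw [hεdef]; field_simp
      linarith
    have hQ0 := Qf_pos p hε f hv
    have hb := (Phi_bounds hp hε f hτσ v hv).1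
    refine le_trans ?_ hb
    have h1 : (2:ℝ) ^ κ ≤ (Qf p ε f v) ^ (-κ) := by
      have : (2:ℝ) ^ κ = (1 / 2 : ℝ) ^ (-κ) := by
        rw [one_div, rpow_neg (by norm_num), inv_rpow (by norm_num), inv_inv]
      rw [this]
      exact rpow_le_rpow_of_nonpos hQ0 hQ (by linarith)
    have h2 : (2:ℝ) ^ (-κ) ≤ 1 - σ := by
      have : σ ≤ 1 - 2 ^ (-κ) := (min_le_left _ _).trans (min_le_right _ _)
      linarith
    calc (1:ℝ) = 2 ^ (-κ) * 2 ^ κ := by rw [← rpow_add (by norm_num)]; simp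
      _ ≤ (1 - σ) * (Qf p ε f v) ^ (-κ) := by
          have h3 : (0:ℝ) < 2 ^ (-κ) := by positivity
          exact mul_le_mul h2 h1 (by positivity) (h3.le.trans h2)
  · intro x hx
    by_cases hx0 : x = 0
    · exact ⟨0, h0, by rw [hx0, smul_zero]⟩
    have hx1 : 1 ≤ Phi p ε f τ x := by
      rcases hx with h | h
      · exact absurd h hx0
      · exact h
    have hQ0 := Qf_pos p hε f hx0
    have hb := (Phi_bounds hp hε f hτσ x hx0).2
    have hQκ : (Qf p ε f x) ^ κ ≤ 1 + η := by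
      have h1 : 1 ≤ (1 + σ) * (Qf p ε f x) ^ (-κ) := hx1.trans hb
      have h2 : 0 < (Qf p ε f x) ^ κ := rpow_pos_of_pos hQ0 _
      rw [rpow_neg hQ0.le, ← div_eq_mul_inv, le_div_iff₀ h2, one_mul] at h1
      have : σ ≤ η := (min_le_left _ _).trans (min_le_left _ _)
      linarith
    have hin : ∀ w ∈ t, |inner ℝ w x| ≤ 1 + η := by
      intro w hw
      by_contra hcon
      push Not at hcon
      have a0 : 0 < |inner ℝ w x| := by linarith
      have h1 : (inner ℝ w x) ^ (2 * p) ≤ Qf p ε f x := by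
        unfold Qf
        have := Finset.single_le_sum (f := fun i : t => (inner ℝ (f i) x) ^ (2 * p))
          (fun i _ => even_pow_nonneg _ _) (Finset.mem_univ (⟨w, hw⟩ : t))
        have h3 : 0 ≤ ε * (‖x‖ ^ 2) ^ p := by positivity
        have h4 : (inner ℝ w x) ^ (2 * p) ≤ ∑ i : t, (inner ℝ (f i) x) ^ (2 * p) := this
        linarith
      have h2 : ((inner ℝ w x) ^ (2 * p)) ^ κ = |inner ℝ w x| ^ (m + 2) := by
        have e1 : (inner ℝ w x) ^ (2 * p) = |inner ℝ w x| ^ (2 * p) := by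
          rw [pow_mul, pow_mul, sq_abs]
        rw [e1, ← rpow_natCast, ← rpow_mul a0.le, ← rpow_natCast]
        congr 1
        have := pkap (m := m) hp
        push_cast
        linarith
      have h3 : |inner ℝ w x| ^ (m + 2) ≤ 1 + η := by
        rw [← h2]
        exact (rpow_le_rpow (even_pow_nonneg _ _) h1 hκ.le).trans hQκ
      have h4 : |inner ℝ w x| ≤ |inner ℝ w x| ^ (m + 2) := le_self_pow₀ (by linarith) (by omega)
      linarith
    have h1η : 0 < 1 + η := by linarith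
    obtain ⟨k, hk, hke⟩ := ht2 ((1 + η)⁻¹ • x) (fun w hw => by
      rw [inner_smul_right, abs_mul, abs_of_pos (inv_pos.2 h1η), inv_mul_le_iff₀ h1η, mul_one]
      exact hin w hw)
    refine ⟨k, hk, ?_⟩
    have : x = (1 + η) • ((1 + η)⁻¹ • x) := by rw [smul_smul, mul_inv_cancel₀ h1η.ne', one_smul]
    rw [this, hke, smul_smul, sq]

end

end IB
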