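import Mathlib
import Pool.Agent.Helper689.IBGeo

set_option autoImplicit false

open MeasureTheory Measure Set Filter Topology Metric Real

namespace IB

lemma hausdorff_const (d : ℕ) : ∃ c : ℝ, 0 < c ∧
    (μH[(d:ℝ)] : Measure (EuclideanSpace ℝ (Fin d))) = ENNReal.ofReal c • volume := by
  have h := EuclideanSpace.euclideanHausdorffMeasure_eq_volume d
  rw [euclideanHausdorffMeasure_def] at h
  set k := addHaarScalarFactor (volume : Measure (EuclideanSpace ℝ (Fin d))) μH[d] with hk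
  have hk0 : k ≠ 0 := addHaarScalarFactor_volume_hausdorffMeasure_ne_zero d
  refine ⟨(k : ℝ)⁻¹, by positivity, ?_⟩
  rw [← h]
  have hk0' : (k : ENNReal) ≠ 0 := by simpa using hk0
  have e1 : ENNReal.ofReal ((k : ℝ)⁻¹) = (k : ENNReal)⁻¹ := by
    rw [← NNReal.coe_inv, ENNReal.ofReal_coe_nnreal, ENNReal.coe_inv hk0]
  rw [e1]
  ext s hs
  rw [Measure.smul_apply, Measure.smul_apply, ENNReal.smul_def, smul_eq_mul, smul_eq_mul,
    ← mul_assoc, ENNReal.inv_mul_cancel hk0' ENNReal.coe_ne_top, one_mul]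

/-- Coordinates on `EuclideanSpace ℝ (Fin (m+2))`. -/
noncomputable def psi {m : ℕ} (z : ℝ × (ℝ × (Fin m → ℝ))) : EuclideanSpace ℝ (Fin (m + 2)) :=
  WithLp.toLp 2 (Fin.cons z.1 (Fin.cons z.2.1 z.2.2))

lemma measurePreserving_psi {m : ℕ} : MeasurePreserving (psi (m := m)) volume volume := by
  have h1 : MeasurePreserving (MeasurableEquiv.piFinSuccAbove (fun _ : Fin (m + 1) => ℝ) 0).symm
    (volume : Measure (ℝ × (Fin m → ℝ))) (volume : Measure (Fin (m + 1) → ℝ)) :=
    (volume_preserving_piFinSuccAbove (fun _ : Fin (m + 1) => ℝ) 0).symm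
  have h2 : MeasurePreserving (MeasurableEquiv.piFinSuccAbove (fun _ : Fin (m + 1 + 1) => ℝ) 0).symm
    (volume : Measure (ℝ × (Fin (m + 1) → ℝ))) (volume : Measure (Fin (m + 1 + 1) → ℝ)) :=
    (volume_preserving_piFinSuccAbove (fun _ : Fin (m + 1 + 1) => ℝ) 0).symm
  have h3 : MeasurePreserving (Prod.map id (MeasurableEquiv.piFinSuccAbove (fun _ : Fin (m + 1) => ℝ) 0).symm)
    (volume : Measure (ℝ × (ℝ × (Fin m → ℝ)))) (volume : Measure (ℝ × (Fin (m + 1) → ℝ))) :=
    (MeasurePreserving.id (volume : Measure ℝ)).prod h1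
  have h4 : MeasurePreserving (MeasurableEquiv.toLp 2 (Fin (m + 2) → ℝ))
    (volume : Measure (Fin (m + 2) → ℝ)) (volume : Measure (EuclideanSpace ℝ (Fin (m + 2)))) := by
    exact (EuclideanSpace.volume_preserving_symm_measurableEquiv_toLp (Fin (m + 2))).symm
  have h5 := h4.comp (h2.comp h3)
  have e : (⇑(MeasurableEquiv.toLp 2 (Fin (m + 2) → ℝ)) ∘
    (⇑(MeasurableEquiv.piFinSuccAbove (fun _ : Fin (m + 1 + 1) => ℝ) 0).symm ∘
      Prod.map id ⇑(MeasurableEquiv.piFinSuccAbove (fun _ : Fin (m + 1) => ℝ) 0).symm)) = psi (m := m) := by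
    funext z
    simp only [Function.comp_apply]
    show WithLp.toLp 2 _ = _
    unfold psi
    congr 1
    refine (Fin.insertNth_zero' _ _).trans ?_
    congr 1
    exact Fin.insertNth_zero' _ _
  rw [e] at h5
  exact h5

lemma iota_psi {m : ℕ} (θ s : ℝ) (z : ℝ × (ℝ × (Fin m → ℝ))) :
    iota θ s (psi z) = pt θ s (z.1 / √(1 + s ^ 2)) z.2 := rfl

/-- One-dimensional integral. -/
lemma inner_lint {A : ℝ} (hA : 0 < A) (k : ℕ) {φ : ℝ} (hφ : 0 ≤ φ) :
    ∫⁻ a : ℝ, ENNReal.ofReal (|a / A| ^ k) * ({a : ℝ | |a / A| ^ (k + 1) ≤ φ}.indicator 1 a)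
      = ENNReal.ofReal (A * (2 / (k + 1)) * φ) := by
  set ρ : ℝ := φ ^ ((1:ℝ) / (k + 1)) with hρ
  have hk : (0:ℝ) < k + 1 := by positivity
  have hρ0 : 0 ≤ ρ := rpow_nonneg hφ _
  have hρk : ρ ^ (k + 1) = φ := by
    rw [hρ, ← rpow_natCast, ← rpow_mul hφ]
    push_cast
    rw [one_div, inv_mul_cancel₀ hk.ne', rpow_one]
  have hset : {a : ℝ | |a / A| ^ (k + 1) ≤ φ} = Icc (-(A * ρ)) (A * ρ) := by
    ext a
    rw [mem_ofPred_eq, ← hρk, pow_le_pow_iff_left₀ (abs_nonneg _) hρ0 (by omega), abs_div,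
      abs_of_pos hA, div_le_iff₀ hA, abs_le, mem_Icc, mul_comm ρ A]
  rw [hset]
  have e1 : ∀ a : ℝ, ENNReal.ofReal (|a / A| ^ k) * ((Icc (-(A * ρ)) (A * ρ)).indicator 1 a)
      = (Icc (-(A * ρ)) (A * ρ)).indicator (fun a => ENNReal.ofReal (|a / A| ^ k)) a := by
    intro a
    by_cases h : a ∈ Icc (-(A * ρ)) (A * ρ)
    · rw [indicator_of_mem h, indicator_of_mem h]; simp
    · rw [indicator_of_notMem h, indicator_of_notMem h]; simp
  simp_rw [e1]
  rw [lintegral_indicator measurableSet_Icc]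
  have hc : Continuous (fun a : ℝ => |a / A| ^ k) := by fun_prop
  rw [← ofReal_integral_eq_lintegral_ofReal (hc.integrableOn_Icc)
    (Eventually.of_forall fun a => by positivity)]
  congr 1
  have hT : 0 ≤ A * ρ := by positivity
  rw [integral_Icc_eq_integral_Ioc, ← intervalIntegral.integral_of_le (by linarith),
    ← intervalIntegral.integral_add_adjacent_intervals (hc.intervalIntegrable _ 0)
      (hc.intervalIntegrable 0 _)]
  have e2 : ∫ a in (-(A * ρ))..0, |a / A| ^ k = ∫ a in (0:ℝ)..(A * ρ), |a / A| ^ k := by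
    have := intervalIntegral.integral_comp_neg (a := 0) (b := A * ρ) (fun a => |a / A| ^ k)
    rw [neg_zero] at this
    rw [← this]
    refine intervalIntegral.integral_congr fun a _ => ?_
    simp only [neg_div, abs_neg]
  have e3 : ∫ a in (0:ℝ)..(A * ρ), |a / A| ^ k = (A * ρ) ^ (k + 1) / (k + 1) / A ^ k := by
    have : ∫ a in (0:ℝ)..(A * ρ), |a / A| ^ k = ∫ a in (0:ℝ)..(A * ρ), a ^ k / A ^ k := by
      refine intervalIntegral.integral_congr fun a ha => ?_
      rw [uIcc_of_le hT] at ha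
      show |a / A| ^ k = a ^ k / A ^ k
      rw [abs_of_nonneg (div_nonneg ha.1 hA.le), div_pow]
    rw [this, intervalIntegral.integral_div, integral_pow]
    simp
  rw [e2, e3, ← two_mul, mul_pow, hρk]
  field_simp
  ring

/-- The section formula. -/
theorem section_formula (m : ℕ) : ∃ C : ℝ, 0 < C ∧ ∀ (Φ : EE m → ℝ), Measurable Φ →
    (∀ v, v ≠ 0 → 0 < Φ v) → (∀ (c : ℝ) v, c ≠ 0 → Φ (c • v) = (|c| ^ (m + 2))⁻¹ * Φ v) →
    ∀ θ s : ℝ, Integrable (fun x : ℝ × (Fin m → ℝ) => Φ (pt θ s 1 x)) →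
    (μH[((m + 2 : ℕ) : ℝ)] ({v : EE m | v = 0 ∨ 1 ≤ Φ v} ∩ {x | inner ℝ (uvec m θ s) x = 0}))
      = ENNReal.ofReal (C * √(1 + s ^ 2) * ∫ x : ℝ × (Fin m → ℝ), Φ (pt θ s 1 x)) := by
  obtain ⟨c, hc, hμ⟩ := hausdorff_const (m + 2)
  refine ⟨c * (2 / (m + 2)), by positivity, ?_⟩
  intro Φ hΦ hpos hhom θ s hint
  set K : Set (EE m) := {v : EE m | v = 0 ∨ 1 ≤ Φ v} with hK
  have hKm : MeasurableSet K := by
    have h1 : MeasurableSet {v : EE m | v = 0} := measurableSet_singleton 0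
    have h2 : MeasurableSet {v : EE m | 1 ≤ Φ v} := measurableSet_le measurable_const hΦ
    exact h1.union h2
  set A : ℝ := √(1 + s ^ 2) with hA
  have hA0 : 0 < A := by positivity
  rw [section_eq_image, (iota θ s).isometry.hausdorffMeasure_image (Or.inl (by positivity)), hμ,
    Measure.smul_apply, smul_eq_mul]
  have hS : MeasurableSet (iota θ s ⁻¹' K) := (iota θ s).continuous.measurable hKm
  rw [← (measurePreserving_psi (m := m)).measure_preimage hS.nullMeasurableSet]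
  have hS' : MeasurableSet (psi (m := m) ⁻¹' (iota θ s ⁻¹' K)) :=
    (measurePreserving_psi (m := m)).measurable hS
  rw [Measure.volume_eq_prod, Measure.prod_apply hS']
  set φ : (ℝ × (Fin m → ℝ)) → ℝ := fun x => Φ (pt θ s 1 x) with hφ
  have hne : ∀ (a : ℝ) (x : ℝ × (Fin m → ℝ)), a ≠ 0 → pt θ s a x ≠ 0 := by
    intro a x ha h
    have := congrArg (fun v : EE m => v 2) h
    simp at this
    exact ha this
  have hφpos : ∀ x, 0 < φ x := fun x => hpos _ (hne 1 x one_ne_zero)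
  have hφm : Measurable φ := by
    refine hΦ.comp ?_
    have := continuous_pt (m := m)
    exact (this.comp (by fun_prop : Continuous fun x : ℝ × (Fin m → ℝ) => (θ, s, (1:ℝ), x))).measurable
  -- fibers
  have hfib : ∀ a : ℝ, a ≠ 0 → volume (Prod.mk a ⁻¹' (psi (m := m) ⁻¹' (iota θ s ⁻¹' K)))
      = ENNReal.ofReal (|a / A| ^ (m + 1)) * volume {x : ℝ × (Fin m → ℝ) | |a / A| ^ (m + 2) ≤ φ x} := by
    intro a ha
    have haA : a / A ≠ 0 := div_ne_zero ha hA0.ne'
    have hset : (Prod.mk a ⁻¹' (psi (m := m) ⁻¹' (iota θ s ⁻¹' K)))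
        = (((a / A)⁻¹ • ·) ⁻¹' {x : ℝ × (Fin m → ℝ) | |a / A| ^ (m + 2) ≤ φ x}) := by
      ext x
      simp only [mem_preimage, iota_psi, hK, mem_ofPred_eq]
      have h1 : pt θ s (a / √(1 + s ^ 2)) x = (a / A) • pt θ s 1 ((a / A)⁻¹ • x) := by
        rw [pt_smul, mul_one, smul_smul, mul_inv_cancel₀ haA, one_smul]
      have h0 : pt θ s (a / √(1 + s ^ 2)) x ≠ 0 := hne _ _ haA
      constructor
      · rintro (h | h)
        · exact absurd h h0
        · rw [h1, hhom _ _ haA] at h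
          have hp : 0 < |a / A| ^ (m + 2) := by positivity
          rw [inv_mul_eq_div, le_div_iff₀ hp, one_mul] at h
          exact h
      · intro h
        right
        rw [h1, hhom _ _ haA]
        have hp : 0 < |a / A| ^ (m + 2) := by positivity
        rw [inv_mul_eq_div, le_div_iff₀ hp, one_mul]
        exact h
    rw [hset, addHaar_preimage_smul _ (inv_ne_zero haA)]
    congr 2
    simp only [Module.finrank_prod, Module.finrank_self, Module.finrank_pi, Fintype.card_fin]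
    rw [inv_pow, inv_inv, abs_pow, add_comm 1 m]
  have h1 : ∫⁻ a : ℝ, volume (Prod.mk a ⁻¹' (psi (m := m) ⁻¹' (iota θ s ⁻¹' K)))
      = ∫⁻ a : ℝ, ∫⁻ x : ℝ × (Fin m → ℝ), ENNReal.ofReal (|a / A| ^ (m + 1)) *
        ({a : ℝ | |a / A| ^ (m + 1 + 1) ≤ φ x}.indicator 1 a) := by
    refine lintegral_congr_ae ?_
    have hae : ∀ᵐ a : ℝ, a ≠ 0 := by
      simp [ae_iff, measure_singleton]
    filter_upwards [hae] with a ha
    rw [hfib a ha, lintegral_const_mul]
    · congr 1
      have : ∀ x, ({a : ℝ | |a / A| ^ (m + 1 + 1) ≤ φ x}.indicator (1 : ℝ → ENNReal) a)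
          = ({x : ℝ × (Fin m → ℝ) | |a / A| ^ (m + 2) ≤ φ x}.indicator (fun _ => (1 : ENNReal)) x) := by
        intro x
        by_cases h : |a / A| ^ (m + 2) ≤ φ x
        · rw [indicator_of_mem (by exact h), indicator_of_mem (by exact h)]; rfl
        · rw [indicator_of_notMem (by exact h), indicator_of_notMem (by exact h)]
      simp_rw [this]
      rw [lintegral_indicator (measurableSet_le measurable_const hφm)]
      simp
    · have : ∀ x, ({a : ℝ | |a / A| ^ (m + 1 + 1) ≤ φ x}.indicator (1 : ℝ → ENNReal) a)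
          = ({x : ℝ × (Fin m → ℝ) | |a / A| ^ (m + 2) ≤ φ x}.indicator (fun _ => (1 : ENNReal)) x) := by
        intro x
        by_cases h : |a / A| ^ (m + 2) ≤ φ x
        · rw [indicator_of_mem (by exact h), indicator_of_mem (by exact h)]; rfl
        · rw [indicator_of_notMem (by exact h), indicator_of_notMem (by exact h)]
      simp_rw [this]
      exact measurable_const.indicator (measurableSet_le measurable_const hφm)
  rw [h1, lintegral_lintegral_swap]
  · have h2 : ∀ x : ℝ × (Fin m → ℝ), ∫⁻ a : ℝ, ENNReal.ofReal (|a / A| ^ (m + 1)) *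
        ({a : ℝ | |a / A| ^ (m + 1 + 1) ≤ φ x}.indicator 1 a)
        = ENNReal.ofReal (A * (2 / ((m + 1 : ℕ) + 1)) * φ x) := fun x =>
      inner_lint hA0 (m + 1) (hφpos x).le
    simp_rw [h2]
    rw [← ofReal_integral_eq_lintegral_ofReal (hint.const_mul _)
      (Eventually.of_forall fun x => by have := (hφpos x).le; positivity),
      ← ENNReal.ofReal_mul hc.le, integral_const_mul]
    congr 1
    push_cast
    ring
  · refine Measurable.aemeasurable ?_
    have hm1 : Measurable (fun z : ℝ × (ℝ × (Fin m → ℝ)) => ENNReal.ofReal (|z.1 / A| ^ (m + 1))) := by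
      refine ENNReal.measurable_ofReal.comp ?_
      fun_prop
    refine hm1.mul ?_
    have hset : MeasurableSet {z : ℝ × (ℝ × (Fin m → ℝ)) | |z.1 / A| ^ (m + 1 + 1) ≤ φ z.2} :=
      measurableSet_le (by fun_prop) (hφm.comp measurable_snd)
    have : (fun z : ℝ × (ℝ × (Fin m → ℝ)) =>
        ({a : ℝ | |a / A| ^ (m + 1 + 1) ≤ φ z.2}.indicator (1 : ℝ → ENNReal) z.1))
        = {z : ℝ × (ℝ × (Fin m → ℝ)) | |z.1 / A| ^ (m + 1 + 1) ≤ φ z.2}.indicator (fun _ => 1) := by
      funext z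
      by_cases h : |z.1 / A| ^ (m + 1 + 1) ≤ φ z.2
      · rw [indicator_of_mem (by exact h), indicator_of_mem (by exact h)]; rfl
      · rw [indicator_of_notMem (by exact h), indicator_of_notMem (by exact h)]
    show Measurable (fun z : ℝ × (ℝ × (Fin m → ℝ)) =>
        ({a : ℝ | |a / A| ^ (m + 1 + 1) ≤ φ z.2}.indicator (1 : ℝ → ENNReal) z.1))
    rw [this]
    exact measurable_const.indicator hset

end IB
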