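import Mathlib
import Pool.Agent.Helper689.IBKer

set_option autoImplicit false

open MeasureTheory Set Filter Topology Real

namespace IB

lemma circ_nonneg {δ : ℝ} (hδ : 0 < δ) (p q : ℝ) :
    0 ≤ ∫ θ in (0:ℝ)..(2 * π), ker δ (p * cos θ + q * sin θ) := by
  set X : ℝ → ℝ := fun θ => p * cos θ + q * sin θ with hX
  set Y : ℝ → ℝ := fun θ => -(p * sin θ) + q * cos θ with hY
  set D : ℝ → ℝ := fun θ => δ ^ 2 + X θ ^ 2 with hD
  set ρ2 : ℝ := p ^ 2 + q ^ 2 with hρ
  have hDpos : ∀ θ, 0 < D θ := fun θ => den_pos hδ _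
  have hXY : ∀ θ, X θ ^ 2 + Y θ ^ 2 = ρ2 := by
    intro θ
    simp only [hX, hY, hρ]
    have := Real.sin_sq_add_cos_sq θ
    linear_combination (p ^ 2 + q ^ 2) * this
  have hXd : ∀ θ, HasDerivAt X (Y θ) θ := by
    intro θ
    have h := ((Real.hasDerivAt_cos θ).const_mul p).add ((Real.hasDerivAt_sin θ).const_mul q)
    refine h.congr_deriv ?_
    simp only [hY]; ring
  have hYd : ∀ θ, HasDerivAt Y (-(X θ)) θ := by
    intro θ
    have h := ((Real.hasDerivAt_sin θ).const_mul p).neg.add ((Real.hasDerivAt_cos θ).const_mul q)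
    refine h.congr_deriv ?_
    simp only [hX]; ring
  have hXc : Continuous X := by fun_prop
  have hDc : Continuous D := by fun_prop
  set W : ℝ → ℝ := fun θ => X θ * Y θ / D θ with hW
  set W' : ℝ → ℝ := fun θ => (ρ2 * δ ^ 2 - (ρ2 + 2 * δ ^ 2) * X θ ^ 2) / D θ ^ 2 with hW'
  have hWd : ∀ θ, HasDerivAt W (W' θ) θ := by
    intro θ
    have h1 := (hXd θ).mul (hYd θ)
    have h2 : HasDerivAt D (2 * X θ * Y θ) θ := by
      have := ((hXd θ).fun_pow 2).const_add (δ ^ 2)
      refine this.congr_deriv ?_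
      simp
    have h3 := h1.div h2 (hDpos θ).ne'
    refine h3.congr_deriv ?_
    simp only [hW']
    congr 1
    simp only [hD, Pi.mul_apply]
    have e : Y θ ^ 2 = ρ2 - X θ ^ 2 := by linarith [hXY θ]
    have e2 : (Y θ * Y θ + X θ * -X θ) * (δ ^ 2 + X θ ^ 2) - X θ * Y θ * (2 * X θ * Y θ)
      = (Y θ ^ 2 - X θ ^ 2) * (δ ^ 2 + X θ ^ 2) - 2 * X θ ^ 2 * Y θ ^ 2 := by ring
    rw [e2, e]; ring
  have hW'c : Continuous W' := by
    refine Continuous.div (by fun_prop) (by fun_prop) (fun θ => (pow_pos (hDpos θ) 2).ne')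
  have hWint : ∫ θ in (0:ℝ)..(2 * π), W' θ = 0 := by
    rw [intervalIntegral.integral_eq_sub_of_hasDerivAt (fun θ _ => hWd θ)
      (hW'c.intervalIntegrable _ _)]
    simp [hW, hX, hY, hD]
  have hb : 0 < ρ2 + δ ^ 2 := by positivity
  have key : ∀ θ, ker δ (X θ) = (δ ^ 2 / (ρ2 + δ ^ 2)) * (D θ)⁻¹ + (1 / (ρ2 + δ ^ 2)) * W' θ := by
    intro θ
    have h1 := (hDpos θ).ne'
    have h1' : δ ^ 2 + X θ ^ 2 ≠ 0 := h1
    simp only [ker, hW', hD]
    field_simp
    ring
  have hDinv : Continuous (fun θ => (D θ)⁻¹) := hDc.inv₀ (fun θ => (hDpos θ).ne')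
  calc (0:ℝ) ≤ (δ ^ 2 / (ρ2 + δ ^ 2)) * ∫ θ in (0:ℝ)..(2 * π), (D θ)⁻¹ := by
        refine mul_nonneg (by positivity) ?_
        exact intervalIntegral.integral_nonneg (by positivity) (fun θ _ => (inv_pos.2 (hDpos θ)).le)
    _ = ∫ θ in (0:ℝ)..(2 * π), ker δ (X θ) := by
        simp_rw [key]
        rw [intervalIntegral.integral_add
          ((hDinv.intervalIntegrable _ _).const_mul _) ((hW'c.intervalIntegrable _ _).const_mul _),
          intervalIntegral.integral_const_mul, intervalIntegral.integral_const_mul, hWint]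
        ring

lemma inner_eq {δ : ℝ} (hδ : 0 < δ) (X r : ℝ) :
    ∫ s, ker2 δ s * |X - s * r| = if r = 0 then 0 else 2 * |r| * ker δ (X / r) := by
  split_ifs with hr
  · subst hr
    simp only [mul_zero, sub_zero]
    rw [integral_mul_const, integral_ker2_zero hδ, zero_mul]
  · have h1 : ∀ s : ℝ, ker2 δ s * |X - s * r| = |r| * (ker2 δ s * |s - X / r|) := by
      intro s
      have : |X - s * r| = |r| * |s - X / r| := by
        rw [← abs_mul, ← abs_neg]
        congr 1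
        field_simp
        ring
      rw [this]; ring
    simp_rw [h1]
    rw [integral_const_mul, integral_ker2_abs hδ]
    ring

lemma point_nonneg {δ : ℝ} (hδ : 0 < δ) (p q r : ℝ) :
    0 ≤ ∫ θ in (0:ℝ)..(2 * π), ∫ s, ker2 δ s * |p * cos θ + q * sin θ - s * r| := by
  simp_rw [inner_eq hδ]
  split_ifs with hr
  · simp
  · rw [intervalIntegral.integral_const_mul]
    refine mul_nonneg (by positivity) ?_
    have := circ_nonneg hδ (p / r) (q / r)
    refine this.trans_eq ?_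
    congr 1
    ext θ
    congr 1
    ring

/-- The test inequality for a finite measure. -/
lemma test_nonneg {Ω : Type*} [MeasurableSpace Ω] (μ : Measure Ω) [IsFiniteMeasure μ]
    {p q r : Ω → ℝ} (hp : Measurable p) (hq : Measurable q) (hr : Measurable r)
    {B : ℝ} (hB : ∀ᵐ ω ∂μ, |p ω| ≤ B ∧ |q ω| ≤ B ∧ |r ω| ≤ B) {δ : ℝ} (hδ : 0 < δ) :
    0 ≤ ∫ s, ker2 δ s * ∫ θ in (0:ℝ)..(2 * π), ∫ ω, |p ω * cos θ + q ω * sin θ - s * r ω| ∂μ := by
  set f : ℝ → ℝ × Ω → ℝ := fun s z => |p z.2 * cos z.1 + q z.2 * sin z.1 - s * r z.2| with hf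
  set vθ : Measure ℝ := volume.restrict (Ioc 0 (2 * π)) with hvθ
  have hfm : Measurable (fun z : ℝ × (ℝ × Ω) => ker2 δ z.1 * f z.1 z.2) := by
    have := (continuous_ker2 hδ).measurable
    simp only [hf]
    fun_prop
  have hB0 : ∀ᵐ z ∂(vθ.prod μ), |p z.2| ≤ B ∧ |q z.2| ≤ B ∧ |r z.2| ≤ B := by
    exact (Measure.quasiMeasurePreserving_snd (μ := vθ) (ν := μ)).ae hB
  have hbd : ∀ᵐ z ∂((volume : Measure ℝ).prod (vθ.prod μ)), |p z.2.2| ≤ B ∧ |q z.2.2| ≤ B ∧ |r z.2.2| ≤ B := by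
    exact (Measure.quasiMeasurePreserving_snd (μ := (volume : Measure ℝ)) (ν := vθ.prod μ)).ae hB0
  have hbase : ∀ (s θ : ℝ) (P Q R : ℝ), |P| ≤ B → |Q| ≤ B → |R| ≤ B →
      |P * cos θ + Q * sin θ - s * R| ≤ B * (3 * (1 + s ^ 2)) := by
    intro s θ P Q R h1 h2 h3
    have hB' : 0 ≤ B := (abs_nonneg P).trans h1
    have c1 : |P * cos θ| ≤ B * 1 := by
      rw [abs_mul]; gcongr; exact abs_cos_le_one θ
    have c2 : |Q * sin θ| ≤ B * 1 := by
      rw [abs_mul]; gcongr; exact abs_sin_le_one θ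
    have c3 : |s * R| ≤ |s| * B := by
      rw [abs_mul]; gcongr
    have c4 : |s| ≤ 1 + s ^ 2 := by nlinarith [sq_nonneg (|s| - 1), sq_abs s, abs_nonneg s]
    calc |P * cos θ + Q * sin θ - s * R| ≤ |P * cos θ + Q * sin θ| + |s * R| := abs_sub _ _
      _ ≤ |P * cos θ| + |Q * sin θ| + |s * R| := by gcongr; exact abs_add_le _ _
      _ ≤ B * 1 + B * 1 + |s| * B := by gcongr
      _ ≤ B * (3 * (1 + s ^ 2)) := by nlinarith [mul_nonneg hB' (sq_nonneg s), mul_le_mul_of_nonneg_left c4 hB']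
  have hint : Integrable (fun z : ℝ × (ℝ × Ω) => ker2 δ z.1 * f z.1 z.2)
      ((volume : Measure ℝ).prod (vθ.prod μ)) := by
    have h1 : Integrable (fun s => ker2 δ s * (3 * (1 + s ^ 2))) :=
      integrable_ker2_mul hδ (C := 3) (by fun_prop) (fun s => by
        rw [abs_of_nonneg (by positivity)])
    have h2 : Integrable (fun _ : ℝ × Ω => |B|) (vθ.prod μ) := integrable_const _
    have h3 := h1.mul_prod h2
    refine h3.mono hfm.aestronglyMeasurable ?_
    filter_upwards [hbd] with z hz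
    have hB' : 0 ≤ B := (abs_nonneg _).trans hz.1
    rw [norm_mul, norm_mul, norm_mul, Real.norm_eq_abs, Real.norm_eq_abs, Real.norm_eq_abs,
      Real.norm_eq_abs, mul_assoc]
    gcongr
    simp only [hf]
    rw [abs_abs, abs_abs, abs_of_nonneg hB', abs_of_nonneg (by positivity : (0:ℝ) ≤ 3 * (1 + z.1 ^ 2)),
      mul_comm (3 * (1 + z.1 ^ 2))]
    exact hbase _ _ _ _ _ hz.1 hz.2.1 hz.2.2
  have hintf : ∀ s, Integrable (f s) (vθ.prod μ) := by
    intro s
    refine Integrable.mono' (integrable_const (B * (3 * (1 + s ^ 2)))) ?_ ?_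
    · refine Measurable.aestronglyMeasurable ?_
      simp only [hf]; fun_prop
    · filter_upwards [hB0] with z hz
      simp only [hf, Real.norm_eq_abs, abs_abs]
      exact hbase _ _ _ _ _ hz.1 hz.2.1 hz.2.2
  have e1 : ∀ s, ker2 δ s * ∫ θ in (0:ℝ)..(2 * π), ∫ ω, |p ω * cos θ + q ω * sin θ - s * r ω| ∂μ
      = ∫ z, ker2 δ s * f s z ∂(vθ.prod μ) := by
    intro s
    rw [integral_const_mul, intervalIntegral.integral_of_le (by positivity),
      integral_prod _ (hintf s)]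
  simp_rw [e1]
  rw [integral_integral_swap (f := fun s z => ker2 δ s * f s z) hint]
  have hint2 : Integrable (fun z : ℝ × Ω => ∫ s, ker2 δ s * f s z) (vθ.prod μ) :=
    hint.integral_prod_right
  rw [integral_prod_symm _ hint2]
  refine integral_nonneg fun ω => ?_
  have := point_nonneg hδ (p ω) (q ω) (r ω)
  rw [intervalIntegral.integral_of_le (by positivity)] at this
  exact this

end IB
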