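import Mathlib
import Pool.Agent.Helper689.IBExist
import Pool.Agent.Helper689.IBSec
import Pool.Agent.Helper689.IBTest

set_option autoImplicit false

open MeasureTheory Measure Set Filter Topology Metric Real
open scoped Pointwise

namespace IB

section
variable {m : ℕ} {ι : Type*} [Fintype ι]

lemma Fint_meas (p : ℕ) (ε : ℝ) (f : ι → EE m) (τ : ℝ) :
    StronglyMeasurable (fun z : ℝ × ℝ => Fint p ε f τ z.2 z.1) := by
  have h1 : Measurable (fun z : (ℝ × ℝ) × (ℝ × (Fin m → ℝ)) => Phi p ε f τ (pt z.1.2 z.1.1 1 z.2)) := by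
    refine (measurable_Phi p ε f τ).comp ?_
    exact ((continuous_pt (m := m)).comp (by fun_prop : Continuous
      fun z : (ℝ × ℝ) × (ℝ × (Fin m → ℝ)) => (z.1.2, z.1.1, (1:ℝ), z.2))).measurable
  exact h1.stronglyMeasurable.integral_prod_right

lemma Finv_bound {p : ℕ} (hp : 1 ≤ p) {ε : ℝ} (hε : 0 < ε) (f : ι → EE m) {τ : ℝ}
    (hτ : |τ| * (CQ p ε f) ^ (kap m p) ≤ 1 / 2) :
    ∃ c : ℝ, 0 < c ∧ ∀ θ s, 0 < Fint p ε f τ θ s ∧ (Fint p ε f τ θ s)⁻¹ ≤ c * (1 + s ^ 2) := by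
  obtain ⟨c1, hc1, hlow⟩ := Fint_lower hp hε f hτ
  refine ⟨c1⁻¹, by positivity, fun θ s => ?_⟩
  have h1 := hlow θ s
  have h2 : (1 + s ^ 2)⁻¹ ≤ (1 + s ^ 2) ^ (-(1:ℝ) / 2) := by
    rw [← rpow_neg_one]
    refine rpow_le_rpow_of_exponent_le (by nlinarith [sq_nonneg s]) (by norm_num)
  have h3 : c1 * (1 + s ^ 2)⁻¹ ≤ Fint p ε f τ θ s := le_trans (by gcongr) h1
  have h4 : 0 < c1 * (1 + s ^ 2)⁻¹ := by positivity
  refine ⟨h4.trans_le h3, ?_⟩
  calc (Fint p ε f τ θ s)⁻¹ ≤ (c1 * (1 + s ^ 2)⁻¹)⁻¹ := inv_anti₀ h4 h3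
    _ = _ := by rw [mul_inv, inv_inv]

/-- The cosine transform of the measure, in the chart. -/
noncomputable def Nf (μ : Measure (EE m)) (θ s : ℝ) : ℝ := ∫ v, |inner ℝ (uvec m θ s) v| ∂μ

lemma Nf_eq (μ : Measure (EE m)) (θ s : ℝ) :
    Nf μ θ s = ∫ v : EE m, |v 0 * cos θ + v 1 * sin θ - s * v 2| ∂μ := by
  unfold Nf
  simp only [inner_uvec]

lemma Nf_meas (μ : Measure (EE m)) [IsFiniteMeasure μ] :
    StronglyMeasurable (fun z : ℝ × ℝ => Nf μ z.2 z.1) := by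
  have h1 : Measurable (fun z : (ℝ × ℝ) × EE m => |z.2 0 * cos z.1.2 + z.2 1 * sin z.1.2 - z.1.1 * z.2 2|) := by
    refine Continuous.measurable ?_
    fun_prop
  have h2 := h1.stronglyMeasurable.integral_prod_right' (ν := μ)
  simp only [Nf_eq]
  exact h2

lemma Nf_nonneg (μ : Measure (EE m)) (θ s : ℝ) : 0 ≤ Nf μ θ s :=
  integral_nonneg fun _ => abs_nonneg _

lemma section_meas {N : ℝ → ℝ → ℝ} (h : StronglyMeasurable (fun z : ℝ × ℝ => N z.2 z.1)) (s : ℝ) :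
    Measurable (fun θ => N θ s) := by
  have := h.measurable.comp (measurable_prodMk_left (x := s))
  exact this

attribute [local irreducible] Fint Nf

/-- The defining relation of a bad set. -/
def IsBad (K : Set (EE m)) : Prop :=
  ∃ μ : Measure (EE m), IsFiniteMeasure μ ∧ μ (Metric.sphere (0 : EE m) 1)ᶜ = 0 ∧
    ∀ u : EE m, ‖u‖ = 1 →
      (μH[((m + 2 : ℕ) : ℝ)] (K ∩ {x | inner ℝ u x = 0})).toReal * (∫ v, |inner ℝ u v| ∂μ) = 1

lemma smul_section {K K' : Set (EE m)} {c : ℝ} (hc : 0 < c) (u : EE m)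
    (h : ∀ x ∈ K, c • x ∈ K') : ENNReal.ofReal (c ^ (m + 2)) * μH[((m + 2 : ℕ) : ℝ)] (K ∩ {x | inner ℝ u x = 0})
      ≤ μH[((m + 2 : ℕ) : ℝ)] (K' ∩ {x | inner ℝ u x = 0}) := by
  have h1 : c • (K ∩ {x | inner ℝ u x = 0}) ⊆ K' ∩ {x | inner ℝ u x = 0} := by
    rintro _ ⟨x, ⟨hx1, hx2⟩, rfl⟩
    refine ⟨h x hx1, ?_⟩
    show inner ℝ u (c • x) = 0
    rw [inner_smul_right]
    have : inner ℝ u x = 0 := hx2
    rw [this, mul_zero]
  refine le_trans (le_of_eq ?_) (measure_mono h1)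
  rw [hausdorffMeasure_smul₀ (by positivity) hc.ne']
  rw [ENNReal.smul_def, smul_eq_mul]
  congr 1
  rw [NNReal.rpow_natCast, ENNReal.coe_pow, ENNReal.ofReal_pow hc.le]
  congr 1
  rw [Real.nnnorm_of_nonneg hc.le, ENNReal.ofReal_eq_coe_nnreal hc.le]

lemma N_bounds {p : ℕ} (hp : 1 ≤ p) {ε : ℝ} (hε : 0 < ε) (f : ι → EE m) {τ : ℝ}
    (hτ : |τ| * (CQ p ε f) ^ (kap m p) ≤ 1 / 2) {C : ℝ} (hC : 0 < C)
    (hsec : ∀ (Φ : EE m → ℝ), Measurable Φ →
    (∀ v, v ≠ 0 → 0 < Φ v) → (∀ (c : ℝ) v, c ≠ 0 → Φ (c • v) = (|c| ^ (m + 2))⁻¹ * Φ v) →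
    ∀ θ s : ℝ, Integrable (fun x : ℝ × (Fin m → ℝ) => Φ (pt θ s 1 x)) →
    (μH[((m + 2 : ℕ) : ℝ)] ({v : EE m | v = 0 ∨ 1 ≤ Φ v} ∩ {x | inner ℝ (uvec m θ s) x = 0}))
      = ENNReal.ofReal (C * √(1 + s ^ 2) * ∫ x : ℝ × (Fin m → ℝ), Φ (pt θ s 1 x)))
    (hF0 : ∀ θ s, 0 < Fint p ε f τ θ s) {η : ℝ} (hη0 : 0 < η) (hη1 : η < 1) {K' : Set (EE m)}
    (hin : ∀ x ∈ Kset p ε f τ, (1 - η) • x ∈ K')
    (hout : ∀ x ∈ K', ∃ k ∈ Kset p ε f τ, x = (1 + η) • k) {μ : Measure (EE m)}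
    (hrel : ∀ u : EE m, ‖u‖ = 1 →
      (μH[((m + 2 : ℕ) : ℝ)] (K' ∩ {x | inner ℝ u x = 0})).toReal * (∫ v, |inner ℝ u v| ∂μ) = 1)
    (θ s : ℝ) :
    ((1 + η) ^ (m + 2))⁻¹ * (C⁻¹ * (Fint p ε f τ θ s)⁻¹) ≤ Nf μ θ s ∧
      Nf μ θ s ≤ ((1 - η) ^ (m + 2))⁻¹ * (C⁻¹ * (Fint p ε f τ θ s)⁻¹) := by
  unfold Nf
  have ha : 0 < 1 - η := by linarith
  have hb : 0 < 1 + η := by linarith
  set N : ℝ := ∫ v, |inner ℝ (uvec m θ s) v| ∂μ with hN
  set A : ℝ := √(1 + s ^ 2) with hA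
  have hA0 : 0 < A := by positivity
  have hFp := hF0 θ s
  have hu : ‖A⁻¹ • uvec m θ s‖ = 1 := by
    have h1 : ‖uvec m θ s‖ = A := by
      rw [← Real.sqrt_sq (norm_nonneg (uvec m θ s)), norm_sq_uvec]
    rw [norm_smul, norm_inv, Real.norm_eq_abs, abs_of_pos hA0, h1, inv_mul_cancel₀ hA0.ne']
  have hrel1 := hrel _ hu
  have hset : {x : EE m | inner ℝ (A⁻¹ • uvec m θ s) x = 0} = {x | inner ℝ (uvec m θ s) x = 0} := by
    ext x
    simp only [mem_ofPred_eq, inner_smul_left]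
    constructor
    · intro h
      rcases mul_eq_zero.1 h with h | h
      · exact absurd h (by simpa using hA0.ne')
      · exact h
    · intro h; rw [h, mul_zero]
  have hintN : ∫ v, |inner ℝ (A⁻¹ • uvec m θ s) v| ∂μ = A⁻¹ * N := by
    simp only [hN]
    rw [← integral_const_mul]
    refine integral_congr_ae (Eventually.of_forall fun v => ?_)
    simp only [inner_smul_left, abs_mul]
    congr 1
    simp [abs_of_pos hA0]
  rw [hset, hintN] at hrel1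
  set S' : ENNReal := μH[((m + 2 : ℕ) : ℝ)] (K' ∩ {x | inner ℝ (uvec m θ s) x = 0}) with hS'
  set S : ENNReal := μH[((m + 2 : ℕ) : ℝ)] (Kset p ε f τ ∩ {x | inner ℝ (uvec m θ s) x = 0}) with hS
  have hSval : S = ENNReal.ofReal (C * A * Fint p ε f τ θ s) := by
    unfold Fint
    refine hsec (Phi p ε f τ) (measurable_Phi p ε f τ) ?_ ?_ θ s (Fint_eq hp hε f τ θ s).1
    · intro v hv
      obtain ⟨cc, CC, hcc, hCC, hbd⟩ := Phi_norm_bounds hp hε f hτ
      have hn : 0 < ‖v‖ ^ 2 := by have := norm_pos_iff.2 hv; positivity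
      have := rpow_pos_of_pos hn (-((m + 2 : ℝ) / 2))
      exact lt_of_lt_of_le (by positivity) (hbd v hv).1
    · intro c v hc
      exact Phi_smul hp hε f τ hc v
  have hSv0 : 0 < C * A * Fint p ε f τ θ s := by positivity
  have hStop : S ≠ ⊤ := by rw [hSval]; exact ENNReal.ofReal_ne_top
  have hSr : S.toReal = C * A * Fint p ε f τ θ s := by
    rw [hSval, ENNReal.toReal_ofReal hSv0.le]
  have h1 : ENNReal.ofReal ((1 - η) ^ (m + 2)) * S ≤ S' := smul_section ha _ hin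
  have h2 : ENNReal.ofReal ((1 + η)⁻¹ ^ (m + 2)) * S' ≤ S := by
    refine smul_section (inv_pos.2 hb) _ ?_
    intro x hx
    obtain ⟨k, hk, rfl⟩ := hout x hx
    rw [smul_smul, inv_mul_cancel₀ hb.ne', one_smul]
    exact hk
  have hS'top : S' ≠ ⊤ := by
    intro h
    rw [h, ENNReal.mul_top] at h2
    · exact hStop (top_le_iff.1 h2)
    · simp only [ne_eq, ENNReal.ofReal_eq_zero, not_le]; positivity
  have h1r : (1 - η) ^ (m + 2) * S.toReal ≤ S'.toReal := by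
    have := ENNReal.toReal_mono hS'top h1
    rwa [ENNReal.toReal_mul, ENNReal.toReal_ofReal (by positivity)] at this
  have h2r : (1 + η)⁻¹ ^ (m + 2) * S'.toReal ≤ S.toReal := by
    have := ENNReal.toReal_mono hStop h2
    rwa [ENNReal.toReal_mul, ENNReal.toReal_ofReal (by positivity)] at this
  rw [hSr] at h1r h2r
  have hS'0 : 0 < S'.toReal := lt_of_lt_of_le (by positivity) h1r
  have hNval : N = A / S'.toReal := by
    field_simp
    have : S'.toReal * (A⁻¹ * N) = 1 := hrel1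
    field_simp at this
    linarith
  rw [hNval]
  constructor
  · rw [le_div_iff₀ hS'0]
    have h3 : S'.toReal ≤ (1 + η) ^ (m + 2) * (C * A * Fint p ε f τ θ s) := by
      rw [inv_pow, inv_mul_le_iff₀ (by positivity)] at h2r
      exact h2r
    calc ((1 + η) ^ (m + 2))⁻¹ * (C⁻¹ * (Fint p ε f τ θ s)⁻¹) * S'.toReal
        ≤ ((1 + η) ^ (m + 2))⁻¹ * (C⁻¹ * (Fint p ε f τ θ s)⁻¹)
          * ((1 + η) ^ (m + 2) * (C * A * Fint p ε f τ θ s)) := by gcongr
      _ = A := by field_simp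
  · rw [div_le_iff₀ hS'0]
    calc A = ((1 - η) ^ (m + 2))⁻¹ * (C⁻¹ * (Fint p ε f τ θ s)⁻¹)
          * ((1 - η) ^ (m + 2) * (C * A * Fint p ε f τ θ s)) := by field_simp
      _ ≤ ((1 - η) ^ (m + 2))⁻¹ * (C⁻¹ * (Fint p ε f τ θ s)⁻¹) * S'.toReal := by gcongr

theorem not_bad {p : ℕ} (hp : 1 ≤ p) {ε : ℝ} (hε : 0 < ε) (f : ι → EE m) {τ : ℝ}
    (hτ : |τ| * (CQ p ε f) ^ (kap m p) ≤ 1 / 2) {δ : ℝ} (hδ : 0 < δ)
    (hneg : ∫ s, ker2 δ s * ∫ θ in (0:ℝ)..(2 * π), (Fint p ε f τ θ s)⁻¹ < 0) :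
    ∃ η : ℝ, 0 < η ∧ η < 1 ∧ ∀ K' : Set (EE m), (∀ x ∈ Kset p ε f τ, (1 - η) • x ∈ K') →
      (∀ x ∈ K', ∃ k ∈ Kset p ε f τ, x = (1 + η) • k) → ¬ IsBad K' := by
  obtain ⟨C, hC, hsec⟩ := section_formula m
  obtain ⟨c, hc, hF⟩ := Finv_bound hp hε f hτ
  set G : ℝ → ℝ := fun s => ∫ θ in (0:ℝ)..(2 * π), (Fint p ε f τ θ s)⁻¹ with hG
  have hFm := Fint_meas p ε f τ
  have hFi : ∀ s, IntervalIntegrable (fun θ => (Fint p ε f τ θ s)⁻¹) volume 0 (2 * π) := by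
    intro s
    rw [intervalIntegrable_iff_integrableOn_Ioc_of_le (by positivity)]
    refine Integrable.mono' (g := fun _ => c * (1 + s ^ 2)) (integrable_const _) ?_ ?_
    · exact (section_meas hFm s).inv.aestronglyMeasurable
    · refine Eventually.of_forall fun θ => ?_
      rw [Real.norm_eq_abs, abs_of_pos (inv_pos.2 (hF θ s).1)]
      exact (hF θ s).2
  have hG0 : ∀ s, 0 ≤ G s := fun s =>
    intervalIntegral.integral_nonneg (by positivity) (fun θ _ => (inv_pos.2 (hF θ s).1).le)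
  have hGb : ∀ s, |G s| ≤ (c * (2 * π)) * (1 + s ^ 2) := by
    intro s
    rw [abs_of_nonneg (hG0 s)]
    calc G s ≤ ∫ _θ in (0:ℝ)..(2 * π), c * (1 + s ^ 2) :=
          intervalIntegral.integral_mono_on (by positivity) (hFi s) (by simp) (fun θ _ => (hF θ s).2)
      _ = _ := by rw [intervalIntegral.integral_const, smul_eq_mul]; ring
  have hGm : AEStronglyMeasurable G volume := by
    have h3 : Measurable (fun z : ℝ × ℝ => (Fint p ε f τ z.2 z.1)⁻¹) := hFm.measurable.inv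
    have h4 : StronglyMeasurable (fun s => ∫ θ, (Fint p ε f τ θ s)⁻¹ ∂(volume.restrict (Ioc 0 (2 * π)))) :=
      h3.stronglyMeasurable.integral_prod_right
    have h5 : G = fun s => ∫ θ, (Fint p ε f τ θ s)⁻¹ ∂(volume.restrict (Ioc 0 (2 * π))) := by
      funext s
      simp only [hG]
      rw [intervalIntegral.integral_of_le (by positivity)]
    rw [h5]
    exact h4.aestronglyMeasurable
  have hKG : Integrable (fun s => ker2 δ s * G s) := integrable_ker2_mul hδ hGm hGb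
  have hKGa : Integrable (fun s => |ker2 δ s| * G s) := by
    refine hKG.norm.congr (Eventually.of_forall fun s => ?_)
    simp only [norm_mul, Real.norm_eq_abs, abs_of_nonneg (hG0 s)]
  set Z : ℝ := ∫ s, |ker2 δ s| * G s with hZ
  have hZ0 : 0 ≤ Z := integral_nonneg fun s => mul_nonneg (abs_nonneg _) (hG0 s)
  -- choose η
  set e : ℝ → ℝ := fun η => (((1 - η) ^ (m + 2))⁻¹ - 1) + (1 - ((1 + η) ^ (m + 2))⁻¹) with he
  obtain ⟨η, hη0, hη1, hηe⟩ : ∃ η : ℝ, 0 < η ∧ η < 1 ∧ e η * Z < -∫ s, ker2 δ s * G s := by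
    have hcont : ContinuousAt (fun η => e η * Z) 0 := by
      simp only [he]
      have h1 : ContinuousAt (fun η : ℝ => ((1 - η) ^ (m + 2))⁻¹) 0 := by
        refine ContinuousAt.inv₀ (by fun_prop) (by simp)
      have h2 : ContinuousAt (fun η : ℝ => ((1 + η) ^ (m + 2))⁻¹) 0 := by
        refine ContinuousAt.inv₀ (by fun_prop) (by simp)
      exact ((h1.sub continuousAt_const).add (continuousAt_const.sub h2)).mul continuousAt_const
    have h0 : e 0 * Z < -∫ s, ker2 δ s * G s := by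
      simp only [he]; simp; exact hneg
    have hev := hcont.eventually_lt continuousAt_const h0
    have hev2 : ∀ᶠ η : ℝ in 𝓝[>] 0, e η * Z < -∫ s, ker2 δ s * G s := nhdsWithin_le_nhds hev
    have hev3 : ∀ᶠ η : ℝ in 𝓝[>] 0, η < 1 := by
      refine nhdsWithin_le_nhds ?_
      exact gt_mem_nhds one_pos
    obtain ⟨η, h1, h2, h3⟩ := (hev2.and (hev3.and self_mem_nhdsWithin)).exists
    exact ⟨η, h3, h2, h1⟩
  refine ⟨η, hη0, hη1, ?_⟩
  rintro K' hin hout ⟨μ, hμ, hsph, hrel⟩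
  have := hμ
  set N : ℝ → ℝ → ℝ := Nf μ with hN
  have ha : 0 < 1 - η := by linarith
  have hb : 0 < 1 + η := by linarith
  have hNb : ∀ θ s, ((1 + η) ^ (m + 2))⁻¹ * (C⁻¹ * (Fint p ε f τ θ s)⁻¹) ≤ N θ s ∧
      N θ s ≤ ((1 - η) ^ (m + 2))⁻¹ * (C⁻¹ * (Fint p ε f τ θ s)⁻¹) := fun θ s =>
    N_bounds hp hε f hτ hC hsec (fun θ s => (hF θ s).1) hη0 hη1 hin hout hrel θ s
  -- measurability of N
  have hNm : StronglyMeasurable (fun z : ℝ × ℝ => N z.2 z.1) := Nf_meas μ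
  have hNpos : ∀ θ s, 0 ≤ N θ s := Nf_nonneg μ
  have hNi : ∀ s, IntervalIntegrable (fun θ => N θ s) volume 0 (2 * π) := by
    intro s
    rw [intervalIntegrable_iff_integrableOn_Ioc_of_le (by positivity)]
    refine Integrable.mono' (g := fun _ => ((1 - η) ^ (m + 2))⁻¹ * (C⁻¹ * (c * (1 + s ^ 2)))) (integrable_const _) ?_ ?_
    · exact (section_meas hNm s).aestronglyMeasurable
    · refine Eventually.of_forall fun θ => ?_
      rw [Real.norm_eq_abs, abs_of_nonneg (hNpos θ s)]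
      refine (hNb θ s).2.trans ?_
      have := (hF θ s).2
      gcongr
  set I' : ℝ → ℝ := fun s => ∫ θ in (0:ℝ)..(2 * π), N θ s with hI'
  have hI'up : ∀ s, I' s ≤ ((1 - η) ^ (m + 2))⁻¹ * (C⁻¹ * G s) := by
    intro s
    calc I' s ≤ ∫ θ in (0:ℝ)..(2 * π), ((1 - η) ^ (m + 2))⁻¹ * (C⁻¹ * (Fint p ε f τ θ s)⁻¹) :=
          intervalIntegral.integral_mono_on (by positivity) (hNi s)
            (((hFi s).const_mul _).const_mul _) (fun θ _ => (hNb θ s).2)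
      _ = _ := by rw [intervalIntegral.integral_const_mul, intervalIntegral.integral_const_mul]
  have hI'lo : ∀ s, ((1 + η) ^ (m + 2))⁻¹ * (C⁻¹ * G s) ≤ I' s := by
    intro s
    calc ((1 + η) ^ (m + 2))⁻¹ * (C⁻¹ * G s)
        = ∫ θ in (0:ℝ)..(2 * π), ((1 + η) ^ (m + 2))⁻¹ * (C⁻¹ * (Fint p ε f τ θ s)⁻¹) := by
          rw [intervalIntegral.integral_const_mul, intervalIntegral.integral_const_mul]
      _ ≤ I' s := intervalIntegral.integral_mono_on (by positivity)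
            (((hFi s).const_mul _).const_mul _) (hNi s) (fun θ _ => (hNb θ s).1)
  have hI'0 : ∀ s, 0 ≤ I' s := fun s =>
    intervalIntegral.integral_nonneg (by positivity) (fun θ _ => hNpos θ s)
  have hI'm : AEStronglyMeasurable I' volume := by
    have h4 : StronglyMeasurable (fun s => ∫ θ, N θ s ∂(volume.restrict (Ioc 0 (2 * π)))) :=
      hNm.integral_prod_right
    have h5 : I' = fun s => ∫ θ, N θ s ∂(volume.restrict (Ioc 0 (2 * π))) := by
      funext s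
      simp only [hI']
      rw [intervalIntegral.integral_of_le (by positivity)]
    rw [h5]
    exact h4.aestronglyMeasurable
  have hKI : Integrable (fun s => ker2 δ s * I' s) := by
    refine integrable_ker2_mul hδ hI'm (C := ((1 - η) ^ (m + 2))⁻¹ * (C⁻¹ * (c * (2 * π)))) ?_
    intro s
    rw [abs_of_nonneg (hI'0 s)]
    refine (hI'up s).trans ?_
    have h1 := hGb s
    rw [abs_of_nonneg (hG0 s)] at h1
    calc ((1 - η) ^ (m + 2))⁻¹ * (C⁻¹ * G s) ≤ ((1 - η) ^ (m + 2))⁻¹ * (C⁻¹ * (c * (2 * π) * (1 + s ^ 2))) := by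
          gcongr
      _ = _ := by ring
  -- the test is nonnegative
  have htest : 0 ≤ ∫ s, ker2 δ s * I' s := by
    have hae : ∀ᵐ v ∂μ, |v 0| ≤ 1 ∧ |v 1| ≤ 1 ∧ |v 2| ≤ 1 := by
      have h1 : ∀ᵐ v ∂μ, v ∈ Metric.sphere (0 : EE m) 1 := by
        rw [ae_iff]; exact hsph
      filter_upwards [h1] with v hv
      have hv' : ‖v‖ = 1 := by simpa using hv
      rw [← hv']
      exact ⟨coord_le_norm v 0, coord_le_norm v 1, coord_le_norm v 2⟩
    have h := test_nonneg μ (p := fun v : EE m => v 0) (q := fun v : EE m => v 1)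
      (r := fun v : EE m => v 2) (by fun_prop) (by fun_prop) (by fun_prop) hae hδ
    refine h.trans_eq ?_
    refine integral_congr_ae (Eventually.of_forall fun s => ?_)
    simp only [hI', hN, Nf_eq]
  -- comparison
  have hcomp : ∫ s, ker2 δ s * I' s ≤ ∫ s, (C⁻¹ * (ker2 δ s * G s) + (e η * C⁻¹) * (|ker2 δ s| * G s)) := by
    refine integral_mono hKI ((hKG.const_mul _).add (hKGa.const_mul _)) fun s => ?_
    show ker2 δ s * I' s ≤ C⁻¹ * (ker2 δ s * G s) + (e η * C⁻¹) * (|ker2 δ s| * G s)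
    have hCG : 0 ≤ C⁻¹ * G s := mul_nonneg (by positivity) (hG0 s)
    have e1 : 0 ≤ ((1 - η) ^ (m + 2))⁻¹ - 1 := by
      rw [sub_nonneg, one_le_inv₀ (by positivity)]
      exact pow_le_one₀ ha.le (by linarith)
    have e2 : 0 ≤ 1 - ((1 + η) ^ (m + 2))⁻¹ := by
      rw [sub_nonneg]
      exact inv_le_one_of_one_le₀ (one_le_pow₀ (by linarith))
    have hdiff : |I' s - C⁻¹ * G s| ≤ e η * (C⁻¹ * G s) := by
      rw [abs_le]
      have a1 := hI'up s
      have a2 := hI'lo s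
      simp only [he]
      constructor
      · nlinarith [mul_nonneg e1 hCG]
      · nlinarith [mul_nonneg e2 hCG]
    calc ker2 δ s * I' s = C⁻¹ * (ker2 δ s * G s) + ker2 δ s * (I' s - C⁻¹ * G s) := by ring
      _ ≤ C⁻¹ * (ker2 δ s * G s) + |ker2 δ s| * |I' s - C⁻¹ * G s| := by
          rw [← abs_mul]
          have := le_abs_self (ker2 δ s * (I' s - C⁻¹ * G s))
          linarith
      _ ≤ C⁻¹ * (ker2 δ s * G s) + |ker2 δ s| * (e η * (C⁻¹ * G s)) := by gcongr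
      _ = _ := by ring
  rw [integral_add (hKG.const_mul _) (hKGa.const_mul _), integral_const_mul, integral_const_mul] at hcomp
  have hCi : 0 < C⁻¹ := by positivity
  have hfin : C⁻¹ * (∫ s, ker2 δ s * G s) + e η * C⁻¹ * Z < 0 := by
    have : C⁻¹ * (∫ s, ker2 δ s * G s) + e η * C⁻¹ * Z = C⁻¹ * ((∫ s, ker2 δ s * G s) + e η * Z) := by ring
    rw [this]
    exact mul_neg_of_pos_of_neg hCi (by linarith)
  linarith

end

end IB
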