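import Mathlib
import Pool.Agent.Helper689.IBBad

set_option autoImplicit false

open MeasureTheory Set Filter Topology Metric Real
open scoped Pointwise

namespace IB

/-- The space of origin-symmetric convex bodies. -/
abbrev SymBody (m : ℕ) := {K : ConvexBody (EE m) //
  ∀ x ∈ (K : Set (EE m)), -x ∈ (K : Set (EE m))}

theorem dense_interior (m : ℕ) : Dense (interior {K : SymBody m | ¬ IsBad (K.1 : Set (EE m))}) := by
  rw [Metric.dense_iff]
  intro K0 ε0 hε0
  set ρ1 : ℝ := ε0 / 8 with hρ1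
  have hρ1p : 0 < ρ1 := by positivity
  set K1 : Set (EE m) := (K0.1 : Set (EE m)) + closedBall 0 ρ1 with hK1
  have hK1conv : Convex ℝ K1 := K0.1.convex.add (convex_closedBall _ _)
  have hK1comp : IsCompact K1 := K0.1.isCompact.add (isCompact_closedBall _ _)
  have h00 : (0 : EE m) ∈ (K0.1 : Set (EE m)) := K0.1.zero_mem_of_symmetric K0.2
  have hK1symm : ∀ x ∈ K1, -x ∈ K1 := by
    rintro _ ⟨a, ha, b, hb, rfl⟩
    refine ⟨-a, K0.2 a ha, -b, ?_, (neg_add a b).symm⟩
    simpa using hb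
  have hK1ball : closedBall (0 : EE m) ρ1 ⊆ K1 := fun b hb => ⟨0, h00, b, hb, by simp⟩
  have hK01 : ∀ x ∈ (K0.1 : Set (EE m)), x ∈ K1 := fun x hx =>
    ⟨x, hx, 0, by simpa using hρ1p.le, by simp⟩
  obtain ⟨R, hR0, hR⟩ : ∃ R : ℝ, 0 < R ∧ K1 ⊆ closedBall 0 R := by
    obtain ⟨R, hR⟩ := hK1comp.isBounded.subset_closedBall (0 : EE m)
    exact ⟨max R 1, by positivity, hR.trans (closedBall_subset_closedBall (le_max_left _ _))⟩
  set η : ℝ := min (1 / 2) (ε0 / (16 * R)) with hη
  have hη0 : 0 < η := by positivity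
  have hη1 : η < 1 := (min_le_left _ _).trans_lt (by norm_num)
  have hηR : η * R ≤ ε0 / 16 := by
    calc η * R ≤ ε0 / (16 * R) * R := by gcongr; exact min_le_right _ _
      _ = ε0 / 16 := by field_simp
  obtain ⟨t, p, ε, τ, hp, hε, hconv, hτ, ⟨δ, hδ, hneg⟩, hin, hout⟩ :=
    exists_body hK1conv hK1comp hK1symm hρ1p hK1ball hη0 hη1
  set S : Set (EE m) := Kset p ε (fun w : t => (w : EE m)) τ with hS
  have h0S : (0 : EE m) ∈ S := Or.inl rfl
  have hScomp : IsCompact S := by
    obtain ⟨R', _, hR'⟩ := Kset_bounded hp hε _ hτ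
    exact Metric.isCompact_of_isClosed_isBounded (Kset_isClosed p hε _ τ)
      (Metric.isBounded_closedBall.subset hR')
  have hSsymm : ∀ x ∈ S, -x ∈ S := by
    intro x hx
    have := Kset_scale hp hε _ hx (c := -1) (by simp)
    simpa using this
  set KB : SymBody m := ⟨⟨S, hconv, hScomp, ⟨0, h0S⟩⟩, hSsymm⟩ with hKB
  refine ⟨KB, ?_, ?_⟩
  · -- distance
    rw [mem_ball, Subtype.dist_eq]
    show Metric.hausdorffDist S (K0.1 : Set (EE m)) < ε0
    refine lt_of_le_of_lt (Metric.hausdorffDist_le_of_mem_dist (r := ε0 / 2) (by positivity) ?_ ?_)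
      (by linarith)
    · intro x hx
      obtain ⟨k, hk, rfl⟩ := hout x hx
      have hkR : ‖k‖ ≤ R := by simpa using hR hk
      obtain ⟨a, ha, b, hb, rfl⟩ := hk
      refine ⟨a, ha, ?_⟩
      have hb' : ‖b‖ ≤ ρ1 := by simpa using hb
      rw [dist_eq_norm]
      have e : ((1 + η) ^ 2) • (a + b) - a = ((1 + η) ^ 2 - 1) • (a + b) + b := by
        rw [sub_smul, one_smul]; abel
      have e' : ((1 + η) ^ 2) • ((fun x1 x2 => x1 + x2) a b) - a = ((1 + η) ^ 2 - 1) • (a + b) + b := e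
      rw [e']
      refine (norm_add_le _ _).trans ?_
      rw [norm_smul, Real.norm_eq_abs]
      have h1 : |(1 + η) ^ 2 - 1| ≤ 3 * η := by
        rw [abs_of_nonneg (by nlinarith)]
        nlinarith
      have h2 : ‖a + b‖ ≤ R := hkR
      calc |(1 + η) ^ 2 - 1| * ‖a + b‖ + ‖b‖ ≤ 3 * η * R + ρ1 := by gcongr
        _ ≤ ε0 / 2 := by rw [hρ1]; linarith
    · intro x hx
      refine ⟨(1 - η) • x, hin x (hK01 x hx), ?_⟩
      rw [dist_eq_norm]
      have e : x - (1 - η) • x = η • x := by rw [sub_smul, one_smul]; abel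
      rw [e, norm_smul, Real.norm_eq_abs, abs_of_pos hη0]
      have h2 : ‖x‖ ≤ R := by simpa using hR (hK01 x hx)
      calc η * ‖x‖ ≤ η * R := by gcongr
        _ ≤ ε0 / 2 := by linarith
  · -- interior
    obtain ⟨η', hη'0, hη'1, hbad⟩ := not_bad hp hε _ hτ hδ hneg
    set ρ2 : ℝ := (1 - η) * ρ1 with hρ2
    have h1η : 0 < 1 - η := by linarith
    have hρ2p : 0 < ρ2 := by positivity
    have hSball : closedBall (0 : EE m) ρ2 ⊆ S := by
      intro y hy
      have h1 : (1 - η)⁻¹ • y ∈ K1 := by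
        apply hK1ball
        rw [mem_closedBall, dist_zero_right, norm_smul, norm_inv, Real.norm_eq_abs, abs_of_pos h1η,
          inv_mul_le_iff₀ h1η]
        simpa using hy
      have h2 := hin _ h1
      rwa [smul_smul, mul_inv_cancel₀ h1η.ne', one_smul] at h2
    rw [mem_interior_iff_mem_nhds, Metric.mem_nhds_iff]
    refine ⟨η' * ρ2, by positivity, ?_⟩
    intro K' hK'
    rw [mem_ball, Subtype.dist_eq] at hK'
    have hd : Metric.hausdorffDist (K'.1 : Set (EE m)) S < η' * ρ2 := hK'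
    have hfin : Metric.hausdorffEDist (K'.1 : Set (EE m)) S ≠ ⊤ :=
      ConvexBody.hausdorffEDist_ne_top (K := K'.1) (L := KB.1)
    refine hbad (K'.1 : Set (EE m)) ?_ ?_
    · intro x hx
      refine mem_of_scaled (K := S) hScomp K'.1.convex K'.1.isClosed hSball hη'0 hη'1 ?_ hx
      intro y hy
      obtain ⟨z, hz, hzy⟩ := Metric.exists_dist_lt_of_hausdorffDist_lt' hy hd hfin
      refine ⟨z, hz, ?_⟩
      rw [dist_comm, dist_eq_norm] at hzy
      exact hzy.le
    · intro x hx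
      obtain ⟨y, hy, hxy⟩ := Metric.exists_dist_lt_of_hausdorffDist_lt hx hd hfin
      rw [dist_eq_norm] at hxy
      obtain ⟨k, hk, e⟩ := mem_scaled hconv hSball hη'0 hy hxy.le
      exact ⟨k, hk, by rw [← e]; abel⟩

theorem main (m : ℕ) : ∀ᶠ K in residual (SymBody m), ¬ IsBad (K.1 : Set (EE m)) := by
  exact Filter.mem_of_superset (residual_of_dense_open isOpen_interior (dense_interior m))
    interior_subset

end IB
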