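import Mathlib

set_option autoImplicit false

/-! Uniform probability on finite types by counting. -/

namespace Pool.Agent.Helper689.RS1

open Finset

/-- uniform probability of `S` -/
noncomputable def pr {Ω : Type*} [Fintype Ω] (S : Ω → Prop) : ℝ :=
  open Classical in ((univ.filter S).card : ℝ) / Fintype.card Ω

section basic
variable {Ω Ω' : Type*} [Fintype Ω] [Fintype Ω']

lemma pr_nonneg (S : Ω → Prop) : 0 ≤ pr S := by unfold pr; positivity

lemma pr_eq (S : Ω → Prop) [DecidablePred S] :
    pr S = ((univ.filter S).card : ℝ) / Fintype.card Ω := by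
  unfold pr
  congr!

lemma pr_mono {S R : Ω → Prop} (h : ∀ x, S x → R x) : pr S ≤ pr R := by
  classical
  simp only [pr_eq]
  have : (univ.filter S).card ≤ (univ.filter R).card :=
    card_le_card (fun x hx => by
      rw [mem_filter] at hx ⊢; exact ⟨hx.1, h x hx.2⟩)
  gcongr

lemma pr_congr {S R : Ω → Prop} (h : ∀ x, S x ↔ R x) : pr S = pr R :=
  le_antisymm (pr_mono fun x => (h x).1) (pr_mono fun x => (h x).2)

lemma pr_exists_le {ι : Type*} [Fintype ι] (S : ι → Ω → Prop) :
    pr (fun x => ∃ i, S i x) ≤ ∑ i, pr (S i) := by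
  classical
  simp only [pr_eq]
  rw [← sum_div]
  have : (univ.filter (fun x => ∃ i, S i x)).card ≤ ∑ i, (univ.filter (S i)).card := by
    have e : (univ.filter (fun x => ∃ i, S i x)) ⊆ univ.biUnion (fun i => univ.filter (S i)) := by
      intro x hx
      rw [mem_filter] at hx
      obtain ⟨i, hi⟩ := hx.2
      exact mem_biUnion.2 ⟨i, mem_univ _, mem_filter.2 ⟨mem_univ _, hi⟩⟩
    exact (card_le_card e).trans card_biUnion_le
  have h2 : ((univ.filter (fun x => ∃ i, S i x)).card : ℝ) ≤ ∑ i, ((univ.filter (S i)).card : ℝ) := by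
    exact_mod_cast this
  gcongr

lemma pr_exists_mem_le {ι : Type*} (s : Finset ι) (S : ι → Ω → Prop) :
    pr (fun x => ∃ i ∈ s, S i x) ≤ ∑ i ∈ s, pr (S i) := by
  classical
  simp only [pr_eq]
  rw [← sum_div]
  have : (univ.filter (fun x => ∃ i ∈ s, S i x)).card ≤ ∑ i ∈ s, (univ.filter (S i)).card := by
    have e : (univ.filter (fun x => ∃ i ∈ s, S i x)) ⊆ s.biUnion (fun i => univ.filter (S i)) := by
      intro x hx
      rw [mem_filter] at hx
      obtain ⟨i, hs, hi⟩ := hx.2
      exact mem_biUnion.2 ⟨i, hs, mem_filter.2 ⟨mem_univ _, hi⟩⟩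
    exact (card_le_card e).trans card_biUnion_le
  have h2 : ((univ.filter (fun x => ∃ i ∈ s, S i x)).card : ℝ) ≤
      ∑ i ∈ s, ((univ.filter (S i)).card : ℝ) := by
    exact_mod_cast this
  gcongr

lemma pr_or_le (S R : Ω → Prop) : pr (fun x => S x ∨ R x) ≤ pr S + pr R := by
  classical
  simp only [pr_eq]
  rw [← add_div]
  have : (univ.filter (fun x => S x ∨ R x)).card ≤ (univ.filter S).card + (univ.filter R).card := by
    rw [filter_or]; exact card_union_le _ _
  have h2 : ((univ.filter (fun x => S x ∨ R x)).card : ℝ) ≤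
      ((univ.filter S).card : ℝ) + ((univ.filter R).card : ℝ) := by exact_mod_cast this
  gcongr

lemma exists_of_pr_lt_one [Nonempty Ω] {S : Ω → Prop} (h : pr S < 1) : ∃ x, ¬ S x := by
  classical
  by_contra hcon
  push Not at hcon
  have : pr S = 1 := by
    simp only [pr_eq]
    rw [filter_true_of_mem (fun x _ => hcon x), card_univ]
    exact div_self (by exact_mod_cast Fintype.card_ne_zero)
  linarith

lemma pr_true [Nonempty Ω] : pr (fun _ : Ω => True) = 1 := by
  classical
  simp only [pr_eq]
  rw [filter_true, card_univ]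
  exact div_self (by exact_mod_cast Fintype.card_ne_zero)

lemma pr_not [Nonempty Ω] (S : Ω → Prop) : pr (fun x => ¬ S x) = 1 - pr S := by
  classical
  simp only [pr_eq]
  have h := card_filter_add_card_filter_not (s := (univ : Finset Ω)) S
  rw [card_univ] at h
  have h2 : ((univ.filter S).card : ℝ) + ((univ.filter (fun x => ¬ S x)).card : ℝ) =
      (Fintype.card Ω : ℝ) := by exact_mod_cast h
  have h3 : (Fintype.card Ω : ℝ) ≠ 0 := by exact_mod_cast Fintype.card_ne_zero
  rw [eq_sub_iff_add_eq, ← add_div, div_eq_one_iff_eq h3]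
  linarith

lemma pr_equiv (e : Ω ≃ Ω') (S : Ω' → Prop) : pr (fun x => S (e x)) = pr S := by
  classical
  simp only [pr_eq]
  rw [Fintype.card_congr e]
  congr 2
  refine card_bij (fun x _ => e x) ?_ ?_ ?_
  · intro x hx; simpa using hx
  · intro x _ y _ h; exact e.injective h
  · intro y hy; exact ⟨e.symm y, by simpa using hy, by simp⟩

lemma pr_prod (S : Ω × Ω' → Prop) :
    pr S = (∑ a, pr (fun b => S (a, b))) / Fintype.card Ω := by
  classical
  simp only [pr_eq]
  rw [← sum_div, div_div, Fintype.card_prod]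
  congr 1
  · have : (univ.filter S).card = ∑ a, (univ.filter (fun b => S (a, b))).card := by
      simp only [card_filter]
      rw [Fintype.sum_prod_type]
    exact_mod_cast this
  · push_cast; ring

lemma pr_prod_le {S : Ω × Ω' → Prop} {c : ℝ} (hc : 0 ≤ c) (h : ∀ a, pr (fun b => S (a, b)) ≤ c) :
    pr S ≤ c := by
  rw [pr_prod]
  have h1 : ∑ a, pr (fun b => S (a, b)) ≤ Fintype.card Ω * c := by
    refine (sum_le_sum fun a _ => h a).trans ?_
    simp
  rcases Nat.eq_zero_or_pos (Fintype.card Ω) with h0 | h0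
  · rw [h0]; simpa using hc
  · rw [div_le_iff₀ (by exact_mod_cast h0)]
    linarith

lemma pr_prod_mul (S : Ω → Prop) (R : Ω' → Prop) :
    pr (fun x : Ω × Ω' => S x.1 ∧ R x.2) = pr S * pr R := by
  classical
  simp only [pr_eq]
  rw [Fintype.card_prod, div_mul_div_comm]
  congr 1
  · have : (univ.filter (fun x : Ω × Ω' => S x.1 ∧ R x.2)) =
        (univ.filter S) ×ˢ (univ.filter R) := by
      ext x; simp
    rw [this, card_product]
    push_cast; rfl
  · push_cast; rfl

lemma pr_fst [Nonempty Ω'] (S : Ω → Prop) : pr (fun x : Ω × Ω' => S x.1) = pr S := by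
  have := pr_prod_mul (Ω' := Ω') S (fun _ => True)
  rw [pr_true, mul_one] at this
  rw [← this]
  exact pr_congr (by simp)

end basic

section pi
variable {ι E : Type*} [Fintype ι] [DecidableEq ι] [Fintype E]

lemma pr_pi (S : ι → E → Prop) : pr (fun f : ι → E => ∀ i, S i (f i)) = ∏ i, pr (S i) := by
  classical
  simp only [pr_eq]
  rw [prod_div_distrib]
  congr 1
  · have : (univ.filter (fun f : ι → E => ∀ i, S i (f i))) =
        Fintype.piFinset (fun i => univ.filter (S i)) := by
      ext f; simp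
    rw [this, Fintype.card_piFinset]
    push_cast; rfl
  · rw [Fintype.card_fun]
    simp

lemma pr_restrict {Col : Type*} [Fintype Col] [DecidableEq Col] [Nonempty E]
    {Y : ι → Col} (hY : Function.Injective Y) (S : (ι → E) → Prop) :
    pr (fun f : Col → E => S (fun i => f (Y i))) = pr S := by
  classical
  let R := {c : Col // c ∉ Set.range Y}
  let e1 : ι ⊕ R ≃ Col :=
    (Equiv.sumCongr (Equiv.ofInjective Y hY) (Equiv.refl _)).trans
      (Equiv.Set.sumCompl (Set.range Y))
  let Φ : (Col → E) ≃ (ι → E) × (R → E) :=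
    (Equiv.arrowCongr e1.symm (Equiv.refl E)).trans (Equiv.sumArrowEquivProdArrow ι R E)
  have h1 : ∀ f : Col → E, (Φ f).1 = fun i => f (Y i) := by
    intro f; funext i
    simp only [Φ, e1, Equiv.sumArrowEquivProdArrow, Equiv.arrowCongr, Equiv.trans_apply,
      Equiv.coe_fn_mk, Function.comp_apply, Equiv.symm_symm, Equiv.coe_refl, id]
    rfl
  have h2 := pr_equiv Φ (fun x => S x.1)
  rw [pr_fst] at h2
  rw [← h2]
  exact pr_congr fun f => by rw [h1]

/-- many bad coordinates are unlikely -/
lemma pr_many (Bad : E → Prop) [DecidablePred Bad] (B : ℕ) [Nonempty E] :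
    pr (fun η : ι → E => B ≤ (univ.filter (fun i => Bad (η i))).card) ≤
      (Fintype.card ι * pr Bad) ^ B := by
  have h1 : pr (fun η : ι → E => B ≤ (univ.filter (fun i => Bad (η i))).card) ≤
      pr (fun η : ι → E => ∃ s ∈ powersetCard B (univ : Finset ι), ∀ i, i ∈ s → Bad (η i)) := by
    apply pr_mono
    intro η h
    obtain ⟨s, hs, hc⟩ := exists_subset_card_eq h
    exact ⟨s, mem_powersetCard.2 ⟨subset_univ _, hc⟩, fun i hi => (mem_filter.1 (hs hi)).2⟩
  refine h1.trans ((pr_exists_mem_le _ _).trans ?_)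
  have h2 : ∀ s ∈ powersetCard B (univ : Finset ι),
      pr (fun η : ι → E => ∀ i, i ∈ s → Bad (η i)) = pr Bad ^ B := by
    intro s hs
    rw [pr_pi (fun i e => i ∈ s → Bad e)]
    have : ∀ i : ι, pr (fun e => i ∈ s → Bad e) = if i ∈ s then pr Bad else 1 := by
      intro i
      split_ifs with h
      · exact pr_congr (by simp [h])
      · rw [← pr_true (Ω := E)]; exact pr_congr (by simp [h])
    simp only [this]
    rw [prod_ite_mem, univ_inter, prod_const, (mem_powersetCard.1 hs).2]
  rw [sum_congr rfl h2, sum_const, card_powersetCard, card_univ, nsmul_eq_mul, mul_pow]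
  have : ((Fintype.card ι).choose B : ℝ) ≤ (Fintype.card ι : ℝ) ^ B := by
    exact_mod_cast Nat.choose_le_pow _ _
  exact mul_le_mul_of_nonneg_right this (pow_nonneg (pr_nonneg _) _)

/-- Chernoff lower tail -/
lemma pr_chernoff (G : ι → E → Prop) [∀ i, DecidablePred (G i)] {p z : ℝ} [Nonempty E]
    (hG : ∀ i, p ≤ pr (G i)) :
    pr (fun η : ι → E => ((univ.filter (fun i => G i (η i))).card : ℝ) < z) ≤
      Real.exp (z - p * Fintype.card ι / 2) := by
  classical
  have hE : (0 : ℝ) < Fintype.card E := by exact_mod_cast Fintype.card_pos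
  let g : ι → E → ℝ := fun i e => Real.exp (-(if G i e then 1 else 0))
  have hsum : ∀ i, ∑ e, g i e ≤ Fintype.card E * Real.exp (-p / 2) := by
    intro i
    have h1 : ∑ e, g i e = ∑ e, (1 - (1 - Real.exp (-1)) * (if G i e then (1 : ℝ) else 0)) := by
      refine sum_congr rfl fun e _ => ?_
      simp only [g]
      split_ifs <;> simp
    have h2 : ∑ e, (if G i e then (1 : ℝ) else 0) = Fintype.card E * pr (G i) := by
      simp only [pr_eq]
      rw [← sum_filter, sum_const, nsmul_eq_mul, mul_one]
      field_simp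
    rw [h1, sum_sub_distrib, ← mul_sum, h2]
    simp only [sum_const, card_univ, nsmul_eq_mul, mul_one]
    have h3 : Real.exp (-1) ≤ 1 / 2 := by
      have := Real.exp_one_gt_d9
      rw [Real.exp_neg]
      rw [inv_le_comm₀ (Real.exp_pos 1) (by norm_num)]
      linarith
    have h4 : 0 ≤ pr (G i) := pr_nonneg _
    have h5 : p / 2 ≤ (1 - Real.exp (-1)) * pr (G i) := by
      have := hG i
      nlinarith
    have h6 : 1 - (1 - Real.exp (-1)) * pr (G i) ≤ Real.exp (-p / 2) := by
      have := Real.add_one_le_exp (-p / 2)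
      linarith
    calc (Fintype.card E : ℝ) - (1 - Real.exp (-1)) * (Fintype.card E * pr (G i))
        = Fintype.card E * (1 - (1 - Real.exp (-1)) * pr (G i)) := by ring
      _ ≤ _ := mul_le_mul_of_nonneg_left h6 hE.le
  have hcard : (Fintype.card (ι → E) : ℝ) = (Fintype.card E : ℝ) ^ Fintype.card ι := by
    rw [Fintype.card_fun]; push_cast; rfl
  simp only [pr_eq]
  rw [hcard, div_le_iff₀ (pow_pos hE _)]
  have hexp : ∀ η : ι → E, ∏ i, g i (η i) =
      Real.exp (-((univ.filter (fun i => G i (η i))).card : ℝ)) := by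
    intro η
    simp only [g]
    rw [← Real.exp_sum, sum_neg_distrib, ← sum_filter, sum_const, nsmul_eq_mul, mul_one]
  have h7 : ((univ.filter (fun η : ι → E =>
      ((univ.filter (fun i => G i (η i))).card : ℝ) < z)).card : ℝ) ≤
      ∑ η : ι → E, Real.exp z * ∏ i, g i (η i) := by
    rw [card_filter]
    push_cast
    refine sum_le_sum fun η _ => ?_
    rw [hexp, ← Real.exp_add]
    split_ifs with h
    · exact Real.one_le_exp (by linarith)
    · positivity
  have h8 : ∑ η : ι → E, ∏ i, g i (η i) = ∏ i, ∑ e, g i e := by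
    rw [Finset.prod_univ_sum, Fintype.piFinset_univ]
  have h9 : ∏ i, ∑ e, g i e ≤ ∏ _i : ι, (Fintype.card E * Real.exp (-p / 2)) :=
    prod_le_prod (fun i _ => sum_nonneg fun e _ => by positivity) fun i _ => hsum i
  rw [← mul_sum, h8] at h7
  rw [prod_const, card_univ, mul_pow, ← Real.exp_nat_mul] at h9
  have h10 := mul_le_mul_of_nonneg_left h9 (Real.exp_pos z).le
  have h11 : Real.exp z * ((Fintype.card E : ℝ) ^ Fintype.card ι *
      Real.exp ((Fintype.card ι : ℝ) * (-p / 2))) =
      Real.exp (z - p * Fintype.card ι / 2) * (Fintype.card E : ℝ) ^ Fintype.card ι := by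
    rw [show z - p * Fintype.card ι / 2 = z + (Fintype.card ι : ℝ) * (-p / 2) by ring, Real.exp_add]
    ring
  rw [h11] at h10
  exact h7.trans h10

end pi

end Pool.Agent.Helper689.RS1
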