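import Mathlib

set_option autoImplicit false

/-! Counting words realised by a good colouring. -/

namespace Pool.Agent.Helper689.RS2

open Finset

lemma card_words {n m : ℕ} (A : Fin n → Finset (Fin m)) (H : Finset (Fin n)) {γ : ℝ}
    (hA : ∀ i ∈ H, ((A i).card : ℝ) ≤ (1 - γ) * m) :
    ((Fintype.piFinset A).card : ℝ) ≤ (m : ℝ) ^ n * Real.exp (-(γ * H.card)) := by
  classical
  rw [Fintype.card_piFinset]
  push_cast
  have h1 : ∏ i, ((A i).card : ℝ) ≤ ∏ i, ((m : ℝ) * (if i ∈ H then Real.exp (-γ) else 1)) := by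
    refine prod_le_prod (fun i _ => by positivity) fun i _ => ?_
    split_ifs with h
    · have := hA i h
      have h2 := Real.add_one_le_exp (-γ)
      have h3 : (0 : ℝ) ≤ m := by positivity
      nlinarith
    · have : (A i).card ≤ m := by simpa using card_le_univ (A i)
      have : ((A i).card : ℝ) ≤ m := by exact_mod_cast this
      linarith
  refine h1.trans (le_of_eq ?_)
  rw [prod_mul_distrib, prod_const, card_univ, Fintype.card_fin, prod_ite_mem, univ_inter,
    prod_const, ← Real.exp_nat_mul]
  congr 2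
  ring

lemma lower_card {n : ℕ} (S : Finset (Fin n)) (h : ∀ i j, j ≤ i → i ∈ S → j ∈ S) (i : Fin n) :
    i ∈ S ↔ (i : ℕ) < S.card := by
  constructor
  · intro hi
    have : Iic i ⊆ S := fun j hj => h i j (mem_Iic.1 hj) hi
    have := card_le_card this
    rw [Fin.card_Iic] at this
    omega
  · intro hi
    by_contra hcon
    have : S ⊆ Iio i := by
      intro j hj
      rw [mem_Iio]
      by_contra hge
      exact hcon (h j i (not_lt.1 hge) hj)
    have := card_le_card this
    rw [Fin.card_Iio] at this
    omega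

lemma card_mono (n T : ℕ) :
    (univ.filter (fun α : Fin n → Fin T => Monotone α)).card ≤ (n + 1) ^ T := by
  classical
  have h1 : ((univ : Finset (Fin T → Fin (n + 1)))).card = (n + 1) ^ T := by simp
  rw [← h1]
  refine card_le_card_of_injOn (fun α a => ⟨(univ.filter (fun i => α i ≤ a)).card, by
    have := card_le_univ (univ.filter (fun i => α i ≤ a))
    rw [Fintype.card_fin] at this
    omega⟩) (fun _ _ => mem_coe.2 (mem_univ _)) ?_
  intro α hα β hβ hab
  simp only [coe_filter, mem_univ, true_and, Set.mem_ofPred_eq] at hα hβ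
  have key : ∀ i a, α i ≤ a ↔ β i ≤ a := by
    intro i a
    have e1 := lower_card (univ.filter (fun i => α i ≤ a)) (by
      intro i j hij hi
      simp only [mem_filter, mem_univ, true_and] at hi ⊢
      exact (hα hij).trans hi) i
    have e2 := lower_card (univ.filter (fun i => β i ≤ a)) (by
      intro i j hij hi
      simp only [mem_filter, mem_univ, true_and] at hi ⊢
      exact (hβ hij).trans hi) i
    have e3 := congrArg Fin.val (congrFun hab a)
    simp only at e3
    simp only [mem_filter, mem_univ, true_and] at e1 e2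
    rw [e1, e2, e3]
  funext i
  exact le_antisymm ((key i _).2 le_rfl) ((key i _).1 le_rfl)

/-- data of one block of rows -/
abbrev Blk (t q : ℕ) (Col : Type) := (Col → Bool) × (Fin t → Col → Fin q)

section
variable {t q m d : ℕ} {Col : Type}

/-- colour of column `y` in cell `x` of the block -/
def colr (ω : Blk t q Col) (x : Fin t) (y : Col) : Bool :=
  xor (ω.1 y) (decide ((ω.2 x y : ℕ) = 0))

def ok (ω : Blk t q Col) (κ : Bool) (Y : Fin m → Fin d → Col) (x : Fin t) (l : Fin m) : Prop :=
  ∀ j, colr ω x (Y l j) = κ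

def cov (ω : Blk t q Col) (κ : Bool) (Y : Fin m → Fin d → Col) (l : Fin m) : Prop :=
  ∃ x, ok ω κ Y x l

open Classical in
def badB (ω : Blk t q Col) (κ : Bool) (Y : Fin m → Fin d → Col) (γ : ℝ) : Prop :=
  ((univ.filter (fun l => ¬ cov ω κ Y l)).card : ℝ) < γ * m

open Classical in
def exc (ω : Blk t q Col) (κ : Bool) (Y : Fin m → Fin d → Col) (γ : ℝ) (x : Fin t) : Prop :=
  ((univ.filter (fun l => ¬ ok ω κ Y x l)).card : ℝ) < γ * m

end

section count
variable {T t s q m n d : ℕ} {Col : Type}

def blk (r : Fin (T * t * s)) : Fin T :=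
  ⟨(r : ℕ) / (t * s), Nat.div_lt_of_lt_mul (by
    have := r.2
    calc (r : ℕ) < T * t * s := this
      _ = (t * s) * T := by ring)⟩

def cel (ht : 0 < t) (r : Fin (T * t * s)) : Fin t :=
  ⟨((r : ℕ) / s) % t, Nat.mod_lt _ ht⟩

lemma blk_mono {r r' : Fin (T * t * s)} (h : r ≤ r') : blk r ≤ blk r' := by
  rw [Fin.le_def]
  exact Nat.div_le_div_right h

lemma cel_mono (ht : 0 < t) {r r' : Fin (T * t * s)} (h : r ≤ r') (hb : blk r = blk r') :
    cel ht r ≤ cel ht r' := by
  rw [Fin.le_def]
  show ((r : ℕ) / s) % t ≤ ((r' : ℕ) / s) % t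
  have hb' : (r : ℕ) / (t * s) = (r' : ℕ) / (t * s) := congrArg Fin.val hb
  rw [mul_comm t s, ← Nat.div_div_eq_div_mul, ← Nat.div_div_eq_div_mul] at hb'
  have h1 : (r : ℕ) / s ≤ (r' : ℕ) / s := Nat.div_le_div_right h
  have h2 := Nat.div_add_mod ((r : ℕ) / s) t
  have h3 := Nat.div_add_mod ((r' : ℕ) / s) t
  rw [hb'] at h2
  omega

lemma row_inj (ht : 0 < t) {r r' : Fin (T * t * s)} (hb : blk r = blk r')
    (hc : cel ht r = cel ht r') (hm : (r : ℕ) % s = (r' : ℕ) % s) : r = r' := by
  have hb' : (r : ℕ) / (t * s) = (r' : ℕ) / (t * s) := congrArg Fin.val hb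
  have hc' : ((r : ℕ) / s) % t = ((r' : ℕ) / s) % t := congrArg Fin.val hc
  rw [mul_comm t s, ← Nat.div_div_eq_div_mul, ← Nat.div_div_eq_div_mul] at hb'
  have h2 := Nat.div_add_mod ((r : ℕ) / s) t
  have h3 := Nat.div_add_mod ((r' : ℕ) / s) t
  have h4 := Nat.div_add_mod (r : ℕ) s
  have h5 := Nat.div_add_mod (r' : ℕ) s
  apply Fin.ext
  have h6 : (r : ℕ) / s = (r' : ℕ) / s := by
    rw [← h2, ← h3, hb', hc']
  rw [← h4, ← h5, h6, hm]

open Classical in
theorem count (ht : 0 < t) (hs : 0 < s) {B K : ℕ} (hB : 0 < B) {γ₁ γ₂ : ℝ}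
    (hγ1 : 0 ≤ γ₁) (hγ2 : 0 ≤ γ₂)
    (hK : (K : ℝ) * s ≤ n / (4 * B))
    (η : Fin T → Blk t q Col) (κ : Bool) (Y : Fin m → Fin d → Col)
    (h1 : (univ.filter (fun a => badB (η a) κ Y γ₁)).card < B)
    (h2 : ∀ a, (univ.filter (fun x => exc (η a) κ Y γ₂ x)).card < K) :
    ((univ.filter (fun w : Fin n → Fin m => ∃ r : Fin n → Fin (T * t * s), StrictMono r ∧
      ∀ i, ok (η (blk (r i))) κ Y (cel ht (r i)) (w i))).card : ℝ) ≤
      ((n + 1 : ℕ) : ℝ) ^ T * ((m : ℝ) ^ n * Real.exp (-(γ₁ * (n / 2)))) +
      (T * (n + 1 : ℕ) * (n + 1 : ℕ) * (n + 1 : ℕ) ^ t : ℝ) *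
        ((m : ℝ) ^ n * Real.exp (-(γ₂ * (n / (4 * B))))) := by
  -- first family
  let P1 : Finset (Fin n → Fin T) := univ.filter (fun α => Monotone α ∧
    (n : ℝ) / 2 ≤ ((univ.filter (fun i => ¬ badB (η (α i)) κ Y γ₁)).card : ℝ))
  let W1 : (Fin n → Fin T) → Finset (Fin n → Fin m) := fun α =>
    Fintype.piFinset (fun i => univ.filter (fun l => cov (η (α i)) κ Y l))
  let P2 : Finset (Fin T × Fin (n + 1) × Fin (n + 1) × (Fin n → Fin t)) :=
    univ.filter (fun P => Monotone P.2.2.2 ∧
      (n : ℝ) / (4 * B) ≤ ((univ.filter (fun i : Fin n => ((P.2.1 : ℕ) ≤ i ∧ (i : ℕ) < P.2.2.1) ∧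
        ¬ exc (η P.1) κ Y γ₂ (P.2.2.2 i))).card : ℝ))
  let W2 : (Fin T × Fin (n + 1) × Fin (n + 1) × (Fin n → Fin t)) → Finset (Fin n → Fin m) :=
    fun P => Fintype.piFinset (fun i => if ((P.2.1 : ℕ) ≤ i ∧ (i : ℕ) < P.2.2.1) then
      univ.filter (fun l => ok (η P.1) κ Y (P.2.2.2 i) l) else univ)
  have hW1 : ∀ α ∈ P1, ((W1 α).card : ℝ) ≤ (m : ℝ) ^ n * Real.exp (-(γ₁ * (n / 2))) := by
    intro α hα
    rw [mem_filter] at hα
    have := card_words (fun i => univ.filter (fun l => cov (η (α i)) κ Y l))
      (univ.filter (fun i => ¬ badB (η (α i)) κ Y γ₁)) (γ := γ₁) (by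
        intro i hi
        rw [mem_filter] at hi
        have hb := hi.2
        unfold badB at hb
        rw [not_lt] at hb
        have hc := card_filter_add_card_filter_not (s := (univ : Finset (Fin m)))
          (fun l => cov (η (α i)) κ Y l)
        rw [card_univ, Fintype.card_fin] at hc
        have hc' : ((univ.filter (fun l => cov (η (α i)) κ Y l)).card : ℝ) +
          ((univ.filter (fun l => ¬ cov (η (α i)) κ Y l)).card : ℝ) = m := by exact_mod_cast hc
        linarith)
    refine this.trans ?_
    have h3 := hα.2.2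
    gcongr
  have hW2 : ∀ P ∈ P2, ((W2 P).card : ℝ) ≤ (m : ℝ) ^ n * Real.exp (-(γ₂ * (n / (4 * B)))) := by
    intro P hP
    rw [mem_filter] at hP
    have := card_words (fun i : Fin n => if ((P.2.1 : ℕ) ≤ i ∧ (i : ℕ) < P.2.2.1) then
      univ.filter (fun l => ok (η P.1) κ Y (P.2.2.2 i) l) else univ)
      (univ.filter (fun i : Fin n => ((P.2.1 : ℕ) ≤ i ∧ (i : ℕ) < P.2.2.1) ∧
        ¬ exc (η P.1) κ Y γ₂ (P.2.2.2 i))) (γ := γ₂) (by
        intro i hi
        rw [mem_filter] at hi
        have hb := hi.2.2
        unfold exc at hb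
        rw [not_lt] at hb
        rw [if_pos hi.2.1]
        have hc := card_filter_add_card_filter_not (s := (univ : Finset (Fin m)))
          (fun l => ok (η P.1) κ Y (P.2.2.2 i) l)
        rw [card_univ, Fintype.card_fin] at hc
        have hc' : ((univ.filter (fun l => ok (η P.1) κ Y (P.2.2.2 i) l)).card : ℝ) +
          ((univ.filter (fun l => ¬ ok (η P.1) κ Y (P.2.2.2 i) l)).card : ℝ) = m := by
          exact_mod_cast hc
        linarith)
    refine this.trans ?_
    have h3 := hP.2.2
    gcongr
  have hsub : (univ.filter (fun w : Fin n → Fin m => ∃ r : Fin n → Fin (T * t * s), StrictMono r ∧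
      ∀ i, ok (η (blk (r i))) κ Y (cel ht (r i)) (w i))) ⊆ P1.biUnion W1 ∪ P2.biUnion W2 := by
    intro w hw
    rw [mem_filter] at hw
    obtain ⟨-, r, hr, hw⟩ := hw
    rw [mem_union, mem_biUnion, mem_biUnion]
    have hbm : Monotone (fun i => blk (r i)) := fun i j hij => blk_mono (hr.monotone hij)
    by_cases hc : (n : ℝ) / 2 ≤ ((univ.filter (fun i => ¬ badB (η (blk (r i))) κ Y γ₁)).card : ℝ)
    · left
      refine ⟨fun i => blk (r i), mem_filter.2 ⟨mem_univ _, hbm, hc⟩, ?_⟩
      rw [Fintype.mem_piFinset]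
      intro i
      exact mem_filter.2 ⟨mem_univ _, _, hw i⟩
    · right
      push Not at hc
      have hsplit := card_filter_add_card_filter_not (s := (univ : Finset (Fin n)))
        (fun i => badB (η (blk (r i))) κ Y γ₁)
      rw [card_univ, Fintype.card_fin] at hsplit
      have hsplit' : ((univ.filter (fun i => badB (η (blk (r i))) κ Y γ₁)).card : ℝ) +
          ((univ.filter (fun i => ¬ badB (η (blk (r i))) κ Y γ₁)).card : ℝ) = n := by
        exact_mod_cast hsplit
      have hB' : (0 : ℝ) < B := by exact_mod_cast hB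
      -- a bad block with many rows
      obtain ⟨a, ha, hrows⟩ : ∃ a, badB (η a) κ Y γ₁ ∧
          (n : ℝ) / (2 * B) ≤ ((univ.filter (fun i => blk (r i) = a)).card : ℝ) := by
        by_contra hcon
        push Not at hcon
        have e1 : (univ.filter (fun i => badB (η (blk (r i))) κ Y γ₁)) ⊆
            (univ.filter (fun a => badB (η a) κ Y γ₁)).biUnion
              (fun a => univ.filter (fun i => blk (r i) = a)) := by
          intro i hi
          rw [mem_filter] at hi
          exact mem_biUnion.2 ⟨blk (r i), mem_filter.2 ⟨mem_univ _, hi.2⟩,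
            mem_filter.2 ⟨mem_univ _, rfl⟩⟩
        have e2 := (card_le_card e1).trans card_biUnion_le
        have e3 : ((univ.filter (fun i => badB (η (blk (r i))) κ Y γ₁)).card : ℝ) ≤
            ∑ a ∈ (univ.filter (fun a => badB (η a) κ Y γ₁)),
              ((univ.filter (fun i => blk (r i) = a)).card : ℝ) := by exact_mod_cast e2
        have e4 : ∑ a ∈ (univ.filter (fun a => badB (η a) κ Y γ₁)),
              ((univ.filter (fun i => blk (r i) = a)).card : ℝ) ≤
            ∑ a ∈ (univ.filter (fun a => badB (η a) κ Y γ₁)), (n : ℝ) / (2 * B) :=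
          sum_le_sum fun a ha => (hcon a (mem_filter.1 ha).2).le
        rw [sum_const, nsmul_eq_mul] at e4
        have e5 : ((univ.filter (fun a => badB (η a) κ Y γ₁)).card : ℝ) * (n / (2 * B)) ≤
            B * (n / (2 * B)) := by
          have : ((univ.filter (fun a => badB (η a) κ Y γ₁)).card : ℝ) ≤ B := by
            exact_mod_cast h1.le
          gcongr
        have e6 : (B : ℝ) * (n / (2 * B)) = n / 2 := by field_simp
        linarith
      -- the interval
      have hl1 := lower_card (univ.filter (fun i => blk (r i) < a)) (by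
        intro i j hij hi
        simp only [mem_filter, mem_univ, true_and] at hi ⊢
        exact lt_of_le_of_lt (hbm hij) hi)
      have hl2 := lower_card (univ.filter (fun i => blk (r i) ≤ a)) (by
        intro i j hij hi
        simp only [mem_filter, mem_univ, true_and] at hi ⊢
        exact (hbm hij).trans hi)
      simp only [mem_filter, mem_univ, true_and] at hl1 hl2
      have hint : ∀ i : Fin n, ((univ.filter (fun i => blk (r i) < a)).card ≤ (i : ℕ) ∧
          (i : ℕ) < (univ.filter (fun i => blk (r i) ≤ a)).card) ↔ blk (r i) = a := by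
        intro i
        rw [← not_lt, ← hl1, ← hl2]
        constructor
        · rintro ⟨h3, h4⟩; exact le_antisymm h4 (not_lt.1 h3)
        · rintro h3; rw [h3]; exact ⟨lt_irrefl _, le_rfl⟩
      let ξ : Fin n → Fin t := fun i => if blk (r i) < a then ⟨0, ht⟩ else
        if blk (r i) = a then cel ht (r i) else ⟨t - 1, by omega⟩
      have hξ : ∀ i, blk (r i) = a → ξ i = cel ht (r i) := by
        intro i hi
        simp only [ξ]
        rw [if_neg (by rw [hi]; exact lt_irrefl _), if_pos hi]
      have hξm : Monotone ξ := by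
        intro i j hij
        have hb := hbm hij
        simp only at hb
        simp only [ξ]
        by_cases c1 : blk (r i) < a
        · rw [if_pos c1, Fin.le_def]; exact Nat.zero_le _
        · have c1' : ¬ blk (r j) < a := fun h => c1 (lt_of_le_of_lt hb h)
          rw [if_neg c1, if_neg c1']
          by_cases c2 : blk (r j) = a
          · have c3 : blk (r i) = a := le_antisymm (c2 ▸ hb) (not_lt.1 c1)
            rw [if_pos c2, if_pos c3]
            exact cel_mono ht (hr.monotone hij) (c3.trans c2.symm)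
          · rw [if_neg c2, Fin.le_def]
            split_ifs
            · have := (cel ht (r i)).2
              show ((cel ht (r i)) : ℕ) ≤ t - 1
              omega
            · exact le_rfl
      -- exceptional rows
      have hexc : (univ.filter (fun i => blk (r i) = a ∧
          exc (η a) κ Y γ₂ (cel ht (r i)))).card ≤ K * s := by
        have e1 : (univ.filter (fun i => blk (r i) = a ∧ exc (η a) κ Y γ₂ (cel ht (r i)))) ⊆
            (univ.filter (fun x => exc (η a) κ Y γ₂ x)).biUnion
              (fun x => univ.filter (fun i => blk (r i) = a ∧ cel ht (r i) = x)) := by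
          intro i hi
          rw [mem_filter] at hi
          exact mem_biUnion.2 ⟨cel ht (r i), mem_filter.2 ⟨mem_univ _, hi.2.2⟩,
            mem_filter.2 ⟨mem_univ _, hi.2.1, rfl⟩⟩
        refine (card_le_card e1).trans ((card_biUnion_le_card_mul _ _ s ?_).trans ?_)
        · intro x _
          refine (card_le_card_of_injOn (t := range s) (fun i => (r i : ℕ) % s) ?_ ?_).trans
            (card_range s).le
          · intro i _
            simp only [coe_range, Set.mem_Iio]
            exact Nat.mod_lt _ hs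
          · intro i hi j hj hij
            simp only [coe_filter, mem_univ, true_and, Set.mem_ofPred_eq] at hi hj
            exact hr.injective (row_inj ht (hi.1.trans hj.1.symm) (hi.2.trans hj.2.symm) hij)
        · exact Nat.mul_le_mul_right _ (h2 a).le
      have hexc' : ((univ.filter (fun i => blk (r i) = a ∧
          exc (η a) κ Y γ₂ (cel ht (r i)))).card : ℝ) ≤ n / (4 * B) := by
        refine le_trans ?_ hK
        exact_mod_cast hexc
      refine ⟨(a, ⟨(univ.filter (fun i => blk (r i) < a)).card, ?_⟩,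
        ⟨(univ.filter (fun i => blk (r i) ≤ a)).card, ?_⟩, ξ), mem_filter.2 ⟨mem_univ _, hξm, ?_⟩, ?_⟩
      · have := card_le_univ (univ.filter (fun i => blk (r i) < a))
        rw [Fintype.card_fin] at this
        omega
      · have := card_le_univ (univ.filter (fun i => blk (r i) ≤ a))
        rw [Fintype.card_fin] at this
        omega
      · simp only [hint]
        have e1 : (univ.filter (fun i => blk (r i) = a ∧ ¬ exc (η a) κ Y γ₂ (ξ i))) =
            (univ.filter (fun i => blk (r i) = a ∧ ¬ exc (η a) κ Y γ₂ (cel ht (r i)))) := by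
          ext i
          simp only [mem_filter, mem_univ, true_and]
          constructor
          · rintro ⟨h3, h4⟩; rw [hξ i h3] at h4; exact ⟨h3, h4⟩
          · rintro ⟨h3, h4⟩; refine ⟨h3, ?_⟩; rw [hξ i h3]; exact h4
        rw [e1]
        have e2 := card_filter_add_card_filter_not (s := univ.filter (fun i => blk (r i) = a))
          (fun i => exc (η a) κ Y γ₂ (cel ht (r i)))
        rw [filter_filter, filter_filter] at e2
        have e3 : ((univ.filter (fun i => blk (r i) = a ∧
            exc (η a) κ Y γ₂ (cel ht (r i)))).card : ℝ) +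
            ((univ.filter (fun i => blk (r i) = a ∧
              ¬ exc (η a) κ Y γ₂ (cel ht (r i)))).card : ℝ) =
            ((univ.filter (fun i => blk (r i) = a)).card : ℝ) := by exact_mod_cast e2
        have e4 : (n : ℝ) / (2 * B) = n / (4 * B) + n / (4 * B) := by field_simp; ring
        linarith
      · rw [Fintype.mem_piFinset]
        intro i
        simp only
        split_ifs with hi
        · rw [hint i] at hi
          rw [mem_filter, hξ i hi]
          refine ⟨mem_univ _, ?_⟩
          have := hw i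
          rwa [hi] at this
        · exact mem_univ _
  have hcard : ((univ.filter (fun w : Fin n → Fin m => ∃ r : Fin n → Fin (T * t * s),
      StrictMono r ∧ ∀ i, ok (η (blk (r i))) κ Y (cel ht (r i)) (w i))).card : ℝ) ≤
      ∑ α ∈ P1, ((W1 α).card : ℝ) + ∑ P ∈ P2, ((W2 P).card : ℝ) := by
    have := (card_le_card hsub).trans ((card_union_le _ _).trans
      (add_le_add (card_biUnion_le (s := P1) (t := W1)) (card_biUnion_le (s := P2) (t := W2))))
    exact_mod_cast this
  have hP1 : (P1.card : ℝ) ≤ ((n + 1 : ℕ) : ℝ) ^ T := by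
    have : P1.card ≤ (n + 1) ^ T := by
      refine le_trans (card_le_card ?_) (card_mono n T)
      intro α hα
      rw [mem_filter] at hα ⊢
      exact ⟨hα.1, hα.2.1⟩
    exact_mod_cast this
  have hP2 : (P2.card : ℝ) ≤ (T * (n + 1 : ℕ) * (n + 1 : ℕ) * (n + 1 : ℕ) ^ t : ℝ) := by
    have : P2.card ≤ T * (n + 1) * (n + 1) * (n + 1) ^ t := by
      have e1 : P2 ⊆ (univ : Finset (Fin T)) ×ˢ (univ : Finset (Fin (n + 1))) ×ˢ
          (univ : Finset (Fin (n + 1))) ×ˢ (univ.filter (fun α : Fin n → Fin t => Monotone α)) := by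
        intro P hP
        rw [mem_filter] at hP
        simp only [mem_product, mem_univ, true_and, mem_filter]
        exact hP.2.1
      refine (card_le_card e1).trans ?_
      rw [card_product, card_product, card_product]
      simp only [card_univ, Fintype.card_fin]
      have := card_mono n t
      calc T * ((n + 1) * ((n + 1) * _)) ≤ T * ((n + 1) * ((n + 1) * (n + 1) ^ t)) := by gcongr
        _ = _ := by ring
    exact_mod_cast this
  refine hcard.trans (add_le_add ?_ ?_)
  · refine (sum_le_sum hW1).trans ?_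
    rw [sum_const, nsmul_eq_mul]
    gcongr
  · refine (sum_le_sum hW2).trans ?_
    rw [sum_const, nsmul_eq_mul]
    gcongr

end count

end Pool.Agent.Helper689.RS2
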