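import Pool.Agent.Helper689.RS1
import Pool.Agent.Helper689.RS2

set_option autoImplicit false

/-! A good random colouring exists. -/

namespace Pool.Agent.Helper689.RS3

open Finset Pool.Agent.Helper689.RS1 Pool.Agent.Helper689.RS2

lemma pr_coord {ι E : Type*} [Fintype ι] [DecidableEq ι] [Fintype E] [Nonempty E] (i : ι)
    (S : E → Prop) : pr (fun f : ι → E => S (f i)) = pr S := by
  classical
  have h := pr_pi (fun i' (e : E) => i' = i → S e)
  have h1 : pr (fun f : ι → E => S (f i)) = pr (fun f : ι → E => ∀ i', i' = i → S (f i')) :=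
    pr_congr (by simp)
  rw [h1, h]
  have : ∀ i' : ι, pr (fun e : E => i' = i → S e) = if i' = i then pr S else 1 := by
    intro i'
    split_ifs with hh
    · exact pr_congr (by simp [hh])
    · rw [← pr_true (Ω := E)]; exact pr_congr (by simp [hh])
  simp only [this]
  rw [prod_ite_eq' univ i]
  simp

lemma pr_zero {q : ℕ} (hq : 0 < q) : pr (fun v : Fin q => (v : ℕ) = 0) = 1 / q := by
  rw [pr_eq, Fintype.card_fin]
  have : (univ.filter (fun v : Fin q => (v : ℕ) = 0)) = {⟨0, hq⟩} := by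
    ext v; simp [Fin.ext_iff]
  rw [this, card_singleton]
  simp

lemma pr_bool (b : Bool) : pr (fun v : Bool => v = b) = 1 / 2 := by
  rw [pr_eq, filter_eq']
  simp

lemma letter_prob {d t q : ℕ} (hq : 0 < q) (κ : Bool) :
    (1 / 2 : ℝ) ^ d * (1 - t * (1 / q : ℝ) ^ d) ≤
      pr (fun e : Fin d → Bool × (Fin t → Fin q) =>
        ¬ ∃ x, ∀ j, xor (e j).1 (decide (((e j).2 x : ℕ) = 0)) = κ) := by
  have : Nonempty (Fin q) := ⟨⟨0, hq⟩⟩
  have h1 : pr (fun z : (Fin d → Bool) × (Fin d → Fin t → Fin q) =>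
      (∀ j, z.1 j = !κ) ∧ ¬ ∃ x, ∀ j, (z.2 j x : ℕ) = 0) ≤
      pr (fun e : Fin d → Bool × (Fin t → Fin q) =>
        ¬ ∃ x, ∀ j, xor (e j).1 (decide (((e j).2 x : ℕ) = 0)) = κ) := by
    let E1 : (Fin d → Bool × (Fin t → Fin q)) ≃ (Fin d → Bool) × (Fin d → Fin t → Fin q) :=
      { toFun := fun e => (fun j => (e j).1, fun j => (e j).2)
        invFun := fun z => fun j => (z.1 j, z.2 j)
        left_inv := fun _ => rfl
        right_inv := fun _ => rfl }
    rw [← pr_equiv E1]
    apply pr_mono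
    intro e he hx
    obtain ⟨h2, h3⟩ := he
    apply h3
    obtain ⟨x, hx⟩ := hx
    refine ⟨x, fun j => ?_⟩
    have h4 := hx j
    have h5 : (e j).1 = !κ := h2 j
    rw [h5] at h4
    show ((e j).2 x : ℕ) = 0
    by_contra hne
    rw [decide_eq_false hne] at h4
    cases κ <;> simp at h4
  refine le_trans ?_ h1
  rw [pr_prod_mul (fun τ : Fin d → Bool => ∀ j, τ j = !κ)
    (fun φ : Fin d → Fin t → Fin q => ¬ ∃ x, ∀ j, (φ j x : ℕ) = 0)]
  have h2 : pr (fun τ : Fin d → Bool => ∀ j, τ j = !κ) = (1 / 2 : ℝ) ^ d := by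
    rw [pr_pi (fun _ (b : Bool) => b = !κ)]
    simp only [pr_bool]
    simp
  rw [h2, pr_not]
  have h3 : pr (fun φ : Fin d → Fin t → Fin q => ∃ x, ∀ j, (φ j x : ℕ) = 0) ≤
      t * (1 / q : ℝ) ^ d := by
    refine (pr_exists_le (fun (x : Fin t) (φ : Fin d → Fin t → Fin q) =>
      ∀ j, (φ j x : ℕ) = 0)).trans ?_
    have : ∀ x : Fin t, pr (fun φ : Fin d → Fin t → Fin q => ∀ j, (φ j x : ℕ) = 0) =
        (1 / q : ℝ) ^ d := by
      intro x
      rw [pr_pi (fun _ (g : Fin t → Fin q) => (g x : ℕ) = 0)]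
      have : pr (fun g : Fin t → Fin q => (g x : ℕ) = 0) = 1 / q := by
        rw [pr_coord x (fun v : Fin q => (v : ℕ) = 0), pr_zero hq]
      simp only [this]
      simp
    simp only [this]
    simp
  have h4 : (0 : ℝ) ≤ (1 / 2 : ℝ) ^ d := by positivity
  apply mul_le_mul_of_nonneg_left _ h4
  linarith

section
variable {t q m d : ℕ} {Col : Type} [Fintype Col] [DecidableEq Col]

theorem pr_badB (hq : 0 < q) (κ : Bool) (Y : Fin m → Fin d → Col)
    (hY : Function.Injective (fun p : Fin m × Fin d => Y p.1 p.2)) {γ p : ℝ}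
    (hp : p ≤ (1 / 2 : ℝ) ^ d * (1 - t * (1 / q : ℝ) ^ d)) :
    pr (fun ω : Blk t q Col => badB ω κ Y γ) ≤ Real.exp (γ * m - p * m / 2) := by
  classical
  have : Nonempty (Fin q) := ⟨⟨0, hq⟩⟩
  let eb : (Col → Bool × (Fin t → Fin q)) ≃ Blk t q Col :=
    { toFun := fun f => (fun y => (f y).1, fun x y => (f y).2 x)
      invFun := fun ω => fun y => (ω.1 y, fun x => ω.2 x y)
      left_inv := fun _ => rfl
      right_inv := fun _ => rfl }
  rw [← pr_equiv eb]
  let S' : (Fin m × Fin d → Bool × (Fin t → Fin q)) → Prop := fun g =>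
    ((univ.filter (fun l : Fin m => ¬ ∃ x, ∀ j, xor (g (l, j)).1
      (decide (((g (l, j)).2 x : ℕ) = 0)) = κ)).card : ℝ) < γ * m
  have h1 : pr (fun f : Col → Bool × (Fin t → Fin q) => badB (eb f) κ Y γ) =
      pr (fun f : Col → Bool × (Fin t → Fin q) => S' (fun p => f (Y p.1 p.2))) := by
    apply pr_congr
    intro f
    have e : (univ.filter (fun l => ¬ cov (eb f) κ Y l)) = (univ.filter (fun l : Fin m =>
        ¬ ∃ x, ∀ j, xor (f (Y l j)).1 (decide (((f (Y l j)).2 x : ℕ) = 0)) = κ)) := by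
      apply filter_congr
      intro l _
      rfl
    unfold badB
    simp only [S']
    rw [← e]
  rw [h1, pr_restrict hY S', ← pr_equiv (Equiv.curry (Fin m) (Fin d) _).symm]
  have h2 := pr_chernoff (ι := Fin m) (E := Fin d → Bool × (Fin t → Fin q))
    (fun _ e => ¬ ∃ x, ∀ j, xor (e j).1 (decide (((e j).2 x : ℕ) = 0)) = κ) (p := p) (z := γ * m)
    (fun _ => hp.trans (letter_prob hq κ))
  rw [Fintype.card_fin] at h2
  refine le_trans (le_of_eq ?_) h2
  apply pr_congr
  intro f
  simp only [S']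
  rfl

theorem pr_exc (hd : 0 < d) (hq : 2 ≤ q) (κ : Bool) (Y : Fin m → Fin d → Col)
    (hY : Function.Injective (fun p : Fin m × Fin d => Y p.1 p.2)) {γ : ℝ} (K : ℕ) :
    pr (fun ω : Blk t q Col => K ≤ (open Classical in
      (univ.filter (fun x => exc ω κ Y γ x)).card)) ≤
      (t * Real.exp (γ * m - (1 / q) * m / 2)) ^ K := by
  classical
  have : Nonempty (Fin q) := ⟨⟨0, by omega⟩⟩
  apply pr_prod_le (by positivity)
  intro τ
  let Bad : (Col → Fin q) → Prop := fun ψ =>
    ((univ.filter (fun l : Fin m => ¬ ∀ j, xor (τ (Y l j)) (decide ((ψ (Y l j) : ℕ) = 0)) = κ)).card :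
      ℝ) < γ * m
  have h1 := pr_many (ι := Fin t) Bad K
  rw [Fintype.card_fin] at h1
  have h2 : pr Bad ≤ Real.exp (γ * m - (1 / q) * m / 2) := by
    let y : Fin m → Col := fun l => Y l ⟨0, hd⟩
    have hy : Function.Injective y := by
      intro l l' hl
      have := @hY (l, ⟨0, hd⟩) (l', ⟨0, hd⟩) hl
      exact congrArg Prod.fst this
    let S' : (Fin m → Fin q) → Prop := fun g =>
      ((univ.filter (fun l : Fin m => ¬ (xor (τ (y l)) (decide ((g l : ℕ) = 0)) = κ))).card : ℝ) <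
        γ * m
    have h3 : pr Bad ≤ pr (fun ψ : Col → Fin q => S' (fun l => ψ (y l))) := by
      apply pr_mono
      intro ψ hψ
      refine lt_of_le_of_lt ?_ hψ
      have : (univ.filter (fun l : Fin m =>
          ¬ (xor (τ (y l)) (decide ((ψ (y l) : ℕ) = 0)) = κ))).card ≤
          (univ.filter (fun l : Fin m =>
            ¬ ∀ j, xor (τ (Y l j)) (decide ((ψ (Y l j) : ℕ) = 0)) = κ)).card := by
        apply card_le_card
        intro l hl
        rw [mem_filter] at hl ⊢
        exact ⟨hl.1, fun hh => hl.2 (hh _)⟩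
      exact_mod_cast this
    refine h3.trans ?_
    rw [pr_restrict hy S']
    have h4 := pr_chernoff (ι := Fin m) (E := Fin q)
      (fun l v => ¬ (xor (τ (y l)) (decide ((v : ℕ) = 0)) = κ)) (p := 1 / q) (z := γ * m) (by
        intro l
        have hq0 : (0 : ℝ) < q := by exact_mod_cast (by omega : 0 < q)
        have hq2 : (2 : ℝ) ≤ q := by exact_mod_cast hq
        by_cases hc : τ (y l) = κ
        · have : pr (fun v : Fin q => ¬ (xor (τ (y l)) (decide ((v : ℕ) = 0)) = κ)) =
            pr (fun v : Fin q => (v : ℕ) = 0) := by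
            apply pr_congr
            intro v
            rw [hc]
            by_cases hv : (v : ℕ) = 0
            · cases κ <;> simp [hv]
            · cases κ <;> simp [hv]
          rw [this, pr_zero (by omega)]
        · have : pr (fun v : Fin q => ¬ (xor (τ (y l)) (decide ((v : ℕ) = 0)) = κ)) =
            pr (fun v : Fin q => ¬ (v : ℕ) = 0) := by
            apply pr_congr
            intro v
            have hc' : τ (y l) = !κ := by
              revert hc; cases τ (y l) <;> cases κ <;> simp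
            rw [hc']
            by_cases hv : (v : ℕ) = 0
            · cases κ <;> simp [hv]
            · cases κ <;> simp [hv]
          rw [this, pr_not, pr_zero (by omega), div_le_iff₀ hq0, sub_mul, div_mul_cancel₀ _ hq0.ne']
          linarith)
    rw [Fintype.card_fin] at h4
    exact h4
  have h5 : (t * pr Bad) ^ K ≤ (t * Real.exp (γ * m - (1 / q) * m / 2)) ^ K := by
    have := pr_nonneg Bad
    gcongr
  refine le_trans (le_of_eq ?_) (h1.trans h5)
  apply pr_congr
  intro φ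
  have : ∀ x, exc ((τ, φ) : Blk t q Col) κ Y γ x ↔ Bad (φ x) := by
    intro x
    have e : (univ.filter (fun l => ¬ ok ((τ, φ) : Blk t q Col) κ Y x l)) =
        (univ.filter (fun l : Fin m =>
          ¬ ∀ j, xor (τ (Y l j)) (decide ((φ x (Y l j) : ℕ) = 0)) = κ)) := by
      apply filter_congr
      intro l _
      rfl
    unfold exc
    simp only [Bad]
    rw [← e]
  have e : (univ.filter (fun x => exc ((τ, φ) : Blk t q Col) κ Y γ x)) =
      (univ.filter (fun x => Bad (φ x))) := by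
    ext x; simp only [mem_filter, this]
  rw [e]

/-- A good colouring. -/
theorem exists_good {T B K : ℕ} (hd : 0 < d) (hq : 2 ≤ q) {γ₁ γ₂ p : ℝ}
    (hp : p ≤ (1 / 2 : ℝ) ^ d * (1 - t * (1 / q : ℝ) ^ d))
    (hsmall : 2 * ((Fintype.card Col : ℝ) ^ d) ^ m *
      ((T * Real.exp (γ₁ * m - p * m / 2)) ^ B +
        T * (t * Real.exp (γ₂ * m - (1 / q) * m / 2)) ^ K) < 1) :
    ∃ η : Fin T → Blk t q Col, ∀ (κ : Bool) (Y : Fin m → Fin d → Col),
      Function.Injective (fun p : Fin m × Fin d => Y p.1 p.2) →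
      (open Classical in (univ.filter (fun a => badB (η a) κ Y γ₁)).card) < B ∧
      ∀ a, (open Classical in (univ.filter (fun x => exc (η a) κ Y γ₂ x)).card) < K := by
  classical
  have : Nonempty (Fin q) := ⟨⟨0, by omega⟩⟩
  let Ev : (Bool × (Fin m → Fin d → Col)) → (Fin T → Blk t q Col) → Prop := fun P η =>
    Function.Injective (fun p : Fin m × Fin d => P.2 p.1 p.2) ∧
      (B ≤ (univ.filter (fun a => badB (η a) P.1 P.2 γ₁)).card ∨
        ∃ a, K ≤ (univ.filter (fun x => exc (η a) P.1 P.2 γ₂ x)).card)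
  have h1 : ∀ P, pr (Ev P) ≤ (T * Real.exp (γ₁ * m - p * m / 2)) ^ B +
        T * (t * Real.exp (γ₂ * m - (1 / q) * m / 2)) ^ K := by
    intro P
    by_cases hI : Function.Injective (fun p : Fin m × Fin d => P.2 p.1 p.2)
    · have h2 : pr (Ev P) ≤ pr (fun η : Fin T → Blk t q Col =>
          B ≤ (univ.filter (fun a => badB (η a) P.1 P.2 γ₁)).card) +
          pr (fun η : Fin T → Blk t q Col =>
            ∃ a, K ≤ (univ.filter (fun x => exc (η a) P.1 P.2 γ₂ x)).card) := by
        refine le_trans (pr_mono ?_) (pr_or_le _ _)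
        intro η hη
        exact hη.2
      refine h2.trans (add_le_add ?_ ?_)
      · have h3 := pr_many (ι := Fin T) (fun ω : Blk t q Col => badB ω P.1 P.2 γ₁) B
        rw [Fintype.card_fin] at h3
        refine h3.trans ?_
        have h4 := pr_badB (t := t) (q := q) (by omega) P.1 P.2 hI (γ := γ₁) hp
        have h5 := pr_nonneg (fun ω : Blk t q Col => badB ω P.1 P.2 γ₁)
        gcongr
      · refine (pr_exists_le (fun (a : Fin T) (η : Fin T → Blk t q Col) =>
          K ≤ (univ.filter (fun x => exc (η a) P.1 P.2 γ₂ x)).card)).trans ?_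
        have h3 : ∀ a : Fin T, pr (fun η : Fin T → Blk t q Col =>
            K ≤ (univ.filter (fun x => exc (η a) P.1 P.2 γ₂ x)).card) ≤
            (t * Real.exp (γ₂ * m - (1 / q) * m / 2)) ^ K := by
          intro a
          rw [pr_coord a (fun ω : Blk t q Col =>
            K ≤ (univ.filter (fun x => exc ω P.1 P.2 γ₂ x)).card)]
          exact pr_exc hd hq P.1 P.2 hI K
        refine (sum_le_sum fun a _ => h3 a).trans ?_
        simp
    · have : pr (Ev P) ≤ 0 := by
        have h2 : pr (Ev P) ≤ pr (fun _ : Fin T → Blk t q Col => False) :=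
          pr_mono fun η hη => hI hη.1
        refine h2.trans (le_of_eq ?_)
        rw [pr_eq]; simp
      refine this.trans ?_
      positivity
  have h6 : pr (fun η : Fin T → Blk t q Col => ∃ P, Ev P η) < 1 := by
    refine lt_of_le_of_lt (pr_exists_le Ev) ?_
    refine lt_of_le_of_lt (sum_le_sum fun P _ => h1 P) ?_
    rw [sum_const, nsmul_eq_mul, card_univ, Fintype.card_prod, Fintype.card_bool,
      Fintype.card_fun, Fintype.card_fun, Fintype.card_fin, Fintype.card_fin]
    push_cast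
    exact hsmall
  obtain ⟨η, hη⟩ := exists_of_pr_lt_one h6
  push Not at hη
  refine ⟨η, fun κ Y hY => ?_⟩
  have h7 := hη (κ, Y)
  simp only [Ev, not_and, not_or, not_exists, not_le] at h7
  exact h7 hY

end

/-- A word that is not realised. -/
theorem exists_word {T t s q m n d B K N : ℕ} (ht : 0 < t) (hs : 0 < s) (hd : 0 < d) (hq : 2 ≤ q)
    (hB : 0 < B) {γ₁ γ₂ p : ℝ} (hγ1 : 0 ≤ γ₁) (hγ2 : 0 ≤ γ₂)
    (hp : p ≤ (1 / 2 : ℝ) ^ d * (1 - t * (1 / q : ℝ) ^ d))
    (hK : (K : ℝ) * s ≤ n / (4 * B))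
    (hsmall : 2 * ((N : ℝ) ^ d) ^ m *
      ((T * Real.exp (γ₁ * m - p * m / 2)) ^ B +
        T * (t * Real.exp (γ₂ * m - (1 / q) * m / 2)) ^ K) < 1)
    (hm : 0 < m)
    (hwords : 2 * ((N : ℝ) ^ d) ^ m *
      (((n + 1 : ℕ) : ℝ) ^ T * Real.exp (-(γ₁ * (n / 2))) +
      (T * (n + 1 : ℕ) * (n + 1 : ℕ) * (n + 1 : ℕ) ^ t : ℝ) *
        Real.exp (-(γ₂ * (n / (4 * B))))) < 1) :
    ∃ (η : Fin T → Blk t q (Fin N)) (w : Fin n → Fin m), ∀ (κ : Bool) (Y : Fin m → Fin d → Fin N),
      Function.Injective (fun p : Fin m × Fin d => Y p.1 p.2) →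
      ¬ ∃ r : Fin n → Fin (T * t * s), StrictMono r ∧
        ∀ i, ok (η (blk (r i))) κ Y (cel ht (r i)) (w i) := by
  classical
  obtain ⟨η, hη⟩ := exists_good (Col := Fin N) (t := t) (q := q) (m := m) (d := d) (T := T)
    (B := B) (K := K) hd hq (γ₁ := γ₁) (γ₂ := γ₂) hp (by rw [Fintype.card_fin]; exact hsmall)
  refine ⟨η, ?_⟩
  by_contra hcon
  push Not at hcon
  let R : (Bool × (Fin m → Fin d → Fin N)) → Finset (Fin n → Fin m) := fun P =>
    if Function.Injective (fun p : Fin m × Fin d => P.2 p.1 p.2) then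
      univ.filter (fun w : Fin n → Fin m => ∃ r : Fin n → Fin (T * t * s), StrictMono r ∧
        ∀ i, ok (η (blk (r i))) P.1 P.2 (cel ht (r i)) (w i)) else ∅
  have h1 : (univ : Finset (Fin n → Fin m)) ⊆ univ.biUnion R := by
    intro w _
    obtain ⟨κ, Y, hY, r, hr, hw⟩ := hcon w
    refine mem_biUnion.2 ⟨(κ, Y), mem_univ _, ?_⟩
    simp only [R]
    rw [if_pos hY]
    exact mem_filter.2 ⟨mem_univ _, r, hr, hw⟩
  have h2 := (card_le_card h1).trans card_biUnion_le
  have hbound : ∀ P, ((R P).card : ℝ) ≤ (m : ℝ) ^ n *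
      (((n + 1 : ℕ) : ℝ) ^ T * Real.exp (-(γ₁ * (n / 2))) +
      (T * (n + 1 : ℕ) * (n + 1 : ℕ) * (n + 1 : ℕ) ^ t : ℝ) *
        Real.exp (-(γ₂ * (n / (4 * B))))) := by
    intro P
    by_cases hI : Function.Injective (fun p : Fin m × Fin d => P.2 p.1 p.2)
    · simp only [R]
      rw [if_pos hI]
      have h3 := hη P.1 P.2 hI
      have h4 := count (n := n) (s := s) ht hs hB hγ1 hγ2 hK η P.1 P.2 h3.1 h3.2
      refine le_trans (le_of_eq ?_) (h4.trans (le_of_eq ?_))
      · congr!
      · ring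
    · simp only [R]
      rw [if_neg hI, card_empty]
      push_cast
      positivity
  have h3 : ((univ : Finset (Fin n → Fin m)).card : ℝ) ≤ ∑ P, ((R P).card : ℝ) := by
    exact_mod_cast h2
  have h4 := h3.trans (sum_le_sum fun P _ => hbound P)
  rw [sum_const, nsmul_eq_mul, card_univ, card_univ, Fintype.card_prod, Fintype.card_bool,
      Fintype.card_fun, Fintype.card_fun, Fintype.card_fun, Fintype.card_fin, Fintype.card_fin,
      Fintype.card_fin, Fintype.card_fin] at h4
  push_cast at h4 hwords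
  have hm' : (0 : ℝ) < (m : ℝ) ^ n := by positivity
  have h5 : (m : ℝ) ^ n * 1 ≤ (m : ℝ) ^ n * (2 * ((N : ℝ) ^ d) ^ m *
      (((n : ℝ) + 1) ^ T * Real.exp (-(γ₁ * (n / 2))) +
      (T * ((n : ℝ) + 1) * ((n : ℝ) + 1) * ((n : ℝ) + 1) ^ t : ℝ) *
        Real.exp (-(γ₂ * (n / (4 * B)))))) := by
    refine le_trans (le_of_eq (mul_one _)) (h4.trans (le_of_eq ?_))
    ring
  have h6 := le_of_mul_le_mul_left h5 hm'
  linarith

end Pool.Agent.Helper689.RS3
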