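import Pool.Agent.Helper689.RS0
import Pool.Agent.Helper689.RS3

set_option autoImplicit false

/-! From a word to a matrix. -/

namespace Pool.Agent.Helper689.RS4

open Finset Pool.Agent.Helper689.RS0 Pool.Agent.Helper689.RS2

theorem isRamsey_mono {n : ℕ} {M : Fin n → Fin n → Bool} {N N' : ℕ} (h : N ≤ N')
    (hM : IsRamsey M N) : IsRamsey M N' := by
  intro c
  obtain ⟨r, s, hr, hs, col, hc⟩ := hM (fun a b => c (Fin.castLE h a) (Fin.castLE h b))
  exact ⟨fun i => Fin.castLE h (r i), fun i => Fin.castLE h (s i),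
    fun i j hij => hr hij, fun i j hij => hs hij, col, hc⟩

/-- padding with zero rows and columns -/
theorem pad {n n' : ℕ} (h : n ≤ n') {d N : ℕ} {M : Fin n → Fin n → Bool} (hM : RowSparse d M)
    (hR : ¬ IsRamsey M N) : ∃ M' : Fin n' → Fin n' → Bool, RowSparse d M' ∧ ¬ IsRamsey M' N := by
  classical
  let M' : Fin n' → Fin n' → Bool := fun a b =>
    if ha : (a : ℕ) < n then (if hb : (b : ℕ) < n then M ⟨a, ha⟩ ⟨b, hb⟩ else false) else false
  refine ⟨M', ?_, ?_⟩
  · intro a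
    by_cases ha : (a : ℕ) < n
    · refine le_trans ?_ (hM ⟨a, ha⟩)
      refine card_le_card_of_injOn
        (fun b => if hb : (b : ℕ) < n then ⟨b, hb⟩ else ⟨a, ha⟩) ?_ ?_
      · intro b hb
        simp only [M', coe_filter, mem_univ, true_and, Set.mem_ofPred_eq, dif_pos ha] at hb ⊢
        by_cases hb' : (b : ℕ) < n
        · rw [dif_pos hb'] at hb ⊢; exact hb
        · rw [dif_neg hb'] at hb; exact absurd hb (by simp)
      · intro b hb b' hb' hbb
        simp only [M', coe_filter, mem_univ, true_and, Set.mem_ofPred_eq, dif_pos ha] at hb hb'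
        have h1 : (b : ℕ) < n := by
          by_contra hcon; rw [dif_neg hcon] at hb; exact absurd hb (by simp)
        have h2 : (b' : ℕ) < n := by
          by_contra hcon; rw [dif_neg hcon] at hb'; exact absurd hb' (by simp)
        simp only [dif_pos h1, dif_pos h2, Fin.mk.injEq] at hbb
        exact Fin.ext hbb
    · have : univ.filter (fun b => M' a b = true) = ∅ := by
        rw [filter_eq_empty_iff]
        intro b _
        simp [M', ha]
      rw [this]; simp
  · intro hcon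
    apply hR
    intro c
    obtain ⟨r, s, hr, hs, col, hc⟩ := hcon c
    refine ⟨fun i => r (Fin.castLE h i), fun i => s (Fin.castLE h i),
      fun i j hij => hr hij, fun i j hij => hs hij, col, ?_⟩
    intro a b hab
    apply hc
    simp only [M', Fin.val_castLE, a.2, b.2, dif_pos]
    exact hab

theorem lt_f {n d N : ℕ} (hn : 1 ≤ n) {M : Fin n → Fin n → Bool} (hM : RowSparse d M)
    (hR : ¬ IsRamsey M N) : N < f d n := by
  classical
  have h1 : N < R M := by
    by_contra hcon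
    push Not at hcon
    have hmem : IsRamsey M (R M) := Nat.sInf_mem (s := {N | IsRamsey M N}) ⟨_, isRamsey hn hM⟩
    exact hR (isRamsey_mono hcon hmem)
  refine lt_of_lt_of_le h1 ?_
  unfold f
  exact Finset.le_sup (f := R) (mem_filter.2 ⟨mem_univ _, hM⟩)

theorem word_to_matrix {T t s q m n d : ℕ} (ht : 0 < t) (hd : 0 < d) (hdm : d * m ≤ n)
    (η : Fin T → Blk t q (Fin (T * t * s))) (w : Fin n → Fin m)
    (h : ∀ (κ : Bool) (Y : Fin m → Fin d → Fin (T * t * s)),
      Function.Injective (fun p : Fin m × Fin d => Y p.1 p.2) →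
      ¬ ∃ r : Fin n → Fin (T * t * s), StrictMono r ∧
        ∀ i, ok (η (blk (r i))) κ Y (cel ht (r i)) (w i)) :
    ∃ M : Fin n → Fin n → Bool, RowSparse d M ∧ ¬ IsRamsey M (T * t * s) := by
  classical
  refine ⟨fun i b => decide ((b : ℕ) / d = (w i : ℕ)), ?_, ?_⟩
  · intro i
    have hr : (range d).card = d := card_range d
    refine le_trans (card_le_card_of_injOn (t := range d) (fun b : Fin n => (b : ℕ) % d) ?_ ?_)
      hr.le
    · intro b _
      simp only [coe_range, Set.mem_Iio]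
      exact Nat.mod_lt _ hd
    · intro b hb b' hb' hbb
      simp only [decide_eq_true_eq, coe_filter, mem_univ, true_and, Set.mem_ofPred_eq] at hb hb'
      simp only at hbb
      have h1 := Nat.div_add_mod (b : ℕ) d
      have h2 := Nat.div_add_mod (b' : ℕ) d
      apply Fin.ext
      rw [← h1, ← h2, hb, hb', hbb]
  · intro hcon
    obtain ⟨r, σ, hr, hσ, col, hc⟩ := hcon (fun r y => colr (η (blk r)) (cel ht r) y)
    have hlt : ∀ (l : Fin m) (j : Fin d), d * (l : ℕ) + j < n := by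
      intro l j
      have h1 := l.2
      have h2 := j.2
      have h3 : d * (l : ℕ) + d ≤ d * m := by
        calc d * (l : ℕ) + d = d * ((l : ℕ) + 1) := by ring
          _ ≤ d * m := Nat.mul_le_mul_left _ h1
      omega
    have hdiv : ∀ (l : Fin m) (j : Fin d), (d * (l : ℕ) + j) / d = l := by
      intro l j
      rw [Nat.mul_add_div hd, Nat.div_eq_of_lt j.2, add_zero]
    have hmod : ∀ (l : Fin m) (j : Fin d), (d * (l : ℕ) + j) % d = j := by
      intro l j
      rw [Nat.mul_add_mod, Nat.mod_eq_of_lt j.2]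
    refine h col (fun l j => σ ⟨d * (l : ℕ) + j, hlt l j⟩) ?_ ⟨r, hr, ?_⟩
    · rintro ⟨l, j⟩ ⟨l', j'⟩ hll
      have h1 := congrArg Fin.val (hσ.injective hll)
      simp only at h1
      have h2 := congrArg (fun x => x / d) h1
      have h3 := congrArg (fun x => x % d) h1
      simp only [hdiv, hmod] at h2 h3
      rw [Fin.ext h2, Fin.ext h3]
    · intro i j
      have := hc i ⟨d * (w i : ℕ) + j, hlt _ _⟩ (by simp only [hdiv, decide_true])
      exact this

/-- The numerical estimates. -/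
theorem numerics {d m T t u q n N : ℕ} {Λ p : ℝ}
    (hp : p = (1 / 2 : ℝ) ^ (d + 1)) (hΛ : 0 ≤ Λ)
    (hN : (N : ℝ) ≤ Real.exp Λ) (hT : (T : ℝ) ≤ Real.exp Λ) (ht : (t : ℝ) ≤ Real.exp Λ)
    (hn : ((n + 1 : ℕ) : ℝ) ≤ Real.exp Λ)
    (hmq : m = q * u) (hq : 0 < q) (hu : 0 < u) (hm : 0 < m) (hnT : n = T * u ^ 2)
    (hnt : n = q * u * (t * u)) (hmt : m ≤ t) (hmT : m ≤ T)
    (hstar : (2 : ℝ) ^ (d + 6) * (d + 5) * (Λ + 2) ≤ u) :
    2 * ((N : ℝ) ^ d) ^ m * ((T * Real.exp (p / 4 * m - p * m / 2)) ^ u +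
        T * (t * Real.exp (1 / (4 * q) * m - (1 / q) * m / 2)) ^ m) < 1 ∧
    2 * ((N : ℝ) ^ d) ^ m *
      (((n + 1 : ℕ) : ℝ) ^ T * Real.exp (-(p / 4 * (n / 2))) +
      (T * (n + 1 : ℕ) * (n + 1 : ℕ) * (n + 1 : ℕ) ^ t : ℝ) *
        Real.exp (-(1 / (4 * q) * (n / (4 * u))))) < 1 := by
  have hqR : (0 : ℝ) < q := by exact_mod_cast hq
  have huR : (0 : ℝ) < u := by exact_mod_cast hu
  have hmR : (1 : ℝ) ≤ m := by exact_mod_cast hm
  have hmtR : (m : ℝ) ≤ t := by exact_mod_cast hmt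
  have hmTR : (m : ℝ) ≤ T := by exact_mod_cast hmT
  have hmqR : (m : ℝ) = q * u := by exact_mod_cast hmq
  have hnTR : (n : ℝ) = T * u ^ 2 := by exact_mod_cast hnT
  have hntR : (n : ℝ) = q * u * (t * u) := by exact_mod_cast hnt
  have hp0 : 0 < p := by rw [hp]; positivity
  have hpd : p * (2 : ℝ) ^ (d + 6) = 32 := by
    rw [hp, show (2 : ℝ) ^ (d + 6) = 2 ^ (d + 1) * 2 ^ 5 by rw [← pow_add], ← mul_assoc, ← mul_pow]
    norm_num
  -- consequences of the size of `u`
  have hs1 : 32 * ((d + 5) * (Λ + 2)) ≤ p * u := by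
    have := mul_le_mul_of_nonneg_left hstar hp0.le
    calc 32 * ((d + 5) * (Λ + 2)) = p * (2 ^ (d + 6) * (d + 5) * (Λ + 2)) := by
          rw [← hpd]; ring
      _ ≤ p * u := this
  have hs2 : 64 * ((d + 5) * (Λ + 2)) ≤ u := by
    have h1 : (64 : ℝ) ≤ 2 ^ (d + 6) := by
      rw [pow_add]
      have : (1 : ℝ) ≤ 2 ^ d := one_le_pow₀ (by norm_num)
      norm_num; linarith
    have h2 : (0 : ℝ) ≤ (d + 5) * (Λ + 2) := by positivity
    have := mul_le_mul_of_nonneg_right h1 h2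
    linarith [this, hstar, mul_assoc ((2 : ℝ) ^ (d + 6)) ((d : ℝ) + 5) (Λ + 2)]
  have hu1 : (1 : ℝ) ≤ u := by exact_mod_cast hu
  have hdR : (0 : ℝ) ≤ d := by positivity
  have hdΛ : 0 ≤ (d : ℝ) * Λ := by positivity
  have hNp : ((N : ℝ) ^ d) ^ m ≤ Real.exp (m * (d * Λ)) := by
    have h1 : (N : ℝ) ^ d ≤ Real.exp (d * Λ) := by
      rw [Real.exp_nat_mul]; gcongr
    have h2 : ((N : ℝ) ^ d) ^ m ≤ (Real.exp (d * Λ)) ^ m := by gcongr
    rwa [← Real.exp_nat_mul] at h2
  -- generic combination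
  have hlast : ∀ X : ℝ, X ≤ -2 → 2 * Real.exp X < 1 / 2 := by
    intro X hX
    have h1 : Real.exp X ≤ Real.exp (-2) := Real.exp_le_exp.2 hX
    have h2 : Real.exp (-2) < 1 / 4 := by
      have h3 := Real.exp_one_gt_d9
      have h4 : Real.exp (-2) = (Real.exp 1 ^ 2)⁻¹ := by
        rw [← Real.exp_nat_mul, ← Real.exp_neg]; norm_num
      rw [h4, inv_lt_comm₀ (by positivity) (by norm_num)]
      nlinarith
    linarith
  -- the four terms
  have t1 : (T * Real.exp (p / 4 * m - p * m / 2)) ^ u ≤ Real.exp (u * (Λ - p * m / 4)) := by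
    have : T * Real.exp (p / 4 * m - p * m / 2) ≤ Real.exp (Λ - p * m / 4) := by
      rw [show Λ - p * m / 4 = Λ + (p / 4 * m - p * m / 2) by ring, Real.exp_add]
      gcongr
    rw [Real.exp_nat_mul]
    gcongr
  have t2 : T * (t * Real.exp (1 / (4 * q) * m - (1 / q) * m / 2)) ^ m ≤
      Real.exp (Λ + m * (Λ - u / 4)) := by
    have : t * Real.exp (1 / (4 * q) * m - (1 / q) * m / 2) ≤ Real.exp (Λ - u / 4) := by
      have e : 1 / (4 * q) * m - (1 / q) * m / 2 = - (u / 4 : ℝ) := by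
        rw [hmqR]; field_simp; ring
      rw [e, sub_eq_add_neg, Real.exp_add]
      gcongr
    rw [Real.exp_add, Real.exp_nat_mul]
    gcongr
  have t3 : ((n + 1 : ℕ) : ℝ) ^ T * Real.exp (-(p / 4 * (n / 2))) ≤
      Real.exp (T * Λ - p * n / 8) := by
    rw [show T * Λ - p * n / 8 = T * Λ + -(p / 4 * (n / 2)) by ring, Real.exp_add,
      Real.exp_nat_mul]
    gcongr
  have t4 : (T * (n + 1 : ℕ) * (n + 1 : ℕ) * (n + 1 : ℕ) ^ t : ℝ) *
        Real.exp (-(1 / (4 * q) * (n / (4 * u)))) ≤ Real.exp ((t + 3) * Λ - t * u / 16) := by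
    have e : -(1 / (4 * q) * (n / (4 * u))) = - (t * u / 16 : ℝ) := by
      rw [hntR]; field_simp; ring
    rw [e, show (t + 3) * Λ - t * u / 16 = Λ + Λ + Λ + t * Λ + - (t * u / 16 : ℝ) by ring,
      Real.exp_add, Real.exp_add, Real.exp_add, Real.exp_add, Real.exp_nat_mul]
    gcongr
  have comb : ∀ A B X Y : ℝ, A ≤ Real.exp X → B ≤ Real.exp Y →
      m * (d * Λ) + X ≤ -2 → m * (d * Λ) + Y ≤ -2 → 0 ≤ A + B →
      2 * ((N : ℝ) ^ d) ^ m * (A + B) < 1 := by
    intro A B X Y hA hB hX hY hAB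
    have h1 : ((N : ℝ) ^ d) ^ m * (A + B) ≤ Real.exp (m * (d * Λ)) * (Real.exp X + Real.exp Y) := by
      gcongr
    have h2 := hlast _ hX
    have h3 := hlast _ hY
    rw [Real.exp_add] at h2 h3
    calc 2 * ((N : ℝ) ^ d) ^ m * (A + B) = 2 * (((N : ℝ) ^ d) ^ m * (A + B)) := by ring
      _ ≤ 2 * (Real.exp (m * (d * Λ)) * (Real.exp X + Real.exp Y)) := by gcongr
      _ = 2 * (Real.exp (m * (d * Λ)) * Real.exp X) + 2 * (Real.exp (m * (d * Λ)) * Real.exp Y) := by
        ring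
      _ < 1 := by linarith
  have hum : (u : ℝ) ≤ m := by
    have : u ≤ m := by rw [hmq]; exact Nat.le_mul_of_pos_left _ hq
    exact_mod_cast this
  constructor
  · refine comb _ _ _ _ t1 t2 ?_ ?_ (by positivity)
    · -- m d Λ + u (Λ - p m/4)
      have h1 : u * Λ ≤ m * Λ := by gcongr
      have h2 : m * (32 * ((d + 5) * (Λ + 2))) ≤ m * (p * u) := by gcongr
      have h3 : 2 * 1 ≤ m * (Λ + 2) := by nlinarith
      nlinarith [mul_nonneg (by linarith : (0 : ℝ) ≤ m) hdΛ, mul_nonneg (by linarith : (0 : ℝ) ≤ m) hdR,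
        mul_nonneg (by linarith : (0 : ℝ) ≤ m) hΛ]
    · have h1 : Λ ≤ m * Λ := by nlinarith
      have h2 : m * (64 * ((d + 5) * (Λ + 2))) ≤ m * u := by gcongr
      nlinarith [mul_nonneg (by linarith : (0 : ℝ) ≤ m) hdΛ, mul_nonneg (by linarith : (0 : ℝ) ≤ m) hdR,
        mul_nonneg (by linarith : (0 : ℝ) ≤ m) hΛ]
  · refine comb _ _ _ _ t3 t4 ?_ ?_ (by positivity)
    · have hT1 : (1 : ℝ) ≤ T := hmR.trans hmTR
      have h1 : m * (d * Λ) ≤ T * (d * Λ) := by gcongr
      have h2 : T * (32 * ((d + 5) * (Λ + 2))) ≤ T * (p * u) := by gcongr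
      have h3 : p * n ≥ T * (p * u) := by
        rw [hnTR]
        have : T * (p * u) * 1 ≤ T * (p * u) * u := by gcongr
        linarith [this, show T * (p * u) * u = p * (T * u ^ 2) by ring]
      nlinarith [mul_nonneg (by linarith : (0 : ℝ) ≤ T) hdΛ, mul_nonneg (by linarith : (0 : ℝ) ≤ T) hdR,
        mul_nonneg (by linarith : (0 : ℝ) ≤ T) hΛ]
    · have hT1 : (1 : ℝ) ≤ t := hmR.trans hmtR
      have h1 : m * (d * Λ) ≤ t * (d * Λ) := by gcongr
      have h2 : t * (64 * ((d + 5) * (Λ + 2))) ≤ t * u := by gcongr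
      nlinarith [mul_nonneg (by linarith : (0 : ℝ) ≤ t) hdΛ, mul_nonneg (by linarith : (0 : ℝ) ≤ t) hdR,
        mul_nonneg (by linarith : (0 : ℝ) ≤ t) hΛ]

end Pool.Agent.Helper689.RS4
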